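import Mathlib

/-!
[RF77 AR] Arithmetic. `p, q, r` primes, `5 ≤ p < q < r`. (helper33)
`b0 = r / q`. Case `b0 ≥ 2`: `P = p`, `Q = q`, `b = b0`, `f ∈ [0, (p - 3) / 2]` with `(p - 1) ∣ r0 + b - 1 + 2 f`, `r0 = r % q`, `s = r0 + f`.
Case `b0 = 1`: `P = q`, `a = 1`, `Q = p`, `(p - 1) b = r - q + 2 f`, `0 ≤ f ≤ (p - 3)/2`, `s = q - b - f`.
-/

namespace Pool.Agent.LibRF77

/-- an even number becomes divisible by `2 h` after adding `2 f`, `f < h` -/
private theorem ar_f (h n : ℕ) (hh : 1 ≤ h) : ∃ f k : ℕ, f < h ∧ 2 * n + 2 * f = 2 * h * k := by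
  refine ⟨(h - n % h) % h, (n + (h - n % h) % h) / h, Nat.mod_lt _ hh, ?_⟩
  have h1 : n % h < h := Nat.mod_lt _ hh
  have h2 : h ∣ n + (h - n % h) % h := by
    rw [Nat.dvd_iff_mod_eq_zero, Nat.add_mod, Nat.mod_mod]
    by_cases h0 : n % h = 0
    · rw [h0]; simp
    · have h3 : (h - n % h) % h = h - n % h := Nat.mod_eq_of_lt (by omega)
      rw [h3, Nat.add_sub_cancel' h1.le, Nat.mod_self]
  have h4 : h * ((n + (h - n % h) % h) / h) = n + (h - n % h) % h := Nat.mul_div_cancel' h2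
  have h5 : 2 * h * ((n + (h - n % h) % h) / h) = 2 * (h * ((n + (h - n % h) % h) / h)) := by ring
  rw [h5, h4]
  ring

theorem arith {p q r : ℕ} (hp : p.Prime) (hq : q.Prime) (hr : r.Prime) (h5 : 5 ≤ p) (hpq : p < q) (hqr : q < r) :
    ∃ P Q a b s f : ℕ, ((P = p ∧ Q = q) ∨ (P = q ∧ Q = p)) ∧ 1 ≤ a ∧ 1 ≤ b ∧ f < Q ∧ a * (P - 1) + 1 = s + b + f ∧
      s + Q * b = r + f ∧ (2 * (P - 1) + 1) * (a - 1) < r := by
  obtain ⟨p1, hp1⟩ : ∃ k, p = 2 * k + 1 := hp.odd_of_ne_two (by omega)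
  obtain ⟨q1, hq1⟩ : ∃ k, q = 2 * k + 1 := hq.odd_of_ne_two (by omega)
  obtain ⟨r1, hr1⟩ : ∃ k, r = 2 * k + 1 := hr.odd_of_ne_two (by omega)
  have hr0 : r % q ≠ 0 := by
    intro h
    rcases (Nat.dvd_prime hr).mp (Nat.dvd_of_mod_eq_zero h) with h | h <;> omega
  have hr2 : r % q < q := Nat.mod_lt _ (by omega)
  have hdm : q * (r / q) + r % q = r := Nat.div_add_mod r q
  clear hr hp hq
  generalize r / q = b at hdm
  generalize r % q = r0 at hdm hr0 hr2
  rcases Nat.lt_or_ge b 2 with hb2 | hb2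
  · -- `b = 1`
    have hb1 : b = 1 := by
      rcases Nat.lt_or_ge b 1 with h | h
      · have : b = 0 := by omega
        rw [this] at hdm
        omega
      · omega
    rw [hb1, mul_one] at hdm
    obtain ⟨f, k, hf, hk⟩ := ar_f p1 (r1 - q1) (by omega)
    have hk0 : k ≠ 0 := by
      rintro rfl
      omega
    -- `2 p1 k = r - q + 2 f`
    have hk2 : 2 * p1 * k = r - q + 2 * f := by omega
    have hkb : k + f + 1 ≤ q := by
      -- `4 k ≤ 2 p1 k = r - q + 2 f ≤ q - 1 + 2 (p1 - 1)`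
      have h1 : 4 * k ≤ 2 * p1 * k := Nat.mul_le_mul_right k (by omega)
      omega
    refine ⟨q, p, 1, k, q - k - f, f, Or.inr ⟨rfl, rfl⟩, le_refl _, by omega, by omega, by omega, ?_, ?_⟩
    · have : p * k = 2 * p1 * k + k := by rw [hp1]; ring
      rw [this, hk2]
      omega
    · simp
      omega
  · -- `b ≥ 2`
    have hpar : (r0 + b) % 2 = 1 := by
      have h1 : (q * b + r0) % 2 = 1 := by rw [hdm, hr1]; omega
      have h2 : q * b = 2 * (q1 * b) + b := by rw [hq1]; ring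
      rw [h2] at h1
      omega
    obtain ⟨f, k, hf, hk⟩ := ar_f p1 ((r0 + b - 1) / 2) (by omega)
    have hk1 : 2 * p1 * k = r0 + b - 1 + 2 * f := by omega
    have hk0 : k ≠ 0 := by
      rintro rfl
      omega
    refine ⟨p, q, k, b, r0 + f, f, Or.inl ⟨rfl, rfl⟩, by omega, by omega, by omega, ?_, by omega, ?_⟩
    · have h1 : k * (p - 1) = 2 * p1 * k := by
        have : p - 1 = 2 * p1 := by omega
        rw [this]; ring
      rw [h1, hk1]
      omega
    · obtain ⟨k', rfl⟩ : ∃ k', k = k' + 1 := ⟨k - 1, by omega⟩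
      have h0 : p - 1 = 2 * p1 := by omega
      rw [h0, Nat.add_sub_cancel]
      have h1 : 2 * p1 * (k' + 1) = 2 * (p1 * k') + 2 * p1 := by ring
      -- `2 p1 k' ≤ r0 + b - 3`
      have h2 : 2 * (p1 * k') + 3 ≤ r0 + b := by omega
      have h3 : 2 * k' ≤ p1 * k' := Nat.mul_le_mul_right k' (by omega)
      have h4 : (2 * (2 * p1) + 1) * k' = 4 * (p1 * k') + k' := by ring
      have h5 : 7 * b ≤ q * b := Nat.mul_le_mul_right b (by omega)
      have h6 : q * 2 ≤ q * b := Nat.mul_le_mul_left q hb2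
      rw [h4]
      nlinarith
end Pool.Agent.LibRF77
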