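import Pool.Agent.LibEX36.E4
import Pool.Agent.LibEX36.E6a
import Pool.Agent.LibEX36.E6c
import Pool.Agent.LibPS77.P2
import Pool.Agent.LibPS77.Dim

/-!
# LibRF77: rational functions with given ramification over three points (helper77)
Page: PAGE4_29b22a_helper77.md
-/

open scoped Classical

namespace Pool.Agent.LibRF77

open Polynomial
open Pool.Agent.LibBH2
open Pool.Agent.LibCHd (FunF)
open Pool.Agent.LibEX36 (PA RP)
open Pool.Agent.LibPS77 (Ge)

variable {K : Type} [Field K]

/-- `R = (A' B + q A B') F - A B F'`, so `(A B ^ q / F)' = B ^ (q - 1) R / F ^ 2` -/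
noncomputable def WW (q : ℕ) (A B F : K[X]) : K[X] :=
  (derivative A * B + (q : K[X]) * A * derivative B) * F - A * B * derivative F

/-- `φ = A B ^ q / F`, `A = ∏ (X - al i)`, `B = ∏ (X - be i)`, `F = ∏ (X - ph i)`, has the critical points `c i` with multiplicities
`m i` and values `v i ≠ 0` (and the roots of `B`, if `q > 1`), and no others -/
structure Cfg (q : ℕ) {s b f : ℕ} {ι : Type} [Fintype ι] (m : ι → ℕ) (al : Fin s → K) (be : Fin b → K) (ph : Fin f → K)
    (c v : ι → K) : Prop where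
  der : WW q (PA al) (PA be) (PA ph) = C ((s : K) + (q : K) * (b : K) - (f : K)) * ∏ i, (X - C (c i)) ^ m i
  val : ∀ i, (PA al * PA be ^ q).eval (c i) = v i * (PA ph).eval (c i)
  ne : ∀ i, v i ≠ 0
  al_ph : ∀ i j, al i ≠ ph j
  be_ph : ∀ i j, be i ≠ ph j

/-- `j` critical points of multiplicity `e` with the value `1`, and one of multiplicity `(a - j) e` with the value `u` -/
def Claim (e q s b f a j : ℕ) : Prop :=
  ∀ (K : Type) [Field K] [IsAlgClosed K] [CharZero K] (u : K), u ≠ 0 → u ≠ 1 →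
    ∃ (al : Fin s → K) (be : Fin b → K) (ph : Fin f → K) (c : Option (Fin j) → K),
      Cfg q (fun i : Option (Fin j) => i.elim ((a - j) * e) fun _ => e) al be ph c
        (fun i : Option (Fin j) => i.elim u fun _ => 1) ∧ Function.Injective c

/-! ### Balls around a point, at a place -/

section ball

variable {L : Type} [Field L] [Algebra K L]

/-- `min ρ (ord x)` -/
noncomputable def od (w : Place K L) (ρ : ℤ) (x : L) : ℤ := if x = 0 then ρ else min ρ (w.ord x)

variable {I : Type} [Fintype I]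

/-- the indices `i` with `ord (y i - p) ≥ ρ` -/
noncomputable def ball (w : Place K L) (y : I → L) (p : L) (ρ : ℤ) : Finset I :=
  Finset.univ.filter fun i => Ge w ρ (y i - p)

noncomputable def ee (w : Place K L) (y : I → L) (ε : I → ℤ) (p : L) (ρ : ℤ) : ℤ := 1 + ∑ i ∈ ball w y p ρ, ε i

noncomputable def om (w : Place K L) (y : I → L) (ω : I → ℤ) (p : L) (ρ : ℤ) : ℤ := ∑ i ∈ ball w y p ρ, ω i

noncomputable def kk (w : Place K L) (y : I → L) (ε : I → ℤ) (p : L) (ρ : ℤ) : ℤ := ρ + ∑ i, ε i * od w ρ (y i - p)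

noncomputable def ww (w : Place K L) (y : I → L) (ω : I → ℤ) (p : L) (ρ : ℤ) : ℤ := ∑ i, ω i * od w ρ (y i - p)

end ball

/-! ### The special points of a configuration -/

section special

variable {s b f : ℕ} {ι : Type}

/-- zeros, multiple zeros, poles, critical points -/
abbrev Ix (s b f : ℕ) (ι : Type) : Type := Fin s ⊕ (Fin b ⊕ (Fin f ⊕ ι))

/-- index of a critical point -/
abbrev cr (i : ι) : Ix s b f ι := Sum.inr (Sum.inr (Sum.inr i))

def yy {L : Type} (al : Fin s → L) (be : Fin b → L) (ph : Fin f → L) (c : ι → L) : Ix s b f ι → L :=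
  Sum.elim al (Sum.elim be (Sum.elim ph c))

def ep (m : ι → ℕ) : Ix s b f ι → ℤ := Sum.elim (fun _ => -1) (Sum.elim (fun _ => -1) (Sum.elim (fun _ => -1) fun i => (m i : ℤ)))

def og (q : ℕ) : Ix s b f ι → ℤ := Sum.elim (fun _ => 1) (Sum.elim (fun _ => (q : ℤ)) (Sum.elim (fun _ => -1) fun _ => 0))

end special

/-! ### Reduction of polynomials -/

section red

variable {L : Type} [Field L] [Algebra K L]

/-- `π ^ (-n) P` has the reduction `P0` -/
def Red (w : Place K L) (π : L) (n : ℤ) (P : L[X]) (P0 : K[X]) : Prop := RP w (C (π ^ (-n)) * P) P0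

/-- `P (p + π ^ ρ X)` -/
noncomputable def sh (π : L) (p : L) (ρ : ℤ) (P : L[X]) : L[X] := P.comp (C p + C (π ^ ρ) * X)

end red

end Pool.Agent.LibRF77
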