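import Pool.Agent.LibRF77.RB

/-!
[RF77 RD] Orders of differences and values. `dl1`: all differences of special points have order `≥ d`, one of them exactly `d`: there is a critical point with `w.ord (v i) = r d`. Proof: `kk p d = 0` (`kk_base`) for special points `p`, `ball p d` = everything, `ee p d = 0`; `split_two` with `ρ = d` (its `σ` is `d`, because
some difference has order exactly `d`); the classes at `d + 1` have `ee ≥ 0` (`Loc.zr`), so some class has `ee ≥ 1`, hence `om = 0` there (`Loc.zr`); `reach`: a critical point `c i` in it with `ee (c i) ρ' ≥ 1` for all `ρ' ≥ d + 1` (an index with `0 ≤ ep m i` is critical); so `kk (c i) ρ' > 0` for `ρ' ≥ d + 1`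
(`kk_succ`, induction), `om (c i) ρ' = 0` for all `ρ' > d`; `ww_top`, `ww_base` and `cfg_ord`: `w.ord (v i) = r d`.
`diff_bound`: `d` = smallest order of a difference `≠ 0` (if there is none, trivial).
`no_e0`: a ball of radius `1` with `ee = 0` has only one point, if all values have order `0` and all differences have order `≥ 0`: `kk p 0 = 0`, `om p 1 ≠ 0` (`Loc.zr`). Otherwise `split_two` with `ρ = 1`: `kk = 0` up to radius `σ` (`kk_succ`: `ee = 0`), so the classes at `σ + 1` have `ee ≥ 0`, one has `ee ≥ 1`,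
`om = 0`; as in `dl1` there is a critical point `c i` in it with `om (c i) ρ' = 0` for all `ρ' > σ`; `w.ord (v i) = ww (c i) σ = σ * om p 1 ≠ 0` (`ww_succ`, `ww_base` at radius `0`, the balls of radius `1..σ` are equal).
-/

open scoped Classical

namespace Pool.Agent.LibRF77

open Polynomial
open Pool.Agent.LibBH2
open Pool.Agent.LibCHd (FunF)
open Pool.Agent.LibEX36 (PA RP)
open Pool.Agent.LibPS77 (Ge)

variable {K : Type} [Field K] {L : Type} [Field L] [Algebra K L]

private theorem RD_cr {s b f : ℕ} {ι : Type} {m : ι → ℕ} (i : Ix s b f ι) (h : 0 ≤ ep m i) : ∃ i' : ι, i = cr i' := by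
  rcases i with i | i | i | i
  · have h1 : ep m (Sum.inl i : Ix s b f ι) = -1 := rfl
    rw [h1] at h
    omega
  · have h1 : ep m (Sum.inr (Sum.inl i) : Ix s b f ι) = -1 := rfl
    rw [h1] at h
    omega
  · have h1 : ep m (Sum.inr (Sum.inr (Sum.inl i)) : Ix s b f ι) = -1 := rfl
    rw [h1] at h
    omega
  · exact ⟨i, rfl⟩

private theorem RD_og {s b f : ℕ} {ι : Type} {m : ι → ℕ} {q : ℕ} (j : Ix s b f ι) (h : og q j ≠ 0) : ep m j < 0 := by
  rcases j with i | i | i | i
  · have h1 : ep m (Sum.inl i : Ix s b f ι) = -1 := rfl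
    rw [h1]
    omega
  · have h1 : ep m (Sum.inr (Sum.inl i) : Ix s b f ι) = -1 := rfl
    rw [h1]
    omega
  · have h1 : ep m (Sum.inr (Sum.inr (Sum.inl i)) : Ix s b f ι) = -1 := rfl
    rw [h1]
    omega
  · exact absurd rfl h

private theorem RD_sum {s b f : ℕ} {ι : Type} [Fintype ι] (q : ℕ) :
    ∑ j : Ix s b f ι, og q j = (s : ℤ) + q * b - f := by
  rw [Fintype.sum_sum_type, Fintype.sum_sum_type, Fintype.sum_sum_type]
  simp [og]
  ring

private theorem RD_top [CharZero K] {w : Place K L} {q s b f : ℕ} {ι : Type} [Fintype ι] {m : ι → ℕ}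
    {al : Fin s → L} {be : Fin b → L} {ph : Fin f → L} {c v : ι → L} (hq : 1 ≤ q) (h : Cfg q m al be ph c v)
    (hloc : Loc w (yy al be ph c) (ep m) (og q)) {i : ι} {σ : ℤ} (h0 : kk w (yy al be ph c) (ep m) (c i) σ = 0)
    (h1 : ∀ ρ', σ + 1 ≤ ρ' → 1 ≤ ee w (yy al be ph c) (ep m) (c i) ρ') :
    w.ord (v i) = ww w (yy al be ph c) (og q) (c i) σ := by
  have hk : ∀ n : ℕ, 1 ≤ kk w (yy al be ph c) (ep m) (c i) (σ + 1 + n) := by
    intro n
    induction n with
    | zero =>
      have h2 := kk_succ (w := w) (y := yy al be ph c) (ε := ep m) (c i) σ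
      have h3 := h1 (σ + 1) le_rfl
      have h4 : σ + 1 + ((0 : ℕ) : ℤ) = σ + 1 := by simp
      rw [h4]
      omega
    | succ n ih =>
      have h2 := kk_succ (w := w) (y := yy al be ph c) (ε := ep m) (c i) (σ + 1 + n)
      have h3 := h1 (σ + 1 + n + 1) (by omega)
      have h4 : σ + 1 + ((n + 1 : ℕ) : ℤ) = σ + 1 + n + 1 := by push_cast; ring
      rw [h4]
      omega
  have hom : ∀ ρ', σ < ρ' → om w (yy al be ph c) (og q) (c i) ρ' = 0 := by
    intro ρ' hρ
    by_cases h5 : ρ' = σ + 1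
    · subst h5
      have h6 := hloc.zr (c i) σ h0
      have h7 := h1 (σ + 1) le_rfl
      by_contra h8
      have h9 := h6.2.2 h8
      omega
    · obtain ⟨n, hn⟩ : ∃ n : ℕ, ρ' = σ + 1 + n + 1 := ⟨(ρ' - σ - 2).toNat, by omega⟩
      rw [hn]
      exact hloc.pos (c i) _ (by have := hk n; omega)
  rw [cfg_ord w hq h i]
  refine ww_top (fun j hj hji => ?_) hom
  have h2 : ep m j < 0 := RD_og (m := m) j hj
  have h3 : cr i ≠ j := by
    rintro rfl
    exact hj rfl
  exact hloc.iso j h2 (cr i) h3 hji.symm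

theorem dl1 [IsAlgClosed K] [CharZero K] (hL : FunF K 1 L) (w : Place K L) {q s b f : ℕ} {ι : Type} [Fintype ι] {m : ι → ℕ}
    {al : Fin s → L} {be : Fin b → L} {ph : Fin f → L} {c v : ι → L} (hq : 1 ≤ q) (hm : ∀ i, 1 ≤ m i) (hr : f < s + q * b)
    (h : Cfg q m al be ph c v) {d : ℤ} (hd : ∀ i j, Ge w d (yy al be ph c i - yy al be ph c j))
    (hex : ∃ i j, yy al be ph c i ≠ yy al be ph c j ∧ w.ord (yy al be ph c i - yy al be ph c j) = d) :
    ∃ i : ι, w.ord (v i) = ((s : ℤ) + q * b - f) * d := by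
  have hloc := cfg_loc hL w hq hm hr h
  obtain ⟨i0, j0, hne, hord⟩ := hex
  have hall : ∀ k l, l ∈ ball w (yy al be ph c) (yy al be ph c k) d := fun k l => mem_ball.2 (hd l k)
  obtain ⟨σ, hσ, hb1, hb2, hb3⟩ := split_two (ε := ep m) (hall i0 i0) (hall i0 j0) hne
  have hσd : σ = d := by
    by_contra hcon
    have h1 := hb1 (d + 1) (by omega) (by omega) i0 (hall i0 i0)
    have h2 : j0 ∈ ball w (yy al be ph c) (yy al be ph c i0) (d + 1) := by
      rw [h1]
      exact hall i0 j0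
    have h3 := (mem_ball.1 h2).neg
    rw [neg_sub] at h3
    rcases h3 with h3 | h3
    · exact hne (sub_eq_zero.1 h3)
    · rw [hord] at h3
      omega
  subst hσd
  have hkk : ∀ k, kk w (yy al be ph c) (ep m) (yy al be ph c k) σ = 0 := fun k =>
    kk_base hloc.sum fun l => hd l k
  have hee : ee w (yy al be ph c) (ep m) (yy al be ph c i0) σ = 0 := by
    have h1 : ball w (yy al be ph c) (yy al be ph c i0) σ = Finset.univ :=
      Finset.eq_univ_iff_forall.2 fun l => hall i0 l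
    unfold ee
    rw [h1, hloc.sum]
    norm_num
  obtain ⟨k, hk, hk1⟩ := hb3 (fun k _ => (hloc.zr _ _ (hkk k)).1) (by rw [hee]; norm_num)
  obtain ⟨i, hi, hi0, hi1⟩ := reach hloc.iso ⟨k, mem_ball.2 (Or.inl (sub_self _))⟩ hk1
  obtain ⟨i', rfl⟩ := RD_cr i hi0
  refine ⟨i', ?_⟩
  have h1 := RD_top hq h hloc (i := i') (σ := σ) (hkk (cr i')) hi1
  have h2 : ww w (yy al be ph c) (og q) (c i') σ = σ * ∑ j : Ix s b f ι, og q j := ww_base fun l => hd l (cr i')
  rw [h1, h2, RD_sum]
  ring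

theorem diff_bound [IsAlgClosed K] [CharZero K] (hL : FunF K 1 L) (w : Place K L) {q s b f : ℕ} {ι : Type} [Fintype ι]
    {m : ι → ℕ} {al : Fin s → L} {be : Fin b → L} {ph : Fin f → L} {c v : ι → L} (hq : 1 ≤ q) (hm : ∀ i, 1 ≤ m i)
    (hr : f < s + q * b) (h : Cfg q m al be ph c v) {n : ℤ} (hn : n ≤ 0) (hv : ∀ i, n ≤ w.ord (v i)) (i j : Ix s b f ι) :
    yy al be ph c i = yy al be ph c j ∨ n ≤ ((s : ℤ) + q * b - f) * w.ord (yy al be ph c i - yy al be ph c j) := by
  by_cases hij : yy al be ph c i = yy al be ph c j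
  · exact Or.inl hij
  · right
    let T : Finset (Ix s b f ι × Ix s b f ι) :=
      Finset.univ.filter fun x => yy al be ph c x.1 ≠ yy al be ph c x.2
    have hT : T.Nonempty := ⟨(i, j), Finset.mem_filter.2 ⟨Finset.mem_univ _, hij⟩⟩
    obtain ⟨x, hx, hmin⟩ := Finset.exists_min_image T (fun x => w.ord (yy al be ph c x.1 - yy al be ph c x.2)) hT
    have hx1 : yy al be ph c x.1 ≠ yy al be ph c x.2 := (Finset.mem_filter.1 hx).2
    have hd : ∀ k l, Ge w (w.ord (yy al be ph c x.1 - yy al be ph c x.2)) (yy al be ph c k - yy al be ph c l) := by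
      intro k l
      by_cases hkl : yy al be ph c k = yy al be ph c l
      · exact Or.inl (sub_eq_zero.2 hkl)
      · exact Or.inr (hmin (k, l) (Finset.mem_filter.2 ⟨Finset.mem_univ _, hkl⟩))
    obtain ⟨i', hi'⟩ := dl1 hL w hq hm hr h hd ⟨x.1, x.2, hx1, rfl⟩
    have h1 := hv i'
    rw [hi'] at h1
    have h2 : w.ord (yy al be ph c x.1 - yy al be ph c x.2) ≤ w.ord (yy al be ph c i - yy al be ph c j) :=
      hmin (i, j) (Finset.mem_filter.2 ⟨Finset.mem_univ _, hij⟩)
    have h3 : (0 : ℤ) ≤ (s : ℤ) + q * b - f := by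
      have h4 : (f : ℤ) < (s : ℤ) + q * b := by exact_mod_cast hr
      linarith
    exact h1.trans (mul_le_mul_of_nonneg_left h2 h3)

theorem no_e0 [IsAlgClosed K] [CharZero K] (hL : FunF K 1 L) (w : Place K L) {q s b f : ℕ} {ι : Type} [Fintype ι]
    {m : ι → ℕ} {al : Fin s → L} {be : Fin b → L} {ph : Fin f → L} {c v : ι → L} (hq : 1 ≤ q) (hm : ∀ i, 1 ≤ m i)
    (hr : f < s + q * b) (h : Cfg q m al be ph c v) (hd : ∀ i j, Ge w 0 (yy al be ph c i - yy al be ph c j))
    (hv : ∀ i, w.ord (v i) = 0) {p : Ix s b f ι} (he : ee w (yy al be ph c) (ep m) (yy al be ph c p) 1 ≤ 0)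
    {i j : Ix s b f ι} (hi : i ∈ ball w (yy al be ph c) (yy al be ph c p) 1)
    (hj : j ∈ ball w (yy al be ph c) (yy al be ph c p) 1) : yy al be ph c i = yy al be ph c j := by
  by_contra hij
  have hloc := cfg_loc hL w hq hm hr h
  have hk0 : ∀ k, kk w (yy al be ph c) (ep m) (yy al be ph c k) 0 = 0 := fun k =>
    kk_base hloc.sum fun l => hd l k
  have hz := hloc.zr _ _ (hk0 p)
  rw [zero_add] at hz
  have he0 : ee w (yy al be ph c) (ep m) (yy al be ph c p) 1 = 0 := le_antisymm he hz.1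
  have hom0 : om w (yy al be ph c) (og q) (yy al be ph c p) 1 ≠ 0 := hz.2.1 he0
  obtain ⟨σ, hσ, hb1, hb2, hb3⟩ := split_two (ε := ep m) hi hj hij
  -- balls of radius 1..σ
  have hkk : ∀ k ∈ ball w (yy al be ph c) (yy al be ph c p) 1, ∀ n : ℕ, (n : ℤ) ≤ σ →
      kk w (yy al be ph c) (ep m) (yy al be ph c k) n = 0 ∧
      ww w (yy al be ph c) (og q) (yy al be ph c k) n = n * om w (yy al be ph c) (og q) (yy al be ph c p) 1 := by
    intro k hk n
    induction n with
    | zero =>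
      intro _
      refine ⟨by simpa using hk0 k, ?_⟩
      have h1 : ww w (yy al be ph c) (og q) (yy al be ph c k) 0 = 0 * ∑ j : Ix s b f ι, og q j := ww_base fun l => hd l k
      rw [zero_mul] at h1
      simpa using h1
    | succ n ih =>
      intro hn
      have hn' : (n : ℤ) ≤ σ := by push_cast at hn; omega
      obtain ⟨ih1, ih2⟩ := ih hn'
      have h1 := hb1 ((n : ℤ) + 1) (by omega) (by push_cast at hn; omega) k hk
      have h2 : ee w (yy al be ph c) (ep m) (yy al be ph c k) ((n : ℤ) + 1) = 0 := by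
        have h3 : ee w (yy al be ph c) (ep m) (yy al be ph c k) ((n : ℤ) + 1) =
            ee w (yy al be ph c) (ep m) (yy al be ph c p) 1 := by
          unfold ee
          rw [h1]
        rw [h3]
        exact he0
      have h4 : om w (yy al be ph c) (og q) (yy al be ph c k) ((n : ℤ) + 1) =
          om w (yy al be ph c) (og q) (yy al be ph c p) 1 := by
        unfold om
        rw [h1]
      have h5 := kk_succ (w := w) (y := yy al be ph c) (ε := ep m) (yy al be ph c k) (n : ℤ)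
      have h6 := ww_succ (w := w) (y := yy al be ph c) (ω := og q) (yy al be ph c k) (n : ℤ)
      have h7 : ((n + 1 : ℕ) : ℤ) = (n : ℤ) + 1 := by push_cast; ring
      rw [h7, h5, h6, h2, h4, ih1, ih2]
      refine ⟨by ring, by ring⟩
  obtain ⟨N, rfl⟩ : ∃ N : ℕ, σ = N := ⟨σ.toNat, by omega⟩
  obtain ⟨k, hk, hk1⟩ := hb3 (fun k hk => (hloc.zr _ _ (hkk k hk N le_rfl).1).1) (by rw [he0]; norm_num)
  obtain ⟨i1, hi1, hi0, hi2⟩ := reach hloc.iso ⟨k, mem_ball.2 (Or.inl (sub_self _))⟩ hk1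
  have hi3 : i1 ∈ ball w (yy al be ph c) (yy al be ph c p) 1 := by
    rw [← hb1 1 le_rfl hσ k hk]
    exact ball_mono (by omega) hi1
  obtain ⟨i', rfl⟩ := RD_cr i1 hi0
  obtain ⟨h1, h2⟩ := hkk _ hi3 N le_rfl
  have h3 := RD_top hq h hloc (i := i') (σ := (N : ℤ)) h1 hi2
  have h4 : ww w (yy al be ph c) (og q) (c i') (N : ℤ) = N * om w (yy al be ph c) (og q) (yy al be ph c p) 1 := h2
  rw [hv i', h4] at h3
  have h5 : (N : ℤ) ≠ 0 := by omega
  exact (mul_ne_zero h5 hom0) h3.symm

end Pool.Agent.LibRF77
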