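import Pool.Agent.LibRF77.Defs

/-!
[RF77 T0] Elementary facts on configurations: translation, scaling, field extensions, reduction at a place, isolated points.
`cfg_iso`: a critical point is not a root of `A B F` (`q ≥ 1`: if `A B ^ q` vanishes at `c i`, so does `F`, and conversely, against `al_ph`, `be_ph`); a double root `z` of `A` (or `B`, `F`), or a common root of `A` and `B`, is a root of `WW`, so `z = c i`
with `m i ≥ 1`: contradiction. (`hr`: the constant is not `0`.)
`cfg_scale`: as `Pool.Agent.LibEX36.sol_scale` (E1a). `cfg_red`: as `sol_red` (E3).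
`cfg_ord`: `v i = A(c i) B(c i) ^ q / F(c i)`, all factors `≠ 0`; `w.ord` of a product.
`cfg_exp`: compare degrees in `der`: the left side has degree `≤ s + b + f - 1`, and the coefficient of `X ^ (s + b + f - 1)` is `s + q b - f ≠ 0`.
-/

open scoped Classical

namespace Pool.Agent.LibRF77

open Polynomial
open Pool.Agent.LibBH2
open Pool.Agent.LibCHd (FunF)
open Pool.Agent.LibEX36 (PA RP)

variable {K : Type} [Field K] {q s b f : ℕ} {ι : Type} [Fintype ι] {m : ι → ℕ} {al : Fin s → K} {be : Fin b → K}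
  {ph : Fin f → K} {c v : ι → K}

private theorem T0_pa_trans {s : ℕ} (al : Fin s → K) (z : K) :
    PA (fun i => al i - z) = (PA al).comp (X + C z) := by
  unfold PA
  rw [prod_comp]
  refine Finset.prod_congr rfl fun i _ => ?_
  rw [sub_comp, X_comp, C_comp, C_sub]
  ring

private theorem T0_eval_comp (P : K[X]) (x z : K) : (P.comp (X + C z)).eval (x - z) = P.eval x := by
  rw [eval_comp, eval_add, eval_X, eval_C, sub_add_cancel]

theorem cfg_trans (h : Cfg q m al be ph c v) (z : K) :
    Cfg q m (fun i => al i - z) (fun i => be i - z) (fun i => ph i - z) (fun i => c i - z) v := by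
  refine ⟨?_, fun i => ?_, h.ne, fun i j hij => h.al_ph i j (sub_left_injective hij),
    fun i j hij => h.be_ph i j (sub_left_injective hij)⟩
  · have h1 : WW q (PA fun i => al i - z) (PA fun i => be i - z) (PA fun i => ph i - z) =
        (WW q (PA al) (PA be) (PA ph)).comp (X + C z) := by
      unfold WW
      rw [T0_pa_trans, T0_pa_trans, T0_pa_trans]
      simp only [derivative_comp, derivative_add, derivative_X, derivative_C, add_zero, one_mul, sub_comp,
        add_comp, mul_comp, natCast_comp]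
    rw [h1, h.der, mul_comp, C_comp, prod_comp]
    congr 1
    refine Finset.prod_congr rfl fun i _ => ?_
    rw [pow_comp, sub_comp, X_comp, C_comp, C_sub]
    congr 1
    ring
  · have h1 := h.val i
    rw [T0_pa_trans, T0_pa_trans, T0_pa_trans, T0_eval_comp, ← h1, eval_mul, eval_mul, eval_pow, eval_pow,
      T0_eval_comp, T0_eval_comp]

private theorem T0_pa_scale {s : ℕ} (al : Fin s → K) {l : K} (hl : l ≠ 0) :
    PA (fun i => l * al i) = C (l ^ s) * (PA al).comp (C l⁻¹ * X) := by
  have h1 : (C (l ^ s) : K[X]) = ∏ _i : Fin s, C l := by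
    rw [Finset.prod_const, Finset.card_univ, Fintype.card_fin, map_pow]
  rw [h1]
  unfold PA
  rw [prod_comp, ← Finset.prod_mul_distrib]
  refine Finset.prod_congr rfl fun i _ => ?_
  rw [sub_comp, X_comp, C_comp, mul_sub, ← mul_assoc, ← C_mul, mul_inv_cancel₀ hl, C_1, one_mul, C_mul]

private theorem T0_ev_scale {s : ℕ} (al : Fin s → K) (l x : K) :
    (PA (fun i => l * al i)).eval (l * x) = l ^ s * (PA al).eval x := by
  have h1 : l ^ s = ∏ _i : Fin s, l := by
    rw [Finset.prod_const, Finset.card_univ, Fintype.card_fin]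
  rw [h1]
  unfold PA
  rw [eval_prod, eval_prod, ← Finset.prod_mul_distrib]
  refine Finset.prod_congr rfl fun i _ => ?_
  rw [eval_sub, eval_X, eval_C, eval_sub, eval_X, eval_C]
  ring

private theorem T0_ww_scale (q : ℕ) {s b f : ℕ} (al : Fin s → K) (be : Fin b → K) (ph : Fin f → K) {l : K}
    (hl : l ≠ 0) :
    WW q (PA fun i => l * al i) (PA fun i => l * be i) (PA fun i => l * ph i) =
      C (l ^ s * l ^ b * l ^ f * l⁻¹) * (WW q (PA al) (PA be) (PA ph)).comp (C l⁻¹ * X) := by
  unfold WW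
  rw [T0_pa_scale al hl, T0_pa_scale be hl, T0_pa_scale ph hl]
  simp only [derivative_mul, derivative_C, derivative_comp, derivative_X, sub_comp, add_comp, mul_comp, natCast_comp,
    zero_mul, zero_add, mul_one, C_mul]
  ring

private theorem T0_prod_scale (c : ι → K) (m : ι → ℕ) {l : K} (hl : l ≠ 0) :
    ∏ i, (X - C (l * c i)) ^ m i = C (l ^ ∑ i, m i) * (∏ i, (X - C (c i)) ^ m i).comp (C l⁻¹ * X) := by
  have h1 : (C (l ^ ∑ i, m i) : K[X]) = ∏ i, C l ^ m i := by
    rw [Finset.prod_pow_eq_pow_sum, map_pow]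
  rw [h1, prod_comp, ← Finset.prod_mul_distrib]
  refine Finset.prod_congr rfl fun i _ => ?_
  rw [pow_comp, ← mul_pow]
  congr 1
  rw [sub_comp, X_comp, C_comp, mul_sub, ← mul_assoc, ← C_mul, mul_inv_cancel₀ hl, C_1, one_mul, C_mul]

theorem cfg_scale (h : Cfg q m al be ph c v) (hm : ∑ i, m i + 1 = s + b + f) {r : ℕ} (hr : s + q * b = f + r) {l : K}
    (hl : l ≠ 0) :
    Cfg q m (fun i => l * al i) (fun i => l * be i) (fun i => l * ph i) (fun i => l * c i) (fun i => l ^ r * v i) := by
  refine ⟨?_, fun i => ?_, fun i => mul_ne_zero (pow_ne_zero _ hl) (h.ne i),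
    fun i j hij => h.al_ph i j (mul_left_cancel₀ hl hij), fun i j hij => h.be_ph i j (mul_left_cancel₀ hl hij)⟩
  · have h2 : l ^ s * l ^ b * l ^ f * l⁻¹ = l ^ ∑ i, m i := by
      rw [← pow_add, ← pow_add, ← hm, pow_succ, mul_assoc, mul_inv_cancel₀ hl, mul_one]
    rw [T0_ww_scale q al be ph hl, h.der, T0_prod_scale c m hl, mul_comp, C_comp, h2]
    ring
  · have h1 := h.val i
    rw [eval_mul, eval_pow] at h1 ⊢
    rw [T0_ev_scale, T0_ev_scale, T0_ev_scale]
    have h3 : l ^ s * (l ^ b) ^ q = l ^ f * l ^ r := by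
      rw [← pow_mul, ← pow_add, ← pow_add, ← hr, Nat.mul_comm b q]
    calc l ^ s * (PA al).eval (c i) * (l ^ b * (PA be).eval (c i)) ^ q
        = l ^ s * (l ^ b) ^ q * ((PA al).eval (c i) * (PA be).eval (c i) ^ q) := by
          rw [mul_pow]
          ring
      _ = l ^ r * v i * (l ^ f * (PA ph).eval (c i)) := by
          rw [h3, h1]
          ring

private theorem T0_pa_map {L : Type} [Field L] (g : K →+* L) {s : ℕ} (al : Fin s → K) :
    (PA al).map g = PA fun i => g (al i) := by
  unfold PA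
  rw [Polynomial.map_prod]
  refine Finset.prod_congr rfl fun i _ => ?_
  rw [Polynomial.map_sub, map_X, map_C]

private theorem T0_ww_map {L : Type} [Field L] (g : K →+* L) (q : ℕ) (A B F : K[X]) :
    (WW q A B F).map g = WW q (A.map g) (B.map g) (F.map g) := by
  unfold WW
  rw [Polynomial.map_sub, Polynomial.map_mul, Polynomial.map_add, Polynomial.map_mul, Polynomial.map_mul,
    Polynomial.map_mul, Polynomial.map_mul, Polynomial.map_mul, Polynomial.map_natCast,
    derivative_map, derivative_map, derivative_map]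

theorem cfg_map {L : Type} [Field L] (g : K →+* L) :
    Cfg q m al be ph c v ↔ Cfg q m (fun i => g (al i)) (fun i => g (be i)) (fun i => g (ph i)) (fun i => g (c i))
      (fun i => g (v i)) := by
  have e1 : WW q (PA fun i => g (al i)) (PA fun i => g (be i)) (PA fun i => g (ph i)) =
      (WW q (PA al) (PA be) (PA ph)).map g := by
    rw [T0_ww_map, T0_pa_map, T0_pa_map, T0_pa_map]
  have e2 : C ((s : L) + (q : L) * (b : L) - (f : L)) * ∏ i, (X - C (g (c i))) ^ m i =
      (C ((s : K) + (q : K) * (b : K) - (f : K)) * ∏ i, (X - C (c i)) ^ m i).map g := by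
    have e5 : g ((s : K) + (q : K) * (b : K) - (f : K)) = (s : L) + (q : L) * (b : L) - (f : L) := by
      rw [map_sub, map_add, map_mul, map_natCast, map_natCast, map_natCast, map_natCast]
    have e6 : (∏ i, (X - C (c i)) ^ m i).map g = ∏ i, (X - C (g (c i))) ^ m i := by
      rw [Polynomial.map_prod]
      apply Finset.prod_congr rfl
      intro i _
      rw [Polynomial.map_pow, Polynomial.map_sub, map_X, map_C]
    rw [Polynomial.map_mul, map_C, e5, e6]
  have e3 : ∀ i, (PA (fun i => g (al i)) * PA (fun i => g (be i)) ^ q).eval (g (c i)) =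
      g ((PA al * PA be ^ q).eval (c i)) := by
    intro i
    rw [← T0_pa_map, ← T0_pa_map, ← Polynomial.map_pow, ← Polynomial.map_mul, eval_map_apply]
  have e4 : ∀ i, g (v i) * (PA fun i => g (ph i)).eval (g (c i)) = g (v i * (PA ph).eval (c i)) := by
    intro i
    rw [← T0_pa_map, eval_map_apply, map_mul]
  constructor
  · intro h
    refine ⟨?_, fun i => ?_, fun i h0 => h.ne i ?_, fun i j hij => h.al_ph i j (g.injective hij),
      fun i j hij => h.be_ph i j (g.injective hij)⟩
    · rw [e1, e2, h.der]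
    · rw [e3, e4, h.val]
    · exact (map_eq_zero_iff g g.injective).1 h0
  · intro h
    refine ⟨?_, fun i => ?_, fun i h0 => h.ne i ?_, fun i j hij => h.al_ph i j (congrArg g hij),
      fun i j hij => h.be_ph i j (congrArg g hij)⟩
    · apply Polynomial.map_injective g g.injective
      rw [← e1, ← e2]
      exact h.der
    · apply g.injective
      rw [← e3, ← e4]
      exact h.val i
    · rw [h0, map_zero]

private theorem T0_coeff {A G : K[X]} {a g n : ℕ} (hA : A.natDegree = a) (hA1 : A.Monic) (hG : G.natDegree = g)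
    (hG1 : G.Monic) (hn : a + g = n + 1) :
    (derivative A * G).natDegree ≤ n ∧ (derivative A * G).coeff n = (a : K) := by
  rcases Nat.eq_zero_or_pos a with h0 | h0
  · subst h0
    have h1 : A = 1 := by
      rw [eq_C_of_natDegree_eq_zero hA]
      have h2 : A.coeff 0 = 1 := by
        have h3 := hA1.coeff_natDegree
        rwa [hA] at h3
      rw [h2, C_1]
    rw [h1, derivative_one, zero_mul]
    simp
  · obtain ⟨a', rfl⟩ : ∃ a', a = a' + 1 := ⟨a - 1, by omega⟩
    have h1 : (derivative A).natDegree ≤ a' := by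
      have h2 := natDegree_derivative_le A
      rw [hA] at h2
      exact h2
    have hn' : a' + g = n := by omega
    constructor
    · refine natDegree_mul_le.trans ?_
      rw [hG]
      omega
    · rw [← hn', coeff_mul_add_eq_of_natDegree_le h1 hG.le, coeff_derivative]
      have h3 : A.coeff (a' + 1) = 1 := by
        have h4 := hA1.coeff_natDegree
        rwa [hA] at h4
      have h5 : G.coeff g = 1 := by
        have h4 := hG1.coeff_natDegree
        rwa [hG] at h4
      rw [h3, h5]
      push_cast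
      ring

private theorem T0_r_ne [CharZero K] {q s b f : ℕ} (hr : f < s + q * b) :
    (s : K) + (q : K) * (b : K) - (f : K) ≠ 0 := by
  intro h
  have h1 : ((s + q * b : ℕ) : K) = ((f : ℕ) : K) := by
    push_cast
    linear_combination h
  have h2 := Nat.cast_injective h1
  omega

theorem cfg_exp [CharZero K] (h : Cfg q m al be ph c v) (hr : f < s + q * b) : ∑ i, m i + 1 = s + b + f := by
  have hk : (s : K) + (q : K) * (b : K) - (f : K) ≠ 0 := T0_r_ne hr
  have hpos : 1 ≤ s + b + f := by
    by_contra h0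
    have hs : s = 0 := by omega
    have hb : b = 0 := by omega
    subst hs
    subst hb
    simp at hr
  obtain ⟨n, hn⟩ : ∃ n, s + b + f = n + 1 := ⟨s + b + f - 1, by omega⟩
  have mA := Pool.Agent.LibEX36.pa_monic al
  have mB := Pool.Agent.LibEX36.pa_monic be
  have mF := Pool.Agent.LibEX36.pa_monic ph
  have dA := Pool.Agent.LibEX36.pa_deg al
  have dB := Pool.Agent.LibEX36.pa_deg be
  have dF := Pool.Agent.LibEX36.pa_deg ph
  have dBF : (PA be * PA ph).natDegree = b + f := by rw [mB.natDegree_mul mF, dB, dF]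
  have dAF : (PA al * PA ph).natDegree = s + f := by rw [mA.natDegree_mul mF, dA, dF]
  have dAB : (PA al * PA be).natDegree = s + b := by rw [mA.natDegree_mul mB, dA, dB]
  obtain ⟨a1, a2⟩ := T0_coeff (n := n) dA mA dBF (mB.mul mF) (by omega)
  obtain ⟨b1, b2⟩ := T0_coeff (n := n) dB mB dAF (mA.mul mF) (by omega)
  obtain ⟨f1, f2⟩ := T0_coeff (n := n) dF mF dAB (mA.mul mB) (by omega)
  have e : WW q (PA al) (PA be) (PA ph) = derivative (PA al) * (PA be * PA ph) +
      C (q : K) * (derivative (PA be) * (PA al * PA ph)) - derivative (PA ph) * (PA al * PA be) := by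
    unfold WW
    rw [C_eq_natCast]
    ring
  have hd : (WW q (PA al) (PA be) (PA ph)).natDegree ≤ n := by
    rw [e]
    refine (natDegree_sub_le _ _).trans (max_le ((natDegree_add_le _ _).trans (max_le a1 ?_)) f1)
    exact (natDegree_C_mul_le _ _).trans b1
  have hc : (WW q (PA al) (PA be) (PA ph)).coeff n = (s : K) + (q : K) * (b : K) - (f : K) := by
    rw [e, coeff_sub, coeff_add, coeff_C_mul, a2, b2, f2]
  have hd2 : (WW q (PA al) (PA be) (PA ph)).natDegree = n :=
    le_antisymm hd (le_natDegree_of_ne_zero (by rw [hc]; exact hk))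
  have hM : (∏ i, (X - C (c i)) ^ m i).Monic := monic_prod_of_monic _ _ fun i _ => (monic_X_sub_C _).pow _
  have hd3 : (∏ i, (X - C (c i)) ^ m i).natDegree = ∑ i, m i := by
    rw [natDegree_prod_of_monic _ _ fun i _ => (monic_X_sub_C (c i)).pow (m i)]
    refine Finset.sum_congr rfl fun i _ => ?_
    rw [(monic_X_sub_C (c i)).natDegree_pow, natDegree_X_sub_C, mul_one]
  rw [h.der, natDegree_C_mul hk, hd3] at hd2
  omega

private theorem T0_crit (hq : 1 ≤ q) (h : Cfg q m al be ph c v) (i : ι) :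
    (PA al).eval (c i) ≠ 0 ∧ (PA be).eval (c i) ≠ 0 ∧ (PA ph).eval (c i) ≠ 0 := by
  have h1 := h.val i
  rw [eval_mul, eval_pow] at h1
  have hF : (PA ph).eval (c i) ≠ 0 := by
    intro h0
    obtain ⟨j, hj⟩ := (Pool.Agent.LibEX36.pa_eval ph (c i)).1 h0
    rw [h0, mul_zero] at h1
    rcases mul_eq_zero.1 h1 with h2 | h2
    · obtain ⟨k, hk⟩ := (Pool.Agent.LibEX36.pa_eval al (c i)).1 h2
      exact h.al_ph k j (hk.symm.trans hj)
    · obtain ⟨k, hk⟩ := (Pool.Agent.LibEX36.pa_eval be (c i)).1 ((pow_eq_zero_iff (by omega)).1 h2)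
      exact h.be_ph k j (hk.symm.trans hj)
  have h3 : (PA al).eval (c i) * (PA be).eval (c i) ^ q ≠ 0 := by
    rw [h1]
    exact mul_ne_zero (h.ne i) hF
  refine ⟨left_ne_zero_of_mul h3, fun h0 => right_ne_zero_of_mul h3 ?_, hF⟩
  rw [h0, zero_pow (by omega)]

private theorem T0_root {s : ℕ} (al : Fin s → K) (x : Fin s) : (PA al).eval (al x) = 0 :=
  (Pool.Agent.LibEX36.pa_eval al (al x)).2 ⟨x, rfl⟩

private theorem T0_dbl {s : ℕ} (al : Fin s → K) {x y : Fin s} (hxy : x ≠ y) (h : al x = al y) :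
    (derivative (PA al)).eval (al x) = 0 := by
  have h1 : PA al = (X - C (al x)) * ∏ i ∈ Finset.univ.erase x, (X - C (al i)) := by
    rw [PA, Finset.mul_prod_erase Finset.univ (fun i => X - C (al i)) (Finset.mem_univ x)]
  have h2 : (∏ i ∈ Finset.univ.erase x, (X - C (al i))).eval (al x) = 0 := by
    rw [eval_prod]
    refine Finset.prod_eq_zero (i := y) ?_ ?_
    · exact Finset.mem_erase.2 ⟨hxy.symm, Finset.mem_univ y⟩
    · simp [h]
  rw [h1, derivative_mul, eval_add, eval_mul, eval_mul, h2]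
  simp

private theorem T0_ww_eval (q : ℕ) (A B F : K[X]) (z : K) :
    (WW q A B F).eval z = ((derivative A).eval z * B.eval z + (q : K) * A.eval z * (derivative B).eval z) * F.eval z -
      A.eval z * B.eval z * (derivative F).eval z := by
  simp [WW]

private theorem T0_key [CharZero K] (hq : 1 ≤ q) (hr : f < s + q * b) (h : Cfg q m al be ph c v) {z : K}
    (hz : (PA al).eval z = 0 ∨ (PA be).eval z = 0 ∨ (PA ph).eval z = 0)
    (hR : (WW q (PA al) (PA be) (PA ph)).eval z = 0) : False := by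
  rw [h.der, eval_mul, eval_C, eval_prod] at hR
  have h1 := (mul_eq_zero.1 hR).resolve_left (T0_r_ne hr)
  obtain ⟨i, _, hi⟩ := Finset.prod_eq_zero_iff.1 h1
  rw [eval_pow, eval_sub, eval_X, eval_C] at hi
  have h2 : z - c i = 0 := by
    by_contra h3
    exact pow_ne_zero _ h3 hi
  have h3 : z = c i := sub_eq_zero.1 h2
  obtain ⟨c1, c2, c3⟩ := T0_crit hq h i
  rw [h3] at hz
  rcases hz with hz | hz | hz
  · exact c1 hz
  · exact c2 hz
  · exact c3 hz

private theorem T0_aa [CharZero K] (hq : 1 ≤ q) (hr : f < s + q * b) (h : Cfg q m al be ph c v) {x y : Fin s}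
    (hxy : x ≠ y) (e : al x = al y) : False := by
  refine T0_key hq hr h (z := al x) (Or.inl (T0_root al x)) ?_
  rw [T0_ww_eval, T0_dbl al hxy e, T0_root al x]
  ring

private theorem T0_bb [CharZero K] (hq : 1 ≤ q) (hr : f < s + q * b) (h : Cfg q m al be ph c v) {x y : Fin b}
    (hxy : x ≠ y) (e : be x = be y) : False := by
  refine T0_key hq hr h (z := be x) (Or.inr (Or.inl (T0_root be x))) ?_
  rw [T0_ww_eval, T0_dbl be hxy e, T0_root be x]
  ring

private theorem T0_ff [CharZero K] (hq : 1 ≤ q) (hr : f < s + q * b) (h : Cfg q m al be ph c v) {x y : Fin f}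
    (hxy : x ≠ y) (e : ph x = ph y) : False := by
  refine T0_key hq hr h (z := ph x) (Or.inr (Or.inr (T0_root ph x))) ?_
  rw [T0_ww_eval, T0_dbl ph hxy e, T0_root ph x]
  ring

private theorem T0_ab [CharZero K] (hq : 1 ≤ q) (hr : f < s + q * b) (h : Cfg q m al be ph c v) {x : Fin s} {y : Fin b}
    (e : al x = be y) : False := by
  refine T0_key hq hr h (z := al x) (Or.inl (T0_root al x)) ?_
  have hb : (PA be).eval (al x) = 0 := by
    rw [e]
    exact T0_root be y
  rw [T0_ww_eval, T0_root al x, hb]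
  ring

theorem cfg_iso [CharZero K] (hq : 1 ≤ q) (hm : ∀ i, 1 ≤ m i) (hr : f < s + q * b) (h : Cfg q m al be ph c v)
    (i j : Ix s b f ι) (hi : ep m i < 0) (hij : j ≠ i) : yy al be ph c j ≠ yy al be ph c i := by
  intro e
  rcases i with i | i | i | i
  · rcases j with j | j | j | j
    · exact T0_aa hq hr h (fun h' => hij (by rw [h'])) e
    · exact T0_ab hq hr h (x := i) (y := j) e.symm
    · exact h.al_ph i j e.symm
    · have e' : c j = al i := e
      apply (T0_crit hq h j).1
      rw [e']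
      exact T0_root al i
  · rcases j with j | j | j | j
    · exact T0_ab hq hr h (x := j) (y := i) e
    · exact T0_bb hq hr h (fun h' => hij (by rw [h'])) e
    · exact h.be_ph i j e.symm
    · have e' : c j = be i := e
      apply (T0_crit hq h j).2.1
      rw [e']
      exact T0_root be i
  · rcases j with j | j | j | j
    · exact h.al_ph j i e
    · exact h.be_ph j i e
    · exact T0_ff hq hr h (fun h' => hij (by rw [h'])) e
    · have e' : c j = ph i := e
      apply (T0_crit hq h j).2.2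
      rw [e']
      exact T0_root ph i
  · have h1 : (m i : ℤ) < 0 := hi
    have h2 := hm i
    omega

private theorem T0_rp_sub {L : Type} [Field L] [Algebra K L] {w : Place K L} {F F' : L[X]} {G G' : K[X]}
    (h : RP w F G) (h' : RP w F' G') : RP w (F - F') (G - G') := by
  intro i
  rw [coeff_sub, coeff_sub]
  exact Place.val_sub (h i) (h' i)

private theorem T0_nat {L : Type} [Field L] [Algebra K L] (w : Place K L) (n : ℕ) :
    w.Zer ((n : L) - algebraMap K L (n : K)) := by
  rw [map_natCast, sub_self]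
  exact w.zer_zero

private theorem T0_rp_pa {L : Type} [Field L] [Algebra K L] {w : Place K L} {s : ℕ} {al : Fin s → L} {al0 : Fin s → K}
    (h1 : ∀ i, w.Zer (al i - algebraMap K L (al0 i))) : RP w (PA al) (PA al0) :=
  Pool.Agent.LibEX36.rp_prod _ fun i _ => T0_rp_sub (Pool.Agent.LibEX36.rp_X w) (Pool.Agent.LibEX36.rp_C (h1 i))

private theorem T0_rp_nat {L : Type} [Field L] [Algebra K L] (w : Place K L) (q : ℕ) : RP w (q : L[X]) (q : K[X]) := by
  have h := Pool.Agent.LibEX36.rp_C (T0_nat w q)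
  rwa [C_eq_natCast, C_eq_natCast] at h

theorem cfg_red {L : Type} [Field L] [Algebra K L] {w : Place K L} {al : Fin s → L} {be : Fin b → L} {ph : Fin f → L}
    {c v : ι → L} (h : Cfg q m al be ph c v) {al0 : Fin s → K} {be0 : Fin b → K} {ph0 : Fin f → K} {c0 v0 : ι → K}
    (h1 : ∀ i, w.Zer (al i - algebraMap K L (al0 i))) (h2 : ∀ i, w.Zer (be i - algebraMap K L (be0 i)))
    (h3 : ∀ i, w.Zer (ph i - algebraMap K L (ph0 i))) (h4 : ∀ i, w.Zer (c i - algebraMap K L (c0 i)))
    (h5 : ∀ i, w.Zer (v i - algebraMap K L (v0 i))) (h6 : ∀ i, v0 i ≠ 0) (h7 : ∀ i j, al0 i ≠ ph0 j)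
    (h8 : ∀ i j, be0 i ≠ ph0 j) : Cfg q m al0 be0 ph0 c0 v0 := by
  refine ⟨?_, fun i => ?_, h6, h7, h8⟩
  · have h9 : RP w (WW q (PA al) (PA be) (PA ph)) (WW q (PA al0) (PA be0) (PA ph0)) := by
      unfold WW
      exact T0_rp_sub
        (Pool.Agent.LibEX36.rp_mul
          (Pool.Agent.LibEX36.rp_add
            (Pool.Agent.LibEX36.rp_mul (Pool.Agent.LibEX36.rp_deriv (T0_rp_pa h1)) (T0_rp_pa h2))
            (Pool.Agent.LibEX36.rp_mul (Pool.Agent.LibEX36.rp_mul (T0_rp_nat w q) (T0_rp_pa h1))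
              (Pool.Agent.LibEX36.rp_deriv (T0_rp_pa h2)))) (T0_rp_pa h3))
        (Pool.Agent.LibEX36.rp_mul (Pool.Agent.LibEX36.rp_mul (T0_rp_pa h1) (T0_rp_pa h2))
          (Pool.Agent.LibEX36.rp_deriv (T0_rp_pa h3)))
    have h10 : w.Zer (((s : L) + (q : L) * (b : L) - (f : L)) -
        algebraMap K L ((s : K) + (q : K) * (b : K) - (f : K))) :=
      Place.val_sub (Place.val_add (T0_nat w s) (Place.val_mul (T0_nat w q) (T0_nat w b))) (T0_nat w f)
    have h11 : RP w (C ((s : L) + (q : L) * (b : L) - (f : L)) * ∏ i, (X - C (c i)) ^ m i)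
        (C ((s : K) + (q : K) * (b : K) - (f : K)) * ∏ i, (X - C (c0 i)) ^ m i) :=
      Pool.Agent.LibEX36.rp_mul (Pool.Agent.LibEX36.rp_C h10)
        (Pool.Agent.LibEX36.rp_prod _ fun i _ => Pool.Agent.LibEX36.rp_pow
          (T0_rp_sub (Pool.Agent.LibEX36.rp_X w) (Pool.Agent.LibEX36.rp_C (h4 i))) (m i))
    rw [← h.der] at h11
    exact Pool.Agent.LibEX36.rp_unique h9 h11
  · have h9 : w.Zer ((PA al * PA be ^ q).eval (c i) - algebraMap K L ((PA al0 * PA be0 ^ q).eval (c0 i))) :=
      Pool.Agent.LibEX36.rp_eval (Pool.Agent.LibEX36.rp_mul (T0_rp_pa h1)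
        (Pool.Agent.LibEX36.rp_pow (T0_rp_pa h2) q)) (h4 i)
    have h10 : w.Zer ((PA ph).eval (c i) - algebraMap K L ((PA ph0).eval (c0 i))) :=
      Pool.Agent.LibEX36.rp_eval (T0_rp_pa h3) (h4 i)
    rw [h.val i] at h9
    exact Place.val_unique h9 (Place.val_mul (h5 i) h10)

private theorem T0_ord_pa {L : Type} [Field L] [Algebra K L] (w : Place K L) {s : ℕ} (al : Fin s → L) (x : L)
    (h : (PA al).eval x ≠ 0) : w.ord ((PA al).eval x) = ∑ j, w.ord (al j - x) := by
  have h1 : ∀ j, x - al j ≠ 0 := fun j h0 =>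
    h ((Pool.Agent.LibEX36.pa_eval al x).2 ⟨j, sub_eq_zero.1 h0⟩)
  have h2 : (PA al).eval x = ∏ j, (x - al j) := by
    unfold PA
    rw [eval_prod]
    refine Finset.prod_congr rfl fun i _ => ?_
    rw [eval_sub, eval_X, eval_C]
  have h3 : ∀ S : Finset (Fin s), w.ord (∏ j ∈ S, (x - al j)) = ∑ j ∈ S, w.ord (al j - x) := by
    intro S
    induction S using Finset.induction_on with
    | empty => simp
    | insert j S hj ih =>
      rw [Finset.prod_insert hj, Finset.sum_insert hj,
        w.ord_mul _ _ (h1 j) (Finset.prod_ne_zero_iff.2 fun i _ => h1 i), ih, ← neg_sub x (al j), w.ord_neg]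
  rw [h2, h3]

theorem cfg_ord [CharZero K] {L : Type} [Field L] [Algebra K L] (w : Place K L) {al : Fin s → L} {be : Fin b → L}
    {ph : Fin f → L} {c v : ι → L} (hq : 1 ≤ q) (h : Cfg q m al be ph c v) (i : ι) :
    w.ord (v i) = ∑ j, og q j * w.ord (yy al be ph c j - c i) := by
  obtain ⟨c1, c2, c3⟩ := T0_crit hq h i
  have h1 := h.val i
  rw [eval_mul, eval_pow] at h1
  have h2 := congrArg w.ord h1
  rw [w.ord_mul _ _ c1 (pow_ne_zero _ c2), w.ord_mul _ _ (h.ne i) c3, w.ord_pow, T0_ord_pa w al _ c1,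
    T0_ord_pa w be _ c2, T0_ord_pa w ph _ c3] at h2
  rw [Fintype.sum_sum_type, Fintype.sum_sum_type, Fintype.sum_sum_type]
  simp only [og, yy, Sum.elim_inl, Sum.elim_inr, one_mul, neg_mul, zero_mul, Finset.sum_const_zero, add_zero,
    Finset.sum_neg_distrib, ← Finset.mul_sum]
  linarith

end Pool.Agent.LibRF77
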