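import Pool.Agent.LibRF77.KZ
import Pool.Agent.LibRF77.RD
import Pool.Agent.LibRF77.T0

/-!
[RF77 SP] Splitting of a critical point. Given a configuration over `K` with `j` critical points of multiplicity `e` and value `1` and one (`none`) of multiplicity `M + e` and value `u`. WLOG (`cfg_trans`) `c none = 0`. `σ = Fin s ⊕ (Fin b ⊕ (Fin f ⊕ Option (Fin j)))`, variables: zeros, multiple zeros, poles, critical points
(`some i`: the old ones, `none`: the new critical point; the old one `none` stays at `0` with multiplicity `M`); over `R = MvPolynomial σ K`: `A, B, F` products of linear factors in `R[X]`; equations: the `s + b + f - 1` coefficients `l < s + b + f - 1` of `WW - C r * X ^ M * ∏_(i : Option (Fin j)) (X - c i) ^ e` (write `WW` out, or define it over a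
commutative ring), `(A B ^ q)(c_(some i)) - F(c_(some i))`, `i : Fin j`, and `(A B ^ q)(0) - u F(0)`: together `s + b + f + j < #σ = s + b + f + j + 1`. The given configuration (with `c none = 0`) is a solution. `h` = product of all `al - ph`, `be - ph`, of `A(c_none) B(c_none) F(c_none)`, of all `c_(some i) - c_(some i')`, `i ≠ i'`, of all
`c_(some i)` and of all `c_none - c_(some i)`: `≠ 0` at the given solution (`cfg_iso`, injectivity). `kz`: `L`, `x` (`#M e`: the sum of the multiplicities is `s + b + f - 1`: `cfg_exp`). Over `L`: `t = A(c_none) B(c_none) ^ q / F(c_none) ≠ 0`. `der` for the new configuration: the difference of the two sides has degree `< s + b + f - 1` (both sides have the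
coefficient `r` at `s + b + f - 1`) and its coefficients are the equations. So `Cfg` with `ι = Option (Option (Fin j))`: `none`: point `0`, multiplicity `M`, value `u`; `some none`: `c_none`, multiplicity `e`, value `t`; `some (some i)`: multiplicity `e`, value `1`.
`t` is transcendental: otherwise `t ∈ K` (`K` algebraically closed), all values have order `0` at all places, so by `diff_bound` (`n = 0`) all differences of special points are regular at all places, all coordinates (differences with `c none = 0`) are regular at all places, hence algebraic (a transcendental element has a pole: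
`Pool.Agent.LibHL77.sum_zeros'`/`Pool.Agent.LibCW77.deg_pole` for the inverse, as in LibEX36/E6c.lean): contradiction to `∃ i, Transcendental K (x i)`. (`1 ≤ M` is used in `diff_bound`: `hm`.) Then `c_none ≠ 0` since `t ≠ u` (values of the same point), so `c` is injective.
-/

open scoped Classical

namespace Pool.Agent.LibRF77

open Polynomial
open Pool.Agent.LibBH2
open Pool.Agent.LibCHd (FunF)
open Pool.Agent.LibEX36 (PA RP)
open Pool.Agent.LibPS77 (Ge)

/-! ring versions -/

section sys

variable {R : Type} [CommRing R] {s b f j : ℕ}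

noncomputable def SP_A (x : Ix s b f (Option (Fin j)) → R) : R[X] := ∏ i : Fin s, (X - C (x (Sum.inl i)))

noncomputable def SP_B (x : Ix s b f (Option (Fin j)) → R) : R[X] := ∏ i : Fin b, (X - C (x (Sum.inr (Sum.inl i))))

noncomputable def SP_F (x : Ix s b f (Option (Fin j)) → R) : R[X] :=
  ∏ i : Fin f, (X - C (x (Sum.inr (Sum.inr (Sum.inl i)))))

noncomputable def SP_P (M e : ℕ) (x : Ix s b f (Option (Fin j)) → R) : R[X] :=
  X ^ M * ∏ i : Option (Fin j), (X - C (x (cr i))) ^ e

noncomputable def SP_W (q : ℕ) (x : Ix s b f (Option (Fin j)) → R) : R[X] :=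
  (derivative (SP_A x) * SP_B x + (q : R[X]) * SP_A x * derivative (SP_B x)) * SP_F x -
    SP_A x * SP_B x * derivative (SP_F x)

noncomputable def SP_D (q M e : ℕ) (x : Ix s b f (Option (Fin j)) → R) : R[X] :=
  SP_W q x - C ((s : R) + (q : R) * (b : R) - (f : R)) * SP_P M e x

noncomputable def SP_G (q : ℕ) (u : R) (x : Ix s b f (Option (Fin j)) → R) (p : R) : R :=
  (SP_A x * SP_B x ^ q).eval p - u * (SP_F x).eval p

noncomputable def SP_h (x : Ix s b f (Option (Fin j)) → R) : R :=
  (∏ i : Fin s, ∏ k : Fin f, (x (Sum.inl i) - x (Sum.inr (Sum.inr (Sum.inl k))))) *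
  (∏ i : Fin b, ∏ k : Fin f, (x (Sum.inr (Sum.inl i)) - x (Sum.inr (Sum.inr (Sum.inl k))))) *
  ((SP_A x).eval (x (cr none)) * (SP_B x).eval (x (cr none)) * (SP_F x).eval (x (cr none))) *
  (∏ i : Fin j, ∏ i' : Fin j, if i = i' then 1 else x (cr (some i)) - x (cr (some i'))) *
  (∏ i : Fin j, x (cr (some i))) * (∏ i : Fin j, (x (cr none) - x (cr (some i))))

variable {R' : Type} [CommRing R'] (g : R →+* R')

theorem SP_A_map (x : Ix s b f (Option (Fin j)) → R) : (SP_A x).map g = SP_A (fun i => g (x i)) := by
  simp [SP_A, Polynomial.map_prod]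

theorem SP_B_map (x : Ix s b f (Option (Fin j)) → R) : (SP_B x).map g = SP_B (fun i => g (x i)) := by
  simp [SP_B, Polynomial.map_prod]

theorem SP_F_map (x : Ix s b f (Option (Fin j)) → R) : (SP_F x).map g = SP_F (fun i => g (x i)) := by
  simp [SP_F, Polynomial.map_prod]

theorem SP_P_map (M e : ℕ) (x : Ix s b f (Option (Fin j)) → R) : (SP_P M e x).map g = SP_P M e (fun i => g (x i)) := by
  simp [SP_P, Polynomial.map_prod]

theorem SP_W_map (q : ℕ) (x : Ix s b f (Option (Fin j)) → R) : (SP_W q x).map g = SP_W q (fun i => g (x i)) := by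
  simp only [SP_W, Polynomial.map_sub, Polynomial.map_mul, Polynomial.map_add, SP_A_map, SP_B_map,
    SP_F_map, Polynomial.map_natCast, ← derivative_map]

theorem SP_D_map (q M e : ℕ) (x : Ix s b f (Option (Fin j)) → R) :
    (SP_D q M e x).map g = SP_D q M e (fun i => g (x i)) := by
  rw [SP_D, SP_D, Polynomial.map_sub, Polynomial.map_mul, SP_W_map, SP_P_map, Polynomial.map_C]
  simp

theorem SP_G_map (q : ℕ) (u : R) (x : Ix s b f (Option (Fin j)) → R) (p : R) :
    g (SP_G q u x p) = SP_G q (g u) (fun i => g (x i)) (g p) := by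
  rw [SP_G, SP_G, map_sub, map_mul, ← SP_A_map g, ← SP_B_map g, ← SP_F_map g, ← Polynomial.map_pow,
    ← Polynomial.map_mul, eval_map_apply, eval_map_apply]

theorem SP_h_map (x : Ix s b f (Option (Fin j)) → R) : g (SP_h x) = SP_h (fun i => g (x i)) := by
  have h1 : ∀ i i' : Fin j, g (if i = i' then 1 else x (cr (some i)) - x (cr (some i'))) =
      if i = i' then 1 else g (x (cr (some i))) - g (x (cr (some i'))) := fun i i' => by
    split_ifs <;> simp
  simp only [SP_h, map_mul, map_prod, map_sub, ← SP_A_map g, ← SP_B_map g, ← SP_F_map g, eval_map_apply, h1]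

end sys

section fld

variable {K : Type} [Field K] {s b f j : ℕ}

theorem SP_h_ne (x : Ix s b f (Option (Fin j)) → K) : SP_h x ≠ 0 ↔
    (∀ (i : Fin s) (k : Fin f), x (Sum.inl i) ≠ x (Sum.inr (Sum.inr (Sum.inl k)))) ∧
    (∀ (i : Fin b) (k : Fin f), x (Sum.inr (Sum.inl i)) ≠ x (Sum.inr (Sum.inr (Sum.inl k)))) ∧
    (SP_A x).eval (x (cr none)) ≠ 0 ∧ (SP_B x).eval (x (cr none)) ≠ 0 ∧ (SP_F x).eval (x (cr none)) ≠ 0 ∧
    (∀ i i' : Fin j, i ≠ i' → x (cr (some i)) ≠ x (cr (some i'))) ∧ (∀ i : Fin j, x (cr (some i)) ≠ 0) ∧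
    (∀ i : Fin j, x (cr none) ≠ x (cr (some i))) := by
  have h1 : ∀ i i' : Fin j, (if i = i' then (1 : K) else x (cr (some i)) - x (cr (some i'))) ≠ 0 ↔
      (i ≠ i' → x (cr (some i)) ≠ x (cr (some i'))) := fun i i' => by
    split_ifs with h
    · simp [h]
    · simp [h, sub_ne_zero]
  simp only [SP_h, mul_ne_zero_iff, Finset.prod_ne_zero_iff, Finset.mem_univ, true_implies, sub_ne_zero, h1]
  tauto

theorem SP_monic {n : ℕ} (a : Fin n → K) : (∏ i, (X - C (a i))).Monic := monic_prod_of_monic _ _ fun i _ => monic_X_sub_C (a i)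

theorem SP_nat {n : ℕ} (a : Fin n → K) : (∏ i, (X - C (a i))).natDegree = n := by
  rw [natDegree_finsetProd_X_sub_C_eq_card, Finset.card_univ, Fintype.card_fin]

theorem SP_lead {P : K[X]} {n : ℕ} (hn : P.natDegree = n) : (X * derivative P - C (n : K) * P).degree < (n : WithBot ℕ) := by
  rw [degree_lt_iff_coeff_zero]
  intro m hm
  rw [coeff_sub, coeff_C_mul]
  rcases eq_or_lt_of_le hm with h | h
  · subst h
    rcases n with _ | n
    · simp
    · rw [coeff_X_mul, coeff_derivative]
      push_cast
      ring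
  · obtain ⟨k, rfl⟩ : ∃ k, m = k + 1 := ⟨m - 1, by omega⟩
    rw [coeff_X_mul, coeff_derivative, coeff_eq_zero_of_natDegree_lt (by omega)]
    ring

theorem SP_mul_lt {P Q : K[X]} {n m : ℕ} (hP : P.degree < (n : WithBot ℕ)) (hQ : Q.natDegree ≤ m) :
    (P * Q).degree < ((n + m : ℕ) : WithBot ℕ) := by
  rcases eq_or_ne P 0 with rfl | hP0
  · rw [zero_mul, degree_zero]
    exact WithBot.bot_lt_coe _
  rcases eq_or_ne Q 0 with rfl | hQ0
  · rw [mul_zero, degree_zero]
    exact WithBot.bot_lt_coe _
  rw [← natDegree_lt_iff_degree_lt (mul_ne_zero hP0 hQ0), natDegree_mul hP0 hQ0]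
  rw [← natDegree_lt_iff_degree_lt hP0] at hP
  omega

theorem SP_deg (q : ℕ) {M e : ℕ} (x : Ix s b f (Option (Fin j)) → K) (hM : M + (j + 1) * e + 1 = s + b + f) :
    (X * SP_D q M e x).degree < ((s + b + f : ℕ) : WithBot ℕ) := by
  have hA : (SP_A x).Monic := SP_monic _
  have hB : (SP_B x).Monic := SP_monic _
  have hF : (SP_F x).Monic := SP_monic _
  have dA : (SP_A x).natDegree = s := SP_nat _
  have dB : (SP_B x).natDegree = b := SP_nat _
  have dF : (SP_F x).natDegree = f := SP_nat _
  have hQ : (∏ i : Option (Fin j), (X - C (x (cr i))) ^ e).Monic :=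
    monic_prod_of_monic _ _ fun i _ => (monic_X_sub_C _).pow e
  have hP : (X * SP_P M e x).Monic := monic_X.mul ((monic_X_pow M).mul hQ)
  have dP : (X * SP_P M e x).natDegree = s + b + f := by
    rw [SP_P, monic_X.natDegree_mul ((monic_X_pow M).mul hQ), (monic_X_pow M).natDegree_mul hQ, natDegree_X,
      natDegree_X_pow, natDegree_prod_of_monic _ _ fun i _ => (monic_X_sub_C _).pow e]
    simp only [natDegree_pow, natDegree_X_sub_C, mul_one, Finset.sum_const, Finset.card_univ, Fintype.card_option,
      Fintype.card_fin, smul_eq_mul]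
    omega
  have hABF : (SP_A x * SP_B x * SP_F x).Monic := (hA.mul hB).mul hF
  have dABF : (SP_A x * SP_B x * SP_F x).natDegree = s + b + f := by
    rw [(hA.mul hB).natDegree_mul hF, hA.natDegree_mul hB, dA, dB, dF]
  have h0 : (SP_A x * SP_B x * SP_F x - X * SP_P M e x).degree < ((s + b + f : ℕ) : WithBot ℕ) := by
    have h1 := degree_sub_lt_left (p := SP_A x * SP_B x * SP_F x) (q := X * SP_P M e x) (by
      rw [degree_eq_natDegree hABF.ne_zero, degree_eq_natDegree hP.ne_zero, dABF, dP]) hABF.ne_zero (by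
      rw [hABF.leadingCoeff, hP.leadingCoeff])
    rwa [degree_eq_natDegree hABF.ne_zero, dABF] at h1
  have hid : X * SP_D q M e x = (X * derivative (SP_A x) - C (s : K) * SP_A x) * (SP_B x * SP_F x) +
      (X * derivative (SP_B x) - C (b : K) * SP_B x) * ((q : K[X]) * (SP_A x * SP_F x)) -
      (X * derivative (SP_F x) - C (f : K) * SP_F x) * (SP_A x * SP_B x) +
      (SP_A x * SP_B x * SP_F x - X * SP_P M e x) * C ((s : K) + (q : K) * (b : K) - (f : K)) := by
    rw [SP_D, SP_W]
    simp only [C_sub, C_add, C_mul, ← map_natCast (C : K →+* K[X])]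
    ring
  have t1 : ((X * derivative (SP_A x) - C (s : K) * SP_A x) * (SP_B x * SP_F x)).degree <
      ((s + b + f : ℕ) : WithBot ℕ) := by
    have := SP_mul_lt (SP_lead dA) (le_of_eq (hB.natDegree_mul hF))
    rwa [dB, dF, ← add_assoc] at this
  have t2 : ((X * derivative (SP_B x) - C (b : K) * SP_B x) * ((q : K[X]) * (SP_A x * SP_F x))).degree <
      ((s + b + f : ℕ) : WithBot ℕ) := by
    have h1 : ((q : K[X]) * (SP_A x * SP_F x)).natDegree ≤ s + f := by
      refine natDegree_mul_le.trans ?_
      rw [natDegree_natCast, hA.natDegree_mul hF, dA, dF, zero_add]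
    have := SP_mul_lt (SP_lead dB) h1
    rwa [show b + (s + f) = s + b + f by ring] at this
  have t3 : ((X * derivative (SP_F x) - C (f : K) * SP_F x) * (SP_A x * SP_B x)).degree <
      ((s + b + f : ℕ) : WithBot ℕ) := by
    have := SP_mul_lt (SP_lead dF) (le_of_eq (hA.natDegree_mul hB))
    rwa [dA, dB, show f + (s + b) = s + b + f by ring] at this
  have t4 : ((SP_A x * SP_B x * SP_F x - X * SP_P M e x) * C ((s : K) + (q : K) * (b : K) - (f : K))).degree <
      ((s + b + f : ℕ) : WithBot ℕ) := by
    have := SP_mul_lt h0 (le_of_eq (natDegree_C ((s : K) + (q : K) * (b : K) - (f : K))))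
    rwa [add_zero] at this
  rw [hid]
  refine lt_of_le_of_lt (degree_add_le _ _) (max_lt (lt_of_le_of_lt (degree_sub_le _ _) (max_lt
    (lt_of_le_of_lt (degree_add_le _ _) (max_lt t1 t2)) t3)) t4)

theorem SP_zero (q : ℕ) {M e : ℕ} (x : Ix s b f (Option (Fin j)) → K) (hM : M + (j + 1) * e + 1 = s + b + f)
    (h : ∀ l : Fin (s + b + f - 1), (SP_D q M e x).coeff l = 0) : SP_D q M e x = 0 := by
  ext l
  rw [coeff_zero]
  by_cases hl : l < s + b + f - 1
  · exact h ⟨l, hl⟩
  · have h1 := (degree_lt_iff_coeff_zero _ _).1 (SP_deg q x hM) (l + 1) (by omega)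
    rwa [coeff_X_mul] at h1

end fld

theorem split {K : Type} [Field K] [IsAlgClosed K] [CharZero K] {q s b f e M j : ℕ} (he : 1 ≤ e) (hM : 1 ≤ M) (hq : 1 ≤ q)
    (hr : f < s + q * b) {u : K} {al : Fin s → K} {be : Fin b → K} {ph : Fin f → K} {c : Option (Fin j) → K}
    (h : Cfg q (fun i : Option (Fin j) => i.elim (M + e) fun _ => e) al be ph c (fun i : Option (Fin j) => i.elim u fun _ => 1))
    (hinj : Function.Injective c) :
    ∃ (L : Type) (_ : Field L) (_ : Algebra K L) (al' : Fin s → L) (be' : Fin b → L) (ph' : Fin f → L)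
      (c' : Option (Option (Fin j)) → L) (t : L), FunF K 1 L ∧ Transcendental K t ∧
      Cfg q (fun i : Option (Option (Fin j)) => i.elim M fun _ => e) al' be' ph' c'
        (fun i : Option (Option (Fin j)) => i.elim (algebraMap K L u) fun i => i.elim t fun _ => 1) ∧
      Function.Injective c' := by
  classical
  obtain ⟨z, hz⟩ : ∃ z, z = c none := ⟨_, rfl⟩
  have hT := cfg_trans h z
  have hm0 : ∀ i : Option (Fin j), 1 ≤ (i.elim (M + e) fun _ => e : ℕ) := by
    rintro (_ | i)
    · simp only [Option.elim_none]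
      omega
    · exact he
  have hexp := cfg_exp h hr
  have hM' : M + (j + 1) * e + 1 = s + b + f := by
    rw [← hexp, Fintype.sum_option]
    simp only [Option.elim_none, Option.elim_some, Finset.sum_const, Finset.card_univ, Fintype.card_fin, smul_eq_mul]
    ring
  obtain ⟨x0, hx0⟩ : ∃ x0 : Ix s b f (Option (Fin j)) → K, x0 = yy (fun i => al i - z) (fun i => be i - z)
    (fun i => ph i - z) (fun i => c i - z) := ⟨_, rfl⟩
  have hA0 : SP_A x0 = PA (fun i => al i - z) := by
    rw [hx0]
    rfl
  have hB0 : SP_B x0 = PA (fun i => be i - z) := by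
    rw [hx0]
    rfl
  have hF0 : SP_F x0 = PA (fun i => ph i - z) := by
    rw [hx0]
    rfl
  have hc0 : ∀ i, x0 (cr i) = c i - z := fun i => by
    rw [hx0]
    rfl
  have hcn : x0 (cr none) = 0 := by rw [hc0, ← hz, sub_self]
  have hD0 : SP_D q M e x0 = 0 := by
    have h1 := hT.der
    rw [SP_D, sub_eq_zero]
    have h2 : SP_W q x0 = WW q (PA fun i => al i - z) (PA fun i => be i - z) (PA fun i => ph i - z) := by
      rw [SP_W, WW, hA0, hB0, hF0]
    rw [h2, h1, SP_P, Fintype.prod_option, Fintype.prod_option]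
    simp only [Option.elim_none, Option.elim_some, hc0]
    rw [← hz, sub_self, C_0, sub_zero, pow_add]
    ring
  have hG0 : SP_G q u x0 0 = 0 := by
    have h1 := hT.val none
    simp only [Option.elim_none] at h1
    rw [← hz, sub_self] at h1
    rw [SP_G, hA0, hB0, hF0, h1, sub_self]
  have hG1 : ∀ i : Fin j, SP_G q 1 x0 (x0 (cr (some i))) = 0 := fun i => by
    have h1 := hT.val (some i)
    simp only [Option.elim_some] at h1
    rw [SP_G, hA0, hB0, hF0, hc0, h1, sub_self]
  have hiso := fun (i : Ix s b f (Option (Fin j))) (hi : ep (fun i : Option (Fin j) => i.elim (M + e) fun _ => e) i < 0) =>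
    cfg_iso hq hm0 hr hT i (cr none) hi
  have hh0 : SP_h x0 ≠ 0 := by
    rw [SP_h_ne]
    refine ⟨?_, ?_, ?_, ?_, ?_, ?_, ?_, ?_⟩
    · intro i k
      rw [hx0]
      exact hT.al_ph i k
    · intro i k
      rw [hx0]
      exact hT.be_ph i k
    · rw [hA0, PA, eval_prod, Finset.prod_ne_zero_iff]
      intro i _
      rw [eval_sub, eval_X, eval_C, sub_ne_zero, hc0]
      exact hiso (Sum.inl i) (by simp [ep]) (by simp)
    · rw [hB0, PA, eval_prod, Finset.prod_ne_zero_iff]
      intro i _
      rw [eval_sub, eval_X, eval_C, sub_ne_zero, hc0]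
      exact hiso (Sum.inr (Sum.inl i)) (by simp [ep]) (by simp)
    · rw [hF0, PA, eval_prod, Finset.prod_ne_zero_iff]
      intro i _
      rw [eval_sub, eval_X, eval_C, sub_ne_zero, hc0]
      exact hiso (Sum.inr (Sum.inr (Sum.inl i))) (by simp [ep]) (by simp)
    · intro i i' hii
      rw [hc0, hc0]
      intro h1
      exact hii (Option.some_injective _ (hinj (sub_left_injective h1)))
    · intro i
      rw [hc0, hz, sub_ne_zero]
      intro h1
      exact absurd (hinj h1) (by simp)
    · intro i
      rw [hc0, hc0]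
      intro h1
      exact absurd (hinj (sub_left_injective h1)) (by simp)
  -- the system
  let E0 : Fin (s + b + f - 1) ⊕ Option (Fin j) → MvPolynomial (Ix s b f (Option (Fin j))) K :=
    Sum.elim (fun l => (SP_D q M e MvPolynomial.X).coeff l)
      (fun o => o.elim (SP_G q (MvPolynomial.C u) MvPolynomial.X 0)
        fun i => SP_G q 1 MvPolynomial.X (MvPolynomial.X (cr (some i))))
  have hE : ∀ {R' : Type} [CommRing R'] [Algebra K R'] (x : Ix s b f (Option (Fin j)) → R'),
      (∀ l, MvPolynomial.aeval x (E0 l) = 0) ↔ (∀ l : Fin (s + b + f - 1), (SP_D q M e x).coeff l = 0) ∧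
        SP_G q (algebraMap K R' u) x 0 = 0 ∧ ∀ i : Fin j, SP_G q 1 x (x (cr (some i))) = 0 := by
    intro R' _ _ x
    have hX : (fun i => (MvPolynomial.aeval x : MvPolynomial (Ix s b f (Option (Fin j))) K →ₐ[K] R').toRingHom
      (MvPolynomial.X i)) = x := by
      funext i
      simp
    have e1 : ∀ l : Fin (s + b + f - 1), MvPolynomial.aeval x (E0 (Sum.inl l)) = (SP_D q M e x).coeff l := by
      intro l
      have := SP_D_map (MvPolynomial.aeval x : MvPolynomial (Ix s b f (Option (Fin j))) K →ₐ[K] R').toRingHom q M e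
        MvPolynomial.X
      rw [hX] at this
      rw [← this, coeff_map]
      rfl
    have e2 : MvPolynomial.aeval x (E0 (Sum.inr none)) = SP_G q (algebraMap K R' u) x 0 := by
      have := SP_G_map (MvPolynomial.aeval x : MvPolynomial (Ix s b f (Option (Fin j))) K →ₐ[K] R').toRingHom q
        (MvPolynomial.C u) MvPolynomial.X 0
      rw [hX, map_zero] at this
      have h2 : (MvPolynomial.aeval x : MvPolynomial (Ix s b f (Option (Fin j))) K →ₐ[K] R').toRingHom
        (MvPolynomial.C u) = algebraMap K R' u := by simp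
      rw [h2] at this
      exact this
    have e3 : ∀ i : Fin j, MvPolynomial.aeval x (E0 (Sum.inr (some i))) = SP_G q 1 x (x (cr (some i))) := by
      intro i
      have := SP_G_map (MvPolynomial.aeval x : MvPolynomial (Ix s b f (Option (Fin j))) K →ₐ[K] R').toRingHom q
        1 MvPolynomial.X (MvPolynomial.X (cr (some i)))
      rw [hX, map_one] at this
      have h2 : (MvPolynomial.aeval x : MvPolynomial (Ix s b f (Option (Fin j))) K →ₐ[K] R').toRingHom
        (MvPolynomial.X (cr (some i))) = x (cr (some i)) := by simp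
      rw [h2] at this
      exact this
    constructor
    · intro h1
      exact ⟨fun l => (e1 l).symm.trans (h1 _), e2.symm.trans (h1 _), fun i => (e3 i).symm.trans (h1 _)⟩
    · rintro ⟨h1, h2, h3⟩ (l | (_ | i))
      · exact (e1 l).trans (h1 l)
      · exact e2.trans h2
      · exact (e3 i).trans (h3 i)
  let eτ := Fintype.equivFin (Fin (s + b + f - 1) ⊕ Option (Fin j))
  have hcard : Fintype.card (Fin (s + b + f - 1) ⊕ Option (Fin j)) < Fintype.card (Ix s b f (Option (Fin j))) := by
    simp only [Fintype.card_sum, Fintype.card_option, Fintype.card_fin]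
    omega
  have hhx : ∀ {R' : Type} [CommRing R'] [Algebra K R'] (x : Ix s b f (Option (Fin j)) → R'),
      MvPolynomial.aeval x (SP_h MvPolynomial.X : MvPolynomial (Ix s b f (Option (Fin j))) K) = SP_h x := by
    intro R' _ _ x
    have hX : (fun i => (MvPolynomial.aeval x : MvPolynomial (Ix s b f (Option (Fin j))) K →ₐ[K] R').toRingHom
      (MvPolynomial.X i)) = x := by
      funext i
      simp
    have := SP_h_map (MvPolynomial.aeval x : MvPolynomial (Ix s b f (Option (Fin j))) K →ₐ[K] R').toRingHom
      MvPolynomial.X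
    rw [hX] at this
    exact this
  obtain ⟨L, _, _, x, hL, hxE, hxh, i0, hi0⟩ := kz K hcard (fun l => E0 (eτ.symm l)) x0 (fun l => by
      rw [← MvPolynomial.coe_aeval_eq_eval]
      exact (hE x0).2 ⟨fun l => by rw [hD0, coeff_zero], hG0, hG1⟩ _)
    (SP_h MvPolynomial.X) (by
      rw [← MvPolynomial.coe_aeval_eq_eval]
      change MvPolynomial.aeval x0 _ ≠ 0
      rw [hhx]
      exact hh0)
  rw [hhx, SP_h_ne] at hxh
  obtain ⟨n1, n2, n3, n4, n5, n6, n7, n8⟩ := hxh
  obtain ⟨d1, d2, d3⟩ := (hE x).1 (fun l => by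
    have := hxE (eτ l)
    simpa using this)
  have hD : SP_D q M e x = 0 := SP_zero q x hM' d1
  obtain ⟨t, ht⟩ : ∃ t : L, t = (SP_A x * SP_B x ^ q).eval (x (cr none)) / (SP_F x).eval (x (cr none)) := ⟨_, rfl⟩
  have ht0 : t ≠ 0 := by
    rw [ht, eval_mul, eval_pow]
    exact div_ne_zero (mul_ne_zero n3 (pow_ne_zero _ n4)) n5
  have hu : (algebraMap K L u) ≠ 0 := by
    have := h.ne none
    simp only [Option.elim_none] at this
    exact (_root_.map_ne_zero _).2 this
  have hcfg : Cfg q (fun i : Option (Option (Fin j)) => i.elim M fun _ => e) (fun i => x (Sum.inl i))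
      (fun i => x (Sum.inr (Sum.inl i))) (fun i => x (Sum.inr (Sum.inr (Sum.inl i))))
      (fun o => o.elim 0 fun o => x (cr o))
      (fun i : Option (Option (Fin j)) => i.elim (algebraMap K L u) fun i => i.elim t fun _ => 1) := by
    refine ⟨?_, ?_, ?_, n1, n2⟩
    · have h1 : SP_W q x = WW q (PA fun i => x (Sum.inl i)) (PA fun i => x (Sum.inr (Sum.inl i)))
        (PA fun i => x (Sum.inr (Sum.inr (Sum.inl i)))) := rfl
      rw [← h1, Fintype.prod_option]
      rw [SP_D, sub_eq_zero] at hD
      rw [hD, SP_P]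
      simp only [Option.elim_none, Option.elim_some, C_0, sub_zero]
    · rintro (_ | _ | i)
      · rw [SP_G, sub_eq_zero] at d2
        exact d2
      · simp only [Option.elim_none, Option.elim_some]
        rw [ht]
        exact (div_mul_cancel₀ _ n5).symm
      · have := d3 i
        rw [SP_G, sub_eq_zero] at this
        exact this
    · rintro (_ | _ | i)
      · exact hu
      · exact ht0
      · exact one_ne_zero
  have htr : Transcendental K t := by
    intro hta
    have hord : ∀ (w : Place K L) (i : Option (Option (Fin j))),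
        w.ord (i.elim (algebraMap K L u) fun i => i.elim t fun _ => 1 : L) = 0 := by
      rintro w (_ | _ | i)
      · exact w.ord_const _ (by
          have := h.ne none
          simpa using this)
      · exact Pool.Agent.LibHL77.Z1_ord_alg w hta
      · exact w.ord_one
    have hm1 : ∀ i : Option (Option (Fin j)), 1 ≤ (i.elim M fun _ => e : ℕ) := by
      rintro (_ | i)
      · exact hM
      · exact he
    have hx0' : x i0 ≠ 0 := by
      intro h0
      apply hi0
      rw [h0]
      exact isAlgebraic_zero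
    have hb : ∀ w : Place K L, 0 ≤ w.ord (x i0) := by
      intro w
      obtain ⟨i1, hi1⟩ : ∃ i1 : Ix s b f (Option (Option (Fin j))), yy (fun i => x (Sum.inl i))
        (fun i => x (Sum.inr (Sum.inl i))) (fun i => x (Sum.inr (Sum.inr (Sum.inl i))))
        (fun o : Option (Option (Fin j)) => o.elim 0 fun o => x (cr o)) i1 = x i0 := by
        rcases i0 with i | i | i | i
        · exact ⟨Sum.inl i, rfl⟩
        · exact ⟨Sum.inr (Sum.inl i), rfl⟩
        · exact ⟨Sum.inr (Sum.inr (Sum.inl i)), rfl⟩
        · exact ⟨cr (some i), rfl⟩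
      have h2 : yy (fun i => x (Sum.inl i))
        (fun i => x (Sum.inr (Sum.inl i))) (fun i => x (Sum.inr (Sum.inr (Sum.inl i))))
        (fun o : Option (Option (Fin j)) => o.elim 0 fun o => x (cr o)) (cr none) = 0 := rfl
      have h3 := diff_bound hL w hq hm1 hr hcfg (le_refl 0) (fun i => (hord w i).ge) i1 (cr none)
      rw [hi1, h2, sub_zero] at h3
      have h4 := h3.resolve_left hx0'
      have h5 : (0 : ℤ) < (s : ℤ) + q * b - f := by
        have : (f : ℤ) < s + q * b := by exact_mod_cast hr
        omega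
      by_contra hneg
      push Not at hneg
      have := mul_neg_of_pos_of_neg h5 hneg
      omega
    obtain ⟨S, hS, hsum⟩ := Pool.Agent.LibHL77.sum_zeros' hL (x i0)⁻¹
      (Pool.Agent.LibEnd77.Val8.transcendental_inv hi0)
    have hSe : S = ∅ := by
      rw [Finset.eq_empty_iff_forall_notMem]
      intro w hw
      rw [hS, w.ord_inv] at hw
      have := hb w
      omega
    rw [hSe, Finset.sum_empty] at hsum
    have := Pool.Agent.LibEnd77.Val8.finite_adjoin (Pool.Agent.LibHL77.Z1_ff hL)
      (Pool.Agent.LibEnd77.Val8.transcendental_inv hi0)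
    have : 0 < Module.finrank (IntermediateField.adjoin K {(x i0)⁻¹}) L := Module.finrank_pos
    omega
  refine ⟨L, inferInstance, inferInstance, _, _, _, _, t, hL, htr, hcfg, ?_⟩
  have hxn : x (cr none) ≠ 0 := by
    intro h0
    apply htr
    have h1 := hcfg.val none
    simp only [Option.elim_none] at h1
    have h2 : t = algebraMap K L u := by
      rw [ht, h0]
      rw [h0] at n5
      rw [div_eq_iff n5]
      exact h1
    rw [h2]
    exact isAlgebraic_algebraMap u
  rintro (_ | _ | i) (_ | _ | i') hii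
  · rfl
  · exact absurd hii.symm hxn
  · exact absurd hii.symm (n7 i')
  · exact absurd hii hxn
  · rfl
  · exact absurd hii (n8 i')
  · exact absurd hii (n7 i)
  · exact absurd hii.symm (n8 i)
  · by_contra hne
    exact n6 i i' (fun h1 => hne (by rw [h1])) hii

end Pool.Agent.LibRF77
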