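import Pool.Agent.LibRF77.W2a
import Pool.Agent.LibRF77.T0

/-!
[RF77 W2b] The base configuration (one centre `0`, multiplicity `a e = s + b + f - 1`, value `u`). From `base_poly`: `A B ^ q - F = X ^ N G`, `N = s + b + f`. Let `X ^ g` be the exact power of `X` dividing `A` (`A ≠ 0`, `g ≤ s < N`); `B(0) = 1`, so
`X ^ g` is the exact power dividing `F` as well (`F ≠ 0`). `A = X ^ g A1`, `F = X ^ g F1`, `A1 B ^ q - F1 = X ^ (N - g) G`. `W = WW q A1 B F1` (degree `≤ (s - g) + b + (f - g) - 1 = N - 2 g - 1`) is divisible by `X ^ (N - g - 1)`: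
`B ^ (q-1) W = F1 (A1 B ^ q)' - A1 B ^ q F1' = F1 (X ^ (N-g) G)' - X ^ (N-g) G F1'`, `B(0) ≠ 0`. `W ≠ 0`: otherwise `(A1 B ^ q / F1)' = 0`, `A1 B ^ q = λ F1`, `λ ≠ 0`, but `B` is not constant (`B(0) = 1`, `B ≠ 1`): degree `≥ q > f`.
So `g = 0`, `W = κ X ^ (N-1)`, `κ ≠ 0`, and the degrees of `A, B, F` are exactly `s, b, f` (otherwise the degree of `W` is smaller). Common roots `z` of `A B` and `F`: `z ≠ 0` (`A(0) B(0) F(0) ≠ 0`), `W(z) = 0`: contradiction. Make `A, B, F` monic (leading coefficients `α, β, φ`: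
value at `0`: `φ / (α β ^ q) =: u0 ≠ 0`; `WW` scales by `1 / (α β φ)`, its leading coefficient is `s + q b - f`), factor into linear factors (`K` algebraically closed: `PA al` etc.), scale (`cfg_scale`) by `l` with `l ^ (s + q b - f) u0 = u`.
-/

open scoped Classical

namespace Pool.Agent.LibRF77

open Polynomial

private theorem W2b_fac {K : Type} [Field K] [IsAlgClosed K] (n : ℕ) :
    ∀ P : K[X], P.natDegree = n → ∃ al : Fin n → K, P = C P.leadingCoeff * Pool.Agent.LibEX36.PA al := by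
  induction n with
  | zero =>
    intro P hP
    refine ⟨fun i => i.elim0, ?_⟩
    have h := Polynomial.eq_C_of_natDegree_eq_zero hP
    rw [Pool.Agent.LibEX36.PA, Finset.univ_eq_empty, Finset.prod_empty, mul_one, Polynomial.leadingCoeff, hP]
    exact h
  | succ n ih =>
    intro P hP
    have hd : P.degree ≠ 0 := by
      intro h
      have h1 : P.natDegree = 0 := natDegree_eq_of_degree_eq_some h
      omega
    obtain ⟨z, hz⟩ := IsAlgClosed.exists_root P hd
    obtain ⟨Q, hQ⟩ := dvd_iff_isRoot.2 hz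
    have hQ0 : Q ≠ 0 := by
      rintro rfl
      rw [mul_zero] at hQ
      rw [hQ] at hP
      simp at hP
    have hn : Q.natDegree = n := by
      have := congrArg natDegree hQ
      rw [natDegree_mul (X_sub_C_ne_zero z) hQ0, natDegree_X_sub_C, hP] at this
      omega
    obtain ⟨al, hal⟩ := ih Q hn
    refine ⟨Fin.cons z al, ?_⟩
    have h1 : Pool.Agent.LibEX36.PA (Fin.cons z al : Fin (n+1) → K) = (X - C z) * Pool.Agent.LibEX36.PA al := by
      unfold Pool.Agent.LibEX36.PA
      rw [Fin.prod_univ_succ]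
      simp
    have h2 : P.leadingCoeff = Q.leadingCoeff := by
      rw [hQ, leadingCoeff_mul, leadingCoeff_X_sub_C, one_mul]
    rw [h1, h2]
    calc P = (X - C z) * Q := hQ
      _ = (X - C z) * (C Q.leadingCoeff * Pool.Agent.LibEX36.PA al) := by rw [← hal]
      _ = _ := by ring

private theorem W2b_xd {K : Type} [Field K] {P : K[X]} {n : ℕ} (h : P.natDegree ≤ n) :
    (X * derivative P).natDegree ≤ n ∧ (X * derivative P).coeff n = n * P.coeff n := by
  have hc : ∀ k, (X * derivative P).coeff k = k * P.coeff k := by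
    intro k
    cases k with
    | zero => simp
    | succ k => rw [coeff_X_mul, coeff_derivative]; push_cast; ring
  refine ⟨?_, hc n⟩
  rw [natDegree_le_iff_coeff_eq_zero]
  intro k hk
  rw [hc, coeff_eq_zero_of_natDegree_lt (by omega), mul_zero]

private theorem W2b_prod {K : Type} [Field K] {s b f : ℕ} {A B F : K[X]} (hA : A.natDegree ≤ s) (hB : B.natDegree ≤ b)
    (hF : F.natDegree ≤ f) : (A * B * F).natDegree ≤ s + b + f ∧
      (A * B * F).coeff (s + b + f) = A.coeff s * B.coeff b * F.coeff f := by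
  have h1 : (A * B).natDegree ≤ s + b := natDegree_mul_le_of_le hA hB
  refine ⟨natDegree_mul_le_of_le h1 hF, ?_⟩
  rw [coeff_mul_add_eq_of_natDegree_le h1 hF, coeff_mul_add_eq_of_natDegree_le hA hB]

private theorem W2b_ww {K : Type} [Field K] {q s b f : ℕ} {A B F : K[X]} (hA : A.natDegree ≤ s) (hB : B.natDegree ≤ b)
    (hF : F.natDegree ≤ f) : (X * WW q A B F).natDegree ≤ s + b + f ∧
      (X * WW q A B F).coeff (s + b + f) = ((s : K) + q * b - f) * (A.coeff s * B.coeff b * F.coeff f) := by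
  have h1 : X * WW q A B F = (X * derivative A) * B * F + C (q : K) * (A * (X * derivative B) * F) -
      A * B * (X * derivative F) := by
    unfold WW
    rw [C_eq_natCast]
    ring
  obtain ⟨a1, a2⟩ := W2b_xd hA
  obtain ⟨b1, b2⟩ := W2b_xd hB
  obtain ⟨f1, f2⟩ := W2b_xd hF
  obtain ⟨x1, x2⟩ := W2b_prod a1 hB hF
  obtain ⟨y1, y2⟩ := W2b_prod hA b1 hF
  obtain ⟨z1, z2⟩ := W2b_prod hA hB f1
  rw [h1]
  constructor
  · refine (natDegree_sub_le_iff_left z1).2 ?_
    refine natDegree_add_le_of_degree_le x1 ?_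
    exact (natDegree_C_mul_le _ _).trans y1
  · rw [coeff_sub, coeff_add, coeff_C_mul, x2, y2, z2, a2, b2, f2]
    ring

private theorem W2b_ord {K : Type} [Field K] {P : K[X]} (hP : P ≠ 0) : ∃ (g : ℕ) (P1 : K[X]), P = X ^ g * P1 ∧ P1.coeff 0 ≠ 0 := by
  obtain ⟨Q, h1, h2⟩ := Polynomial.exists_eq_pow_rootMultiplicity_mul_and_not_dvd P hP 0
  rw [C_0, sub_zero] at h1 h2
  exact ⟨_, Q, h1, fun h => h2 (X_dvd_iff.2 h)⟩

private theorem W2b_der {K : Type} [Field K] (k : ℕ) (G F : K[X]) :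
    derivative (X ^ (k + 1) * G) * F - X ^ (k + 1) * G * derivative F =
      X ^ k * (C ((k : K) + 1) * G * F + X * (derivative G * F - G * derivative F)) := by
  rw [derivative_mul, derivative_X_pow]
  simp only [Nat.add_sub_cancel, C_add, C_1, C_eq_natCast, Nat.cast_add, Nat.cast_one, pow_succ]
  ring

private theorem W2b_bw {K : Type} [Field K] {q : ℕ} (hq : 1 ≤ q) (A B F : K[X]) :
    B ^ (q - 1) * WW q A B F = derivative (A * B ^ q - F) * F - (A * B ^ q - F) * derivative F := by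
  obtain ⟨q, rfl⟩ : ∃ k, q = k + 1 := ⟨q - 1, by omega⟩
  unfold WW
  rw [derivative_sub, derivative_mul, derivative_pow]
  have h1 : (C (((q + 1 : ℕ) : K)) : K[X]) = (q : K[X]) + 1 := by
    rw [C_eq_natCast]
    push_cast
    ring
  rw [h1]
  simp only [Nat.add_sub_cancel, Nat.cast_add, Nat.cast_one, pow_succ]
  ring

private theorem W2b_main {K : Type} [Field K] [CharZero K] {q s b f : ℕ} (hb : 1 ≤ b) (hf : f < q) {A B F : K[X]}
    (hB0 : B.coeff 0 = 1) (hB1 : B ≠ 1) (hBd : B.natDegree ≤ b) (hA : A ≠ 0) (hAd : A.natDegree ≤ s)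
    (hFd : F.natDegree ≤ f) (h : X ^ (s + b + f) ∣ A * B ^ q - F) {M : ℕ} (hM : M + 1 = s + b + f) :
    ∃ κ : K, κ ≠ 0 ∧ WW q A B F = C κ * X ^ M ∧ A.coeff 0 ≠ 0 := by
  have hXB : ¬ (X : K[X]) ∣ B := by
    rw [X_dvd_iff, hB0]
    exact one_ne_zero
  have hBne : B ≠ 0 := by
    rintro rfl
    simp at hB0
  obtain ⟨g, A1, hA1, hA10⟩ := W2b_ord hA
  have hA1ne : A1 ≠ 0 := by
    rintro rfl
    simp at hA10
  have hXg : ∀ n : ℕ, (X : K[X]) ^ n ≠ 0 := fun n => pow_ne_zero n X_ne_zero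
  have hgd : g + A1.natDegree ≤ s := by
    rw [hA1, natDegree_mul (hXg g) hA1ne, natDegree_X_pow] at hAd
    exact hAd
  obtain ⟨k, hk⟩ : ∃ k, g + (k + 1) = s + b + f := ⟨s + b + f - g - 1, by omega⟩
  have hgF : X ^ g ∣ F := by
    have h1 : X ^ g ∣ A * B ^ q := ⟨A1 * B ^ q, by rw [hA1]; ring⟩
    have h2 : X ^ g ∣ A * B ^ q - F := (pow_dvd_pow X (by omega)).trans h
    exact (dvd_sub_right h1).1 h2
  obtain ⟨F1, hF1⟩ := hgF
  obtain ⟨G, hG⟩ : X ^ (k + 1) ∣ A1 * B ^ q - F1 := by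
    have h1 : X ^ g * X ^ (k + 1) ∣ X ^ g * (A1 * B ^ q - F1) := by
      rw [← pow_add, hk]
      have h2 : X ^ g * (A1 * B ^ q - F1) = A * B ^ q - F := by
        rw [hA1, hF1]
        ring
      rw [h2]
      exact h
    exact (mul_dvd_mul_iff_left (hXg g)).1 h1
  have hF10 : F1.coeff 0 ≠ 0 := by
    have h1 := congrArg (fun P : K[X] => P.eval 0) hG
    simp only [eval_sub, eval_mul, eval_pow, eval_X, zero_pow (Nat.succ_ne_zero k), zero_mul] at h1
    rw [← coeff_zero_eq_eval_zero, ← coeff_zero_eq_eval_zero, ← coeff_zero_eq_eval_zero, hB0, one_pow, mul_one] at h1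
    rw [← sub_eq_zero.1 h1]
    exact hA10
  have hF1ne : F1 ≠ 0 := by
    rintro rfl
    simp at hF10
  have hfd : g + F1.natDegree ≤ f := by
    rw [hF1, natDegree_mul (hXg g) hF1ne, natDegree_X_pow] at hFd
    exact hFd
  have hGne : G ≠ 0 := by
    rintro rfl
    rw [mul_zero, sub_eq_zero] at hG
    have h1 := congrArg natDegree hG
    rw [natDegree_mul hA1ne (pow_ne_zero q hBne), natDegree_pow] at h1
    have h2 : B.natDegree = 0 := by
      by_contra hne
      have : q * 1 ≤ q * B.natDegree := Nat.mul_le_mul_left q (by omega)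
      omega
    apply hB1
    rw [eq_C_of_natDegree_eq_zero h2, hB0, C_1]
  have hW1 : B ^ (q - 1) * WW q A1 B F1 =
      X ^ k * (C ((k : K) + 1) * G * F1 + X * (derivative G * F1 - G * derivative F1)) := by
    rw [W2b_bw (by omega), hG, W2b_der]
  have hWne : WW q A1 B F1 ≠ 0 := by
    intro h0
    obtain ⟨j, G1, hG1, hG10⟩ := W2b_ord hGne
    have h1 : B ^ (q - 1) * WW q A1 B F1 =
        X ^ (k + j) * (C (((k + j : ℕ) : K) + 1) * G1 * F1 + X * (derivative G1 * F1 - G1 * derivative F1)) := by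
      rw [W2b_bw (by omega), ← W2b_der, hG, hG1]
      have h2 : (X : K[X]) ^ (k + 1) * (X ^ j * G1) = X ^ (k + j + 1) * G1 := by ring
      rw [h2]
    rw [h0, mul_zero] at h1
    have h2 := (mul_eq_zero.1 h1.symm).resolve_left (hXg _)
    have h3 := congrArg (fun P : K[X] => P.eval 0) h2
    simp only [eval_add, eval_mul, eval_X, eval_C, zero_mul, add_zero, eval_zero] at h3
    rw [← coeff_zero_eq_eval_zero, ← coeff_zero_eq_eval_zero] at h3
    have h4 : (((k + j : ℕ) : K) + 1) ≠ 0 := by exact_mod_cast Nat.succ_ne_zero (k + j)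
    exact (mul_ne_zero (mul_ne_zero h4 hG10) hF10) h3
  have hdv : X ^ k ∣ WW q A1 B F1 := by
    refine (Polynomial.prime_X).pow_dvd_of_dvd_mul_left k (a := B ^ (q - 1)) ?_ ⟨_, hW1⟩
    intro h1
    exact hXB (Polynomial.prime_X.dvd_of_dvd_pow h1)
  obtain ⟨H, hH⟩ := hdv
  have hHne : H ≠ 0 := by
    rintro rfl
    rw [mul_zero] at hH
    exact hWne hH
  have hdeg : 1 + (k + H.natDegree) ≤ (s - g) + b + (f - g) := by
    have h1 := (W2b_ww (q := q) (A := A1) (B := B) (F := F1) (s := s - g) (b := b) (f := f - g) (by omega) hBd (by omega)).1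
    rw [hH, natDegree_mul X_ne_zero (mul_ne_zero (hXg k) hHne), natDegree_mul (hXg k) hHne, natDegree_X, natDegree_X_pow] at h1
    exact h1
  have hg0 : g = 0 := by omega
  subst hg0
  have hA2 : A = A1 := by rw [hA1, pow_zero, one_mul]
  have hF2 : F = F1 := by rw [hF1, pow_zero, one_mul]
  have hkM : k = M := by omega
  subst hkM
  have hH0 : H.natDegree = 0 := by omega
  refine ⟨H.coeff 0, ?_, ?_, ?_⟩
  · intro h0
    apply hHne
    rw [eq_C_of_natDegree_eq_zero hH0, h0, C_0]
  · rw [hA2, hF2, hH]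
    conv_lhs => rw [eq_C_of_natDegree_eq_zero hH0]
    ring
  · rw [hA2]
    exact hA10

private theorem W2b_gen (K : Type) [Field K] [IsAlgClosed K] [CharZero K] {q s b f M : ℕ} (hb : 1 ≤ b) (hf : f < q)
    (hM : M + 1 = s + b + f) {ι : Type} [Fintype ι] [Unique ι] {u : K} (hu : u ≠ 0) :
    ∃ (al : Fin s → K) (be : Fin b → K) (ph : Fin f → K),
      Cfg q (fun _ : ι => M) al be ph (fun _ => 0) (fun _ => u) := by
  obtain ⟨A, B, F, hB0, hB1, hBd, hA, hAd, hFd, h⟩ := base_poly K (q := q) (s := s) (b := b) (f := f) hb hf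
  obtain ⟨κ, hκ, hW, hA0⟩ := W2b_main hb hf hB0 hB1 hBd hA hAd hFd h hM
  have hlt : f < s + q * b := by
    have : q * 1 ≤ q * b := Nat.mul_le_mul_left q hb
    omega
  obtain ⟨r, hr⟩ : ∃ r, s + q * b = f + r := ⟨s + q * b - f, by omega⟩
  have hr0 : r ≠ 0 := by omega
  have hrK : (s : K) + q * b - f = r := by
    have : (s : K) + q * b = f + r := by exact_mod_cast congrArg (Nat.cast : ℕ → K) hr
    rw [this]
    ring
  have hco := (W2b_ww (q := q) hAd hBd hFd).2
  have hco2 : (X * WW q A B F).coeff (s + b + f) = κ := by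
    rw [hW, ← hM, coeff_X_mul, coeff_C_mul, coeff_X_pow, if_pos rfl, mul_one]
  rw [hco2, hrK] at hco
  have hα : A.coeff s ≠ 0 := by
    intro h0
    rw [h0] at hco
    apply hκ
    rw [hco]
    ring
  have hβ : B.coeff b ≠ 0 := by
    intro h0
    rw [h0] at hco
    apply hκ
    rw [hco]
    ring
  have hφ : F.coeff f ≠ 0 := by
    intro h0
    rw [h0] at hco
    apply hκ
    rw [hco]
    ring
  have hAn : A.natDegree = s := le_antisymm hAd (le_natDegree_of_ne_zero hα)
  have hBn : B.natDegree = b := le_antisymm hBd (le_natDegree_of_ne_zero hβ)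
  have hFn : F.natDegree = f := le_antisymm hFd (le_natDegree_of_ne_zero hφ)
  obtain ⟨al, hal⟩ := W2b_fac s A hAn
  obtain ⟨be, hbe⟩ := W2b_fac b B hBn
  obtain ⟨ph, hph⟩ := W2b_fac f F hFn
  have hαl : A.leadingCoeff = A.coeff s := by rw [leadingCoeff, hAn]
  have hβl : B.leadingCoeff = B.coeff b := by rw [leadingCoeff, hBn]
  have hφl : F.leadingCoeff = F.coeff f := by rw [leadingCoeff, hFn]
  rw [hαl] at hal
  rw [hβl] at hbe
  rw [hφl] at hph
  set α := A.coeff s with hαd
  set β := B.coeff b with hβd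
  set φ := F.coeff f with hφd
  have hWs : WW q A B F = C (α * β * φ) * WW q (Pool.Agent.LibEX36.PA al) (Pool.Agent.LibEX36.PA be) (Pool.Agent.LibEX36.PA ph) := by
    conv_lhs => rw [hal, hbe, hph]
    unfold WW
    simp only [derivative_mul, derivative_C, zero_mul, zero_add, C_mul]
    ring
  have hne : α * β * φ ≠ 0 := mul_ne_zero (mul_ne_zero hα hβ) hφ
  have hder : WW q (Pool.Agent.LibEX36.PA al) (Pool.Agent.LibEX36.PA be) (Pool.Agent.LibEX36.PA ph) =
      C ((s : K) + (q : K) * (b : K) - (f : K)) * X ^ M := by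
    have h1 : C (α * β * φ) * WW q (Pool.Agent.LibEX36.PA al) (Pool.Agent.LibEX36.PA be) (Pool.Agent.LibEX36.PA ph) =
        C (α * β * φ) * (C ((s : K) + (q : K) * (b : K) - (f : K)) * X ^ M) := by
      rw [← hWs, hW, hco, hrK]
      simp only [C_mul]
      ring
    exact mul_left_cancel₀ (C_ne_zero.2 hne) h1
  -- values at zero
  have hev : ∀ z : K, A.eval z = α * (Pool.Agent.LibEX36.PA al).eval z := by
    intro z
    conv_lhs => rw [hal]
    rw [eval_mul, eval_C]
  have hevB : ∀ z : K, B.eval z = β * (Pool.Agent.LibEX36.PA be).eval z := by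
    intro z
    conv_lhs => rw [hbe]
    rw [eval_mul, eval_C]
  have hevF : ∀ z : K, F.eval z = φ * (Pool.Agent.LibEX36.PA ph).eval z := by
    intro z
    conv_lhs => rw [hph]
    rw [eval_mul, eval_C]
  have h00 : A.eval 0 * B.eval 0 ^ q = F.eval 0 := by
    obtain ⟨G, hG⟩ := h
    have h1 := congrArg (fun P : K[X] => P.eval 0) hG
    simp only [eval_sub, eval_mul, eval_pow, eval_X] at h1
    rw [zero_pow (by omega), zero_mul] at h1
    exact sub_eq_zero.1 h1
  have hA00 : A.eval 0 ≠ 0 := by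
    rw [← coeff_zero_eq_eval_zero]
    exact hA0
  have hB00 : B.eval 0 ≠ 0 := by
    rw [← coeff_zero_eq_eval_zero, hB0]
    exact one_ne_zero
  have hF00 : F.eval 0 ≠ 0 := by
    rw [← h00]
    exact mul_ne_zero hA00 (pow_ne_zero _ hB00)
  have hcom : ∀ z : K, A.eval z * B.eval z = 0 → F.eval z = 0 → False := by
    intro z h1 h2
    have h3 : (WW q A B F).eval z = 0 := by
      unfold WW
      simp only [eval_sub, eval_mul, eval_add]
      rw [h2, h1]
      ring
    rw [hW, eval_mul, eval_C, eval_pow, eval_X] at h3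
    have hz : z = 0 := by
      rcases mul_eq_zero.1 h3 with h4 | h4
      · exact absurd h4 hκ
      · exact eq_zero_of_pow_eq_zero h4
    rw [hz] at h2
    exact hF00 h2
  have hroot : ∀ {n : ℕ} (x : Fin n → K) (i : Fin n), (Pool.Agent.LibEX36.PA x).eval (x i) = 0 := by
    intro n x i
    exact (Pool.Agent.LibEX36.pa_eval x (x i)).2 ⟨i, rfl⟩
  have hcfg : Cfg q (fun _ : ι => M) al be ph (fun _ => 0) (fun _ => φ / (α * β ^ q)) := by
    refine ⟨?_, ?_, ?_, ?_, ?_⟩
    · rw [hder, Fintype.prod_unique, C_0, sub_zero]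
    · intro i
      rw [eval_mul, eval_pow]
      rw [hev, hevB, hevF] at h00
      have h1 : α * β ^ q ≠ 0 := mul_ne_zero hα (pow_ne_zero _ hβ)
      rw [div_mul_eq_mul_div, eq_div_iff h1, ← h00]
      ring
    · intro i
      exact div_ne_zero hφ (mul_ne_zero hα (pow_ne_zero _ hβ))
    · intro i j hij
      apply hcom (al i)
      · rw [hev, hroot]
        ring
      · rw [hevF, hij, hroot, mul_zero]
    · intro i j hij
      apply hcom (be i)
      · rw [hevB, hroot]
        ring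
      · rw [hevF, hij, hroot, mul_zero]
  set u0 := φ / (α * β ^ q) with hu0
  have hu0ne : u0 ≠ 0 := div_ne_zero hφ (mul_ne_zero hα (pow_ne_zero _ hβ))
  obtain ⟨l, hl⟩ := IsAlgClosed.exists_pow_nat_eq (u / u0) (Nat.pos_of_ne_zero hr0)
  have hlne : l ≠ 0 := by
    rintro rfl
    rw [zero_pow hr0] at hl
    exact div_ne_zero hu hu0ne hl.symm
  have hsum : ∑ i : ι, (fun _ : ι => M) i + 1 = s + b + f := by
    rw [Fintype.sum_unique]
    exact hM
  have hfin := cfg_scale hcfg hsum hr hlne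
  have h1 : (fun _ : ι => l * (0 : K)) = fun _ => 0 := by
    funext i
    rw [mul_zero]
  have h2 : (fun _ : ι => l ^ r * u0) = fun _ => u := by
    funext i
    rw [hl, div_mul_cancel₀ u hu0ne]
  rw [h1, h2] at hfin
  exact ⟨_, _, _, hfin⟩

theorem claim_zero {e q s b f a : ℕ} (he : 1 ≤ e) (ha : 1 ≤ a) (hb : 1 ≤ b) (hf : f < q) (hN : a * e + 1 = s + b + f) :
    Claim e q s b f a 0 := by
  intro K _ _ _ u hu0 _
  obtain ⟨al, be, ph, h⟩ := W2b_gen K (M := a * e) (ι := Option (Fin 0)) hb hf hN hu0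
  refine ⟨al, be, ph, fun _ => 0, ?_, ?_⟩
  · have h1 : (fun i : Option (Fin 0) => i.elim ((a - 0) * e) fun _ => e) = fun _ => a * e := by
      funext i
      rcases i with _ | i
      · simp
      · exact i.elim0
    have h2 : (fun i : Option (Fin 0) => i.elim u fun _ => (1 : K)) = fun _ => u := by
      funext i
      rcases i with _ | i
      · simp
      · exact i.elim0
    rw [h1, h2]
    exact h
  · intro i j _
    exact Subsingleton.elim i j

theorem base_one (K : Type) [Field K] [IsAlgClosed K] [CharZero K] {e q s b f : ℕ} (he : 1 ≤ e) (hb : 1 ≤ b) (hf : f < q)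
    (hN : e + 1 = s + b + f) :
    ∃ (al : Fin s → K) (be : Fin b → K) (ph : Fin f → K) (c : Fin 1 → K),
      Cfg q (fun _ : Fin 1 => e) al be ph c (fun _ => 1) ∧ Function.Injective c := by
  obtain ⟨al, be, ph, h⟩ := W2b_gen K (M := e) (ι := Fin 1) hb hf hN (one_ne_zero (α := K))
  exact ⟨al, be, ph, fun _ => 0, h, fun i j _ => Subsingleton.elim i j⟩

end Pool.Agent.LibRF77
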