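import Pool.Agent.LibRF77.S
import Pool.Agent.LibRF77.SP
import Pool.Agent.LibRF77.W2b

/-!
[RF77 IND] The induction. `claim_succ`: from `Claim .. j` (`j + 2 ≤ a`): `split` with `M = (a - j - 1) e` (`(a - j) e = M + e`), then `step` with `ι = Option (Option (Fin j))`, `o = some none`, `J` = all `some (some i)` (`j` elements), `u none = u` (`M` is the multiplicity of `none`); relabel `Option (Option (Fin j)) ≃ Option (Fin (j + 1))`
(`finSuccEquiv` or `Equiv.optionCongr (finSuccEquiv j).symm`; a configuration can be relabelled: `Equiv.prod_comp`).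
`exists_cfg`: `a = 1`: `base_one`. `a ≥ 2`: `Claim .. (a - 1)` (induction from `claim_zero`) over `E = AlgebraicClosure (RatFunc K)` with `u = X` (transcendental, so `≠ 0, 1`): a configuration over `E` with `ι = Option (Fin (a - 1))`, all multiplicities `e` (`(a - (a - 1)) e = e`), values `1` and `t = X` for `none`; `Pool.Agent.LibEX36.exists_L`: it is defined over a function
field `L`, (`cfg_map` backwards); `step` with `o = none`, `J` = all `some i` (`a - 1` elements): values `1` everywhere; relabel `Option (Fin (a - 1)) ≃ Fin a`.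
-/

open scoped Classical

namespace Pool.Agent.LibRF77

open Polynomial
open Pool.Agent.LibBH2
open Pool.Agent.LibCHd (FunF)
open Pool.Agent.LibEX36 (PA RP)
open Pool.Agent.LibPS77 (Ge)

theorem cfg_equiv {K : Type} [Field K] {q s b f : ℕ} {ι κ : Type} [Fintype ι] [Fintype κ] (σ : κ ≃ ι) {m : ι → ℕ}
    {al : Fin s → K} {be : Fin b → K} {ph : Fin f → K} {c v : ι → K} (h : Cfg q m al be ph c v) :
    Cfg q (fun i => m (σ i)) al be ph (fun i => c (σ i)) (fun i => v (σ i)) where
  der := by
    rw [h.der]
    congr 1
    exact (Equiv.prod_comp σ (fun i => (X - C (c i)) ^ m i)).symm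
  val i := h.val (σ i)
  ne i := h.ne (σ i)
  al_ph := h.al_ph
  be_ph := h.be_ph

private theorem IND_congr {K : Type} [Field K] {q s b f : ℕ} {ι : Type} [Fintype ι] {m m' : ι → ℕ}
    {al : Fin s → K} {be : Fin b → K} {ph : Fin f → K} {c v v' : ι → K} (h : Cfg q m al be ph c v)
    (hm : ∀ i, m i = m' i) (hv : ∀ i, v i = v' i) : Cfg q m' al be ph c v' := by
  obtain rfl : m = m' := funext hm
  obtain rfl : v = v' := funext hv
  exact h

theorem claim_succ {e q s b f a j : ℕ} (he : 1 ≤ e) (hq : 1 ≤ q) (hj : j + 2 ≤ a) (hr : (2 * e + 1) * j + f < s + q * b)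
    (h : Claim e q s b f a j) : Claim e q s b f a (j + 1) := by
  intro K _ _ _ u hu0 hu1
  obtain ⟨al, be, ph, c, hc, hinj⟩ := h K u hu0 hu1
  have heq : (a - j) * e = (a - (j + 1)) * e + e := by
    have h1 : a - j = (a - (j + 1)) + 1 := by omega
    rw [h1, Nat.add_mul, Nat.one_mul]
  rw [heq] at hc
  have hM : 1 ≤ (a - (j + 1)) * e := Nat.mul_pos (by omega) (by omega)
  obtain ⟨L, _, _, al', be', ph', c', t, hL, ht, hc', hinj'⟩ :=
    split he hM hq (lt_of_le_of_lt (Nat.le_add_left _ _) hr) hc hinj
  have hJ : ∀ i : Option (Option (Fin j)), i ∈ (Finset.univ.image fun k : Fin j => some (some k)) ↔ ∃ k : Fin j, some (some k) = i := by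
    intro i
    simp
  have hcard : (Finset.univ.image fun k : Fin j => some (some k)).card = j := by
    rw [Finset.card_image_of_injective _ (fun x y hxy => Option.some_injective _ (Option.some_injective _ hxy))]
    simp
  have hV : Vals e (fun i : Option (Option (Fin j)) => i.elim ((a - (j + 1)) * e) fun _ => e)
      (fun i : Option (Option (Fin j)) => i.elim (algebraMap K L u) fun i => i.elim t fun _ => 1) (some none)
      (Finset.univ.image fun k : Fin j => some (some k)) (fun _ => u) t := by
    refine ⟨rfl, rfl, ?_, ?_, ?_, ?_, ?_, ?_⟩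
    · rw [hJ]
      rintro ⟨k, hk⟩
      cases hk
    · intro i hi
      obtain ⟨k, rfl⟩ := (hJ i).1 hi
      rfl
    · intro i hi
      obtain ⟨k, rfl⟩ := (hJ i).1 hi
      rfl
    · intro i hi1 hi2
      rcases i with _ | (_ | k)
      · rfl
      · exact absurd rfl hi1
      · exact absurd ((hJ _).2 ⟨k, rfl⟩) hi2
    · intro i _ _
      exact ⟨hu0, hu1⟩
    · intro i i' hi1 hi2 hi1' hi2' _
      rcases i with _ | (_ | k)
      · rcases i' with _ | (_ | k')
        · rfl
        · exact absurd rfl hi1'
        · exact absurd ((hJ _).2 ⟨k', rfl⟩) hi2'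
      · exact absurd rfl hi1
      · exact absurd ((hJ _).2 ⟨k, rfl⟩) hi2
  have hm : ∀ i : Option (Option (Fin j)), 1 ≤ i.elim ((a - (j + 1)) * e) fun _ => e := by
    rintro (_ | i)
    · exact hM
    · exact he
  obtain ⟨al0, be0, ph0, c0, h0, hinj0⟩ := step hL hq hm hc' hinj' hV ht (by rw [hcard]; exact hr)
  let σ : Option (Fin (j + 1)) ≃ Option (Option (Fin j)) := Equiv.optionCongr (finSuccEquiv j)
  refine ⟨al0, be0, ph0, fun i => c0 (σ i), ?_, hinj0.comp σ.injective⟩
  refine IND_congr (cfg_equiv σ h0) ?_ ?_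
  · rintro (_ | i) <;> rfl
  · rintro (_ | i)
    · have h4 : ¬ ((none : Option (Option (Fin j))) = some none ∨
          (none : Option (Option (Fin j))) ∈ (Finset.univ.image fun k : Fin j => some (some k))) := by
        rintro (h5 | h5)
        · cases h5
        · obtain ⟨k, hk⟩ := (hJ _).1 h5
          cases hk
      exact if_neg h4
    · have h4 : (some (finSuccEquiv j i) = some none ∨
          some (finSuccEquiv j i) ∈ (Finset.univ.image fun k : Fin j => some (some k))) := by
        rcases finSuccEquiv j i with _ | k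
        · exact Or.inl rfl
        · exact Or.inr ((hJ _).2 ⟨k, rfl⟩)
      exact if_pos h4

private theorem IND_claim {e q s b f a : ℕ} (he : 1 ≤ e) (ha : 1 ≤ a) (hb : 1 ≤ b) (hf : f < q) (hN : a * e + 1 = s + b + f)
    (hr : (2 * e + 1) * (a - 1) + f < s + q * b) : ∀ j : ℕ, j + 1 ≤ a → Claim e q s b f a j := by
  intro j
  induction j with
  | zero =>
    intro _
    exact claim_zero he ha hb hf hN
  | succ j ih =>
    intro hj
    refine claim_succ he (by omega) (by omega) ?_ (ih (by omega))
    refine lt_of_le_of_lt ?_ hr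
    have h1 : (2 * e + 1) * j ≤ (2 * e + 1) * (a - 1) := Nat.mul_le_mul_left _ (by omega)
    omega

/-- rational functions with three branch points and given ramification -/
theorem exists_cfg (K : Type) [Field K] [IsAlgClosed K] [CharZero K] {e q s b f a : ℕ} (he : 1 ≤ e) (ha : 1 ≤ a) (hb : 1 ≤ b)
    (hf : f < q) (hN : a * e + 1 = s + b + f) (hr : (2 * e + 1) * (a - 1) + f < s + q * b) :
    ∃ (al : Fin s → K) (be : Fin b → K) (ph : Fin f → K) (c : Fin a → K),
      Cfg q (fun _ => e) al be ph c (fun _ => 1) ∧ Function.Injective c := by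
  obtain ⟨n, rfl⟩ : ∃ n, a = n + 1 := ⟨a - 1, by omega⟩
  rcases Nat.eq_zero_or_pos n with rfl | hn
  · exact base_one K he hb hf (by omega)
  have h1 := IND_claim he ha hb hf hN hr n le_rfl
  let E := AlgebraicClosure (RatFunc K)
  have _ : CharZero (RatFunc K) := charZero_of_injective_algebraMap (algebraMap K (RatFunc K)).injective
  have _ : CharZero E := charZero_of_injective_algebraMap (algebraMap (RatFunc K) E).injective
  have hX0 : algebraMap (RatFunc K) E RatFunc.X ≠ 0 := by
    intro h
    exact RatFunc.X_ne_zero ((algebraMap (RatFunc K) E).injective (h.trans (map_zero _).symm))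
  have hX1 : algebraMap (RatFunc K) E RatFunc.X ≠ 1 := by
    intro h
    have h2 : (RatFunc.X : RatFunc K) = 1 := (algebraMap (RatFunc K) E).injective (h.trans (map_one _).symm)
    have h3 : (X : K[X]) = 1 := by
      apply RatFunc.algebraMap_injective K
      rw [RatFunc.algebraMap_X, h2, map_one]
    have h4 := congrArg (fun p : K[X] => p.eval 0) h3
    simp at h4
  obtain ⟨al, be, ph, c, hc, hinj⟩ := h1 E (algebraMap (RatFunc K) E RatFunc.X) hX0 hX1
  have h11 : n + 1 - n = 1 := by omega
  rw [h11, Nat.one_mul] at hc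
  obtain ⟨L, _, _, i, t, hL, ht, hit, hS⟩ := Pool.Agent.LibEX36.exists_L K
    ((Finset.univ.image al ∪ Finset.univ.image be) ∪ (Finset.univ.image ph ∪ Finset.univ.image c))
  have g1 : ∀ k, ∃ y, i y = al k := fun k => hS _ (Finset.mem_union_left _ (Finset.mem_union_left _ (Finset.mem_image_of_mem _ (Finset.mem_univ _))))
  have g2 : ∀ k, ∃ y, i y = be k := fun k => hS _ (Finset.mem_union_left _ (Finset.mem_union_right _ (Finset.mem_image_of_mem _ (Finset.mem_univ _))))
  have g3 : ∀ k, ∃ y, i y = ph k := fun k => hS _ (Finset.mem_union_right _ (Finset.mem_union_left _ (Finset.mem_image_of_mem _ (Finset.mem_univ _))))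
  have g4 : ∀ k, ∃ y, i y = c k := fun k => hS _ (Finset.mem_union_right _ (Finset.mem_union_right _ (Finset.mem_image_of_mem _ (Finset.mem_univ _))))
  choose al' hal' using g1
  choose be' hbe' using g2
  choose ph' hph' using g3
  choose c' hc' using g4
  have hc2 : Cfg q (fun i : Option (Fin n) => i.elim e fun _ => e) al' be' ph' c'
      (fun i : Option (Fin n) => i.elim t fun _ => 1) := by
    rw [cfg_map (i : L →+* E)]
    have e1 : (fun k => (i : L →+* E) (al' k)) = al := funext hal'
    have e2 : (fun k => (i : L →+* E) (be' k)) = be := funext hbe'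
    have e3 : (fun k => (i : L →+* E) (ph' k)) = ph := funext hph'
    have e4 : (fun k => (i : L →+* E) (c' k)) = c := funext hc'
    have e5 : (fun k : Option (Fin n) => (i : L →+* E) (k.elim t fun _ => 1)) =
        fun k : Option (Fin n) => k.elim (algebraMap (RatFunc K) E RatFunc.X) fun _ => 1 := by
      funext k
      cases k
      · exact hit
      · exact map_one i
    rw [e1, e2, e3, e4, e5]
    exact hc
  have hinj' : Function.Injective c' := by
    intro x y hxy
    apply hinj
    rw [← hc', ← hc', hxy]
  have hJ : ∀ k : Option (Fin n), k ∈ (Finset.univ.image fun k : Fin n => some k) ↔ ∃ l : Fin n, some l = k := by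
    intro k
    simp
  have hcard : (Finset.univ.image fun k : Fin n => some k).card = n := by
    rw [Finset.card_image_of_injective _ (Option.some_injective _)]
    simp
  have hV : Vals e (fun i : Option (Fin n) => i.elim e fun _ => e)
      (fun i : Option (Fin n) => i.elim t fun _ => 1) none
      (Finset.univ.image fun k : Fin n => some k) (fun _ => (1 : K)) t := by
    have hno : ∀ k : Option (Fin n), k ≠ none → k ∉ (Finset.univ.image fun k : Fin n => some k) → False := by
      intro k h1 h2
      rcases k with _ | k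
      · exact h1 rfl
      · exact h2 ((hJ _).2 ⟨k, rfl⟩)
    refine ⟨rfl, rfl, ?_, ?_, ?_, ?_, ?_, ?_⟩
    · rw [hJ]
      rintro ⟨k, hk⟩
      cases hk
    · intro k hk
      obtain ⟨l, rfl⟩ := (hJ k).1 hk
      rfl
    · intro k hk
      obtain ⟨l, rfl⟩ := (hJ k).1 hk
      rfl
    · intro k h1 h2
      exact (hno k h1 h2).elim
    · intro k h1 h2
      exact (hno k h1 h2).elim
    · intro k _ h1 h2
      exact (hno k h1 h2).elim
  have hm : ∀ i : Option (Fin n), 1 ≤ i.elim e fun _ => e := by
    rintro (_ | i)
    · exact he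
    · exact he
  have hr' : (2 * e + 1) * (Finset.univ.image fun k : Fin n => some k).card + f < s + q * b := by
    rw [hcard]
    exact hr
  obtain ⟨al0, be0, ph0, c0, h0, hinj0⟩ := step hL (by omega) hm hc2 hinj' hV ht hr'
  refine ⟨al0, be0, ph0, fun i => c0 (finSuccEquiv n i), ?_, hinj0.comp (finSuccEquiv n).injective⟩
  refine IND_congr (cfg_equiv (finSuccEquiv n) h0) ?_ ?_
  · intro i
    rcases (finSuccEquiv n i) with _ | k <;> rfl
  · intro i
    exact ite_self _

end Pool.Agent.LibRF77
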