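import Pool.Agent.LibRF77.Defs
import Pool.Agent.LibCHd.B5

/-!
[RF77 KZ] A curve through a point. `n` equations in more than `n` variables with a common zero `x0`, `h(x0) ≠ 0`: a function field `L` of one variable and a common zero `x` over `L`, `h(x) ≠ 0`, not constant.
Proof. WLOG `σ = Fin N` (`MvPolynomial.rename` by `Fintype.equivFin`). `R = MvPolynomial (Fin N) K`, `I = span (E l)`, `𝔪0 = vanishingIdeal K {x0}` of height `N` (`Pool.Agent.LibPS77.height_pt`), `𝔭 ≤ 𝔪0` a minimal prime of `I` (`Ideal.exists_minimalPrimes_le`): height `≤ n < N` (Krull,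
`Ideal.height_le_spanRank_toENat_of_mem_minimal_primes`; see LibPS77/Dim.lean), so `𝔭 ≠ 𝔪0`. `h ∉ 𝔭` since `h ∉ 𝔪0`. `D = R ⧸ 𝔭`, a domain of finite type; `Fr` its fraction field. Some coordinate `u` of `D` is transcendental over `K`: otherwise all coordinates are in `K`
(`K` algebraically closed), `R → D` has the image `K`, `𝔭` is a maximal ideal `≤ 𝔪0`. Let `F0 = K(u) ⊆ Fr` (or `RatFunc K` mapped to `Fr`), `D' = F0[x, 1/h] ⊆ Fr` (`Algebra.adjoin F0` of a finite set: a domain of finite type over `F0`); `D'` need not be a field; take a maximal ideal `𝔫` of `D'` and `L = D' ⧸ 𝔫`: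
finite over `F0` (Zariski's lemma, `finite_of_finite_type_of_isJacobsonRing` or similar), `u` is still transcendental (image of `F0`, injective), `h` is a unit of `D'`, so not `0` in `L`. `FunF K 1 L`: `Pool.Agent.LibCHd.funF_one` (as in LibEX36/E6a.lean).
-/

open scoped Classical

namespace Pool.Agent.LibRF77

open Pool.Agent.LibCHd (FunF)

/-- an element of a domain which is algebraic over an algebraically closed field is in the field -/
private theorem KZ_mem {K : Type} [Field K] [IsAlgClosed K] {D : Type} [CommRing D] [IsDomain D] [Algebra K D] {x : D}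
    (hx : IsAlgebraic K x) : ∃ y, algebraMap K D y = x := by
  have h1 : IsIntegral K x := isAlgebraic_iff_isIntegral.1 hx
  have h2 := IsAlgClosed.degree_eq_one_of_irreducible K (minpoly.irreducible h1)
  exact minpoly.mem_range_of_degree_eq_one K x h2

/-- a domain of finite type with a transcendental coordinate has a point over a function field of one variable -/
private theorem KZ_pt {K : Type} [Field K] {D : Type} [CommRing D] [IsDomain D] [Algebra K D] {N : ℕ}
    (u : Fin N → D) (g : D) (hg : g ∈ Algebra.adjoin K (Set.range u)) (hg0 : g ≠ 0) (i0 : Fin N) (hu : Transcendental K (u i0)) :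
    ∃ (L : Type) (_ : Field L) (_ : Algebra K L) (ψ : Algebra.adjoin K (Set.range u) →ₐ[K] L), FunF K 1 L ∧
      ψ ⟨g, hg⟩ ≠ 0 ∧ Transcendental K (ψ ⟨u i0, Algebra.subset_adjoin (Set.mem_range_self i0)⟩) := by
  let Fr := FractionRing D
  have hinj : Function.Injective (algebraMap D Fr) := IsFractionRing.injective D Fr
  let j : D →ₐ[K] Fr := IsScalarTower.toAlgHom K D Fr
  have hj : Function.Injective j := hinj
  have hu' : Transcendental K (j (u i0)) := fun h => hu ((isAlgebraic_algHom_iff j hj).1 h)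
  let φ : Polynomial K →ₐ[K] Fr := Polynomial.aeval (j (u i0))
  have hφ : Function.Injective φ := transcendental_iff_injective.1 hu'
  have hφ' : nonZeroDivisors (Polynomial K) ≤ (nonZeroDivisors Fr).comap φ := by
    intro p hp
    rw [Submonoid.mem_comap, mem_nonZeroDivisors_iff_ne_zero]
    intro h
    exact nonZeroDivisors.ne_zero hp (hφ (by rw [h, map_zero]))
  let ι0 : RatFunc K →ₐ[K] Fr := RatFunc.liftAlgHom φ hφ'
  let _ : Algebra (RatFunc K) Fr := ι0.toRingHom.toAlgebra
  have hst : IsScalarTower K (RatFunc K) Fr := IsScalarTower.of_algebraMap_eq fun x => (ι0.commutes x).symm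
  let S : Set Fr := insert (j g)⁻¹ (Set.range fun i => j (u i))
  have hS : S.Finite := (Set.finite_range _).insert _
  let D' : Subalgebra (RatFunc K) Fr := Algebra.adjoin (RatFunc K) S
  have hft : Algebra.FiniteType (RatFunc K) D' := by
    rw [← Subalgebra.fg_iff_finiteType]
    exact ⟨hS.toFinset, by rw [hS.coe_toFinset]⟩
  have hmem : ∀ i, j (u i) ∈ D' := fun i => Algebra.subset_adjoin (Set.mem_insert_of_mem _ (Set.mem_range_self i))
  have hginv : (j g)⁻¹ ∈ D' := Algebra.subset_adjoin (Set.mem_insert _ _)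
  obtain ⟨m, hm⟩ := Ideal.exists_maximal D'
  let _ : Field (D' ⧸ m) := Ideal.Quotient.field m
  have hfin : Module.Finite (RatFunc K) (D' ⧸ m) := finite_of_finite_type_of_isJacobsonRing (RatFunc K) (D' ⧸ m)
  let ι : RatFunc K →ₐ[K] (D' ⧸ m) := IsScalarTower.toAlgHom K (RatFunc K) (D' ⧸ m)
  have hι : ι.toRingHom.Finite := by
    have h1 : ι.toRingHom = algebraMap (RatFunc K) (D' ⧸ m) := rfl
    rw [h1, RingHom.finite_algebraMap]
    exact hfin
  have hsub : ∀ x : Algebra.adjoin K (Set.range u), j (x : D) ∈ D'.restrictScalars K := by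
    have h1 : (Algebra.adjoin K (Set.range u)) ≤ (D'.restrictScalars K).comap j := by
      rw [Algebra.adjoin_le_iff]
      rintro _ ⟨i, rfl⟩
      exact hmem i
    intro x
    exact h1 x.2
  let ψ0 : Algebra.adjoin K (Set.range u) →ₐ[K] D' :=
    (j.comp (Algebra.adjoin K (Set.range u)).val).codRestrict (D'.restrictScalars K) hsub
  refine ⟨D' ⧸ m, inferInstance, inferInstance, (Ideal.Quotient.mkₐ K m).comp ψ0, Pool.Agent.LibCHd.funF_one ι hι, ?_, ?_⟩
  · have hu2 : IsUnit (ψ0 ⟨g, hg⟩) := by
      refine IsUnit.of_mul_eq_one ⟨(j g)⁻¹, hginv⟩ ?_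
      apply Subtype.ext
      show j g * (j g)⁻¹ = 1
      refine mul_inv_cancel₀ ?_
      intro h
      exact hg0 (hj (by rw [h, map_zero]))
    exact (hu2.map (Ideal.Quotient.mkₐ K m)).ne_zero
  · have h1 : ((Ideal.Quotient.mkₐ K m).comp ψ0) ⟨u i0, Algebra.subset_adjoin (Set.mem_range_self i0)⟩ = ι RatFunc.X := by
      have h2 : ψ0 ⟨u i0, Algebra.subset_adjoin (Set.mem_range_self i0)⟩ = algebraMap (RatFunc K) D' RatFunc.X := by
        apply Subtype.ext
        show j (u i0) = ι0 RatFunc.X
        have h3 : ι0 RatFunc.X = φ Polynomial.X := by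
          rw [← RatFunc.algebraMap_X]
          exact RatFunc.liftRingHom_algebraMap φ.toRingHom hφ' Polynomial.X
        rw [h3]
        simp [φ]
      show (Ideal.Quotient.mkₐ K m) (ψ0 ⟨u i0, Algebra.subset_adjoin (Set.mem_range_self i0)⟩) = _
      rw [h2]
      rfl
    rw [h1]
    intro h
    exact RatFunc.transcendental_X ((isAlgebraic_algHom_iff ι ι.toRingHom.injective).1 h)

private theorem KZ_fin (K : Type) [Field K] [IsAlgClosed K] {N n : ℕ} (hn : n < N)
    (E : Fin n → MvPolynomial (Fin N) K) (x0 : Fin N → K) (h0 : ∀ l, MvPolynomial.aeval x0 (E l) = 0) (h : MvPolynomial (Fin N) K)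
    (hh : MvPolynomial.aeval x0 h ≠ 0) :
    ∃ (L : Type) (_ : Field L) (_ : Algebra K L) (x : Fin N → L), FunF K 1 L ∧ (∀ l, MvPolynomial.aeval x (E l) = 0) ∧
      MvPolynomial.aeval x h ≠ 0 ∧ ∃ i, Transcendental K (x i) := by
  let I : Ideal (MvPolynomial (Fin N) K) := Ideal.span (Set.range E)
  have hI : I ≤ MvPolynomial.vanishingIdeal K {x0} := by
    rw [Ideal.span_le]
    rintro _ ⟨l, rfl⟩
    exact (MvPolynomial.mem_vanishingIdeal_singleton_iff x0 _).2 (h0 l)
  obtain ⟨p, hp, hle⟩ := Ideal.exists_minimalPrimes_le hI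
  have hpr : p.IsPrime := hp.1.1
  have hne : p ≠ MvPolynomial.vanishingIdeal K {x0} := by
    intro he
    have h1 := Ideal.height_le_card_of_mem_minimalPrimes_span (Set.finite_range E) hp
    rw [he, Pool.Agent.LibPS77.height_pt] at h1
    have h2 : (Set.range E).ncard ≤ n := by
      have := Set.ncard_image_le (f := E) (Set.finite_univ (α := Fin n))
      rw [Set.image_univ, Set.ncard_univ, Nat.card_eq_fintype_card, Fintype.card_fin] at this
      exact this
    have h3 : (N : ℕ∞) ≤ (n : ℕ∞) := h1.trans (by exact_mod_cast h2)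
    have h4 : N ≤ n := by exact_mod_cast h3
    omega
  let D := MvPolynomial (Fin N) K ⧸ p
  let mk : MvPolynomial (Fin N) K →ₐ[K] D := Ideal.Quotient.mkₐ K p
  let u : Fin N → D := fun i => mk (MvPolynomial.X i)
  have hmk : ∀ f, mk f = MvPolynomial.aeval u f := by
    intro f
    have h1 : mk = MvPolynomial.aeval u := by
      ext i
      simp [u]
    rw [h1]
  have htr : ∃ i, Transcendental K (u i) := by
    by_contra hcon
    push Not at hcon
    have h1 : ∀ i, ∃ y, algebraMap K D y = u i := by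
      intro i
      have h2 := hcon i
      rw [Transcendental, not_not] at h2
      exact KZ_mem h2
    choose y hy using h1
    have h3 : ∀ f, mk f = algebraMap K D (MvPolynomial.aeval y f) := by
      intro f
      have h4 : mk = (Algebra.ofId K D).comp (MvPolynomial.aeval y) := by
        ext i
        simp [Algebra.ofId_apply, hy, u]
      rw [h4]
      rfl
    have h5 : p = MvPolynomial.vanishingIdeal K {y} := by
      ext f
      rw [MvPolynomial.mem_vanishingIdeal_singleton_iff]
      have h6 : f ∈ p ↔ mk f = 0 := (Ideal.Quotient.eq_zero_iff_mem).symm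
      rw [h6, h3]
      constructor
      · intro h7
        exact (FaithfulSMul.algebraMap_injective K D) (by rw [h7, map_zero])
      · intro h7
        rw [h7, map_zero]
    have h8 : p.IsMaximal := MvPolynomial.isMaximal_iff_eq_vanishingIdeal_singleton.2 ⟨y, h5⟩
    have h9 : (MvPolynomial.vanishingIdeal K {x0} : Ideal (MvPolynomial (Fin N) K)).IsMaximal :=
      MvPolynomial.isMaximal_iff_eq_vanishingIdeal_singleton.2 ⟨x0, rfl⟩
    exact hne (h8.eq_of_le h9.ne_top hle)
  obtain ⟨i0, hi0⟩ := htr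
  have hgen : ∀ f, mk f ∈ Algebra.adjoin K (Set.range u) := by
    intro f
    rw [Algebra.adjoin_range_eq_range_aeval]
    exact ⟨f, (hmk f).symm⟩
  have hh0 : mk h ≠ 0 := by
    intro h1
    have h2 : h ∈ p := (Ideal.Quotient.eq_zero_iff_mem).1 h1
    exact hh ((MvPolynomial.mem_vanishingIdeal_singleton_iff x0 _).1 (hle h2))
  obtain ⟨L, _, _, ψ, hL, hψ, hψu⟩ := KZ_pt u (mk h) (hgen h) hh0 i0 hi0
  let χ : MvPolynomial (Fin N) K →ₐ[K] L := ψ.comp (mk.codRestrict (Algebra.adjoin K (Set.range u)) hgen)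
  have hχ : ∀ f, MvPolynomial.aeval (fun i => χ (MvPolynomial.X i)) f = χ f := by
    intro f
    have h1 : MvPolynomial.aeval (fun i => χ (MvPolynomial.X i)) = χ := by
      ext i
      simp
    rw [h1]
  refine ⟨L, inferInstance, inferInstance, fun i => χ (MvPolynomial.X i), hL, ?_, ?_, i0, ?_⟩
  · intro l
    rw [hχ]
    have h1 : E l ∈ p := hp.1.2 (Ideal.subset_span (Set.mem_range_self l))
    have h2 : mk (E l) = 0 := (Ideal.Quotient.eq_zero_iff_mem).2 h1
    have h3 : (mk.codRestrict (Algebra.adjoin K (Set.range u)) hgen) (E l) = 0 := Subtype.ext h2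
    show ψ ((mk.codRestrict (Algebra.adjoin K (Set.range u)) hgen) (E l)) = 0
    rw [h3, map_zero]
  · rw [hχ]
    exact hψ
  · exact hψu

theorem kz (K : Type) [Field K] [IsAlgClosed K] [CharZero K] {σ : Type} [Fintype σ] {n : ℕ} (hn : n < Fintype.card σ)
    (E : Fin n → MvPolynomial σ K) (x0 : σ → K) (h0 : ∀ l, MvPolynomial.eval x0 (E l) = 0) (h : MvPolynomial σ K)
    (hh : MvPolynomial.eval x0 h ≠ 0) :
    ∃ (L : Type) (_ : Field L) (_ : Algebra K L) (x : σ → L), FunF K 1 L ∧ (∀ l, MvPolynomial.aeval x (E l) = 0) ∧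
      MvPolynomial.aeval x h ≠ 0 ∧ ∃ i, Transcendental K (x i) := by
  let e := Fintype.equivFin σ
  obtain ⟨L, hF, hA, x, h1, h2, h3, i, h4⟩ := KZ_fin K hn (fun l => MvPolynomial.rename e (E l)) (x0 ∘ e.symm) (by
    intro l
    rw [MvPolynomial.aeval_rename]
    have h5 : (x0 ∘ e.symm) ∘ e = x0 := by
      funext i
      simp
    rw [h5, MvPolynomial.aeval_eq_eval]
    exact h0 l) (MvPolynomial.rename e h) (by
    rw [MvPolynomial.aeval_rename]
    have h5 : (x0 ∘ e.symm) ∘ e = x0 := by
      funext i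
      simp
    rw [h5, MvPolynomial.aeval_eq_eval]
    exact hh)
  refine ⟨L, hF, hA, x ∘ e, h1, ?_, ?_, e.symm i, ?_⟩
  · intro l
    have h5 := h2 l
    rw [MvPolynomial.aeval_rename] at h5
    exact h5
  · rw [MvPolynomial.aeval_rename] at h3
    exact h3
  · have h5 : (x ∘ e) (e.symm i) = x i := by simp
    rw [h5]
    exact h4

end Pool.Agent.LibRF77
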