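import Pool.Agent.LibPS77.P4

/-!
[RF77 Q1] The pull-back of a covering by a rational map of the projective line: local form.
-/

open scoped Classical

namespace Pool.Agent.LibRF77

open Pool.Agent.LibBH2
open Pool.Agent.LibCHd (FunF)
open Pool.Agent.LibVT36 (cc IsEt NC lp Ram)
open Pool.Agent.LibPS77 (Ap ap_local unr_of_ap ext_poly exists_value)
open Polynomial

variable {k : Type} [Field k]

/-- the rational map `G / F` (`deg F < deg G`) on the projective line -/
noncomputable def rv (G F : k[X]) : Option k → Option k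
  | none => none
  | some a => if F.eval a = 0 then none else some (G.eval a / F.eval a)

/-- its ramification indices -/
noncomputable def rm (G F : k[X]) : Option k → ℕ
  | none => G.natDegree - F.natDegree
  | some a => if F.eval a = 0 then F.rootMultiplicity a else (G - C (G.eval a / F.eval a) * F).rootMultiplicity a

theorem rv_none (G F : k[X]) : rv G F none = none := rfl

theorem rv_pole {G F : k[X]} {a : k} (h : F.eval a = 0) : rv G F (some a) = none := by
  show (if F.eval a = 0 then none else some (G.eval a / F.eval a)) = none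
  rw [if_pos h]

theorem rv_val {G F : k[X]} {a : k} (h : F.eval a ≠ 0) : rv G F (some a) = some (G.eval a / F.eval a) := by
  show (if F.eval a = 0 then none else some (G.eval a / F.eval a)) = _
  rw [if_neg h]

theorem rm_none (G F : k[X]) : rm G F none = G.natDegree - F.natDegree := rfl

theorem rm_pole {G F : k[X]} {a : k} (h : F.eval a = 0) : rm G F (some a) = F.rootMultiplicity a := by
  show (if F.eval a = 0 then F.rootMultiplicity a else _) = _
  rw [if_pos h]

theorem rm_val {G F : k[X]} {a : k} (h : F.eval a ≠ 0) :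
    rm G F (some a) = (G - C (G.eval a / F.eval a) * F).rootMultiplicity a := by
  show (if F.eval a = 0 then F.rootMultiplicity a else _) = _
  rw [if_neg h]

section

variable {G F : k[X]} (hc : IsCoprime G F) (hd : F.natDegree < G.natDegree)

include hc in
theorem eval_ne {a : k} (h : F.eval a = 0) : G.eval a ≠ 0 := by
  intro h0
  obtain ⟨u, v, huv⟩ := hc
  have := congrArg (eval a) huv
  rw [eval_add, eval_mul, eval_mul, h, h0] at this
  simp at this

include hc in
theorem F_ne (hd : F.natDegree < G.natDegree) : F ≠ 0 := by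
  rintro rfl
  rw [isCoprime_zero_right] at hc
  have := natDegree_eq_zero_of_isUnit hc
  omega

include hd in
theorem G_ne : G ≠ 0 := by
  rintro rfl
  simp at hd

include hd in
theorem deg_sub (b : k) : (G - C b * F).natDegree = G.natDegree := by
  rw [natDegree_sub_eq_left_of_natDegree_lt]
  exact lt_of_le_of_lt (natDegree_C_mul_le b F) hd

include hd in
theorem sub_ne (b : k) : G - C b * F ≠ 0 := by
  intro h
  have := deg_sub hd b
  rw [h, natDegree_zero] at this
  omega

include hc hd in
theorem rm_pos (p : Option k) : 0 < rm G F p := by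
  rcases p with _ | a
  · rw [rm_none]
    omega
  · by_cases h : F.eval a = 0
    · rw [rm_pole h, rootMultiplicity_pos (F_ne hc hd)]
      exact h
    · rw [rm_val h, rootMultiplicity_pos (sub_ne hd _), IsRoot.def, eval_sub, eval_mul, eval_C,
        div_mul_cancel₀ _ h, sub_self]

variable {L L' : Type} [Field L] [Algebra k L] [Field L'] [Algebra k L']

private theorem q1_shift (a : k) (s : L') (P : k[X]) : aeval (s - cc k L' a) (P.comp (X + C a)) = aeval s P := by
  rw [aeval_comp]
  congr 2
  simp

include hc hd in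
/-- the local form of the equation `G(s) = t F(s)` -/
theorem loc_form {φ : L →ₐ[k] L'} {t : L} {s : L'} (hs : aeval s G = φ t * aeval s F) (ht : NC k t) (hsn : NC k s)
    (p : Option k) :
    ∃ H₁ H₂ : k[X], H₁.eval 0 ≠ 0 ∧ H₂.eval 0 ≠ 0 ∧
      φ (lp t (rv G F p)) * aeval (lp s p) H₁ = lp s p ^ rm G F p * aeval (lp s p) H₂ := by
  have ht0 : φ t ≠ 0 := (map_ne_zero φ).2 ht.ne_zero
  have hs0 : s ≠ 0 := hsn.ne_zero
  rcases p with _ | a
  · refine ⟨G.reverse, F.reverse, ?_, ?_, ?_⟩
    · rw [← coeff_zero_eq_eval_zero, coeff_zero_reverse]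
      exact leadingCoeff_ne_zero.2 (G_ne hd)
    · rw [← coeff_zero_eq_eval_zero, coeff_zero_reverse]
      exact leadingCoeff_ne_zero.2 (F_ne hc hd)
    · rw [rv_none, rm_none]
      show φ t⁻¹ * aeval s⁻¹ G.reverse = s⁻¹ ^ (G.natDegree - F.natDegree) * aeval s⁻¹ F.reverse
      letI : Invertible s := invertibleOfNonzero hs0
      have h1 : aeval s⁻¹ G.reverse * s ^ G.natDegree = aeval s G := by
        have := eval₂_reverse_mul_pow (algebraMap k L') s G
        rw [invOf_eq_inv] at this
        exact this
      have h2 : aeval s⁻¹ F.reverse * s ^ F.natDegree = aeval s F := by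
        have := eval₂_reverse_mul_pow (algebraMap k L') s F
        rw [invOf_eq_inv] at this
        exact this
      rw [← h1, ← h2] at hs
      rw [map_inv₀]
      have h3 : s ^ G.natDegree = s ^ (G.natDegree - F.natDegree) * s ^ F.natDegree := by
        rw [← pow_add, Nat.sub_add_cancel hd.le]
      rw [h3] at hs
      have h4 : s ^ F.natDegree ≠ 0 := pow_ne_zero _ hs0
      have h5 : s ^ (G.natDegree - F.natDegree) ≠ 0 := pow_ne_zero _ hs0
      have h6 : aeval s⁻¹ G.reverse * s ^ (G.natDegree - F.natDegree) = φ t * aeval s⁻¹ F.reverse := by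
        apply mul_right_cancel₀ h4
        linear_combination hs
      rw [inv_pow]
      generalize aeval s⁻¹ G.reverse = x at h6 ⊢
      generalize aeval s⁻¹ F.reverse = y at h6 ⊢
      field_simp
      linear_combination h6
  · by_cases h : F.eval a = 0
    · obtain ⟨F₁, h1, h2⟩ := exists_eq_pow_rootMultiplicity_mul_and_not_dvd _ (F_ne hc hd) a
      refine ⟨G.comp (X + C a), F₁.comp (X + C a), ?_, ?_, ?_⟩
      · rw [eval_comp]
        simpa using eval_ne hc h
      · rw [eval_comp]
        have : F₁.eval a ≠ 0 := fun h0 => h2 (dvd_iff_isRoot.2 h0)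
        simpa using this
      · rw [rv_pole h, rm_pole h]
        show φ t⁻¹ * aeval (s - cc k L' a) (G.comp (X + C a)) = (s - cc k L' a) ^ F.rootMultiplicity a *
          aeval (s - cc k L' a) (F₁.comp (X + C a))
        rw [q1_shift, q1_shift, hs, map_inv₀, inv_mul_cancel_left₀ ht0]
        have h3 := congrArg (aeval s) h1
        rw [map_mul, map_pow, map_sub, aeval_C, aeval_X] at h3
        exact h3
    · obtain ⟨H, h1, h2⟩ := exists_eq_pow_rootMultiplicity_mul_and_not_dvd _ (sub_ne hd (G.eval a / F.eval a)) a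
      refine ⟨F.comp (X + C a), H.comp (X + C a), ?_, ?_, ?_⟩
      · rw [eval_comp]
        simpa using h
      · rw [eval_comp]
        have : H.eval a ≠ 0 := fun h0 => h2 (dvd_iff_isRoot.2 h0)
        simpa using this
      · rw [rv_val h, rm_val h]
        show φ (t - cc k L (G.eval a / F.eval a)) * aeval (s - cc k L' a) (F.comp (X + C a)) =
          (s - cc k L' a) ^ (G - C (G.eval a / F.eval a) * F).rootMultiplicity a *
          aeval (s - cc k L' a) (H.comp (X + C a))
        rw [q1_shift, q1_shift, map_sub, AlgHom.commutes]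
        have h3 := congrArg (aeval s) h1
        rw [map_mul, map_pow, map_sub, map_sub, map_mul, aeval_C, aeval_C, aeval_X, hs] at h3
        rw [sub_mul]
        exact h3

include hc hd in
/-- the pull-back is unramified -/
theorem rpull [IsAlgClosed k] [CharZero k] {L : Type} [Field L] [Algebra k L] (hL : FunF k 1 L) {t : L} (ht : NC k t)
    (hr : ∀ p : Option k, Ram t (rv G F p) (rm G F p)) :
    ∃ (L' : Type) (_ : Field L') (_ : Algebra k L') (φ : L →ₐ[k] L') (s : L'), IsEt φ ∧ FunF k 1 L' ∧ NC k s ∧
      aeval s G = φ t * aeval s F := by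
  have hdeg : 0 < (G.map (algebraMap k L) - C t * F.map (algebraMap k L)).natDegree := by
    rw [natDegree_sub_eq_left_of_natDegree_lt, natDegree_map]
    · omega
    · rw [natDegree_map]
      refine lt_of_le_of_lt (natDegree_C_mul_le t _) ?_
      rw [natDegree_map]
      exact hd
  obtain ⟨L', i1, i2, φ, s, hs, hfr, hF, hgen⟩ := ext_poly hL hdeg
  have hs' : aeval s G = φ t * aeval s F := by
    rw [eval₂_sub, eval₂_mul, eval₂_C, eval₂_map, eval₂_map, sub_eq_zero] at hs
    have h1 : (φ : L →+* L').comp (algebraMap k L) = algebraMap k L' := by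
      ext x
      exact φ.commutes x
    rw [h1] at hs
    exact hs
  have hφt : NC k (φ t) := ht.map φ
  have hsNC : NC k s := by
    rintro ⟨c, rfl⟩
    rw [aeval_algebraMap_apply, aeval_algebraMap_apply, coe_aeval_eq_eval] at hs'
    by_cases h : F.eval c = 0
    · rw [h, map_zero, mul_zero] at hs'
      exact eval_ne hc h ((map_eq_zero (algebraMap k L')).1 hs')
    · apply hφt
      refine ⟨G.eval c / F.eval c, ?_⟩
      rw [map_div₀, hs', mul_div_cancel_right₀]
      exact (map_ne_zero (algebraMap k L')).2 h
  refine ⟨L', i1, i2, φ, s, ⟨hfr, ?_⟩, hF, hsNC, hs'⟩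
  intro w
  apply unr_of_ap
  have key : ∀ p : Option k, 0 < w.ord (lp s p) → Ap φ w (lp s p) := by
    intro p hp
    obtain ⟨H₁, H₂, h1, h2, h3⟩ := loc_form hc hd hs' ht hsNC p
    exact ap_local hfr hF w (rm_pos hc hd p) hp (T := lp t (rv G F p)) (fun v hv => hr p v hv) h1 h2 h3
  have hAp : Ap φ w s := by
    by_cases hreg : w.Reg s
    · obtain ⟨a, ha⟩ := exists_value hF w hreg
      have h1 : 0 < w.ord (lp s (some a)) := ha.resolve_left (hsNC.sub_ne a)
      have h3 : Ap φ w (s - cc k L' a) := key (some a) h1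
      have h4 := h3.add (Ap.of φ w (algebraMap k L a))
      rw [AlgHom.commutes, sub_add_cancel] at h4
      exact h4
    · have hneg : w.ord s < 0 := by
        by_contra hcon
        exact hreg (Or.inr (not_lt.1 hcon))
      have h1 : 0 < w.ord (lp (k := k) s none) := by
        show 0 < w.ord s⁻¹
        rw [w.ord_inv]
        omega
      have h3 : Ap φ w s⁻¹ := key none h1
      have h4 := h3.inv
      rwa [inv_inv] at h4
  intro h
  obtain ⟨P, rfl⟩ := hgen h
  exact hAp.eval₂ P

theorem lp_ne {s : L} (hsn : NC k s) (p : Option k) : lp s p ≠ 0 := by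
  rcases p with _ | a
  · exact inv_ne_zero hsn.ne_zero
  · exact hsn.sub_ne a

include hc hd in
/-- the ramification of `s` -/
theorem rram {φ : L →ₐ[k] L'} (hφ : IsEt φ) {t : L} {s : L'} (ht : NC k t) (hsn : NC k s)
    (hs : aeval s G = φ t * aeval s F) {p : Option k} {m : ℕ} (h : Ram t (rv G F p) (rm G F p * m)) : Ram s p m := by
  intro w hw
  obtain ⟨v, hv⟩ := hφ.restr w
  obtain ⟨H₁, H₂, h1, h2, h3⟩ := loc_form hc hd hs ht hsn p
  have hz : w.Zer (lp s p - algebraMap k L' 0) := by
    rw [map_zero, sub_zero]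
    exact Or.inr hw
  have g1 := Place.val_aeval hz H₁
  have g2 := Place.val_aeval hz H₂
  have g1' := Place.ne_zero_of_val g1 h1
  have g2' := Place.ne_zero_of_val g2 h2
  have h4 : v.ord (lp t (rv G F p)) = rm G F p * w.ord (lp s p) := by
    have h5 := congrArg w.ord h3
    rw [w.ord_mul _ _ ((map_ne_zero φ).2 (lp_ne ht _)) g1', w.ord_mul _ _ (pow_ne_zero _ (lp_ne hsn p)) g2',
      w.ord_pow, Place.ord_eq_zero_of_val g1 h1, Place.ord_eq_zero_of_val g2 h2, add_zero, add_zero] at h5
    rw [hv]
    exact h5
  have hmu : (0 : ℤ) < rm G F p := by exact_mod_cast rm_pos hc hd p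
  have h5 : 0 < v.ord (lp t (rv G F p)) := by
    rw [h4]
    exact mul_pos hmu hw
  have h6 := h v h5
  rw [h4, Nat.cast_mul] at h6
  exact (mul_dvd_mul_iff_left hmu.ne').1 h6

end

end Pool.Agent.LibRF77
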