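import Pool.Agent.LibRF77.Q1
import Pool.Agent.LibVT36.Fin

/-!
[RF77 Q2] Counting: the fibres of a rational map and the Riemann-Hurwitz inequality; the pull-back of a hyperbolic signature.
-/

open scoped Classical

namespace Pool.Agent.LibRF77

open Pool.Agent.LibBH2
open Pool.Agent.LibCHd (FunF)
open Pool.Agent.LibVT36 (cc IsEt NC lp Ram Orb)
open Polynomial

variable {k : Type} [Field k]

section

variable {G F : k[X]} (hc : IsCoprime G F) (hd : F.natDegree < G.natDegree)

/-- the order of the numerator of the derivative -/
private theorem q2_mult [CharZero k] {P Q : k[X]} {a : k} (hP : P ≠ 0) (hPa : P.eval a = 0) (hQ : Q.eval a ≠ 0)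
    (h0 : derivative P * Q - P * derivative Q ≠ 0) :
    (derivative P * Q - P * derivative Q).rootMultiplicity a = P.rootMultiplicity a - 1 := by
  obtain ⟨H, h1, h2⟩ := exists_eq_pow_rootMultiplicity_mul_and_not_dvd _ hP a
  have hm : 0 < P.rootMultiplicity a := (rootMultiplicity_pos hP).2 hPa
  obtain ⟨μ, hμ⟩ : ∃ μ, P.rootMultiplicity a = μ + 1 := ⟨P.rootMultiplicity a - 1, by omega⟩
  rw [hμ] at h1 ⊢
  have hH : H.eval a ≠ 0 := fun h => h2 (dvd_iff_isRoot.2 h)
  have e1 : derivative P * Q - P * derivative Q =
      (X - C a) ^ μ * (C ((μ : k) + 1) * H * Q + (X - C a) * (derivative H * Q - H * derivative Q)) := by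
    rw [h1, derivative_mul, derivative_X_sub_C_pow, pow_succ]
    simp only [map_add, map_one, map_natCast, Nat.cast_add, Nat.cast_one, Nat.add_sub_cancel]
    ring
  have e2 : (C ((μ : k) + 1) * H * Q + (X - C a) * (derivative H * Q - H * derivative Q)).eval a ≠ 0 := by
    simp only [eval_add, eval_mul, eval_C, eval_sub, eval_X, sub_self, zero_mul, add_zero]
    exact mul_ne_zero (mul_ne_zero (by exact_mod_cast Nat.succ_ne_zero μ) hH) hQ
  have e3 : (C ((μ : k) + 1) * H * Q + (X - C a) * (derivative H * Q - H * derivative Q)) ≠ 0 := by
    intro h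
    rw [h] at e2
    simp at e2
  rw [e1, rootMultiplicity_mul (by rw [← e1]; exact h0), rootMultiplicity_X_sub_C_pow,
    rootMultiplicity_eq_zero (fun h => e2 h)]
  simp

include hc hd in
theorem wr_ne [CharZero k] : derivative G * F - G * derivative F ≠ 0 := by
  intro h
  have hF := F_ne hc hd
  have hG := G_ne hd
  -- compare the coefficients of degree `n + f - 1`
  have h1 : derivative G * F = G * derivative F := sub_eq_zero.1 h
  have h2 : F ∣ derivative F := by
    have : F ∣ G * derivative F := by
      rw [← h1]
      exact dvd_mul_left _ _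
    exact (hc.symm).dvd_of_dvd_mul_left this
  have h3 : derivative F = 0 := by
    by_contra h4
    have h5 := natDegree_le_of_dvd h2 h4
    by_cases h6 : F.natDegree = 0
    · rw [natDegree_eq_zero] at h6
      obtain ⟨c, hc'⟩ := h6
      rw [← hc'] at h4
      simp at h4
    · have := natDegree_derivative_lt h6
      omega
  rw [h3, mul_zero] at h1
  have h4 : derivative G = 0 := (mul_eq_zero.1 h1).resolve_right hF
  have h5 := natDegree_eq_zero_of_derivative_eq_zero h4
  omega

include hc hd in
theorem wr_mult [CharZero k] (a : k) :
    (derivative G * F - G * derivative F).rootMultiplicity a = rm G F (some a) - 1 := by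
  by_cases h : F.eval a = 0
  · rw [rm_pole h]
    have e : derivative G * F - G * derivative F = derivative F * (-G) - F * derivative (-G) := by
      rw [derivative_neg]
      ring
    rw [e]
    refine q2_mult (F_ne hc hd) h ?_ ?_
    · rw [eval_neg]
      exact neg_ne_zero.2 (eval_ne hc h)
    · rw [← e]
      exact wr_ne hc hd
  · rw [rm_val h]
    have e : derivative G * F - G * derivative F = derivative (G - C (G.eval a / F.eval a) * F) * F -
        (G - C (G.eval a / F.eval a) * F) * derivative F := by
      rw [derivative_sub, derivative_C_mul]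
      ring
    rw [e]
    refine q2_mult (sub_ne hd _) ?_ h ?_
    · rw [eval_sub, eval_mul, eval_C, div_mul_cancel₀ _ h, sub_self]
    · rw [← e]
      exact wr_ne hc hd

include hd in
theorem wr_deg : (derivative G * F - G * derivative F).natDegree ≤ G.natDegree + F.natDegree - 1 := by
  have hn : G.natDegree ≠ 0 := by omega
  have h1 := natDegree_derivative_lt hn
  refine (natDegree_sub_le _ _).trans (max_le ?_ ?_)
  · refine natDegree_mul_le.trans ?_
    omega
  · by_cases hf : F.natDegree = 0
    · rw [natDegree_eq_zero] at hf
      obtain ⟨c, rfl⟩ := hf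
      rw [derivative_C, mul_zero, natDegree_zero]
      exact Nat.zero_le _
    · have := natDegree_derivative_lt hf
      refine natDegree_mul_le.trans ?_
      omega

/-- total ramification at a finite set of points -/
theorem sum_ram (hc : IsCoprime G F) (hd : F.natDegree < G.natDegree) [CharZero k] (T : Finset (Option k)) :
    ∑ p ∈ T, (rm G F p - 1) ≤ 2 * G.natDegree - 2 := by
  set W := derivative G * F - G * derivative F with hW
  have hW0 : W ≠ 0 := wr_ne hc hd
  have h0 : ∀ A : Finset k, ∑ a ∈ A, (rm G F (some a) - 1) ≤ G.natDegree + F.natDegree - 1 := by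
    intro A
    have h1 : ∑ a ∈ A, (rm G F (some a) - 1) ≤ ∑ a ∈ W.roots.toFinset, W.roots.count a := by
      have h2 : ∑ a ∈ A, (rm G F (some a) - 1) = ∑ a ∈ A ∩ W.roots.toFinset, (rm G F (some a) - 1) := by
        symm
        apply Finset.sum_subset Finset.inter_subset_left
        intro a ha hna
        rw [← wr_mult hc hd, ← count_roots]
        apply Multiset.count_eq_zero_of_notMem
        intro h3
        exact hna (Finset.mem_inter.2 ⟨ha, Multiset.mem_toFinset.2 h3⟩)
      rw [h2]
      have h3 : ∑ a ∈ A ∩ W.roots.toFinset, (rm G F (some a) - 1) =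
          ∑ a ∈ A ∩ W.roots.toFinset, W.roots.count a := by
        refine Finset.sum_congr rfl fun a _ => ?_
        rw [count_roots, wr_mult hc hd]
      rw [h3]
      exact Finset.sum_le_sum_of_subset Finset.inter_subset_right
    rw [Multiset.toFinset_sum_count_eq] at h1
    exact h1.trans ((card_roots' _).trans (wr_deg hd))
  have h1 : ∑ p ∈ T, (rm G F p - 1) ≤ ∑ p ∈ Finset.insertNone (Finset.eraseNone T), (rm G F p - 1) := by
    refine Finset.sum_le_sum_of_subset ?_
    rw [Finset.insertNone_eraseNone]
    exact Finset.subset_insert _ _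
  refine h1.trans ?_
  rw [Finset.sum_insertNone, rm_none]
  have h2 := h0 (Finset.eraseNone T)
  omega

/-- the fibre over a point -/
noncomputable def fib (G F : k[X]) : Option k → Finset (Option k)
  | none => Finset.insertNone F.roots.toFinset
  | some b => (G - C b * F).roots.toFinset.map Function.Embedding.some

theorem mem_fib (hc : IsCoprime G F) (hd : F.natDegree < G.natDegree) (p q : Option k) : p ∈ fib G F q ↔ rv G F p = q := by
  rcases q with _ | b
  · show p ∈ Finset.insertNone F.roots.toFinset ↔ _
    rcases p with _ | a
    · simp [rv_none]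
    · rw [Finset.some_mem_insertNone, Multiset.mem_toFinset, mem_roots (F_ne hc hd), IsRoot.def]
      by_cases h : F.eval a = 0
      · simp [rv_pole h, h]
      · simp [rv_val h, h]
  · show p ∈ (G - C b * F).roots.toFinset.map Function.Embedding.some ↔ _
    rcases p with _ | a
    · simp [rv_none]
    · rw [Finset.mem_map]
      have e : (∃ x ∈ (G - C b * F).roots.toFinset, Function.Embedding.some x = some a) ↔ (G - C b * F).eval a = 0 := by
        constructor
        · rintro ⟨x, hx, hxa⟩
          have : x = a := Option.some.inj hxa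
          rw [← this]
          rw [Multiset.mem_toFinset, mem_roots (sub_ne hd _)] at hx
          exact hx
        · intro h
          exact ⟨a, by rw [Multiset.mem_toFinset, mem_roots (sub_ne hd _)]; exact h, rfl⟩
      rw [e, eval_sub, eval_mul, eval_C, sub_eq_zero]
      by_cases h : F.eval a = 0
      · rw [h, mul_zero, rv_pole h]
        simp [eval_ne hc h]
      · rw [rv_val h, Option.some_inj, div_eq_iff h]

theorem sum_fib [IsAlgClosed k] (hc : IsCoprime G F) (hd : F.natDegree < G.natDegree) (q : Option k) :
    ∑ p ∈ fib G F q, rm G F p = G.natDegree := by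
  rcases q with _ | b
  · show ∑ p ∈ Finset.insertNone F.roots.toFinset, rm G F p = _
    rw [Finset.sum_insertNone, rm_none]
    have h1 : ∑ a ∈ F.roots.toFinset, rm G F (some a) = ∑ a ∈ F.roots.toFinset, F.roots.count a := by
      refine Finset.sum_congr rfl fun a ha => ?_
      rw [Multiset.mem_toFinset, mem_roots (F_ne hc hd)] at ha
      rw [rm_pole ha, count_roots]
    rw [h1, Multiset.toFinset_sum_count_eq, splits_iff_card_roots.1 (IsAlgClosed.splits F)]
    omega
  · show ∑ p ∈ (G - C b * F).roots.toFinset.map Function.Embedding.some, rm G F p = _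
    rw [Finset.sum_map]
    have h1 : ∑ a ∈ (G - C b * F).roots.toFinset, rm G F (Function.Embedding.some a) =
        ∑ a ∈ (G - C b * F).roots.toFinset, (G - C b * F).roots.count a := by
      refine Finset.sum_congr rfl fun a ha => ?_
      rw [Multiset.mem_toFinset, mem_roots (sub_ne hd _), IsRoot.def, eval_sub, eval_mul, eval_C, sub_eq_zero] at ha
      have h2 : F.eval a ≠ 0 := by
        intro h
        rw [h, mul_zero] at ha
        exact eval_ne hc h ha
      show rm G F (some a) = _
      rw [rm_val h2, count_roots, (div_eq_iff h2).2 ha]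
    rw [h1, Multiset.toFinset_sum_count_eq, splits_iff_card_roots.1 (IsAlgClosed.splits _), deg_sub hd]

end

end Pool.Agent.LibRF77
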