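import Pool.Agent.LibRF77.Q2

/-!
[RF77 Q3] The pull-back of a hyperbolic signature by a rational map of degree at least two.
-/

open scoped Classical

namespace Pool.Agent.LibRF77

open Pool.Agent.LibBH2
open Pool.Agent.LibCHd (FunF)
open Pool.Agent.LibVT36 (cc IsEt NC lp Ram Orb)
open Pool.Agent.LibPS77 (ram_mono ram_one)
open Polynomial

variable {k : Type} [Field k]

theorem orb_rpull [IsAlgClosed k] [CharZero k] {L : Type} [Field L] [Algebra k L] (hL : FunF k 1 L) {t : L}
    (ht : NC k t) {S : Finset (Option k)} {n : Option k → ℕ} (h : ∀ p ∈ S, 2 ≤ n p ∧ Ram t p (n p))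
    (hs : (2 : ℚ) < ∑ p ∈ S, ((1 : ℚ) - 1 / n p)) {G F : k[X]} (hc : IsCoprime G F) (hd : F.natDegree < G.natDegree)
    (h2 : 2 ≤ G.natDegree) (hram : ∀ p : Option k, rm G F p = 1 ∨ rv G F p ∈ S ∧ rm G F p ∣ n (rv G F p))
    (hdiv : ∀ p p' : Option k, rv G F p = rv G F p' → rm G F p ∣ rm G F p' ∨ rm G F p' ∣ rm G F p) :
    ∃ (L' : Type) (_ : Field L') (_ : Algebra k L') (φ : L →ₐ[k] L'), IsEt φ ∧ FunF k 1 L' ∧ Orb k L' := by
  have hdvd : ∀ p : Option k, rm G F p ∣ n (rv G F p) := by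
    intro p
    rcases hram p with h1 | h1
    · rw [h1]
      exact one_dvd _
    · exact h1.2
  obtain ⟨L', i1, i2, φ, s, hφ, hF, hsNC, hsf⟩ := rpull hc hd hL ht (by
    intro p
    rcases hram p with h1 | h1
    · rw [h1]
      exact ram_one
    · exact ram_mono (h _ h1.1).2 h1.2)
  set n' : Option k → ℕ := fun p => n (rv G F p) / rm G F p with hn'
  set T : Finset (Option k) := S.biUnion (fib G F) with hT
  have hmemT : ∀ p, p ∈ T ↔ rv G F p ∈ S := by
    intro p
    rw [hT, Finset.mem_biUnion]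
    constructor
    · rintro ⟨q, hq, hpq⟩
      rw [(mem_fib hc hd p q).1 hpq]
      exact hq
    · intro h1
      exact ⟨_, h1, (mem_fib hc hd p _).2 rfl⟩
  have hpos : ∀ p ∈ T, 1 ≤ n' p := by
    intro p hp
    have h1 := (h _ ((hmemT p).1 hp)).1
    exact Nat.div_pos (Nat.le_of_dvd (by omega) (hdvd p)) (rm_pos hc hd p)
  set S' : Finset (Option k) := T.filter (fun p => 2 ≤ n' p) with hS'
  have hR : ∀ p ∈ S', 2 ≤ n' p ∧ Ram s p (n' p) := by
    intro p hp
    rw [hS', Finset.mem_filter] at hp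
    refine ⟨hp.2, rram hc hd hφ ht hsNC hsf ?_⟩
    rw [hn']
    simp only
    rw [Nat.mul_div_cancel' (hdvd p)]
    exact (h _ ((hmemT p).1 hp.1)).2
  -- the sum
  have hsum : ∑ q ∈ S', ((1 : ℚ) - 1 / n' q) = ∑ q ∈ T, ((1 : ℚ) - 1 / n' q) := by
    rw [hS']
    apply Finset.sum_filter_of_ne
    intro q hq hne
    by_contra hcon
    apply hne
    have h1 := hpos q hq
    have h2 : n' q = 1 := by omega
    rw [h2]
    norm_num
  have hdisj : (S : Set (Option k)).PairwiseDisjoint (fib G F) := by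
    intro b _ b' _ hbb
    rw [Function.onFun, Finset.disjoint_left]
    intro a ha ha'
    exact hbb (((mem_fib hc hd a b).1 ha).symm.trans ((mem_fib hc hd a b').1 ha'))
  set d : ℚ := (G.natDegree : ℚ) with hdd
  have hd2 : (2 : ℚ) ≤ d := by
    rw [hdd]
    exact_mod_cast h2
  have hpart : ∀ q ∈ S, ∑ p ∈ fib G F q, ((1 : ℚ) - 1 / n' p) =
      d * (1 - 1 / n q) - ∑ p ∈ fib G F q, ((rm G F p - 1 : ℕ) : ℚ) := by
    intro q hq
    have hnb : (0 : ℚ) < n q := by
      have := (h _ hq).1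
      exact_mod_cast (by omega : 0 < n q)
    have h1 : d = ∑ p ∈ fib G F q, (rm G F p : ℚ) := by
      rw [hdd, ← sum_fib hc hd q, Nat.cast_sum]
    rw [h1, Finset.sum_mul, ← Finset.sum_sub_distrib]
    refine Finset.sum_congr rfl fun p hp => ?_
    have hpq : rv G F p = q := (mem_fib hc hd p q).1 hp
    have h2 : (n' p : ℚ) = n q / rm G F p := by
      show ((n (rv G F p) / rm G F p : ℕ) : ℚ) = _
      rw [Nat.cast_div (hdvd p) (by exact_mod_cast (rm_pos hc hd p).ne'), hpq]
    rw [h2, Nat.cast_sub (rm_pos hc hd p), one_div_div]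
    push_cast
    field_simp
    ring
  have htot : ∑ q ∈ T, ((1 : ℚ) - 1 / n' q) =
      d * ∑ p ∈ S, ((1 : ℚ) - 1 / n p) - ∑ p ∈ T, ((rm G F p - 1 : ℕ) : ℚ) := by
    rw [hT, Finset.sum_biUnion hdisj, Finset.sum_biUnion hdisj, Finset.sum_congr rfl hpart]
    rw [Finset.sum_sub_distrib, ← Finset.mul_sum]
  have hram' : ∑ p ∈ T, ((rm G F p - 1 : ℕ) : ℚ) ≤ 2 * d - 2 := by
    have h1 := sum_ram hc hd T
    have h3 : ((∑ p ∈ T, (rm G F p - 1) : ℕ) : ℚ) ≤ ((2 * G.natDegree - 2 : ℕ) : ℚ) := by exact_mod_cast h1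
    rw [Nat.cast_sum, Nat.cast_sub (by omega)] at h3
    push_cast at h3 ⊢
    exact h3
  have hbig : d * (∑ p ∈ S, ((1 : ℚ) - 1 / n p) - 2) ≤ ∑ q ∈ S', ((1 : ℚ) - 1 / n' q) - 2 := by
    rw [hsum, htot]
    linarith
  refine ⟨L', i1, i2, φ, hφ, hF, s, S', n', hsNC, hR, ?_, ?_⟩
  · nlinarith [hs, hd2, hbig]
  · by_contra hcop
    push Not at hcop
    -- at most one point over each point of S
    have hinj : ∀ p ∈ S', ∀ p' ∈ S', rv G F p = rv G F p' → p = p' := by
      intro p hp p' hp' hpp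
      by_contra hne
      have h3 := hcop p hp p' hp' hne
      have hb := (hR p hp).1
      have hb' := (hR p' hp').1
      have e1 : n' p = n (rv G F p) / rm G F p := rfl
      have e2 : n' p' = n (rv G F p) / rm G F p' := by
        show n (rv G F p') / rm G F p' = _
        rw [hpp]
      have hd1 : rm G F p ∣ n (rv G F p) := hdvd p
      have hd2' : rm G F p' ∣ n (rv G F p) := by
        rw [hpp]
        exact hdvd p'
      rcases hdiv p p' hpp with h4 | h4
      · have h5 : n' p' ∣ n' p := by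
          rw [e1, e2]
          exact Nat.div_dvd_div_left hd2' h4
        have h6 := Nat.Coprime.eq_one_of_dvd h3.symm h5
        omega
      · have h5 : n' p ∣ n' p' := by
          rw [e1, e2]
          exact Nat.div_dvd_div_left hd1 h4
        have h6 := Nat.Coprime.eq_one_of_dvd h3 h5
        omega
    have hle : ∑ q ∈ S', ((1 : ℚ) - 1 / n' q) ≤ ∑ p ∈ S, ((1 : ℚ) - 1 / n p) := by
      have h3 : ∑ q ∈ S', ((1 : ℚ) - 1 / n' q) ≤ ∑ q ∈ S', ((1 : ℚ) - 1 / n (rv G F q)) := by
        refine Finset.sum_le_sum fun q hq => ?_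
        have h4 := (hR q hq).1
        have h5 : n' q ≤ n (rv G F q) := Nat.div_le_self _ _
        have h6 : (0 : ℚ) < n' q := by exact_mod_cast (by omega : 0 < n' q)
        have h7 : (n' q : ℚ) ≤ n (rv G F q) := by exact_mod_cast h5
        have h8 : (1 : ℚ) / n (rv G F q) ≤ 1 / n' q := one_div_le_one_div_of_le h6 h7
        linarith
      have h4 : ∑ q ∈ S', ((1 : ℚ) - 1 / n (rv G F q)) = ∑ p ∈ S'.image (rv G F), ((1 : ℚ) - 1 / n p) := by
        rw [Finset.sum_image]
        intro p hp p' hp' hpp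
        exact hinj p hp p' hp' hpp
      have h5 : S'.image (rv G F) ⊆ S := by
        intro q hq
        obtain ⟨p, hp, rfl⟩ := Finset.mem_image.1 hq
        rw [hS', Finset.mem_filter] at hp
        exact (hmemT p).1 hp.1
      rw [h4] at h3
      refine h3.trans (Finset.sum_le_sum_of_subset_of_nonneg h5 ?_)
      intro p hp _
      have h6 := (h p hp).1
      have h7 : (1 : ℚ) ≤ n p := by exact_mod_cast (by omega : 1 ≤ n p)
      have h8 : (1 : ℚ) / n p ≤ 1 := by
        rw [div_le_one (by linarith)]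
        exact h7
      linarith
    nlinarith [hs, hd2, hbig, hle]

end Pool.Agent.LibRF77
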