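import Pool.Agent.LibRF77.RB

/-!
[RF77 R1] The difference `A B ^ q - v_i F` at the balls around a reachable critical point `c i` (`ee (c i) ρ ≥ 1` for all `ρ ≥ 1`); `v_i` has order `0`, all special points are at distance `≥ 0` from `c i`. Put `N = A B ^ q - v_i F`, `S ρ = ∑ j, od w ρ (ph j - c i)` (content of `F`), `B0, F0, C0` the reductions of
`PA be, PA ph, ∏ (X - c) ^ m` at `(c i, ρ)`, contents `b, S, g`, `a` the content of `PA al`.
`r1_der`: `N' F - N F' = B ^ (q-1) WW = r B ^ (q-1) ∏ (X - c) ^ m`.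
`r1`: claim: for `ρ ≥ 1` the content of `sh N` is exactly `kk (c i) ρ + S ρ`. Let `n` be its content, `N0` the reduction (`red_exists`). `kk (c i) 0 = 0`, so `kk (c i) ρ ≥ 1` for `ρ ≥ 1`, `om (c i) ρ = 0` for `ρ ≥ 2` (`Loc.pos`) and for `ρ = 1` (`Loc.zr`: `ee ≥ 1`); so `a + q b = S` (`ww_succ`, `ww_base`).
From `r1_der` (sheared: factor `π ^ ρ`): content of the right side `ρ + (q-1) b + g`, reduction `r B0 ^ (q-1) C0 ≠ 0`; left side: `n + S`, `N0' F0 - N0 F0'`. So `n + S ≤ ρ + (q-1) b + g`, i.e. `n ≤ kk + S` (`kk = ρ + g - a - b - S`, `S = a + q b`), and `n = kk + S` iff `N0' F0 - N0 F0' ≠ 0`.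
Descending induction on `ρ`. For large `ρ` (`ρ >` all orders of `y j - c i ≠ 0`): `C0` has the only root `0` with multiplicity `m i` (or the sum of the `m j` with `c j = c i`), `F0`, `B0` are constants, `N0` is not constant: `N (c i) = 0`, `N0(0) = 0`, so `N0' F0 - N0 F0' = F0 N0' ≠ 0`. Step `ρ + 1 → ρ`: if `N0' F0 - N0 F0' = 0`, then
`N0 = λ F0` (characteristic 0), so `mult_0 N0 = mult_0 F0 = f1 := #(ball w ph (c i) (ρ + 1))`; `red_down`: content of `N` at `ρ + 1` is `≤ n + f1`, `S (ρ + 1) = S ρ + f1`, so `kk (ρ + 1) ≤ n + f1 - S (ρ + 1) = n - S ρ ≤ kk ρ = kk (ρ + 1) - ee (c i) (ρ + 1) < kk (ρ + 1)`: contradiction.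
The inequality `mult_0 F0 < mult_0 N0`: same argument: otherwise `kk (ρ + 1) + S (ρ + 1) = ` content at `ρ + 1` `≤ kk ρ + S ρ + mult_0 N0 ≤ kk ρ + S (ρ + 1)`.
`r1c`: the same at another centre `p` of the same ball, `z` the residue of `(c i - p) π ^ (-ρ)`: `sh_center`, `red_comp`; root multiplicities at `z` (`rootMultiplicity` of a `comp (X + C _)`); `S` is unchanged (`od`: ultrametric), `kk_eq`.
-/

open scoped Classical

namespace Pool.Agent.LibRF77

open Polynomial
open Pool.Agent.LibBH2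
open Pool.Agent.LibCHd (FunF)
open Pool.Agent.LibEX36 (PA RP)
open Pool.Agent.LibPS77 (Ge)

variable {K : Type} [Field K] {L : Type} [Field L] [Algebra K L]

private theorem R1_deg [CharZero K] {P F : K[X]} (hP : P ≠ 0) (hF : F ≠ 0)
    (h : derivative P * F = P * derivative F) : P.natDegree = F.natDegree := by
  by_cases hP0 : P.natDegree = 0
  · have h1 : derivative P = 0 := by
      rw [Polynomial.eq_C_of_natDegree_eq_zero hP0, derivative_C]
    rw [h1, zero_mul] at h
    have h2 : derivative F = 0 := (mul_eq_zero.1 h.symm).resolve_left hP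
    rw [hP0, Polynomial.derivative_eq_zero.1 h2]
  by_cases hF0 : F.natDegree = 0
  · have h1 : derivative F = 0 := by
      rw [Polynomial.eq_C_of_natDegree_eq_zero hF0, derivative_C]
    rw [h1, mul_zero] at h
    have h2 : derivative P = 0 := (mul_eq_zero.1 h).resolve_right hF
    rw [hF0, Polynomial.derivative_eq_zero.1 h2]
  obtain ⟨k, hk⟩ := Nat.exists_eq_succ_of_ne_zero hP0
  obtain ⟨l, hl⟩ := Nat.exists_eq_succ_of_ne_zero hF0
  have hdP : (derivative P).natDegree ≤ k := by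
    have := Polynomial.natDegree_derivative_le P
    omega
  have hdF : (derivative F).natDegree ≤ l := by
    have := Polynomial.natDegree_derivative_le F
    omega
  have c1 : (derivative P * F).coeff (k + (l + 1)) = (derivative P).coeff k * F.coeff (l + 1) :=
    Polynomial.coeff_mul_add_eq_of_natDegree_le hdP hl.le
  have c2 : (P * derivative F).coeff ((k + 1) + l) = P.coeff (k + 1) * (derivative F).coeff l :=
    Polynomial.coeff_mul_add_eq_of_natDegree_le hk.le hdF
  rw [h, show k + (l + 1) = (k + 1) + l from by omega, c2, coeff_derivative, coeff_derivative] at c1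
  have hPc : P.coeff (k + 1) ≠ 0 := by
    have h3 := Polynomial.leadingCoeff_ne_zero.2 hP
    rwa [Polynomial.leadingCoeff, hk] at h3
  have hFc : F.coeff (l + 1) ≠ 0 := by
    have h3 := Polynomial.leadingCoeff_ne_zero.2 hF
    rwa [Polynomial.leadingCoeff, hl] at h3
  have h4 : P.coeff (k + 1) * F.coeff (l + 1) * ((l : K) - k) = 0 := by
    linear_combination c1
  have h5 : (l : K) - k = 0 := (mul_eq_zero.1 h4).resolve_left (mul_ne_zero hPc hFc)
  have h6 : l = k := Nat.cast_injective (R := K) (sub_eq_zero.1 h5)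
  omega

private theorem R1_prop [CharZero K] {P F : K[X]} (hP : P ≠ 0) (hF : F ≠ 0)
    (h : derivative P * F - P * derivative F = 0) : ∃ l : K, l ≠ 0 ∧ P = C l * F := by
  have h0 : derivative P * F = P * derivative F := sub_eq_zero.1 h
  have hd := R1_deg hP hF h0
  have hlP := Polynomial.leadingCoeff_ne_zero.2 hP
  have hlF := Polynomial.leadingCoeff_ne_zero.2 hF
  obtain ⟨l, hl⟩ : ∃ l : K, l = P.leadingCoeff / F.leadingCoeff := ⟨_, rfl⟩
  have hl0 : l ≠ 0 := by rw [hl]; exact div_ne_zero hlP hlF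
  refine ⟨l, hl0, ?_⟩
  by_contra hne
  have hD : P - C l * F ≠ 0 := sub_ne_zero.2 hne
  have h1 : derivative (P - C l * F) * F = (P - C l * F) * derivative F := by
    rw [derivative_sub, derivative_C_mul]
    linear_combination h0
  have h2 := R1_deg hD hF h1
  have h3 : (P - C l * F).degree < P.degree := by
    refine Polynomial.degree_sub_lt_left ?_ hP ?_
    · rw [Polynomial.degree_C_mul hl0, Polynomial.degree_eq_natDegree hP, Polynomial.degree_eq_natDegree hF, hd]
    · rw [Polynomial.leadingCoeff_mul, Polynomial.leadingCoeff_C, hl, div_mul_cancel₀ _ hlF]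
  rw [Polynomial.degree_eq_natDegree hD, Polynomial.degree_eq_natDegree hP, h2, hd] at h3
  exact lt_irrefl _ h3

private theorem R1_sums {w : Place K L} {q s b f : ℕ} {ι : Type} [Fintype ι] {m : ι → ℕ} {al : Fin s → L}
    {be : Fin b → L} {ph : Fin f → L} {c : ι → L} (p : L) (ρ : ℤ) :
    kk w (yy al be ph c) (ep m) p ρ = ρ - ∑ j, od w ρ (al j - p) - ∑ j, od w ρ (be j - p) - ∑ j, od w ρ (ph j - p) +
      ∑ j, (m j : ℤ) * od w ρ (c j - p) ∧
    ww w (yy al be ph c) (og q) p ρ = ∑ j, od w ρ (al j - p) + (q : ℤ) * ∑ j, od w ρ (be j - p) -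
      ∑ j, od w ρ (ph j - p) := by
  constructor
  · unfold kk
    rw [Fintype.sum_sum_type, Fintype.sum_sum_type, Fintype.sum_sum_type]
    simp only [yy, ep, Sum.elim_inl, Sum.elim_inr, neg_mul, one_mul, Finset.sum_neg_distrib]
    ring
  · unfold ww
    rw [Fintype.sum_sum_type, Fintype.sum_sum_type, Fintype.sum_sum_type]
    simp only [yy, og, Sum.elim_inl, Sum.elim_inr, neg_mul, one_mul, zero_mul, Finset.sum_neg_distrib,
      Finset.sum_const_zero, Finset.mul_sum]
    ring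

private theorem R1_S {w : Place K L} {f : ℕ} {ph : Fin f → L} (p : L) (ρ : ℤ) :
    ∑ j, od w (ρ + 1) (ph j - p) = ∑ j, od w ρ (ph j - p) + (ball w ph p (ρ + 1)).card := by
  have h := kk_succ (w := w) (y := ph) (ε := fun _ => 1) p ρ
  unfold kk ee at h
  simp only [one_mul, Finset.sum_const, nsmul_eq_mul, mul_one] at h
  linarith

private theorem R1_S_eq {w : Place K L} {f : ℕ} {ph : Fin f → L} {p p' : L} {ρ : ℤ} (hp : Ge w ρ (p' - p)) :
    ∑ j, od w ρ (ph j - p') = ∑ j, od w ρ (ph j - p) := by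
  have h := kk_eq (w := w) (y := ph) (ε := fun _ => 1) hp
  unfold kk at h
  simp only [one_mul] at h
  linarith

theorem r1_der {q s b f : ℕ} {ι : Type} [Fintype ι] {m : ι → ℕ}
    {al : Fin s → L} {be : Fin b → L} {ph : Fin f → L} {c v : ι → L} (hq : 1 ≤ q) (h : Cfg q m al be ph c v) (x : L) :
    derivative (PA al * PA be ^ q - C x * PA ph) * PA ph - (PA al * PA be ^ q - C x * PA ph) * derivative (PA ph) =
      C ((s : L) + (q : L) * (b : L) - (f : L)) * PA be ^ (q - 1) * ∏ i, (X - C (c i)) ^ m i := by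
  have e : derivative (PA al * PA be ^ q - C x * PA ph) * PA ph - (PA al * PA be ^ q - C x * PA ph) * derivative (PA ph) =
      PA be ^ (q - 1) * WW q (PA al) (PA be) (PA ph) := by
    obtain ⟨k, rfl⟩ : ∃ k, q = k + 1 := ⟨q - 1, by omega⟩
    simp only [WW, derivative_sub, derivative_mul, derivative_C, derivative_pow, Nat.add_sub_cancel, map_natCast]
    ring
  rw [e, h.der]
  ring

private theorem R1_core [IsAlgClosed K] [CharZero K] (hL : FunF K 1 L) (w : Place K L) {π : L} (hπ : w.ord π = 1)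
    {q s b f : ℕ} {ι : Type} [Fintype ι] {m : ι → ℕ} {al : Fin s → L} {be : Fin b → L} {ph : Fin f → L} {c v : ι → L}
    (hq : 1 ≤ q) (hr : f < s + q * b) (h : Cfg q m al be ph c v) (x : L) (p : L) (ρ : ℤ)
    (hww : ww w (yy al be ph c) (og q) p ρ = 0) {n : ℤ} {N0 : K[X]} (h0 : N0 ≠ 0)
    (hN : Red w π n (sh π p ρ (PA al * PA be ^ q - C x * PA ph)) N0) :
    n ≤ kk w (yy al be ph c) (ep m) p ρ + ∑ j, od w ρ (ph j - p) ∧
    (n < kk w (yy al be ph c) (ep m) p ρ + ∑ j, od w ρ (ph j - p) →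
      ∃ F0 : K[X], F0 ≠ 0 ∧ F0.natDegree = (ball w ph p ρ).card ∧
        F0.rootMultiplicity 0 = (ball w ph p (ρ + 1)).card ∧ ∃ l : K, l ≠ 0 ∧ N0 = C l * F0) := by
  have hπ0 : π ≠ 0 := by
    intro h1
    rw [h1, w.ord_zero] at hπ
    exact zero_ne_one hπ
  obtain ⟨B0, hB0, hB, -, -⟩ := red_PA hL hπ be p ρ
  obtain ⟨F0, hF0, hF, hFd, hFm⟩ := red_PA hL hπ ph p ρ
  obtain ⟨C0, hC0, hC, -, -⟩ := red_prod hL hπ c m p ρ
  obtain ⟨κ, hκ, hκr⟩ := red_C hL hπ (x := π ^ ρ) (zpow_ne_zero ρ hπ0)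
  have hordπ : w.ord (π ^ ρ) = ρ := by rw [w.ord_zpow, hπ, mul_one]
  rw [hordπ] at hκr
  obtain ⟨r, hrdef⟩ : ∃ r : K, r = (s : K) + (q : K) * (b : K) - (f : K) := ⟨_, rfl⟩
  have hrL : algebraMap K L r = (s : L) + (q : L) * (b : L) - (f : L) := by
    rw [hrdef]
    simp only [map_sub, map_add, map_mul, map_natCast]
  have hr0 : r ≠ 0 := by
    intro h1
    rw [hrdef, sub_eq_zero] at h1
    have h2 : s + q * b = f := by exact_mod_cast h1
    omega
  have key : derivative (sh π p ρ (PA al * PA be ^ q - C x * PA ph)) * sh π p ρ (PA ph) -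
      sh π p ρ (PA al * PA be ^ q - C x * PA ph) * derivative (sh π p ρ (PA ph)) =
      C (π ^ ρ) * (C (algebraMap K L r) * sh π p ρ (PA be) ^ (q - 1) * sh π p ρ (∏ i, (X - C (c i)) ^ m i)) := by
    have h1 := congrArg (sh π p ρ) (r1_der hq h x)
    rw [sh_sub, sh_mul, sh_mul, sh_mul, sh_mul, sh_C, sh_pow] at h1
    rw [sh_der, sh_der, hrL]
    linear_combination C (π ^ ρ) * h1
  have hLHS := red_sub (red_mul hπ (red_der hN) hF) (red_mul hπ hN (red_der hF))
  have hRHS := red_mul hπ hκr (red_mul hπ (red_mul hπ (red_const (w := w) (π := π) r) (red_pow hπ hB (q - 1))) hC)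
  rw [key] at hLHS
  have hR0 : C κ * (C r * B0 ^ (q - 1) * C0) ≠ 0 :=
    mul_ne_zero (C_ne_zero.2 hκ) (mul_ne_zero (mul_ne_zero (C_ne_zero.2 hr0) (pow_ne_zero _ hB0)) hC0)
  obtain ⟨e1, e2⟩ := R1_sums (w := w) (q := q) (m := m) (al := al) (be := be) (ph := ph) (c := c) p ρ
  rw [hww] at e2
  have hq' : ((q - 1 : ℕ) : ℤ) = (q : ℤ) - 1 := by
    rw [Nat.cast_sub hq, Nat.cast_one]
  rw [hq'] at hRHS
  constructor
  · by_contra hlt
    push Not at hlt
    refine hR0 (red_lt hπ hRHS hLHS ?_)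
    rw [e1] at hlt
    linarith
  · intro hlt
    have hQ := red_lt hπ hLHS hRHS (by rw [e1] at hlt; linarith)
    refine ⟨F0, hF0, hFd, ?_, R1_prop h0 hF0 hQ⟩
    have h2 := hFm 0
    rwa [map_zero, mul_zero, add_zero] at h2

theorem r1c [IsAlgClosed K] [CharZero K] (hL : FunF K 1 L) (w : Place K L) {π : L} (hπ : w.ord π = 1) {q s b f : ℕ} {ι : Type}
    [Fintype ι] {m : ι → ℕ} {al : Fin s → L} {be : Fin b → L} {ph : Fin f → L} {c v : ι → L} (hq : 1 ≤ q) (hm : ∀ i, 1 ≤ m i)
    (hr : f < s + q * b) (h : Cfg q m al be ph c v) (hd : ∀ i j, Ge w 0 (yy al be ph c i - yy al be ph c j)) {i : ι}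
    (hv : w.ord (v i) = 0) (hre : ∀ ρ, 1 ≤ ρ → 1 ≤ ee w (yy al be ph c) (ep m) (c i) ρ) {ρ : ℤ} (hρ : 1 ≤ ρ) {p : L}
    (hp : Ge w ρ (c i - p)) {z : K} (hz : Ge w (ρ + 1) (c i - (p + π ^ ρ * algebraMap K L z))) :
    ∃ N0 : K[X], N0 ≠ 0 ∧ Red w π (kk w (yy al be ph c) (ep m) p ρ + ∑ j, od w ρ (ph j - p))
        (sh π p ρ (PA al * PA be ^ q - C (v i) * PA ph)) N0 ∧
      (ball w ph (p + π ^ ρ * algebraMap K L z) (ρ + 1)).card < N0.rootMultiplicity z := by
  obtain ⟨N, hNdef⟩ : ∃ N : L[X], N = PA al * PA be ^ q - C (v i) * PA ph := ⟨_, rfl⟩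
  have hloc := cfg_loc hL w hq hm hr h
  have hπ0 : π ≠ 0 := by
    intro h1
    rw [h1, w.ord_zero] at hπ
    exact zero_ne_one hπ
  -- kk and ww
  have hkk0 : kk w (yy al be ph c) (ep m) (c i) 0 = 0 := kk_base hloc.sum fun j => hd j (cr i)
  have hkk : ∀ k : ℕ, (k : ℤ) ≤ kk w (yy al be ph c) (ep m) (c i) k ∧ ww w (yy al be ph c) (og q) (c i) k = 0 := by
    intro k
    induction k with
    | zero =>
      refine ⟨?_, ?_⟩
      · rw [Nat.cast_zero, hkk0]
      · rw [Nat.cast_zero, ww_base (p := c i) (fun j => hd j (cr i)), zero_mul]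
    | succ k ih =>
      obtain ⟨ih1, ih2⟩ := ih
      have hee := hre ((k : ℤ) + 1) (by have := Int.natCast_nonneg k; linarith)
      refine ⟨?_, ?_⟩
      · rw [Nat.cast_succ, kk_succ]
        linarith
      · rw [Nat.cast_succ, ww_succ, ih2, zero_add]
        rcases Nat.eq_zero_or_pos k with hk | hk
        · rw [hk] at hee ⊢
          obtain ⟨g1, g2⟩ := hloc.zr (c i) ((0 : ℕ) : ℤ) (by rw [Nat.cast_zero]; exact hkk0)
          by_contra hne
          have := g2.2 hne
          linarith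
        · refine hloc.pos _ _ (lt_of_lt_of_le ?_ ih1)
          exact_mod_cast hk
  have hww : ∀ σ : ℤ, 1 ≤ σ → ww w (yy al be ph c) (og q) (c i) σ = 0 := by
    intro σ hσ
    obtain ⟨k, rfl⟩ := Int.eq_ofNat_of_zero_le (le_trans zero_le_one hσ)
    exact (hkk k).2
  have hkks : ∀ σ : ℤ, 1 ≤ σ → kk w (yy al be ph c) (ep m) (c i) σ + 1 ≤ kk w (yy al be ph c) (ep m) (c i) (σ + 1) := by
    intro σ hσ
    rw [kk_succ]
    have := hre (σ + 1) (by linarith)
    linarith
  -- N (c i) = 0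
  have hNc : N.eval (c i) = 0 := by
    rw [hNdef, eval_sub, h.val i, eval_mul (p := C (v i)), eval_C, sub_self]
  have hcz : CharZero L := charZero_of_injective_algebraMap (algebraMap K L).injective
  have hphc : ∀ j, ph j ≠ c i := by
    intro j hj
    exact cfg_iso (q := q) (v := v) hq hm hr h (Sum.inr (Sum.inr (Sum.inl j))) (cr i) (by simp [ep]) (by simp) hj.symm
  have hN0 : N ≠ 0 := by
    intro h1
    have h2 := r1_der hq h (v i)
    rw [← hNdef, h1, derivative_zero, zero_mul, zero_mul, sub_zero] at h2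
    have h3 : (s : L) + (q : L) * (b : L) - (f : L) ≠ 0 := by
      intro h4
      have h5 : algebraMap K L ((s : K) + (q : K) * (b : K) - (f : K)) = 0 := by
        rw [← h4]
        simp only [map_sub, map_add, map_mul, map_natCast]
      have h6 := (map_eq_zero (algebraMap K L)).1 h5
      rw [sub_eq_zero] at h6
      have h7 : s + q * b = f := by exact_mod_cast h6
      omega
    refine absurd h2.symm (mul_ne_zero (mul_ne_zero (C_ne_zero.2 h3) (pow_ne_zero _ ?_)) ?_)
    · exact Finset.prod_ne_zero_iff.2 fun j _ => X_sub_C_ne_zero _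
    · exact Finset.prod_ne_zero_iff.2 fun j _ => pow_ne_zero _ (X_sub_C_ne_zero _)
  -- the step
  have hstep : ∀ σ : ℤ, 1 ≤ σ → (∃ (n : ℤ) (P : K[X]), P ≠ 0 ∧ Red w π n (sh π (c i) σ N) P ∧
      n < kk w (yy al be ph c) (ep m) (c i) σ + ∑ j, od w σ (ph j - c i)) →
      ∃ (n : ℤ) (P : K[X]), P ≠ 0 ∧ Red w π n (sh π (c i) (σ + 1) N) P ∧
      n < kk w (yy al be ph c) (ep m) (c i) (σ + 1) + ∑ j, od w (σ + 1) (ph j - c i) := by
    rintro σ hσ ⟨n, P, hP, hPr, hn⟩
    have hPr' := hPr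
    rw [hNdef] at hPr'
    obtain ⟨F0, hF0, -, hFm, l, hl, hPF⟩ := (R1_core hL w hπ hq hr h (v i) (c i) σ (hww σ hσ) hP hPr').2 hn
    obtain ⟨n', P1, hP1, hP1r, hn'⟩ := red_down hL hπ hPr hP
    rw [← sh_succ hπ] at hP1r
    refine ⟨n', P1, hP1, hP1r, ?_⟩
    have hmul : P.rootMultiplicity 0 = (ball w ph (c i) (σ + 1)).card := by
      rw [hPF, Polynomial.rootMultiplicity_mul (mul_ne_zero (C_ne_zero.2 hl) hF0), hFm]
      rw [Polynomial.rootMultiplicity_C, zero_add]
    rw [hmul] at hn'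
    have h1 := R1_S (w := w) (ph := ph) (c i) σ
    have h2 := hkks σ hσ
    linarith
  have hall : ∀ σ : ℤ, 1 ≤ σ → ∀ (n : ℤ) (P : K[X]), P ≠ 0 → Red w π n (sh π (c i) σ N) P →
      n = kk w (yy al be ph c) (ep m) (c i) σ + ∑ j, od w σ (ph j - c i) := by
    intro σ hσ n P hP hPr
    have hPr' := hPr
    rw [hNdef] at hPr'
    refine le_antisymm (R1_core hL w hπ hq hr h (v i) (c i) σ (hww σ hσ) hP hPr').1 ?_
    by_contra hlt
    push Not at hlt
    have hk : ∀ k : ℕ, ∃ (n : ℤ) (P : K[X]), P ≠ 0 ∧ Red w π n (sh π (c i) (σ + k) N) P ∧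
        n < kk w (yy al be ph c) (ep m) (c i) (σ + k) + ∑ j, od w (σ + k) (ph j - c i) := by
      intro k
      induction k with
      | zero => exact ⟨n, P, hP, by rw [Nat.cast_zero, add_zero]; exact hPr, by rw [Nat.cast_zero, add_zero]; exact hlt⟩
      | succ k ih =>
        have h1 := hstep (σ + k) (by have := Int.natCast_nonneg k; linarith) ih
        rw [Nat.cast_succ, ← add_assoc]
        exact h1
    obtain ⟨M, hM⟩ : ∃ M : ℤ, M = ∑ j, |w.ord (ph j - c i)| := ⟨_, rfl⟩
    have hMj : ∀ j, w.ord (ph j - c i) ≤ M := by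
      intro j
      rw [hM]
      exact le_trans (le_abs_self _) (Finset.single_le_sum (f := fun j => |w.ord (ph j - c i)|)
        (fun j _ => abs_nonneg _) (Finset.mem_univ j))
    have hM0 : 0 ≤ M := by
      rw [hM]
      exact Finset.sum_nonneg fun j _ => abs_nonneg _
    obtain ⟨k, hkM⟩ := Int.eq_ofNat_of_zero_le hM0
    obtain ⟨n1, P1, hP1, hP1r, hn1⟩ := hk k
    have hP1r' := hP1r
    rw [hNdef] at hP1r'
    have hσk : 1 ≤ σ + k := by have := Int.natCast_nonneg k; linarith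
    obtain ⟨F0, hF0, hFd, -, l, hl, hPF⟩ :=
      (R1_core hL w hπ hq hr h (v i) (c i) (σ + k) (hww _ hσk) hP1 hP1r').2 hn1
    have hball : (ball w ph (c i) (σ + k)).card = 0 := by
      rw [Finset.card_eq_zero, Finset.eq_empty_iff_forall_notMem]
      intro j hj
      rcases (mem_ball.1 hj) with h1 | h1
      · exact hphc j (sub_eq_zero.1 h1)
      · have := hMj j
        rw [hkM] at this
        linarith
    rw [hball] at hFd
    -- the constant coefficient
    have hc0 : P1.coeff 0 = 0 := by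
      have h1 := hP1r 0
      have h2 : (C (π ^ (-n1)) * sh π (c i) (σ + k) N).coeff 0 = 0 := by
        rw [Polynomial.coeff_C_mul, Polynomial.coeff_zero_eq_eval_zero]
        have h3 : (sh π (c i) (σ + k) N).eval 0 = 0 := by
          unfold sh
          rw [eval_comp]
          simp only [eval_add, eval_mul, eval_C, eval_X, mul_zero, add_zero]
          exact hNc
        rw [h3, mul_zero]
      rw [h2, zero_sub] at h1
      have h4 : w.Zer ((0 : L) - algebraMap K L 0) := by
        rw [map_zero, sub_zero]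
        exact w.zer_zero
      rw [← zero_sub] at h1
      exact Place.val_unique h1 h4
    have hP1c : P1 = C (P1.coeff 0) := by
      apply Polynomial.eq_C_of_natDegree_eq_zero
      rw [hPF, Polynomial.natDegree_C_mul hl]
      exact hFd
    rw [hc0, C_0] at hP1c
    exact hP1 hP1c
  -- the content and the multiplicity at c i
  obtain ⟨n, P, hP, hPr⟩ := red_exists hL hπ (sh_ne hπ (c i) ρ hN0)
  have hn := hall ρ hρ n P hP hPr
  have hmult : (ball w ph (c i) (ρ + 1)).card < P.rootMultiplicity 0 := by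
    by_contra hle
    push Not at hle
    obtain ⟨n', P1, hP1, hP1r, hn'⟩ := red_down hL hπ hPr hP
    rw [← sh_succ hπ] at hP1r
    have h1 := hall (ρ + 1) (by linarith) n' P1 hP1 hP1r
    have h2 := R1_S (w := w) (ph := ph) (c i) ρ
    have h3 := hkks ρ hρ
    have h4 : (P.rootMultiplicity 0 : ℤ) ≤ (ball w ph (c i) (ρ + 1)).card := by exact_mod_cast hle
    linarith
  -- another centre
  have hkkp : kk w (yy al be ph c) (ep m) (c i) ρ = kk w (yy al be ph c) (ep m) p ρ := kk_eq hp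
  have hSp := R1_S_eq (ph := ph) hp
  have hbp : ball w ph (c i) (ρ + 1) = ball w ph (p + π ^ ρ * algebraMap K L z) (ρ + 1) := ball_eq hz
  have hx : w.Zer ((p - c i) * π ^ (-ρ) - algebraMap K L (-z)) := by
    have e : (p - c i) * π ^ (-ρ) - algebraMap K L (-z) = -((c i - (p + π ^ ρ * algebraMap K L z)) * π ^ (-ρ)) := by
      rw [map_neg, zpow_neg]
      have h1 : π ^ ρ ≠ 0 := zpow_ne_zero ρ hπ0
      field_simp
      ring
    rw [e]
    refine Place.Zer.neg ?_
    have h1 : Ge w ((ρ + 1) + (-ρ)) ((c i - (p + π ^ ρ * algebraMap K L z)) * π ^ (-ρ)) := by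
      refine hz.mul (Or.inr ?_)
      rw [w.ord_zpow, hπ, mul_one]
    rcases h1 with h1 | h1
    · exact Or.inl h1
    · exact Or.inr (by linarith)
  have hcomp := red_comp hPr hx
  rw [← sh_center hπ (c i) p ρ N, hn, hkkp, hSp] at hcomp
  have hback : (P.comp (X + C (-z))).comp (X + C z) = P := by
    rw [Polynomial.comp_assoc]
    simp only [add_comp, X_comp, C_comp]
    rw [add_assoc, ← C_add, add_neg_cancel, C_0, add_zero, comp_X]
  refine ⟨P.comp (X + C (-z)), ?_, ?_, ?_⟩
  · intro h1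
    rw [h1, zero_comp] at hback
    exact hP hback.symm
  · rw [← hNdef]
    exact hcomp
  · rw [← hbp, Polynomial.rootMultiplicity_eq_rootMultiplicity, hback]
    exact hmult

end Pool.Agent.LibRF77
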