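import Pool.Agent.LibRF77.Q3
import Pool.Agent.LibRF77.R1
import Pool.Agent.LibRF77.IND
import Pool.Agent.LibRF77.AR
import Pool.Agent.LibPS77.P5
import Pool.Agent.LibEX36.Fin

/-!
[RF77 Q4] All hyperbolic signatures.
-/

open scoped Classical

namespace Pool.Agent.LibRF77

open Pool.Agent.LibBH2
open Pool.Agent.LibCHd (FunF)
open Pool.Agent.LibEX36 (PA RP)
open Pool.Agent.LibVT36
open Pool.Agent.LibPS77 (ram_mono ram_one mob_orb)
open Polynomial

/-- multiplicity of a root of a product of linear factors -/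
theorem rm_prod {K : Type} [Field K] {ι : Type} [Fintype ι] (y : ι → K) (m : ι → ℕ) (a : K) :
    (∏ i, (X - C (y i)) ^ m i : K[X]).rootMultiplicity a = ∑ i ∈ Finset.univ.filter (fun i => y i = a), m i := by
  have h : ∀ T : Finset ι, (∏ i ∈ T, (X - C (y i)) ^ m i : K[X]).rootMultiplicity a =
      ∑ i ∈ T.filter (fun i => y i = a), m i := by
    intro T
    induction T using Finset.induction_on with
    | empty => simp
    | insert i T hi ih =>
      have h0 : (∏ i ∈ insert i T, (X - C (y i)) ^ m i : K[X]) ≠ 0 :=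
        Finset.prod_ne_zero_iff.2 fun j _ => pow_ne_zero _ (X_sub_C_ne_zero _)
      rw [Finset.prod_insert hi] at h0 ⊢
      rw [rootMultiplicity_mul h0, ih]
      by_cases hy : y i = a
      · rw [Finset.filter_insert, if_pos hy, Finset.sum_insert (by
          intro h1
          exact hi (Finset.mem_filter.1 h1).1), hy, rootMultiplicity_X_sub_C_pow]
      · rw [Finset.filter_insert, if_neg hy]
        have : ((X - C (y i)) ^ m i : K[X]).rootMultiplicity a = 0 := by
          apply rootMultiplicity_eq_zero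
          rw [IsRoot.def, eval_pow, eval_sub, eval_X, eval_C]
          exact pow_ne_zero _ (sub_ne_zero.2 (Ne.symm hy))
        rw [this, zero_add]
  exact h Finset.univ

theorem rm_PA {K : Type} [Field K] {s : ℕ} {y : Fin s → K} (hy : Function.Injective y) (a : K) :
    (PA y).rootMultiplicity a = if ∃ i, y i = a then 1 else 0 := by
  have h := rm_prod y (fun _ => 1) a
  simp only [pow_one] at h
  show (∏ i, (X - C (y i)) : K[X]).rootMultiplicity a = _
  rw [h, Finset.sum_const, smul_eq_mul, mul_one]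
  split_ifs with h1
  · obtain ⟨i, rfl⟩ := h1
    rw [Finset.card_eq_one]
    refine ⟨i, ?_⟩
    ext j
    simp only [Finset.mem_filter, Finset.mem_univ, true_and, Finset.mem_singleton]
    exact ⟨fun h => hy h, fun h => by rw [h]⟩
  · rw [Finset.card_eq_zero, Finset.filter_eq_empty_iff]
    intro j _ h2
    exact h1 ⟨j, h2⟩

theorem cfg_rm {k : Type} [Field k] [IsAlgClosed k] [CharZero k] {e q s b f a : ℕ} (he : 1 ≤ e) (hq : 1 ≤ q)
    (hr : f < s + q * b) {al : Fin s → k} {be : Fin b → k} {ph : Fin f → k} {c : Fin a → k}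
    (h : Cfg q (fun _ => e) al be ph c (fun _ => 1)) (hc : Function.Injective c) :
    IsCoprime (PA al * PA be ^ q) (PA ph) ∧ (PA al * PA be ^ q).natDegree = s + q * b ∧ (PA ph).natDegree = f ∧
    ∀ p : Option k, rm (PA al * PA be ^ q) (PA ph) p = 1 ∨
      (rv (PA al * PA be ^ q) (PA ph) p = none ∧ rm (PA al * PA be ^ q) (PA ph) p = s + q * b - f) ∨
      (rv (PA al * PA be ^ q) (PA ph) p = some 0 ∧ rm (PA al * PA be ^ q) (PA ph) p = q) ∨
      (rv (PA al * PA be ^ q) (PA ph) p = some 1 ∧ rm (PA al * PA be ^ q) (PA ph) p = e + 1) := by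
  have iso := cfg_iso (m := fun _ : Fin a => e) hq (fun _ => he) hr h
  have hbe : Function.Injective be := by
    intro i j hij
    by_contra hne
    exact iso (Sum.inr (Sum.inl j)) (Sum.inr (Sum.inl i)) (by simp [ep]) (by simpa using hne) hij
  have hph : Function.Injective ph := by
    intro i j hij
    by_contra hne
    exact iso (Sum.inr (Sum.inr (Sum.inl j))) (Sum.inr (Sum.inr (Sum.inl i))) (by simp [ep]) (by simpa using hne) hij
  have hcb : ∀ i j, c i ≠ be j := fun i j => iso (Sum.inr (Sum.inl j)) (cr i) (by simp [ep]) (by simp)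
  have hcop : IsCoprime (PA al * PA be ^ q) (PA ph) := by
    refine IsCoprime.mul_left ?_ (IsCoprime.pow_left ?_)
    · exact IsCoprime.prod_left fun i _ => IsCoprime.prod_right fun j _ =>
        isCoprime_X_sub_C_of_isUnit_sub (sub_ne_zero.2 (h.al_ph i j)).isUnit
    · exact IsCoprime.prod_left fun i _ => IsCoprime.prod_right fun j _ =>
        isCoprime_X_sub_C_of_isUnit_sub (sub_ne_zero.2 (h.be_ph i j)).isUnit
  have hdG : (PA al * PA be ^ q).natDegree = s + q * b := (Pool.Agent.LibEX36.qq_deg al be).2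
  have hdF : (PA ph).natDegree = f := Pool.Agent.LibEX36.pa_deg ph
  have hd : (PA ph).natDegree < (PA al * PA be ^ q).natDegree := by
    rw [hdG, hdF]
    exact hr
  refine ⟨hcop, hdG, hdF, ?_⟩
  intro p
  rcases p with _ | x
  · right
    left
    refine ⟨rv_none _ _, ?_⟩
    rw [rm_none, hdG, hdF]
  by_cases hF : (PA ph).eval x = 0
  · left
    rw [rm_pole hF, rm_PA hph, if_pos]
    obtain ⟨i, hi⟩ := (Pool.Agent.LibEX36.pa_eval ph x).1 hF
    exact ⟨i, hi.symm⟩
  have h1 := wr_mult hcop hd x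
  have h2 := r1_der hq h 0
  rw [C_0, zero_mul, sub_zero] at h2
  have hne : derivative (PA al * PA be ^ q) * PA ph - PA al * PA be ^ q * derivative (PA ph) ≠ 0 := wr_ne hcop hd
  have h3 : (derivative (PA al * PA be ^ q) * PA ph - PA al * PA be ^ q * derivative (PA ph)).rootMultiplicity x =
      (q - 1) * (if ∃ i, be i = x then 1 else 0) + ∑ i ∈ Finset.univ.filter (fun i => c i = x), e := by
    rw [h2] at hne ⊢
    have e1 : (PA be ^ (q - 1)).rootMultiplicity x = (q - 1) * (if ∃ i, be i = x then 1 else 0) := by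
      rw [← count_roots, roots_pow, Multiset.count_nsmul, count_roots, rm_PA hbe]
    have hne1 := left_ne_zero_of_mul hne
    rw [rootMultiplicity_mul hne, rm_prod, rootMultiplicity_mul hne1, e1, rootMultiplicity_C, zero_add]
  have hpos := rm_pos hcop hd (some x)
  rw [h3] at h1
  by_cases hb : ∃ j, be j = x
  · obtain ⟨j, rfl⟩ := hb
    right
    right
    left
    constructor
    · rw [rv_val hF]
      have : (PA al * PA be ^ q).eval (be j) = 0 := by
        rw [eval_mul, eval_pow, (Pool.Agent.LibEX36.pa_eval be (be j)).2 ⟨j, rfl⟩, zero_pow (by omega), mul_zero]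
      rw [this, zero_div]
    · rw [if_pos ⟨j, rfl⟩, Finset.sum_const, Finset.filter_eq_empty_iff.2 (fun i _ => hcb i j)] at h1
      simp only [Finset.card_empty, zero_smul, mul_one, add_zero] at h1
      omega
  · rw [if_neg hb, mul_zero, zero_add] at h1
    by_cases hcc : ∃ i, c i = x
    · obtain ⟨i, rfl⟩ := hcc
      right
      right
      right
      constructor
      · rw [rv_val hF, h.val i, one_mul, div_self hF]
      · have h5 : (Finset.univ.filter fun j => c j = c i) = {i} := by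
          ext j
          simp only [Finset.mem_filter, Finset.mem_univ, true_and, Finset.mem_singleton]
          exact ⟨fun h => hc h, fun h => by rw [h]⟩
        rw [h5, Finset.sum_singleton] at h1
        omega
    · left
      rw [Finset.filter_eq_empty_iff.2 (fun i _ h => hcc ⟨i, h⟩), Finset.sum_empty] at h1
      omega

variable {k : Type} [Field k]

/-- three entries divisible by different primes `≥ 5` -/
theorem orb_prime [IsAlgClosed k] [CharZero k] {L : Type} [Field L] [Algebra k L] (hL : FunF k 1 L) {t : L}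
    (ht : NC k t) {S : Finset (Option k)} {n : Option k → ℕ} (h : ∀ p ∈ S, 2 ≤ n p ∧ Ram t p (n p))
    (hs : (2 : ℚ) < ∑ p ∈ S, ((1 : ℚ) - 1 / n p)) {x y z : Option k} (hx : x ∈ S) (hy : y ∈ S) (hz : z ∈ S)
    (hxy : x ≠ y) (hxz : x ≠ z) (hyz : y ≠ z) {p q r : ℕ} (hp : p.Prime) (hq : q.Prime) (hr : r.Prime) (h5 : 5 ≤ p)
    (hpq : p < q) (hqr : q < r) (hpx : p ∣ n x) (hqy : q ∣ n y) (hrz : r ∣ n z) :
    Reach k L (fun L' _ _ => Orb k L') := by
  obtain ⟨P, Q, a, b, s, f, hPQ, ha, hb, hf, h1, h2, h3⟩ := arith hp hq hr h5 hpq hqr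
  obtain ⟨x', y', hx', hy', hxy', hxz', hyz', hP, hQ, hP5, hQ5⟩ : ∃ x' y' : Option k, x' ∈ S ∧ y' ∈ S ∧ x' ≠ y' ∧ x' ≠ z ∧
      y' ≠ z ∧ P ∣ n x' ∧ Q ∣ n y' ∧ 5 ≤ P ∧ 5 ≤ Q := by
    rcases hPQ with ⟨rfl, rfl⟩ | ⟨rfl, rfl⟩
    · exact ⟨x, y, hx, hy, hxy, hxz, hyz, hpx, hqy, h5, by omega⟩
    · exact ⟨y, x, hy, hx, hxy.symm, hyz, hxz, hqy, hpx, by omega, h5⟩
  obtain ⟨t', S', n', ht', h', hs', m0, m1, m2, e0, e1, e2⟩ := mob_orb ht h hs hy' hx' hz hxy'.symm hyz' hxz'
  obtain ⟨e, rfl⟩ : ∃ e, P = e + 1 := ⟨P - 1, by omega⟩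
  have hr0 := hr.two_le
  obtain ⟨al, be, ph, c, hcfg, hc⟩ := exists_cfg k (e := e) (q := Q) (s := s) (b := b) (f := f) (a := a) (by omega) ha hb hf
    (by simpa using h1) (by
      rw [Nat.add_sub_cancel] at h3
      omega)
  obtain ⟨c1, c2, c3, c4⟩ := cfg_rm (by omega) (by omega) (by omega) hcfg hc
  have hd : (PA ph).natDegree < (PA al * PA be ^ Q).natDegree := by
    rw [c2, c3]
    omega
  have hrr : s + Q * b - f = r := by omega
  rw [hrr] at c4
  refine orb_rpull hL ht' h' hs' c1 hd ?_ ?_ ?_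
  · rw [c2]
    omega
  · intro p
    rcases c4 p with h6 | ⟨h6, h7⟩ | ⟨h6, h7⟩ | ⟨h6, h7⟩
    · exact Or.inl h6
    · exact Or.inr ⟨by rw [h6]; exact m2, by rw [h6, h7, e2]; exact hrz⟩
    · exact Or.inr ⟨by rw [h6]; exact m0, by rw [h6, h7, e0]; exact hQ⟩
    · exact Or.inr ⟨by rw [h6]; exact m1, by rw [h6, h7, e1]; exact hP⟩
  · intro p p' hpp
    rcases c4 p with h6 | ⟨h6, h7⟩ | ⟨h6, h7⟩ | ⟨h6, h7⟩
    · exact Or.inl (by rw [h6]; exact one_dvd _)
    all_goals
      rcases c4 p' with h8 | ⟨h8, h9⟩ | ⟨h8, h9⟩ | ⟨h8, h9⟩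
      · exact Or.inr (by rw [h8]; exact one_dvd _)
      all_goals
        rw [h6, h8] at hpp
        first
          | (refine Or.inl ?_; rw [h7, h9]; done)
          | (exfalso; simp at hpp; done)

/-- there are a nonconstant map `t : X → ℙ¹`, a finite set `S` of points of `ℙ¹` and numbers `n p ≥ 2` dividing all
ramification indices of `t` over `p`, with `∑ (1 - 1 / n p) > 2` -/
def Hyp (k : Type) [Field k] (L : Type) [Field L] [Algebra k L] : Prop :=
  ∃ (t : L) (S : Finset (Option k)) (n : Option k → ℕ), NC k t ∧ (∀ p ∈ S, 2 ≤ n p ∧ Ram t p (n p)) ∧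
    (2 : ℚ) < ∑ p ∈ S, ((1 : ℚ) - 1 / n p)

private theorem q4_sort {α : Type} (g : α → ℕ) (x y z : α) (hxy : g x ≠ g y) (hxz : g x ≠ g z) (hyz : g y ≠ g z) :
    ∃ x' y' z' : α, g x' < g y' ∧ g y' < g z' ∧ (x' = x ∨ x' = y ∨ x' = z) ∧ (y' = x ∨ y' = y ∨ y' = z) ∧
      (z' = x ∨ z' = y ∨ z' = z) := by
  rcases lt_or_gt_of_ne hxy with h1 | h1 <;> rcases lt_or_gt_of_ne hxz with h2 | h2 <;>
    rcases lt_or_gt_of_ne hyz with h3 | h3
  · exact ⟨x, y, z, h1, h3, by simp, by simp, by simp⟩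
  · exact ⟨x, z, y, h2, h3, by simp, by simp, by simp⟩
  · omega
  · exact ⟨z, x, y, h2, h1, by simp, by simp, by simp⟩
  · exact ⟨y, x, z, h1, h2, by simp, by simp, by simp⟩
  · omega
  · exact ⟨y, z, x, h3, h2, by simp, by simp, by simp⟩
  · exact ⟨z, y, x, h3, h1, by simp, by simp, by simp⟩

theorem virt3 [IsAlgClosed k] [CharZero k] {L : Type} [Field L] [Algebra k L] (hL : FunF k 1 L)
    (h : Hyp k L ∨ OrbE k L) : Virt k L := by
  rcases h with ⟨t, S, n, ht, h, hs⟩ | h
  · by_cases hc : (∃ p ∈ S, ∃ q ∈ S, p ≠ q ∧ ¬ Nat.Coprime (n p) (n q)) ∨ ∃ p ∈ S, 2 ∣ n p ∨ 3 ∣ n p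
    · exact Pool.Agent.LibEX36.virt2 hL (Or.inl ⟨t, S, n, ht, h, hs, hc⟩)
    push Not at hc
    obtain ⟨hcop, h23⟩ := hc
    have hcard : 2 < S.card := by
      have h1 : ∑ p ∈ S, ((1 : ℚ) - 1 / n p) ≤ ∑ p ∈ S, (1 : ℚ) := by
        refine Finset.sum_le_sum fun p _ => ?_
        have : (0 : ℚ) ≤ 1 / n p := by positivity
        linarith
      rw [Finset.sum_const, nsmul_eq_mul, mul_one] at h1
      have h2 : (2 : ℚ) < S.card := lt_of_lt_of_le hs h1
      exact_mod_cast h2
    obtain ⟨x, y, z, hx, hy, hz, hxy, hxz, hyz⟩ := Finset.two_lt_card_iff.1 hcard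
    set g : Option k → ℕ := fun p => (n p).minFac with hg
    have hgp : ∀ p ∈ S, (g p).Prime := fun p hp => Nat.minFac_prime (by have := (h p hp).1; omega)
    have hgd : ∀ p, g p ∣ n p := fun p => Nat.minFac_dvd _
    have hg5 : ∀ p ∈ S, 5 ≤ g p := by
      intro p hp
      have h1 := hgp p hp
      have h2 := h1.two_le
      by_contra hlt
      have h3 : g p = 2 ∨ g p = 3 ∨ g p = 4 := by omega
      rcases h3 with h3 | h3 | h3
      · exact (h23 p hp).1 (h3 ▸ hgd p)
      · exact (h23 p hp).2 (h3 ▸ hgd p)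
      · rw [h3] at h1
        exact absurd h1 (by norm_num)
    have hne : ∀ p ∈ S, ∀ q ∈ S, p ≠ q → g p ≠ g q := by
      intro p hp q hq hpq hgg
      have h1 := hcop p hp q hq hpq
      have h2 : g p ∣ n q := hgg ▸ hgd q
      have h3 := Nat.dvd_gcd (hgd p) h2
      rw [h1] at h3
      have h4 := (hgp p hp).two_le
      have h5 := Nat.le_of_dvd one_pos h3
      omega
    obtain ⟨x', y', z', h1, h2, hx', hy', hz'⟩ := q4_sort g x y z (hne x hx y hy hxy) (hne x hx z hz hxz) (hne y hy z hz hyz)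
    have mx : x' ∈ S := by rcases hx' with rfl | rfl | rfl <;> assumption
    have my : y' ∈ S := by rcases hy' with rfl | rfl | rfl <;> assumption
    have mz : z' ∈ S := by rcases hz' with rfl | rfl | rfl <;> assumption
    have nxy : x' ≠ y' := by rintro rfl; omega
    have nyz : y' ≠ z' := by rintro rfl; omega
    have nxz : x' ≠ z' := by rintro rfl; omega
    have key := orb_prime hL ht h hs mx my mz nxy nxz nyz (hgp x' mx) (hgp y' my) (hgp z' mz) (hg5 x' mx) h1 h2
      (hgd x') (hgd y') (hgd z')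
    apply reach_virt
    refine Reach.trans key fun L' _ _ hL' hO => ?_
    obtain ⟨t', S', n', ht', h', hs', hc'⟩ := hO
    exact virtual hL' ht' S' n' (fun p hp => (h' p hp).1) (fun p hp => (h' p hp).2) hs' hc'
  · exact Pool.Agent.LibEX36.virt2 hL (Or.inr h)

end Pool.Agent.LibRF77
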