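import Pool.Agent.LibRF77.Defs

/-!
[RF77 RA] Reduction of polynomials at a ball. `Red w π n P P0`: `π ^ (-n) P` has the reduction `P0` coefficientwise (`RP` of LibEX36/E3.lean, whose calculus `rp_add`, `rp_mul`, `rp_deriv`, `rp_unique`, `rp_pow`, `rp_C` gives everything here).
`red_lt`: `π ^ (-m) P` regular and `n < m`: `π ^ (-n) P = π ^ (m - n) (π ^ (-m) P)` has the reduction `0`. `red_exists`: `n` = smallest order of a coefficient `≠ 0`; residues of regular elements by `Pool.Agent.LibCHd.exists_val` (see `e4_val` in LibEX36/E4.lean).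
`red_comp`: translation inside a ball.
-/

open scoped Classical

namespace Pool.Agent.LibRF77

open Polynomial
open Pool.Agent.LibBH2
open Pool.Agent.LibCHd (FunF)
open Pool.Agent.LibEX36 (PA RP)
open Pool.Agent.LibPS77 (Ge)

variable {K : Type} [Field K] {L : Type} [Field L] [Algebra K L] {w : Place K L} {π : L}

private theorem RA_ne (hπ : w.ord π = 1) : π ≠ 0 := by
  rintro rfl
  rw [w.ord_zero] at hπ
  exact zero_ne_one hπ

private theorem RA_zero (w : Place K L) : w.Zer ((0 : L) - algebraMap K L 0) := by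
  rw [map_zero, sub_zero]
  exact w.zer_zero

private theorem RA_psum {ι : Type} (S : Finset ι) {F : ι → L[X]} {G : ι → K[X]} (h : ∀ i ∈ S, RP w (F i) (G i)) :
    RP w (∑ i ∈ S, F i) (∑ i ∈ S, G i) := by
  induction S using Finset.induction_on with
  | empty =>
    intro i
    rw [Finset.sum_empty, Finset.sum_empty, coeff_zero, coeff_zero]
    exact RA_zero w
  | insert j S hj ih =>
    rw [Finset.sum_insert hj, Finset.sum_insert hj]
    exact LibEX36.rp_add (h j (Finset.mem_insert_self j S)) (ih fun i hi => h i (Finset.mem_insert_of_mem hi))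

private theorem RA_comp {F H : L[X]} {G I : K[X]} (h : RP w F G) (h' : RP w H I) : RP w (F.comp H) (G.comp I) := by
  obtain ⟨N, hN⟩ : ∃ N : ℕ, N = max F.natDegree G.natDegree + 1 := ⟨_, rfl⟩
  have hF : F.natDegree < N := by
    have := le_max_left F.natDegree G.natDegree
    omega
  have hG : G.natDegree < N := by
    have := le_max_right F.natDegree G.natDegree
    omega
  have e1 : F.comp H = ∑ i ∈ Finset.range N, C (F.coeff i) * H ^ i := eval₂_eq_sum_range' C hF H
  have e2 : G.comp I = ∑ i ∈ Finset.range N, C (G.coeff i) * I ^ i := eval₂_eq_sum_range' C hG I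
  rw [e1, e2]
  exact RA_psum _ fun i _ => LibEX36.rp_mul (LibEX36.rp_C (h i)) (LibEX36.rp_pow h' i)

theorem exists_res [IsAlgClosed K] (hL : FunF K 1 L) (w : Place K L) {x : L} (hx : Ge w 0 x) :
    ∃ c : K, w.Zer (x - algebraMap K L c) := by
  have h1 : Algebra.trdeg K L ≤ 1 := by
    rw [hL.trdeg]
    simp
  have h2 : ∃ m, w.ord ((AlgHom.id K L) m) ≠ 0 := by
    obtain ⟨t, ht⟩ := w.exists_uniformizer
    exact ⟨t, by simp [ht]⟩
  exact Pool.Agent.LibCHd.exists_val h1 (AlgHom.id K L) w h2 x hx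

theorem red_mul (hπ : w.ord π = 1) {n n' : ℤ} {P P' : L[X]} {P0 P0' : K[X]} (h : Red w π n P P0) (h' : Red w π n' P' P0') :
    Red w π (n + n') (P * P') (P0 * P0') := by
  have h1 := LibEX36.rp_mul h h'
  have e : C (π ^ (-n)) * P * (C (π ^ (-n')) * P') = C (π ^ (-(n + n'))) * (P * P') := by
    rw [neg_add, zpow_add₀ (RA_ne hπ), C_mul]
    ring
  rw [e] at h1
  exact h1

theorem red_pow (hπ : w.ord π = 1) {n : ℤ} {P : L[X]} {P0 : K[X]} (h : Red w π n P P0) (d : ℕ) :
    Red w π (d * n) (P ^ d) (P0 ^ d) := by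
  induction d with
  | zero =>
    have e : C (π ^ (-(((0 : ℕ) : ℤ) * n))) * P ^ 0 = C (1 : L) := by simp
    show RP w (C (π ^ (-(((0 : ℕ) : ℤ) * n))) * P ^ 0) (P0 ^ 0)
    rw [e, pow_zero, ← C_1]
    apply LibEX36.rp_C
    rw [map_one, sub_self]
    exact w.zer_zero
  | succ d ih =>
    have h1 := red_mul hπ ih h
    have e : ((d : ℕ) : ℤ) * n + n = ((d + 1 : ℕ) : ℤ) * n := by
      push_cast
      ring
    rw [e] at h1
    rw [pow_succ, pow_succ]
    exact h1

theorem red_add {n : ℤ} {P P' : L[X]} {P0 P0' : K[X]} (h : Red w π n P P0) (h' : Red w π n P' P0') :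
    Red w π n (P + P') (P0 + P0') := by
  have h1 := LibEX36.rp_add h h'
  rw [← mul_add] at h1
  exact h1

theorem red_sub {n : ℤ} {P P' : L[X]} {P0 P0' : K[X]} (h : Red w π n P P0) (h' : Red w π n P' P0') :
    Red w π n (P - P') (P0 - P0') := by
  intro i
  rw [mul_sub, coeff_sub, coeff_sub]
  exact Place.val_sub (h i) (h' i)

theorem red_der {n : ℤ} {P : L[X]} {P0 : K[X]} (h : Red w π n P P0) : Red w π n (derivative P) (derivative P0) := by
  have h1 := LibEX36.rp_deriv h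
  rw [derivative_C_mul] at h1
  exact h1

/-- constants of `K` -/
theorem red_const (c : K) : Red w π 0 (C (algebraMap K L c)) (C c) := by
  show RP w (C (π ^ (-(0 : ℤ))) * C (algebraMap K L c)) (C c)
  rw [neg_zero, zpow_zero, C_1, one_mul]
  exact LibEX36.rp_C (Place.val_const c)

/-- constants of `L` -/
theorem red_C [IsAlgClosed K] (hL : FunF K 1 L) (hπ : w.ord π = 1) {x : L} (hx : x ≠ 0) :
    ∃ κ : K, κ ≠ 0 ∧ Red w π (w.ord x) (C x) (C κ) := by
  have hπ0 := RA_ne hπ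
  have h0 : π ^ (-(w.ord x)) ≠ 0 := zpow_ne_zero _ hπ0
  have h1 : w.ord (π ^ (-(w.ord x)) * x) = 0 := by
    rw [w.ord_mul _ _ h0 hx, w.ord_zpow, hπ]
    ring
  obtain ⟨κ, hκ⟩ := exists_res hL w (x := π ^ (-(w.ord x)) * x) (Or.inr h1.ge)
  refine ⟨κ, ?_, ?_⟩
  · rintro rfl
    rw [map_zero, sub_zero] at hκ
    rcases hκ with h2 | h2
    · exact mul_ne_zero h0 hx h2
    · omega
  · show RP w (C (π ^ (-(w.ord x))) * C x) (C κ)
    rw [← C_mul]
    exact LibEX36.rp_C hκ

theorem red_unique {n : ℤ} {P : L[X]} {P0 P0' : K[X]} (h : Red w π n P P0) (h' : Red w π n P P0') : P0 = P0' := by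
  exact LibEX36.rp_unique h h'

private theorem RA_up (hπ : w.ord π = 1) {n m : ℤ} {P : L[X]} {P0 : K[X]} (h : Red w π m P P0) (hnm : n < m) :
    Red w π n P 0 := by
  have hπ0 := RA_ne hπ
  intro i
  rw [coeff_C_mul, coeff_zero, map_zero, sub_zero]
  have h1 : w.Reg (π ^ (-m) * P.coeff i) := by
    have h2 := h i
    rw [coeff_C_mul] at h2
    exact Place.reg_of_val h2
  have h2 : w.Zer (π ^ (m - n)) := by
    right
    rw [w.ord_zpow, hπ]
    omega
  have h3 := h2.mul_reg h1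
  have e : π ^ (m - n) * (π ^ (-m) * P.coeff i) = π ^ (-n) * P.coeff i := by
    rw [← mul_assoc, ← zpow_add₀ hπ0]
    congr 2
    ring
  rwa [e] at h3

theorem red_lt (hπ : w.ord π = 1) {n m : ℤ} {P : L[X]} {P0 P0' : K[X]} (h : Red w π n P P0) (h' : Red w π m P P0')
    (hnm : n < m) : P0 = 0 := by
  exact red_unique h (RA_up hπ h' hnm)

/-- a larger content: the reduction is `0` -/
theorem red_up (hπ : w.ord π = 1) {n m : ℤ} {P : L[X]} {P0 : K[X]} (h : Red w π m P P0) (hnm : n < m) : Red w π n P 0 := by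
  exact RA_up hπ h hnm

theorem red_exists [IsAlgClosed K] (hL : FunF K 1 L) (hπ : w.ord π = 1) {P : L[X]} (hP : P ≠ 0) :
    ∃ (n : ℤ) (P0 : K[X]), P0 ≠ 0 ∧ Red w π n P P0 := by
  have hπ0 := RA_ne hπ
  have hne : P.support.Nonempty := by
    rw [Finset.nonempty_iff_ne_empty]
    intro h
    exact hP (support_eq_empty.1 h)
  obtain ⟨j, hj, hmin⟩ := Finset.exists_min_image P.support (fun i => w.ord (P.coeff i)) hne
  have hj0 : P.coeff j ≠ 0 := mem_support_iff.1 hj
  have hreg : ∀ i, Ge w 0 (π ^ (-(w.ord (P.coeff j))) * P.coeff i) := by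
    intro i
    by_cases hi : P.coeff i = 0
    · left
      rw [hi, mul_zero]
    · right
      rw [w.ord_mul _ _ (zpow_ne_zero _ hπ0) hi, w.ord_zpow, hπ]
      have h1 := hmin i (mem_support_iff.2 hi)
      have h2 : w.ord (P.coeff j) ≤ w.ord (P.coeff i) := h1
      omega
  choose z hz using fun i => exists_res hL w (hreg i)
  have hco : ∀ i, (∑ k ∈ P.support, monomial k (z k)).coeff i = if i ∈ P.support then z i else 0 := by
    intro i
    rw [finset_sum_coeff]
    simp only [coeff_monomial]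
    rw [Finset.sum_ite_eq' P.support i z]
  have hred : Red w π (w.ord (P.coeff j)) P (∑ k ∈ P.support, monomial k (z k)) := by
    intro i
    rw [coeff_C_mul, hco]
    split_ifs with hi
    · exact hz i
    · have h1 : P.coeff i = 0 := by
        by_contra h1
        exact hi (mem_support_iff.2 h1)
      rw [h1, mul_zero]
      exact RA_zero w
  refine ⟨w.ord (P.coeff j), _, ?_, hred⟩
  intro h0
  have h1 := hz j
  have h2 : z j = 0 := by
    have h3 := hco j
    rw [if_pos hj, h0, coeff_zero] at h3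
    exact h3.symm
  rw [h2, map_zero, sub_zero] at h1
  have h3 : w.ord (π ^ (-(w.ord (P.coeff j))) * P.coeff j) = 0 := by
    rw [w.ord_mul _ _ (zpow_ne_zero _ hπ0) hj0, w.ord_zpow, hπ]
    ring
  rcases h1 with h4 | h4
  · exact mul_ne_zero (zpow_ne_zero _ hπ0) hj0 h4
  · omega

theorem red_comp {n : ℤ} {P : L[X]} {P0 : K[X]} (h : Red w π n P P0) {x : L} {z : K} (hx : w.Zer (x - algebraMap K L z)) :
    Red w π n (P.comp (X + C x)) (P0.comp (X + C z)) := by
  have h1 : RP w (X + C x) (X + C z) := LibEX36.rp_add (LibEX36.rp_X w) (LibEX36.rp_C hx)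
  have h2 := RA_comp h h1
  rw [mul_comp, C_comp] at h2
  exact h2

/-- the content at the radius `+ 1`: `P (π X)` -/
theorem red_down [IsAlgClosed K] (hL : FunF K 1 L) (hπ : w.ord π = 1) {n : ℤ} {P : L[X]} {P0 : K[X]} (h : Red w π n P P0)
    (h0 : P0 ≠ 0) : ∃ (n' : ℤ) (P1 : K[X]), P1 ≠ 0 ∧ Red w π n' (P.comp (C π * X)) P1 ∧ n' ≤ n + P0.rootMultiplicity 0 := by
  have hπ0 := RA_ne hπ
  have hμ : P0.coeff (P0.rootMultiplicity 0) ≠ 0 := by
    rw [rootMultiplicity_eq_natTrailingDegree']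
    exact mem_support_iff.1 (natTrailingDegree_mem_support_of_nonzero h0)
  obtain ⟨μ, hμe⟩ : ∃ μ, μ = P0.rootMultiplicity 0 := ⟨_, rfl⟩
  rw [← hμe] at hμ ⊢
  have h1 := h μ
  rw [coeff_C_mul] at h1
  have h2 : w.ord (π ^ (-n) * P.coeff μ) = 0 := Place.ord_eq_zero_of_val h1 hμ
  have h3 : π ^ (-n) * P.coeff μ ≠ 0 := Place.ne_zero_of_val h1 hμ
  have h4 : P.coeff μ ≠ 0 := right_ne_zero_of_mul h3
  have h5 : w.ord (P.coeff μ) = n := by
    rw [w.ord_mul _ _ (zpow_ne_zero _ hπ0) h4, w.ord_zpow, hπ] at h2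
    omega
  have h6 : (P.comp (C π * X)).coeff μ = P.coeff μ * π ^ μ := comp_C_mul_X_coeff
  have h7 : P.coeff μ * π ^ μ ≠ 0 := mul_ne_zero h4 (pow_ne_zero _ hπ0)
  have h8 : P.comp (C π * X) ≠ 0 := by
    intro h9
    rw [h9, coeff_zero] at h6
    exact h7 h6.symm
  obtain ⟨n', P1, hP1, hr⟩ := red_exists hL hπ h8
  refine ⟨n', P1, hP1, hr, ?_⟩
  have h9 := hr μ
  rw [coeff_C_mul, h6] at h9
  have h10 := (Place.reg_of_val h9).resolve_left (mul_ne_zero (zpow_ne_zero _ hπ0) h7)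
  rw [w.ord_mul _ _ (zpow_ne_zero _ hπ0) h7, w.ord_mul _ _ h4 (pow_ne_zero _ hπ0), w.ord_zpow, w.ord_pow, hπ, h5] at h10
  omega

theorem sh_mul (p : L) (ρ : ℤ) (P Q : L[X]) : sh π p ρ (P * Q) = sh π p ρ P * sh π p ρ Q := by
  exact mul_comp P Q _

theorem sh_sub (p : L) (ρ : ℤ) (P Q : L[X]) : sh π p ρ (P - Q) = sh π p ρ P - sh π p ρ Q := by
  exact sub_comp

theorem sh_pow (p : L) (ρ : ℤ) (P : L[X]) (d : ℕ) : sh π p ρ (P ^ d) = sh π p ρ P ^ d := by
  exact pow_comp P _ d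

theorem sh_C (p : L) (ρ : ℤ) (x : L) : sh π p ρ (C x) = C x := by
  exact C_comp

theorem sh_ne (hπ : w.ord π = 1) (p : L) (ρ : ℤ) {P : L[X]} (hP : P ≠ 0) : sh π p ρ P ≠ 0 := by
  have hπ0 := RA_ne hπ
  intro h
  rcases comp_eq_zero_iff.1 h with h1 | ⟨-, h1⟩
  · exact hP h1
  · have h2 := congrArg (fun Q : L[X] => Q.coeff 1) h1
    simp only [coeff_add, coeff_C_mul, coeff_X_one, mul_one] at h2
    rw [coeff_C, if_neg one_ne_zero, coeff_C, if_neg one_ne_zero, zero_add] at h2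
    exact zpow_ne_zero ρ hπ0 h2

theorem sh_der (p : L) (ρ : ℤ) (P : L[X]) : derivative (sh π p ρ P) = C (π ^ ρ) * sh π p ρ (derivative P) := by
  show derivative (P.comp (C p + C (π ^ ρ) * X)) = C (π ^ ρ) * (derivative P).comp (C p + C (π ^ ρ) * X)
  rw [derivative_comp, derivative_add, derivative_C, derivative_C_mul, derivative_X, zero_add, mul_one]

theorem sh_succ (hπ : w.ord π = 1) (p : L) (ρ : ℤ) (P : L[X]) : sh π p (ρ + 1) P = (sh π p ρ P).comp (C π * X) := by
  show P.comp (C p + C (π ^ (ρ + 1)) * X) = (P.comp (C p + C (π ^ ρ) * X)).comp (C π * X)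
  rw [comp_assoc, add_comp, mul_comp, C_comp, C_comp, X_comp, zpow_add_one₀ (RA_ne hπ), C_mul]
  congr 1
  ring

/-- another centre -/
theorem sh_center (hπ : w.ord π = 1) (p p' : L) (ρ : ℤ) (P : L[X]) :
    sh π p' ρ P = (sh π p ρ P).comp (X + C ((p' - p) * π ^ (-ρ))) := by
  have hπ0 := RA_ne hπ
  show P.comp (C p' + C (π ^ ρ) * X) = (P.comp (C p + C (π ^ ρ) * X)).comp (X + C ((p' - p) * π ^ (-ρ)))
  have h1 : π ^ ρ * ((p' - p) * π ^ (-ρ)) = p' - p := by
    rw [zpow_neg]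
    have h2 : π ^ ρ ≠ 0 := zpow_ne_zero _ hπ0
    field_simp
  have h2 : C (π ^ ρ) * C ((p' - p) * π ^ (-ρ)) = C p' - C p := by
    rw [← C_mul, h1, C_sub]
  rw [comp_assoc, add_comp, mul_comp, C_comp, C_comp, X_comp, mul_add, h2]
  congr 1
  ring

/-- the calculus for `WW` -/
theorem red_WW (hπ : w.ord π = 1) {q : ℕ} {n1 n2 n3 : ℤ} {A B F : L[X]} {A0 B0 F0 : K[X]} (h1 : Red w π n1 A A0)
    (h2 : Red w π n2 B B0) (h3 : Red w π n3 F F0) : Red w π (n1 + n2 + n3) (WW q A B F) (WW q A0 B0 F0) := by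
  have hq : Red w π 0 ((q : L[X])) ((q : K[X])) := by
    have h := red_const (w := w) (π := π) (q : K)
    rw [map_natCast, C_eq_natCast, C_eq_natCast] at h
    exact h
  have e1 : Red w π (n1 + n2) (derivative A * B) (derivative A0 * B0) := red_mul hπ (red_der h1) h2
  have e2 : Red w π (n1 + n2) ((q : L[X]) * A * derivative B) ((q : K[X]) * A0 * derivative B0) := by
    have h := red_mul hπ (red_mul hπ hq h1) (red_der h2)
    rwa [zero_add] at h
  have e3 := red_mul hπ (red_add e1 e2) h3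
  have e4 := red_mul hπ (red_mul hπ h1 h2) (red_der h3)
  exact red_sub e3 e4

theorem sh_WW (q : ℕ) (p : L) (ρ : ℤ) (A B F : L[X]) :
    WW q (sh π p ρ A) (sh π p ρ B) (sh π p ρ F) = C (π ^ ρ) * sh π p ρ (WW q A B F) := by
  have e1 : sh π p ρ (q : L[X]) = (q : L[X]) := by
    rw [← C_eq_natCast]
    exact sh_C p ρ _
  have e2 : sh π p ρ (derivative A * B + (q : L[X]) * A * derivative B)
      = sh π p ρ (derivative A * B) + sh π p ρ ((q : L[X]) * A * derivative B) := add_comp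
  show (derivative (sh π p ρ A) * sh π p ρ B + (q : L[X]) * sh π p ρ A * derivative (sh π p ρ B)) * sh π p ρ F
      - sh π p ρ A * sh π p ρ B * derivative (sh π p ρ F)
    = C (π ^ ρ) * sh π p ρ ((derivative A * B + (q : L[X]) * A * derivative B) * F - A * B * derivative F)
  rw [sh_sub, sh_mul, e2, sh_mul, sh_mul, sh_mul, sh_mul, sh_mul, e1, sh_der, sh_der, sh_der]
  ring

end Pool.Agent.LibRF77
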