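import Pool.Agent.LibRF77.RA

/-!
[RF77 RA2] The reduction of a product of linear factors at a ball. One factor `X - y`: `sh (X - C y) = π ^ ρ X - (y - p)`. If `ord (y - p) ≥ ρ` (`Ge w ρ (y - p)`): content `ρ`, reduction `X - η`, `η` the residue of `(y - p) π ^ (-ρ)`; `η = z` iff `Ge w (ρ + 1) (y - (p + π ^ ρ z))`.
Otherwise content `ord (y - p)`, reduction a constant `≠ 0`, and `Ge w (ρ + 1) (y - (p + π ^ ρ z))` is false for all `z`. Then `Finset.induction` (or `Finset.prod`) with `red_mul`, `red_pow`, `natDegree_mul`, `rootMultiplicity_mul`.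
`ww_mult`: `A = (X - z) ^ a A1` etc.; `(X - z) WW = (X - z) ^ (a+b+f) ((a + q b - f) A1 B1 F1 + (X - z) ...)`.
-/

open scoped Classical

namespace Pool.Agent.LibRF77

open Polynomial
open Pool.Agent.LibBH2
open Pool.Agent.LibCHd (FunF)
open Pool.Agent.LibEX36 (PA RP)
open Pool.Agent.LibPS77 (Ge)

variable {K : Type} [Field K] {L : Type} [Field L] [Algebra K L] {w : Place K L} {π : L}

private theorem RA2_pi (hπ : w.ord π = 1) : π ≠ 0 := by
  intro h
  rw [h, w.ord_zero] at hπ
  exact zero_ne_one hπ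

private theorem RA2_ord_zpow (hπ : w.ord π = 1) (n : ℤ) : w.ord (π ^ n) = n := by
  rw [w.ord_zpow, hπ, mul_one]

private theorem RA2_ge_mul (hπ : w.ord π = 1) (n k : ℤ) (x : L) : Ge w (n + k) (π ^ k * x) ↔ Ge w n x := by
  have hk : π ^ k ≠ 0 := zpow_ne_zero _ (RA2_pi hπ)
  by_cases hx : x = 0
  · rw [hx, mul_zero]
    exact ⟨fun _ => Or.inl rfl, fun _ => Or.inl rfl⟩
  · unfold Pool.Agent.LibPS77.Ge
    rw [w.ord_mul _ _ hk hx, RA2_ord_zpow hπ]
    constructor
    · rintro (h | h)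
      · exact absurd h (mul_ne_zero hk hx)
      · exact Or.inr (by omega)
    · rintro (h | h)
      · exact absurd h hx
      · exact Or.inr (by omega)

private theorem RA2_ge_one (x : L) : Ge w 1 x ↔ w.Zer x := by
  unfold Pool.Agent.LibPS77.Ge Place.Zer
  exact or_congr Iff.rfl ⟨fun h => by omega, fun h => by omega⟩

private theorem RA2_sh (p : L) (ρ : ℤ) (y : L) : sh π p ρ (X - C y) = C (π ^ ρ) * X - C (y - p) := by
  unfold sh
  rw [sub_comp, X_comp, C_comp, C_sub]
  ring

private theorem RA2_one (hπ : w.ord π = 1) (n : ℤ) : π ^ n * π ^ (-n) = 1 := by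
  rw [← zpow_add₀ (RA2_pi hπ), add_neg_cancel, zpow_zero]

private theorem RA2_factor [IsAlgClosed K] (hL : FunF K 1 L) (hπ : w.ord π = 1) (y p : L) (ρ : ℤ) :
    ∃ P1 : K[X], P1 ≠ 0 ∧ Red w π (od w ρ (y - p)) (sh π p ρ (X - C y)) P1 ∧
      P1.natDegree = (if Ge w ρ (y - p) then 1 else 0) ∧
      ∀ z : K, P1.rootMultiplicity z =
        if Ge w (ρ + 1) (y - (p + π ^ ρ * algebraMap K L z)) then 1 else 0 := by
  by_cases hg : Ge w ρ (y - p)
  · have hod : od w ρ (y - p) = ρ := by
      unfold od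
      split_ifs with h0
      · rfl
      · exact min_eq_left (hg.resolve_left h0)
    have hyp : y - p = π ^ ρ * ((y - p) * π ^ (-ρ)) := by
      rw [mul_left_comm, RA2_one hπ, mul_one]
    have hx : Ge w 0 ((y - p) * π ^ (-ρ)) := by
      rw [← RA2_ge_mul hπ 0 ρ, ← hyp, zero_add]
      exact hg
    obtain ⟨η, hη⟩ := exists_res hL w hx
    refine ⟨X - C η, X_sub_C_ne_zero η, ?_, ?_, ?_⟩
    · rw [hod, RA2_sh]
      unfold Red
      have h1 : C (π ^ (-ρ)) * (C (π ^ ρ) * X - C (y - p)) = X + C (-((y - p) * π ^ (-ρ))) := by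
        have h2 : (C (π ^ ρ) * C (π ^ (-ρ)) : L[X]) = 1 := by
          rw [← C_mul, RA2_one hπ, C_1]
        rw [C_neg, C_mul]
        linear_combination X * h2
      have h3 : (X - C η : K[X]) = X + C (-η) := by rw [C_neg, sub_eq_add_neg]
      rw [h1, h3]
      exact Pool.Agent.LibEX36.rp_add (Pool.Agent.LibEX36.rp_X w) (Pool.Agent.LibEX36.rp_C (Place.val_neg hη))
    · rw [natDegree_X_sub_C, if_pos hg]
    · intro z
      rw [rootMultiplicity_X_sub_C]
      have h3 : Ge w (ρ + 1) (y - (p + π ^ ρ * algebraMap K L z)) ↔ z = η := by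
        have e1 : y - (p + π ^ ρ * algebraMap K L z) =
            π ^ ρ * ((y - p) * π ^ (-ρ) - algebraMap K L z) := by
          rw [mul_sub, ← hyp]
          ring
        rw [e1, add_comm ρ 1, RA2_ge_mul hπ, RA2_ge_one]
        constructor
        · intro h
          exact Place.val_unique h hη
        · rintro rfl
          exact hη
      by_cases hz : z = η
      · rw [if_pos hz, if_pos (h3.2 hz)]
      · rw [if_neg hz, if_neg (fun h => hz (h3.1 h))]
  · have h0 : y - p ≠ 0 := fun h => hg (Or.inl h)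
    have hlt : w.ord (y - p) < ρ := by
      by_contra h
      exact hg (Or.inr (not_lt.1 h))
    have hod : od w ρ (y - p) = w.ord (y - p) := by
      unfold od
      rw [if_neg h0]
      exact min_eq_right hlt.le
    have hx0 : (y - p) * π ^ (-w.ord (y - p)) ≠ 0 := mul_ne_zero h0 (zpow_ne_zero _ (RA2_pi hπ))
    have hxo : w.ord ((y - p) * π ^ (-w.ord (y - p))) = 0 := by
      rw [w.ord_mul _ _ h0 (zpow_ne_zero _ (RA2_pi hπ)), RA2_ord_zpow hπ, add_neg_cancel]
    obtain ⟨κ, hκ⟩ := exists_res hL w (x := (y - p) * π ^ (-w.ord (y - p))) (Or.inr (le_of_eq hxo.symm))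
    have hκ0 : κ ≠ 0 := by
      rintro rfl
      rw [map_zero, sub_zero] at hκ
      rcases hκ with h | h
      · exact hx0 h
      · omega
    refine ⟨C (-κ), C_ne_zero.2 (neg_ne_zero.2 hκ0), ?_, ?_, ?_⟩
    · rw [hod, RA2_sh]
      unfold Red
      have h1 : C (π ^ (-w.ord (y - p))) * (C (π ^ ρ) * X - C (y - p)) =
          C (π ^ (ρ - w.ord (y - p))) * X + C (-((y - p) * π ^ (-w.ord (y - p)))) := by
        have h2 : (C (π ^ (ρ - w.ord (y - p))) : L[X]) = C (π ^ ρ) * C (π ^ (-w.ord (y - p))) := by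
          rw [← C_mul, ← zpow_add₀ (RA2_pi hπ), sub_eq_add_neg]
        rw [h2, C_neg, C_mul]
        ring
      have h3 : (C (-κ) : K[X]) = C 0 * X + C (-κ) := by rw [C_0, zero_mul, zero_add]
      rw [h1, h3]
      refine Pool.Agent.LibEX36.rp_add (Pool.Agent.LibEX36.rp_mul (Pool.Agent.LibEX36.rp_C ?_)
        (Pool.Agent.LibEX36.rp_X w)) (Pool.Agent.LibEX36.rp_C (Place.val_neg hκ))
      rw [map_zero, sub_zero]
      right
      rw [RA2_ord_zpow hπ]
      omega
    · rw [natDegree_C, if_neg hg]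
    · intro z
      rw [rootMultiplicity_C, if_neg]
      intro h
      apply hg
      have e1 : y - p = (y - (p + π ^ ρ * algebraMap K L z)) + π ^ ρ * algebraMap K L z := by ring
      rw [e1]
      have h5 : Ge w ρ (π ^ ρ * algebraMap K L z) := by
        have h6 := (RA2_ge_mul hπ 0 ρ (algebraMap K L z)).2 (w.reg_const z)
        rwa [zero_add] at h6
      exact (h.mono (by omega)).add h5

private theorem RA2_rm_pow {P : K[X]} (hP : P ≠ 0) (z : K) (d : ℕ) :
    (P ^ d).rootMultiplicity z = d * P.rootMultiplicity z := by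
  induction d with
  | zero =>
    rw [pow_zero, zero_mul, ← C_1]
    exact rootMultiplicity_C 1 z
  | succ d ih =>
    rw [pow_succ, rootMultiplicity_mul (mul_ne_zero (pow_ne_zero _ hP) hP), ih]
    ring

private theorem RA2_prod [IsAlgClosed K] (hL : FunF K 1 L) (hπ : w.ord π = 1) {ι : Type} (s : Finset ι) (y : ι → L)
    (m : ι → ℕ) (p : L) (ρ : ℤ) :
    ∃ P0 : K[X], P0 ≠ 0 ∧ Red w π (∑ i ∈ s, (m i : ℤ) * od w ρ (y i - p))
        (sh π p ρ (∏ i ∈ s, (X - C (y i)) ^ m i)) P0 ∧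
      P0.natDegree = ∑ i ∈ s, (if Ge w ρ (y i - p) then m i else 0) ∧
      ∀ z : K, P0.rootMultiplicity z =
        ∑ i ∈ s, if Ge w (ρ + 1) (y i - (p + π ^ ρ * algebraMap K L z)) then m i else 0 := by
  induction s using Finset.induction_on with
  | empty =>
    refine ⟨1, one_ne_zero, ?_, ?_, ?_⟩
    · have h1 : Red w π 0 (C (algebraMap K L 1)) (C 1) := red_const (w := w) (π := π) (1 : K)
      have h2 : sh π p ρ (∏ i ∈ (∅ : Finset ι), (X - C (y i)) ^ m i) = C (algebraMap K L 1) := by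
        rw [Finset.prod_empty, ← C_1, sh_C, map_one (algebraMap K L)]
      rw [Finset.sum_empty, h2, ← C_1]
      exact h1
    · rw [Finset.sum_empty, natDegree_one]
    · intro z
      rw [Finset.sum_empty, ← C_1]
      exact rootMultiplicity_C 1 z
  | insert a s ha ih =>
    obtain ⟨P0, h1, h2, h3, h4⟩ := ih
    obtain ⟨P1, k1, k2, k3, k4⟩ := RA2_factor hL hπ (y a) p ρ
    refine ⟨P1 ^ m a * P0, mul_ne_zero (pow_ne_zero _ k1) h1, ?_, ?_, ?_⟩
    · rw [Finset.sum_insert ha, Finset.prod_insert ha, sh_mul, sh_pow]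
      exact red_mul hπ (red_pow hπ k2 (m a)) h2
    · rw [Finset.sum_insert ha, natDegree_mul (pow_ne_zero _ k1) h1, natDegree_pow, k3, h3]
      congr 1
      split_ifs
      · rw [mul_one]
      · rw [mul_zero]
    · intro z
      rw [Finset.sum_insert ha, rootMultiplicity_mul (mul_ne_zero (pow_ne_zero _ k1) h1), RA2_rm_pow k1, k4, h4]
      congr 1
      split_ifs
      · rw [mul_one]
      · rw [mul_zero]

theorem red_prod [IsAlgClosed K] (hL : FunF K 1 L) (hπ : w.ord π = 1) {ι : Type} [Fintype ι] (y : ι → L) (m : ι → ℕ) (p : L)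
    (ρ : ℤ) :
    ∃ P0 : K[X], P0 ≠ 0 ∧ Red w π (∑ i, (m i : ℤ) * od w ρ (y i - p)) (sh π p ρ (∏ i, (X - C (y i)) ^ m i)) P0 ∧
      P0.natDegree = ∑ i ∈ ball w y p ρ, m i ∧
      ∀ z : K, P0.rootMultiplicity z = ∑ i ∈ ball w y (p + π ^ ρ * algebraMap K L z) (ρ + 1), m i := by
  obtain ⟨P0, h1, h2, h3, h4⟩ := RA2_prod hL hπ Finset.univ y m p ρ
  refine ⟨P0, h1, h2, ?_, ?_⟩
  · rw [h3]
    unfold ball
    rw [Finset.sum_filter]
  · intro z
    rw [h4]
    unfold ball
    rw [Finset.sum_filter]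

theorem red_PA [IsAlgClosed K] (hL : FunF K 1 L) (hπ : w.ord π = 1) {s : ℕ} (y : Fin s → L) (p : L) (ρ : ℤ) :
    ∃ P0 : K[X], P0 ≠ 0 ∧ Red w π (∑ i, od w ρ (y i - p)) (sh π p ρ (PA y)) P0 ∧
      P0.natDegree = (ball w y p ρ).card ∧
      ∀ z : K, P0.rootMultiplicity z = (ball w y (p + π ^ ρ * algebraMap K L z) (ρ + 1)).card := by
  obtain ⟨P0, h1, h2, h3, h4⟩ := red_prod hL hπ y (fun _ => 1) p ρ
  refine ⟨P0, h1, ?_, ?_, ?_⟩
  · have e1 : ∑ i, (((fun _ => 1 : Fin s → ℕ) i : ℕ) : ℤ) * od w ρ (y i - p) = ∑ i, od w ρ (y i - p) :=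
      Finset.sum_congr rfl fun i _ => by rw [Nat.cast_one, one_mul]
    have e2 : ∏ i, (X - C (y i)) ^ (fun _ => 1 : Fin s → ℕ) i = PA y := by
      unfold Pool.Agent.LibEX36.PA
      exact Finset.prod_congr rfl fun i _ => pow_one _
    rw [e1, e2] at h2
    exact h2
  · rw [h3, Finset.card_eq_sum_ones]
  · intro z
    rw [h4, Finset.card_eq_sum_ones]

/-- derivative of a power times a cofactor, multiplied by `X - z` -/
private theorem RA2_der (z : K) (a : ℕ) (A1 : K[X]) :
    (X - C z) * derivative ((X - C z) ^ a * A1) =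
      (X - C z) ^ a * ((a : K[X]) * A1 + (X - C z) * derivative A1) := by
  rw [derivative_mul, derivative_X_sub_C_pow]
  rcases Nat.eq_zero_or_pos a with h | h
  · subst h
    simp only [pow_zero, Nat.cast_zero]
    rw [C_0]
    ring
  · obtain ⟨a', rfl⟩ : ∃ a', a = a' + 1 := ⟨a - 1, by omega⟩
    rw [Nat.add_sub_cancel]
    have h1 : (C ((a' + 1 : ℕ) : K) : K[X]) = ((a' + 1 : ℕ) : K[X]) := by rw [map_natCast]
    rw [h1]
    ring

private theorem RA2_ww (q : ℕ) (z : K) (a b f : ℕ) (A1 B1 F1 : K[X]) :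
    (X - C z) * WW q ((X - C z) ^ a * A1) ((X - C z) ^ b * B1) ((X - C z) ^ f * F1) =
      (X - C z) ^ (a + b + f) * (((a : K[X]) + (q : K[X]) * (b : K[X]) - (f : K[X])) * (A1 * B1 * F1) +
        (X - C z) * WW q A1 B1 F1) := by
  have h1 := RA2_der z a A1
  have h2 := RA2_der z b B1
  have h3 := RA2_der z f F1
  unfold WW
  rw [pow_add, pow_add]
  linear_combination ((X - C z) ^ b * B1) * ((X - C z) ^ f * F1) * h1 +
    (q : K[X]) * ((X - C z) ^ a * A1) * ((X - C z) ^ f * F1) * h2 -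
    ((X - C z) ^ a * A1) * ((X - C z) ^ b * B1) * h3

/-- the order of `WW` at a point -/
theorem ww_mult [CharZero K] {q : ℕ} {A B F : K[X]} (hA : A ≠ 0) (hB : B ≠ 0) (hF : F ≠ 0) (z : K) :
    ((A.rootMultiplicity z + q * B.rootMultiplicity z ≠ F.rootMultiplicity z) →
      WW q A B F ≠ 0 ∧ (WW q A B F).rootMultiplicity z + 1 =
        A.rootMultiplicity z + B.rootMultiplicity z + F.rootMultiplicity z) ∧
    ((A.rootMultiplicity z + q * B.rootMultiplicity z = F.rootMultiplicity z) →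
      WW q A B F ≠ 0 → A.rootMultiplicity z + B.rootMultiplicity z + F.rootMultiplicity z ≤ (WW q A B F).rootMultiplicity z) := by
  obtain ⟨A1, hA1, hA2⟩ := exists_eq_pow_rootMultiplicity_mul_and_not_dvd A hA z
  obtain ⟨B1, hB1, hB2⟩ := exists_eq_pow_rootMultiplicity_mul_and_not_dvd B hB z
  obtain ⟨F1, hF1, hF2⟩ := exists_eq_pow_rootMultiplicity_mul_and_not_dvd F hF z
  set a := A.rootMultiplicity z with ha
  set b := B.rootMultiplicity z with hb
  set f := F.rootMultiplicity z with hf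
  have key := RA2_ww q z a b f A1 B1 F1
  rw [← hA1, ← hB1, ← hF1] at key
  have hX : (X - C z : K[X]) ≠ 0 := X_sub_C_ne_zero z
  constructor
  · intro hne
    have hcast : ((a : K[X]) + (q : K[X]) * (b : K[X]) - (f : K[X])) = C ((a : K) + (q : K) * (b : K) - (f : K)) := by
      simp only [map_sub, map_add, map_mul, map_natCast]
    have hev : (((a : K[X]) + (q : K[X]) * (b : K[X]) - (f : K[X])) * (A1 * B1 * F1) +
        (X - C z) * WW q A1 B1 F1).eval z ≠ 0 := by
      rw [hcast]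
      simp only [eval_add, eval_mul, eval_C, eval_sub, eval_X, sub_self, zero_mul, add_zero]
      have e0 : (a : K) + (q : K) * (b : K) - (f : K) ≠ 0 := by
        intro h
        apply hne
        have h1 : ((a + q * b : ℕ) : K) = (f : K) := by
          push_cast
          exact sub_eq_zero.1 h
        exact_mod_cast h1
      have e1 : A1.eval z ≠ 0 := fun h => hA2 (dvd_iff_isRoot.2 h)
      have e2 : B1.eval z ≠ 0 := fun h => hB2 (dvd_iff_isRoot.2 h)
      have e3 : F1.eval z ≠ 0 := fun h => hF2 (dvd_iff_isRoot.2 h)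
      exact mul_ne_zero e0 (mul_ne_zero (mul_ne_zero e1 e2) e3)
    set E := ((a : K[X]) + (q : K[X]) * (b : K[X]) - (f : K[X])) * (A1 * B1 * F1) +
        (X - C z) * WW q A1 B1 F1 with hE
    have hE0 : E ≠ 0 := by
      intro h
      rw [h, eval_zero] at hev
      exact hev rfl
    have hprod : (X - C z) * WW q A B F ≠ 0 := by
      rw [key]
      exact mul_ne_zero (pow_ne_zero _ hX) hE0
    refine ⟨right_ne_zero_of_mul hprod, ?_⟩
    have h1 : ((X - C z) * WW q A B F).rootMultiplicity z = 1 + (WW q A B F).rootMultiplicity z := by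
      rw [rootMultiplicity_mul hprod, rootMultiplicity_X_sub_C_self]
    have h2 : ((X - C z) * WW q A B F).rootMultiplicity z = a + b + f := by
      rw [key, rootMultiplicity_mul (mul_ne_zero (pow_ne_zero _ hX) hE0), rootMultiplicity_X_sub_C_pow,
        rootMultiplicity_eq_zero (fun h => hev h), add_zero]
    omega
  · intro heq hW
    have hcast : ((a : K[X]) + (q : K[X]) * (b : K[X]) - (f : K[X])) = 0 := by
      rw [← heq]
      push_cast
      ring
    rw [hcast, zero_mul, zero_add, mul_left_comm] at key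
    have h1 : WW q A B F = (X - C z) ^ (a + b + f) * WW q A1 B1 F1 := mul_left_cancel₀ hX key
    rw [le_rootMultiplicity_iff hW]
    exact ⟨_, h1⟩

end Pool.Agent.LibRF77
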