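import Pool.Agent.LibRF77.Defs

/-!
[RF77 RC] Combinatorics of balls. `ball_eq`: ultrametric inequality (`Ge.add`, `Ge.sub`). `kk_succ`, `ww_succ`: `od w (ρ+1) x - od w ρ x = 1` if `Ge w (ρ+1) x`, else `0`.
`reach`: Let `B = ball w y q ρ` be not empty, `ee q ρ ≥ 1`. (Strong induction on the cardinality of `B`.) If all `y j`, `j ∈ B`, are equal: by `hiso` either `B = {i}` with `ε i ≥ 0` (as `ee = 1 + ε i ≥ 1`), or all `ε j ≥ 0`; take any `i ∈ B`: `ball (y i) ρ' = B` for all `ρ' ≥ ρ`.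
Otherwise let `σ ≥ ρ` be the smallest order of a difference `y j - y j' ≠ 0` in `B`; `ball (y j) ρ' = B` for `j ∈ B`, `ρ ≤ ρ' ≤ σ`; `B` is the disjoint union of at least two classes `D = ball (y j) (σ + 1)`, and `∑_D (ee D - 1) = ee B - 1 ≥ 0`, so some class has `ee D ≥ 1`; it is smaller than `B`: induction.
-/

open scoped Classical

namespace Pool.Agent.LibRF77

open Pool.Agent.LibBH2
open Pool.Agent.LibPS77 (Ge)

variable {K : Type} [Field K] {L : Type} [Field L] [Algebra K L] {I : Type} [Fintype I] {w : Place K L} {y : I → L}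
  {ε ω : I → ℤ}

/-- the local structure of a configuration (`cfg_loc`) -/
structure Loc (w : Place K L) (y : I → L) (ε ω : I → ℤ) : Prop where
  nn : ∀ p ρ, 0 ≤ kk w y ε p ρ
  pos : ∀ p ρ, 0 < kk w y ε p ρ → om w y ω p (ρ + 1) = 0
  zr : ∀ p ρ, kk w y ε p ρ = 0 → 0 ≤ ee w y ε p (ρ + 1) ∧ (ee w y ε p (ρ + 1) = 0 ↔ om w y ω p (ρ + 1) ≠ 0)
  iso : ∀ i, ε i < 0 → ∀ j, j ≠ i → y j ≠ y i
  ge : ∀ i, -1 ≤ ε i
  sum : ∑ i, ε i = -1

theorem mem_ball {p : L} {ρ : ℤ} {i : I} : i ∈ ball w y p ρ ↔ Ge w ρ (y i - p) := by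
  simp [ball]

theorem ball_eq {p p' : L} {ρ : ℤ} (h : Ge w ρ (p' - p)) : ball w y p' ρ = ball w y p ρ := by
  ext i
  rw [mem_ball, mem_ball]
  constructor
  · intro h1
    have h2 := h1.add h
    rwa [sub_add_sub_cancel] at h2
  · intro h1
    have h2 := h1.sub h
    rwa [sub_sub_sub_cancel_right] at h2

theorem ball_mono {p : L} {ρ ρ' : ℤ} (h : ρ ≤ ρ') : ball w y p ρ' ⊆ ball w y p ρ := by
  intro i hi
  rw [mem_ball] at hi ⊢
  exact hi.mono h

theorem od_succ (ρ : ℤ) (x : L) : od w (ρ + 1) x = od w ρ x + if Ge w (ρ + 1) x then 1 else 0 := by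
  by_cases hx : x = 0
  · have h1 : Ge w (ρ + 1) x := Or.inl hx
    rw [if_pos h1, od, od, if_pos hx, if_pos hx]
  · by_cases h1 : Ge w (ρ + 1) x
    · have h2 : ρ + 1 ≤ w.ord x := h1.resolve_left hx
      rw [if_pos h1, od, od, if_neg hx, if_neg hx, min_eq_left h2, min_eq_left (by omega)]
    · have h2 : w.ord x < ρ + 1 := by
        by_contra h3
        exact h1 (Or.inr (not_lt.1 h3))
      rw [if_neg h1, od, od, if_neg hx, if_neg hx, min_eq_right (by omega), min_eq_right (by omega), add_zero]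

theorem kk_succ (p : L) (ρ : ℤ) : kk w y ε p (ρ + 1) = kk w y ε p ρ + ee w y ε p (ρ + 1) := by
  have h1 : ∑ i, ε i * od w (ρ + 1) (y i - p) =
      ∑ i, ε i * od w ρ (y i - p) + ∑ i ∈ ball w y p (ρ + 1), ε i := by
    rw [ball, Finset.sum_filter, ← Finset.sum_add_distrib]
    refine Finset.sum_congr rfl fun i _ => ?_
    rw [od_succ, mul_add]
    congr 1
    split_ifs
    · rw [mul_one]
    · rw [mul_zero]
  rw [kk, kk, ee, h1]
  ring

theorem ww_succ (p : L) (ρ : ℤ) : ww w y ω p (ρ + 1) = ww w y ω p ρ + om w y ω p (ρ + 1) := by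
  rw [ww, ww, om, ball, Finset.sum_filter, ← Finset.sum_add_distrib]
  refine Finset.sum_congr rfl fun i _ => ?_
  rw [od_succ, mul_add]
  congr 1
  split_ifs
  · rw [mul_one]
  · rw [mul_zero]

theorem RC_od_of_ge {x : L} {ρ : ℤ} (h : Ge w ρ x) : od w ρ x = ρ := by
  by_cases hx : x = 0
  · rw [od, if_pos hx]
  · rw [od, if_neg hx, min_eq_left (h.resolve_left hx)]

theorem RC_od_eq {a b : L} {ρ : ℤ} (h : Ge w ρ (a - b)) : od w ρ a = od w ρ b := by
  by_cases hb : Ge w ρ b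
  · have ha : Ge w ρ a := by
      have h1 := h.add hb
      rwa [sub_add_cancel] at h1
    rw [RC_od_of_ge ha, RC_od_of_ge hb]
  · have hb0 : b ≠ 0 := fun h1 => hb (Or.inl h1)
    have hb1 : w.ord b < ρ := by
      by_contra h3
      exact hb (Or.inr (not_lt.1 h3))
    have h1 : Ge w (w.ord b + 1) (a - b) := h.mono (by omega)
    obtain ⟨h2, h3⟩ := Pool.Agent.LibPS77.ord_add_ge hb0 h1
    rw [add_sub_cancel] at h2 h3
    rw [od, od, if_neg h2, if_neg hb0, h3]

theorem kk_eq {p p' : L} {ρ : ℤ} (h : Ge w ρ (p' - p)) : kk w y ε p' ρ = kk w y ε p ρ := by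
  rw [kk, kk]
  congr 1
  refine Finset.sum_congr rfl fun i _ => ?_
  rw [RC_od_eq (a := y i - p') (b := y i - p) (w := w) (ρ := ρ)]
  have h1 : y i - p' - (y i - p) = -(p' - p) := by ring
  rw [h1]
  exact h.neg

/-- a large ball: `kk = 0` -/
theorem kk_base (hs : ∑ i, ε i = -1) {p : L} {ρ : ℤ} (h : ∀ i, Ge w ρ (y i - p)) : kk w y ε p ρ = 0 := by
  rw [kk]
  have h1 : ∑ i, ε i * od w ρ (y i - p) = ∑ i, ε i * ρ :=
    Finset.sum_congr rfl fun i _ => by rw [RC_od_of_ge (h i)]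
  rw [h1, ← Finset.sum_mul, hs]
  ring

theorem ww_base {p : L} {ρ : ℤ} (h : ∀ i, Ge w ρ (y i - p)) : ww w y ω p ρ = ρ * ∑ i, ω i := by
  rw [ww]
  have h1 : ∑ i, ω i * od w ρ (y i - p) = ∑ i, ω i * ρ :=
    Finset.sum_congr rfl fun i _ => by rw [RC_od_of_ge (h i)]
  rw [h1, ← Finset.sum_mul, mul_comm]

/-- if `ω` has the sum `0` on all balls around `p` of radius `> ρ`, then `∑ ω ord` is given by the radius `ρ` -/
theorem ww_top {p : L} {ρ : ℤ} (h0 : ∀ i, ω i ≠ 0 → y i ≠ p) (h : ∀ ρ', ρ < ρ' → om w y ω p ρ' = 0) :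
    ∑ i, ω i * w.ord (y i - p) = ww w y ω p ρ := by
  have h1 : ∀ n : ℕ, ww w y ω p (ρ + n) = ww w y ω p ρ := by
    intro n
    induction n with
    | zero => simp
    | succ n ih =>
      have h2 : ρ + ((n + 1 : ℕ) : ℤ) = ρ + n + 1 := by push_cast; ring
      rw [h2, ww_succ, ih, h _ (by omega), add_zero]
  obtain ⟨n, hn⟩ : ∃ n : ℕ, ∀ i, w.ord (y i - p) ≤ ρ + n := by
    refine ⟨∑ i, (w.ord (y i - p) - ρ).natAbs, fun i => ?_⟩
    have h2 : (w.ord (y i - p) - ρ).natAbs ≤ ∑ i, (w.ord (y i - p) - ρ).natAbs :=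
      Finset.single_le_sum (f := fun i => (w.ord (y i - p) - ρ).natAbs) (fun _ _ => Nat.zero_le _) (Finset.mem_univ i)
    omega
  rw [← h1 n, ww]
  refine Finset.sum_congr rfl fun i _ => ?_
  by_cases hi : ω i = 0
  · rw [hi, zero_mul, zero_mul]
  · have h2 : y i - p ≠ 0 := sub_ne_zero.2 (h0 i hi)
    rw [od, if_neg h2, min_eq_right (hn i)]

theorem RC_split {p : L} {ρ : ℤ} {i j : I} (hi : i ∈ ball w y p ρ) (hj : j ∈ ball w y p ρ) (hij : y i ≠ y j) :
    ∃ σ : ℤ, ρ ≤ σ ∧ (∀ ρ', ρ ≤ ρ' → ρ' ≤ σ → ∀ k ∈ ball w y p ρ, ball w y (y k) ρ' = ball w y p ρ) ∧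
      (∀ k ∈ ball w y p ρ, ball w y (y k) (σ + 1) ≠ ball w y p ρ) ∧
      ((∀ k ∈ ball w y p ρ, ee w y ε (y k) (σ + 1) ≤ 0) → ee w y ε p ρ ≤ -1) := by
  obtain ⟨x, hx, hmin⟩ := Finset.exists_min_image
    ((ball w y p ρ ×ˢ ball w y p ρ).filter fun x : I × I => y x.1 ≠ y x.2) (fun x => w.ord (y x.1 - y x.2))
    ⟨(i, j), by
      rw [Finset.mem_filter, Finset.mem_product]
      exact ⟨⟨hi, hj⟩, hij⟩⟩
  rw [Finset.mem_filter, Finset.mem_product] at hx
  obtain ⟨⟨hx1, hx2⟩, hx3⟩ := hx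
  have hx4 : y x.1 - y x.2 ≠ 0 := sub_ne_zero.2 hx3
  have hdiff : ∀ k ∈ ball w y p ρ, ∀ l ∈ ball w y p ρ, Ge w ρ (y k - y l) := by
    intro k hk l hl
    have h1 := (mem_ball.1 hk).sub (mem_ball.1 hl)
    rwa [sub_sub_sub_cancel_right] at h1
  have hρσ : ρ ≤ w.ord (y x.1 - y x.2) := (hdiff _ hx1 _ hx2).resolve_left hx4
  have hσ : ∀ k ∈ ball w y p ρ, ∀ l ∈ ball w y p ρ, Ge w (w.ord (y x.1 - y x.2)) (y k - y l) := by
    intro k hk l hl
    by_cases hkl : y k = y l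
    · left
      rw [hkl, sub_self]
    · right
      exact hmin (k, l) (by
        rw [Finset.mem_filter, Finset.mem_product]
        exact ⟨⟨hk, hl⟩, hkl⟩)
  have hnot : ¬ Ge w (w.ord (y x.1 - y x.2) + 1) (y x.1 - y x.2) := by
    rintro (h1 | h1)
    · exact hx4 h1
    · omega
  obtain ⟨σ, hσdef⟩ : ∃ σ, σ = w.ord (y x.1 - y x.2) := ⟨_, rfl⟩
  rw [← hσdef] at hρσ hσ hnot
  have hsub : ∀ k ∈ ball w y p ρ, ∀ ρ', ρ ≤ ρ' → ball w y (y k) ρ' ⊆ ball w y p ρ := by
    intro k hk ρ' h1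
    rw [← ball_eq (mem_ball.1 hk)]
    exact ball_mono h1
  refine ⟨σ, hρσ, ?_, ?_, ?_⟩
  · intro ρ' h1 h2 k hk
    apply Finset.Subset.antisymm (hsub k hk ρ' h1)
    intro l hl
    rw [mem_ball]
    exact (hσ l hl k hk).mono h2
  · intro k hk h1
    have h2 : x.1 ∈ ball w y (y k) (σ + 1) := by rw [h1]; exact hx1
    have h3 : x.2 ∈ ball w y (y k) (σ + 1) := by rw [h1]; exact hx2
    have h4 := (mem_ball.1 h2).sub (mem_ball.1 h3)
    rw [sub_sub_sub_cancel_right] at h4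
    exact hnot h4
  · intro hall
    have hself : ∀ k, k ∈ ball w y (y k) (σ + 1) := by
      intro k
      rw [mem_ball, sub_self]
      exact Or.inl rfl
    have hfib : ∑ k ∈ ball w y p ρ, ε k =
        ∑ D ∈ (ball w y p ρ).image (fun k => ball w y (y k) (σ + 1)),
          ∑ k ∈ (ball w y p ρ).filter (fun k => ball w y (y k) (σ + 1) = D), ε k :=
      (Finset.sum_fiberwise_of_maps_to (fun k hk => Finset.mem_image_of_mem _ hk) _).symm
    have hle : ∑ D ∈ (ball w y p ρ).image (fun k => ball w y (y k) (σ + 1)),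
          ∑ k ∈ (ball w y p ρ).filter (fun k => ball w y (y k) (σ + 1) = D), ε k ≤
        ∑ D ∈ (ball w y p ρ).image (fun k => ball w y (y k) (σ + 1)), (-1 : ℤ) := by
      refine Finset.sum_le_sum fun D hD => ?_
      obtain ⟨l, hl, rfl⟩ := Finset.mem_image.1 hD
      have h1 : (ball w y p ρ).filter (fun k => ball w y (y k) (σ + 1) = ball w y (y l) (σ + 1)) =
          ball w y (y l) (σ + 1) := by
        ext k
        rw [Finset.mem_filter]
        constructor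
        · rintro ⟨_, h2⟩
          rw [← h2]
          exact hself k
        · intro h2
          exact ⟨hsub l hl _ (by omega) h2, ball_eq (mem_ball.1 h2)⟩
      rw [h1]
      have h2 := hall l hl
      rw [ee] at h2
      omega
    have hcard : 1 < ((ball w y p ρ).image (fun k => ball w y (y k) (σ + 1))).card := by
      rw [Finset.one_lt_card]
      refine ⟨_, Finset.mem_image_of_mem _ hx1, _, Finset.mem_image_of_mem _ hx2, ?_⟩
      intro h1
      have h2 : x.1 ∈ ball w y (y x.2) (σ + 1) := by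
        have h3 := hself x.1
        rw [h1] at h3
        exact h3
      exact hnot (mem_ball.1 h2)
    rw [Finset.sum_const, nsmul_eq_mul] at hle
    rw [ee, hfib]
    have h5 : (2 : ℤ) ≤ (((ball w y p ρ).image (fun k => ball w y (y k) (σ + 1))).card : ℤ) := by
      exact_mod_cast hcard
    linarith

theorem reach (hiso : ∀ i, ε i < 0 → ∀ j, j ≠ i → y j ≠ y i) {p : L} {ρ : ℤ} (hne : (ball w y p ρ).Nonempty)
    (h : 1 ≤ ee w y ε p ρ) : ∃ i ∈ ball w y p ρ, 0 ≤ ε i ∧ ∀ ρ', ρ ≤ ρ' → 1 ≤ ee w y ε (y i) ρ' := by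
  obtain ⟨n, hn⟩ : ∃ n, (ball w y p ρ).card = n := ⟨_, rfl⟩
  induction n using Nat.strong_induction_on generalizing p ρ with
  | _ n ih =>
    by_cases hall : ∀ i ∈ ball w y p ρ, ∀ j ∈ ball w y p ρ, y i = y j
    · have hs : 0 ≤ ∑ i ∈ ball w y p ρ, ε i := by
        rw [ee] at h
        omega
      obtain ⟨i, hi, hi0⟩ : ∃ i ∈ ball w y p ρ, 0 ≤ ε i := by
        by_contra hcon
        push Not at hcon
        have h2 : ∑ i ∈ ball w y p ρ, ε i < ∑ i ∈ ball w y p ρ, (0 : ℤ) := Finset.sum_lt_sum_of_nonempty hne hcon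
        rw [Finset.sum_const_zero] at h2
        omega
      refine ⟨i, hi, hi0, fun ρ' hρ' => ?_⟩
      have h3 : ball w y (y i) ρ' = ball w y p ρ := by
        apply Finset.Subset.antisymm
        · rw [← ball_eq (mem_ball.1 hi)]
          exact ball_mono hρ'
        · intro j hj
          rw [mem_ball]
          left
          rw [hall j hj i hi, sub_self]
      rw [ee, h3]
      exact h
    · push Not at hall
      obtain ⟨i, hi, j, hj, hij⟩ := hall
      obtain ⟨σ, hσ, h1, h2, h3⟩ := RC_split (ε := ε) hi hj hij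
      obtain ⟨k, hk, hk1⟩ : ∃ k ∈ ball w y p ρ, 1 ≤ ee w y ε (y k) (σ + 1) := by
        by_contra hcon
        push Not at hcon
        have h4 := h3 fun k hk => by
          have := hcon k hk
          omega
        omega
      have hsub : ball w y (y k) (σ + 1) ⊆ ball w y p ρ := by
        rw [← ball_eq (mem_ball.1 hk)]
        exact ball_mono (by omega)
      have hlt : (ball w y (y k) (σ + 1)).card < n := by
        rw [← hn]
        exact Finset.card_lt_card (hsub.ssubset_of_ne (h2 k hk))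
      have hkk : k ∈ ball w y (y k) (σ + 1) := by
        rw [mem_ball, sub_self]
        exact Or.inl rfl
      obtain ⟨l, hl, hl0, hl1⟩ := ih _ hlt (p := y k) (ρ := σ + 1) ⟨k, hkk⟩ hk1 rfl
      refine ⟨l, hsub hl, hl0, fun ρ' hρ' => ?_⟩
      by_cases h5 : σ + 1 ≤ ρ'
      · exact hl1 ρ' h5
      · rw [ee, h1 ρ' hρ' (by omega) l (hsub hl)]
        exact h

/-- a ball with at least two different points: its first splitting (`σ` = smallest order of a difference `≠ 0`). The balls up to `σ` are equal; and if all classes at `σ + 1` have `ee ≥ 0`, one of them has `ee ≥ 1`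
(there are at least two classes `D`, `∑_D (ee D - 1) = ee - 1 > -2`) -/
theorem split_two {p : L} {ρ : ℤ} {i j : I} (hi : i ∈ ball w y p ρ) (hj : j ∈ ball w y p ρ) (hij : y i ≠ y j) :
    ∃ σ : ℤ, ρ ≤ σ ∧ (∀ ρ', ρ ≤ ρ' → ρ' ≤ σ → ∀ k ∈ ball w y p ρ, ball w y (y k) ρ' = ball w y p ρ) ∧
      (∀ k ∈ ball w y p ρ, ball w y (y k) (σ + 1) ≠ ball w y p ρ) ∧
      ((∀ k ∈ ball w y p ρ, 0 ≤ ee w y ε (y k) (σ + 1)) → -1 < ee w y ε p ρ →
        ∃ k ∈ ball w y p ρ, 1 ≤ ee w y ε (y k) (σ + 1)) := by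
  obtain ⟨σ, h0, h1, h2, h3⟩ := RC_split (ε := ε) hi hj hij
  refine ⟨σ, h0, h1, h2, fun _ h5 => ?_⟩
  by_contra hcon
  push Not at hcon
  have h6 := h3 fun k hk => by
    have := hcon k hk
    omega
  omega

end Pool.Agent.LibRF77
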