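import Pool.Agent.LibRF77.RA2
import Pool.Agent.LibRF77.T0
import Pool.Agent.LibRF77.RC

/-!
[RF77 RB] The local structure of a configuration at a place. `A0, B0, F0, C0` the reductions of `PA al, PA be, PA ph, ∏ (X - c i) ^ m i` at `(p, ρ)` (`red_PA`, `red_prod`) with contents `a, b, f, g`; `sh_WW` and `der`:
`WW q (sh A) (sh B) (sh F) = C (π ^ ρ) * C r * sh (∏ ..)`: content `ρ + g`, reduction `C r * C0 ≠ 0`; on the other side content `a + b + f`, reduction `WW q A0 B0 F0` (`red_WW`). `kk = ρ + g - a - b - f`. So `kk ≥ 0` (`red_lt`: if `ρ + g < a + b + f` then `C r * C0 = 0`);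
`kk > 0`: `WW q A0 B0 F0 = 0` (`red_lt`), so by `ww_mult` at `z = 0`: `om p (ρ + 1) = mult A0 + q mult B0 - mult F0 = 0`; `kk = 0`: `WW q A0 B0 F0 = C r * C0` (`red_unique`), `ww_mult` at `z = 0`:
`ee p (ρ+1) = 1 + mult C0 - mult A0 - mult B0 - mult F0` is `0` if `om ≠ 0` and `≥ 1` if `om = 0`. (Sums over `Ix`: `Fintype.sum_sum_type`, balls of `yy` split into the four balls.)
-/

open scoped Classical

namespace Pool.Agent.LibRF77

open Polynomial
open Pool.Agent.LibBH2
open Pool.Agent.LibCHd (FunF)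
open Pool.Agent.LibEX36 (PA RP)
open Pool.Agent.LibPS77 (Ge)

variable {K : Type} [Field K] {L : Type} [Field L] [Algebra K L]

section RBaux

variable {s b f : ℕ} {ι : Type} [Fintype ι]

private theorem RB_univ (G : Ix s b f ι → ℤ) :
    ∑ i, G i = ∑ i, G (Sum.inl i) + (∑ i, G (Sum.inr (Sum.inl i)) + (∑ i, G (Sum.inr (Sum.inr (Sum.inl i))) + ∑ i, G (cr i))) := by
  rw [Fintype.sum_sum_type, Fintype.sum_sum_type, Fintype.sum_sum_type]

end RBaux

/-- sums over the four parts of a ball -/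
theorem ball_sum {s b f : ℕ} {ι : Type} [Fintype ι] (w : Place K L) (al : Fin s → L) (be : Fin b → L) (ph : Fin f → L) (c : ι → L)
    (p : L) (ρ : ℤ) (g : Ix s b f ι → ℤ) :
    ∑ i ∈ ball w (yy al be ph c) p ρ, g i = ∑ i ∈ ball w al p ρ, g (Sum.inl i) + (∑ i ∈ ball w be p ρ, g (Sum.inr (Sum.inl i)) +
      (∑ i ∈ ball w ph p ρ, g (Sum.inr (Sum.inr (Sum.inl i))) + ∑ i ∈ ball w c p ρ, g (cr i))) := by
  unfold ball
  rw [Finset.sum_filter, Finset.sum_filter, Finset.sum_filter, Finset.sum_filter, Finset.sum_filter, RB_univ]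
  rfl

theorem cfg_loc [IsAlgClosed K] [CharZero K] (hL : FunF K 1 L) (w : Place K L) {q s b f : ℕ} {ι : Type} [Fintype ι] {m : ι → ℕ}
    {al : Fin s → L} {be : Fin b → L} {ph : Fin f → L} {c v : ι → L} (hq : 1 ≤ q) (hm : ∀ i, 1 ≤ m i) (hr : f < s + q * b)
    (h : Cfg q m al be ph c v) : Loc w (yy al be ph c) (ep m) (og q) := by
  have hrK : ((s : K) + (q : K) * (b : K) - (f : K)) ≠ 0 := by
    intro h0
    have h1 : ((s + q * b : ℕ) : K) = ((f : ℕ) : K) := by
      push_cast
      exact sub_eq_zero.1 h0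
    have h2 : s + q * b = f := Nat.cast_injective h1
    omega
  have hLc : CharZero L := charZero_of_injective_algebraMap (algebraMap K L).injective
  have hsum : ∑ i, ep (s := s) (b := b) (f := f) m i = -1 := by
    have h1 := cfg_exp h hr
    rw [RB_univ]
    simp only [ep, cr, Sum.elim_inl, Sum.elim_inr, Finset.sum_const, Finset.card_univ, Fintype.card_fin, nsmul_eq_mul]
    have h2 : ((∑ i, m i : ℕ) : ℤ) + 1 = s + b + f := by exact_mod_cast h1
    push_cast at h2
    linarith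
  obtain ⟨π, hπ⟩ := w.exists_uniformizer
  have hπ0 : π ≠ 0 := by
    intro h0
    rw [h0, w.ord_zero] at hπ
    exact absurd hπ (by norm_num)
  have key : ∀ p ρ, 0 ≤ kk w (yy al be ph c) (ep m) p ρ ∧
      (0 < kk w (yy al be ph c) (ep m) p ρ → om w (yy al be ph c) (og q) p (ρ + 1) = 0) ∧
      (kk w (yy al be ph c) (ep m) p ρ = 0 → 0 ≤ ee w (yy al be ph c) (ep m) p (ρ + 1) ∧
        (ee w (yy al be ph c) (ep m) p (ρ + 1) = 0 ↔ om w (yy al be ph c) (og q) p (ρ + 1) ≠ 0)) := by
    intro p ρ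
    obtain ⟨A0, hA0, hA1, -, hA2⟩ := red_PA hL hπ al p ρ
    obtain ⟨B0, hB0, hB1, -, hB2⟩ := red_PA hL hπ be p ρ
    obtain ⟨F0, hF0, hF1, -, hF2⟩ := red_PA hL hπ ph p ρ
    obtain ⟨C0, hC0, hC1, -, hC2⟩ := red_prod hL hπ c m p ρ
    have hA3 := hA2 0
    have hB3 := hB2 0
    have hF3 := hF2 0
    have hC3 := hC2 0
    rw [map_zero, mul_zero, add_zero] at hA3 hB3 hF3 hC3
    obtain ⟨κ, hκ, hκ1⟩ := red_C hL hπ (x := π ^ ρ) (zpow_ne_zero _ hπ0)
    rw [w.ord_zpow, hπ, mul_one] at hκ1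
    have hl := red_WW (q := q) hπ hA1 hB1 hF1
    have hcst : (C ((s : L) + (q : L) * (b : L) - (f : L)) : L[X]) =
        C (algebraMap K L ((s : K) + (q : K) * (b : K) - (f : K))) := by
      have h0 : (s : L) + (q : L) * (b : L) - (f : L) = algebraMap K L ((s : K) + (q : K) * (b : K) - (f : K)) := by
        simp only [map_sub, map_add, map_mul, map_natCast]
      rw [h0]
    have hr2 : Red w π (ρ + (0 + ∑ i, (m i : ℤ) * od w ρ (c i - p)))
        (WW q (sh π p ρ (PA al)) (sh π p ρ (PA be)) (sh π p ρ (PA ph)))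
        (C κ * (C ((s : K) + (q : K) * (b : K) - (f : K)) * C0)) := by
      rw [sh_WW, h.der, sh_mul, sh_C, hcst]
      exact red_mul hπ hκ1 (red_mul hπ (red_const _) hC1)
    have hne : C κ * (C ((s : K) + (q : K) * (b : K) - (f : K)) * C0) ≠ 0 :=
      mul_ne_zero (C_ne_zero.2 hκ) (mul_ne_zero (C_ne_zero.2 hrK) hC0)
    have hmult : (C κ * (C ((s : K) + (q : K) * (b : K) - (f : K)) * C0)).rootMultiplicity 0 = C0.rootMultiplicity 0 := by
      rw [rootMultiplicity_mul hne, rootMultiplicity_C, zero_add,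
        rootMultiplicity_mul (mul_ne_zero (C_ne_zero.2 hrK) hC0), rootMultiplicity_C, zero_add]
    have hkk : kk w (yy al be ph c) (ep m) p ρ = (ρ + (0 + ∑ i, (m i : ℤ) * od w ρ (c i - p))) -
        (∑ i, od w ρ (al i - p) + ∑ i, od w ρ (be i - p) + ∑ i, od w ρ (ph i - p)) := by
      unfold kk
      rw [RB_univ]
      simp only [ep, yy, cr, Sum.elim_inl, Sum.elim_inr, neg_mul, one_mul, Finset.sum_neg_distrib]
      ring
    have hee : ee w (yy al be ph c) (ep m) p (ρ + 1) = 1 + ((C0.rootMultiplicity 0 : ℤ) - (A0.rootMultiplicity 0 : ℤ) -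
        (B0.rootMultiplicity 0 : ℤ) - (F0.rootMultiplicity 0 : ℤ)) := by
      unfold ee
      rw [ball_sum, hA3, hB3, hF3, hC3]
      simp only [ep, cr, Sum.elim_inl, Sum.elim_inr, Finset.sum_const, nsmul_eq_mul]
      push_cast
      ring
    have hom : om w (yy al be ph c) (og q) p (ρ + 1) = (A0.rootMultiplicity 0 : ℤ) +
        (q : ℤ) * (B0.rootMultiplicity 0 : ℤ) - (F0.rootMultiplicity 0 : ℤ) := by
      unfold om
      rw [ball_sum, hA3, hB3, hF3]
      simp only [og, cr, Sum.elim_inl, Sum.elim_inr, Finset.sum_const, nsmul_eq_mul]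
      ring
    obtain ⟨hw1, hw2⟩ := ww_mult (q := q) hA0 hB0 hF0 (0 : K)
    refine ⟨?_, ?_, ?_⟩
    · rw [hkk]
      by_contra hcon
      push Not at hcon
      exact hne (red_lt hπ hr2 hl (by linarith))
    · intro hpos
      rw [hkk] at hpos
      have hz : WW q A0 B0 F0 = 0 := red_lt hπ hl hr2 (by linarith)
      rw [hom]
      by_contra hcon
      have hcon' : A0.rootMultiplicity 0 + q * B0.rootMultiplicity 0 ≠ F0.rootMultiplicity 0 := by
        intro h1
        apply hcon
        have h2 : ((A0.rootMultiplicity 0 + q * B0.rootMultiplicity 0 : ℕ) : ℤ) = ((F0.rootMultiplicity 0 : ℕ) : ℤ) := by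
          rw [h1]
        push_cast at h2
        linarith
      exact (hw1 hcon').1 hz
    · intro hzero
      rw [hkk] at hzero
      have hN : ρ + (0 + ∑ i, (m i : ℤ) * od w ρ (c i - p)) =
          ∑ i, od w ρ (al i - p) + ∑ i, od w ρ (be i - p) + ∑ i, od w ρ (ph i - p) := by linarith
      rw [hN] at hr2
      have hW : WW q A0 B0 F0 = C κ * (C ((s : K) + (q : K) * (b : K) - (f : K)) * C0) := red_unique hl hr2
      rw [hee, hom]
      by_cases hc : A0.rootMultiplicity 0 + q * B0.rootMultiplicity 0 = F0.rootMultiplicity 0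
      · have h1 := hw2 hc (by rw [hW]; exact hne)
        rw [hW, hmult] at h1
        have h2 : ((A0.rootMultiplicity 0 + q * B0.rootMultiplicity 0 : ℕ) : ℤ) = ((F0.rootMultiplicity 0 : ℕ) : ℤ) := by
          rw [hc]
        have h3 : ((A0.rootMultiplicity 0 + B0.rootMultiplicity 0 + F0.rootMultiplicity 0 : ℕ) : ℤ) ≤
            ((C0.rootMultiplicity 0 : ℕ) : ℤ) := by exact_mod_cast h1
        push_cast at h2 h3
        refine ⟨by linarith, ⟨fun h4 => by linarith, fun h4 => absurd (by linarith) h4⟩⟩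
      · have h1 := (hw1 hc).2
        rw [hW, hmult] at h1
        have h3 : ((C0.rootMultiplicity 0 + 1 : ℕ) : ℤ) =
            ((A0.rootMultiplicity 0 + B0.rootMultiplicity 0 + F0.rootMultiplicity 0 : ℕ) : ℤ) := by rw [h1]
        push_cast at h3
        refine ⟨by linarith, ⟨fun _ h4 => hc ?_, fun _ => by linarith⟩⟩
        have h5 : ((A0.rootMultiplicity 0 + q * B0.rootMultiplicity 0 : ℕ) : ℤ) = ((F0.rootMultiplicity 0 : ℕ) : ℤ) := by
          push_cast
          linarith
        exact_mod_cast h5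
  refine ⟨fun p ρ => (key p ρ).1, fun p ρ => (key p ρ).2.1, fun p ρ => (key p ρ).2.2, ?_, ?_, hsum⟩
  · intro i hi j hj
    exact cfg_iso hq hm hr h i j hi hj
  · intro i
    rcases i with i | i | i | i
    · exact le_refl _
    · exact le_refl _
    · exact le_refl _
    · show -1 ≤ (m i : ℤ)
      have := Int.natCast_nonneg (m i)
      linarith

end Pool.Agent.LibRF77
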