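import Pool.Agent.LibRF77.RS
import Pool.Agent.LibRF77.RD

/-!
[RF77 RG] The cluster theorem. `o` has the value `v o = t`, `0 < w.ord (t - 1)` or `t = 1` excluded (`ht`), `v i = 1` and `m i = e` for `i ∈ J`, `m o = e`; the other values are different constants `u i ≠ 0, 1`. If two special points meet (`Ge w 1`), then `w.ord (t - 1) ≤ (2 e + 1) ∑_(i ∈ J) w.ord (c o - c i)`.
Proof. All values have order `0`; so all differences have order `≥ 0` (`diff_bound` with `n = 0`, `r > 0`). All special points are different (`cfg_iso`, `hinj`). Let `yy x - yy x'` have order `≥ 1`, `x ≠ x'`, `C = ball (yy x) 1`. `kk (yy x) 0 = 0`, so `ee (yy x) 1 ≥ 0` (`Loc.zr`); by `no_e0` it is `≥ 1`. `reach`: a reachable critical point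
`c i ∈ C`, (`ee (c i) ρ' ≥ 1` for all `ρ' ≥ 1`).
(A) if a ball `ball (c i) ρ`, `ρ ≥ 1`, around a reachable `c i` contains another special point, let `ρ1 ≥ ρ` be the smallest order of `yy j - c i` for the `j` in this ball: (Ge w ρ1, not Ge w (ρ1 + 1)) `spl`: a reachable `c i'` in this ball (`≠ c i`) with `v i' ≠ v i`, `w.ord (v i' - v i) = kk (c i) ρ1 ≥ 1` (`kk ≥ 1` as `kk (c i) 0 = 0`,
`ee ≥ 1`). The values of the indices `≠ o` are constants, different constants have a difference of order `0`; so `i = o` or `i' = o`, and the other value is a constant `≡ t ≡ 1`, so `1`: the other index is in `J` (`hu`: `u ≠ 1`). Hence `w.ord (t - 1) = kk (c i) ρ1`, and `c o ∈ ball (c i) ρ`, `c o` reachable.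
So `c o ∈ C`, reachable. Let `ρ` be the smallest order of `yy j - c o`, `j ∈ C`, `yy j ≠ c o`: `ball (c o) ρ' = C` for `1 ≤ ρ' ≤ ρ`, and `w.ord (t - 1) = kk (c o) ρ = ρ * ee (c o) 1` (`kk_succ`), `spl` gives an `i0 ∈ J`, `c i0 ∈ C`.
(B) `∑_(j ∈ C) ep j ≤ e (1 + n)`, `n = #{i ∈ J | c i ∈ C}`: group `C` by the classes `D` = `ball (yy j) (ρ + 1)`, `j ∈ C` (e.g. by the residue of `(yy j - c o) π ^ (-ρ)`, `Finset.sum_fiberwise`, or `Finset.sum` over the quotient): for each class `∑_D ep ≤ e * #(D ∩ ({o} ∪ J))` (critical indices): if `ee D ≤ 0` then `∑_D ep ≤ -1`. If `ee D ≥ 1`: `reach`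
gives a critical `c i ∈ D`, reachable (also for radii `≤ ρ`). If `D` contains another point, by (A) (with the radius `ρ + 1`) `c o ∈ D` and `w.ord (t - 1) = kk (c o) ρ2` for some `ρ2 ≥ ρ + 1` [take `c o` as the centre: apply (A) to `c o`], but `kk (c o) ρ2 > kk (c o) ρ` (`kk_succ`): contradiction. So `D = {c i}`, and `i = o` or `i ∈ J`: `cont` for `c o, c i` (in `C`): `v i ≡ t ≡ 1`.
So `w.ord (t - 1) ≤ ρ (1 + e (1 + n)) ≤ ρ (2 e + 1) n ≤ (2 e + 1) ∑_(i ∈ J, c i ∈ C) w.ord (c o - c i)`, `n ≥ 1`; the other terms are `≥ 0`.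
-/

open scoped Classical

namespace Pool.Agent.LibRF77

open Polynomial
open Pool.Agent.LibBH2
open Pool.Agent.LibCHd (FunF)
open Pool.Agent.LibEX36 (PA RP)
open Pool.Agent.LibPS77 (Ge)

variable {K : Type} [Field K] {L : Type} [Field L] [Algebra K L]

/-- the values of a configuration: `v o = t`, `1` on `J`, different constants `u i` otherwise -/
structure Vals {K L : Type} [Field K] [Field L] [Algebra K L] {ι : Type} (e : ℕ) (m : ι → ℕ) (v : ι → L) (o : ι) (J : Finset ι)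
    (u : ι → K) (t : L) : Prop where
  vo : v o = t
  mo : m o = e
  oJ : o ∉ J
  vJ : ∀ i ∈ J, v i = 1
  mJ : ∀ i ∈ J, m i = e
  vu : ∀ i, i ≠ o → i ∉ J → v i = algebraMap K L (u i)
  u0 : ∀ i, i ≠ o → i ∉ J → u i ≠ 0 ∧ u i ≠ 1
  ui : ∀ i i', i ≠ o → i ∉ J → i' ≠ o → i' ∉ J → u i = u i' → i = i'

/-! ### abstract form -/

section rg

variable {I ι : Type} [Fintype I] {w : Place K L} {Y : I → L} {ε : I → ℤ} {g : ι → I} {v : ι → L} {e : ℕ} {o : ι}
  {J : Finset ι} {t : L}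

/-- reachable points -/
def RGre (w : Place K L) (Y : I → L) (ε : I → ℤ) (p : L) : Prop := ∀ ρ : ℤ, 1 ≤ ρ → 1 ≤ ee w Y ε p ρ

structure RGp (w : Place K L) (Y : I → L) (ε : I → ℤ) (g : ι → I) (v : ι → L) (e : ℕ) (o : ι) (J : Finset ι) (t : L) :
    Prop where
  inj : Function.Injective Y
  hd : ∀ i j, Ge w 0 (Y i - Y j)
  kk0 : ∀ i, kk w Y ε (Y i) 0 = 0
  crit : ∀ i, 0 ≤ ε i → ∃ j, g j = i
  oJ : o ∉ J
  epo : ε (g o) = e
  epJ : ∀ i ∈ J, ε (g i) = e
  ginj : Function.Injective g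
  spl : ∀ i, RGre w Y ε (Y (g i)) → ∀ ρ, 1 ≤ ρ → ∀ j, Ge w ρ (Y j - Y (g i)) → ¬ Ge w (ρ + 1) (Y j - Y (g i)) →
    ∃ i', Ge w ρ (Y (g i') - Y (g i)) ∧ ¬ Ge w (ρ + 1) (Y (g i') - Y (g i)) ∧ RGre w Y ε (Y (g i')) ∧ v i' ≠ v i ∧
      w.ord (v i' - v i) = kk w Y ε (Y (g i)) ρ
  cont : ∀ i i', RGre w Y ε (Y (g i)) → RGre w Y ε (Y (g i')) → ∀ ρ, 1 ≤ ρ → Ge w ρ (Y (g i') - Y (g i)) →
    Ge w (kk w Y ε (Y (g i)) ρ) (v i' - v i)
  val : ∀ i i', v i' ≠ v i → 1 ≤ w.ord (v i' - v i) →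
    w.ord (v i' - v i) = w.ord (t - 1) ∧ ((i = o ∧ i' ∈ J) ∨ (i' = o ∧ i ∈ J))
  same : ∀ i, Ge w 1 (v i - v o) → i = o ∨ i ∈ J

theorem rg_self {n : ℤ} {x : L} : Ge w n (x - x) := Or.inl (sub_self _)

theorem rg_symm {n : ℤ} {x y : L} (h : Ge w n (x - y)) : Ge w n (y - x) := by
  have := h.neg
  rwa [neg_sub] at this

theorem rg_trans {n : ℤ} {x y z : L} (h : Ge w n (x - y)) (h' : Ge w n (y - z)) : Ge w n (x - z) := by
  have := h.add h'
  rwa [sub_add_sub_cancel] at this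

theorem rg_kk_lt {p : L} (hre : RGre w Y ε p) {a b : ℤ} (ha : 0 ≤ a) (hab : a < b) : kk w Y ε p a < kk w Y ε p b := by
  have h1 : a + 1 ≤ b := hab
  induction b, h1 using Int.le_induction with
  | base =>
    rw [kk_succ]
    have := hre (a + 1) (by omega)
    omega
  | succ n hn ih =>
    rw [kk_succ]
    have := hre (n + 1) (by omega)
    have := ih (by omega)
    omega

theorem rg_A (h : RGp w Y ε g v e o J t) {i : ι} (hre : RGre w Y ε (Y (g i))) {ρ : ℤ} (hρ : 1 ≤ ρ) {j : I}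
    (hj : j ≠ g i) (hjρ : Ge w ρ (Y j - Y (g i))) :
    ∃ ρ1, ρ ≤ ρ1 ∧ (∀ k, Ge w ρ (Y k - Y (g i)) → Ge w ρ1 (Y k - Y (g i))) ∧ ∃ i', Ge w ρ1 (Y (g i') - Y (g i)) ∧
      RGre w Y ε (Y (g i')) ∧ w.ord (t - 1) = kk w Y ε (Y (g i)) ρ1 ∧ ((i = o ∧ i' ∈ J) ∨ (i' = o ∧ i ∈ J)) := by
  obtain ⟨k0, hk0, hmin⟩ := ((ball w Y (Y (g i)) ρ).erase (g i)).exists_min_image (fun k => w.ord (Y k - Y (g i)))
    ⟨j, Finset.mem_erase.2 ⟨hj, mem_ball.2 hjρ⟩⟩
  rw [Finset.mem_erase, mem_ball] at hk0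
  have hne : Y k0 - Y (g i) ≠ 0 := fun h0 => hk0.1 (h.inj (sub_eq_zero.1 h0))
  have h1 : ρ ≤ w.ord (Y k0 - Y (g i)) := hk0.2.resolve_left hne
  obtain ⟨i', a1, a2, a3, a4, a5⟩ := h.spl i hre (w.ord (Y k0 - Y (g i))) (hρ.trans h1) k0 (Or.inr le_rfl)
    (fun h2 => by have := h2.resolve_left hne; omega)
  have h3 : 0 < kk w Y ε (Y (g i)) (w.ord (Y k0 - Y (g i))) := by
    rw [← h.kk0 (g i)]
    exact rg_kk_lt hre le_rfl (by omega)
  obtain ⟨b1, b2⟩ := h.val i i' a4 (by rw [a5]; exact h3)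
  refine ⟨w.ord (Y k0 - Y (g i)), h1, ?_, i', a1, a3, b1.symm.trans a5, b2⟩
  intro k hk
  by_cases hki : k = g i
  · rw [hki]
    exact rg_self
  · exact Or.inr (hmin k (Finset.mem_erase.2 ⟨hki, mem_ball.2 hk⟩))

theorem rg_kk_mul {p : L} (hd : ∀ k, Ge w 0 (Y k - p)) {R : ℤ} (hR : 1 ≤ R)
    (hall : ∀ k, Ge w 1 (Y k - p) → Ge w R (Y k - p)) : kk w Y ε p R = R * ee w Y ε p 1 := by
  have h1 : ∀ i, ε i * od w R (Y i - p) = if Ge w 1 (Y i - p) then R * ε i else 0 := by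
    intro i
    by_cases h : Ge w 1 (Y i - p)
    · rw [if_pos h, mul_comm]
      congr 1
      unfold od
      split_ifs with h0
      · rfl
      · exact min_eq_left ((hall i h).resolve_left h0)
    · rw [if_neg h]
      have h0 : Y i - p ≠ 0 := fun h0 => h (Or.inl h0)
      have h2 : ¬ 1 ≤ w.ord (Y i - p) := fun h2 => h (Or.inr h2)
      have h3 := (hd i).resolve_left h0
      unfold od
      rw [if_neg h0]
      have h4 : w.ord (Y i - p) = 0 := by omega
      rw [h4, min_eq_right (by omega), mul_zero]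
  unfold kk ee
  rw [Finset.sum_congr rfl fun i _ => h1 i, ← Finset.sum_filter, ← Finset.mul_sum, mul_add, mul_one]
  rfl

theorem rg_group {p : L} {R0 R1 : ℤ} (h01 : R0 ≤ R1) (F G : I → ℤ)
    (h : ∀ k ∈ ball w Y p R0, ∑ i ∈ ball w Y (Y k) R1, F i ≤ ∑ i ∈ ball w Y (Y k) R1, G i) :
    ∑ i ∈ ball w Y p R0, F i ≤ ∑ i ∈ ball w Y p R0, G i := by
  have hm : ∀ i ∈ ball w Y p R0, ball w Y (Y i) R1 ∈ (ball w Y p R0).image fun k => ball w Y (Y k) R1 :=
    fun i hi => Finset.mem_image_of_mem _ hi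
  rw [← Finset.sum_fiberwise_of_maps_to hm F, ← Finset.sum_fiberwise_of_maps_to hm G]
  refine Finset.sum_le_sum fun D hD => ?_
  obtain ⟨k, hk, rfl⟩ := Finset.mem_image.1 hD
  have e : (ball w Y p R0).filter (fun i => ball w Y (Y i) R1 = ball w Y (Y k) R1) = ball w Y (Y k) R1 := by
    ext i
    rw [Finset.mem_filter]
    constructor
    · rintro ⟨-, h2⟩
      rw [← h2, mem_ball]
      exact rg_self
    · intro h2
      rw [mem_ball] at h2
      exact ⟨mem_ball.2 (rg_trans (h2.mono h01) (mem_ball.1 hk)), ball_eq h2⟩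
  rw [e]
  exact h k hk

/-- the weight of the points with value `t` or `1` -/
noncomputable def rgchi (g : ι → I) (e : ℕ) (o : ι) (J : Finset ι) (i : I) : ℤ :=
  if ∃ j, g j = i ∧ (j = o ∨ j ∈ J) then (e : ℤ) else 0

theorem rgchi_nn (i : I) : 0 ≤ rgchi g e o J i := by
  unfold rgchi
  split_ifs
  · exact Int.natCast_nonneg e
  · exact le_rfl

theorem rg_class (h : RGp w Y ε g v e o J t) (hiso : ∀ i, ε i < 0 → ∀ j, j ≠ i → Y j ≠ Y i)
    (ho : RGre w Y ε (Y (g o))) {R : ℤ} (hR : 1 ≤ R) (hall : ∀ k, Ge w 1 (Y k - Y (g o)) → Ge w R (Y k - Y (g o)))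
    (htR : w.ord (t - 1) = kk w Y ε (Y (g o)) R) {k : I} (hk : Ge w 1 (Y k - Y (g o))) :
    ∑ i ∈ ball w Y (Y k) (R + 1), ε i ≤ ∑ i ∈ ball w Y (Y k) (R + 1), rgchi g e o J i := by
  by_cases h1 : 1 ≤ ee w Y ε (Y k) (R + 1)
  · obtain ⟨i, hi, hi0, hire⟩ := reach hiso ⟨k, mem_ball.2 rg_self⟩ h1
    obtain ⟨i1, rfl⟩ := h.crit i hi0
    rw [mem_ball] at hi
    have hi1o : Ge w R (Y (g i1) - Y (g o)) := rg_trans (hi.mono (by omega)) (hall k hk)
    have hre1 : RGre w Y ε (Y (g i1)) := by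
      intro ρ' hρ'
      by_cases h2 : R + 1 ≤ ρ'
      · exact hire ρ' h2
      · have h3 := ho ρ' hρ'
        unfold ee at h3 ⊢
        rw [ball_eq (hi1o.mono (by omega))]
        exact h3
    have hsing : ball w Y (Y k) (R + 1) = {g i1} := by
      ext j
      rw [Finset.mem_singleton, mem_ball]
      constructor
      · intro hj
        by_contra hji
        obtain ⟨ρ2, c1, -, i2, c2, -, c3, c4⟩ := rg_A h hre1 (show 1 ≤ R + 1 by omega) hji (rg_trans hj (rg_symm hi))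
        have h4 : Ge w ρ2 (Y (g o) - Y (g i1)) := by
          rcases c4 with ⟨c5, -⟩ | ⟨c5, -⟩
          · rw [c5]
            exact rg_self
          · rw [← c5]
            exact c2
        have h5 := rg_kk_lt ho (show 0 ≤ R by omega) (show R < ρ2 by omega)
        rw [kk_eq h4] at h5
        omega
      · rintro rfl
        exact hi
    have hkk : 0 < kk w Y ε (Y (g o)) 1 := by
      rw [← h.kk0 (g o)]
      exact rg_kk_lt ho le_rfl (by omega)
    have h6 := h.same i1 ((h.cont o i1 ho hre1 1 le_rfl (hi1o.mono hR)).mono (by omega))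
    rw [hsing, Finset.sum_singleton, Finset.sum_singleton]
    unfold rgchi
    rw [if_pos ⟨i1, rfl, h6⟩]
    rcases h6 with h7 | h7
    · rw [h7, h.epo]
    · rw [h.epJ _ h7]
  · refine le_trans ?_ (Finset.sum_nonneg fun i _ => rgchi_nn i)
    unfold ee at h1
    omega

theorem rg_chi_sum (h : RGp w Y ε g v e o J t) :
    ∑ i ∈ ball w Y (Y (g o)) 1, rgchi g e o J i ≤
      (e : ℤ) * (1 + ((J.filter fun i => Ge w 1 (Y (g i) - Y (g o))).card : ℤ)) := by
  unfold rgchi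
  rw [← Finset.sum_filter, Finset.sum_const, nsmul_eq_mul, mul_comm]
  refine mul_le_mul_of_nonneg_left ?_ (Int.natCast_nonneg e)
  have h1 : (ball w Y (Y (g o)) 1).filter (fun i => ∃ j, g j = i ∧ (j = o ∨ j ∈ J)) ⊆
      (insert o (J.filter fun i => Ge w 1 (Y (g i) - Y (g o)))).image g := by
    intro i hi
    rw [Finset.mem_filter, mem_ball] at hi
    obtain ⟨h2, j, rfl, h3⟩ := hi
    refine Finset.mem_image_of_mem _ ?_
    rcases h3 with rfl | h3
    · exact Finset.mem_insert_self _ _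
    · exact Finset.mem_insert_of_mem (Finset.mem_filter.2 ⟨h3, h2⟩)
  have h2 := (Finset.card_le_card h1).trans Finset.card_image_le
  rw [Finset.card_insert_of_notMem (fun h3 => h.oJ (Finset.mem_filter.1 h3).1)] at h2
  omega

theorem rg_abs (h : RGp w Y ε g v e o J t) (hiso : ∀ i, ε i < 0 → ∀ j, j ≠ i → Y j ≠ Y i) {x x' : I} (hx : x ≠ x')
    (hxx : Ge w 1 (Y x - Y x')) (h1 : 1 ≤ ee w Y ε (Y x) 1) :
    w.ord (t - 1) ≤ (2 * e + 1 : ℕ) * ∑ i ∈ J, w.ord (Y (g o) - Y (g i)) := by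
  obtain ⟨i, hi, hi0, hire⟩ := reach hiso ⟨x, mem_ball.2 rg_self⟩ h1
  obtain ⟨i0, rfl⟩ := h.crit i hi0
  rw [mem_ball] at hi
  obtain ⟨j, hj, hj1⟩ : ∃ j, j ≠ g i0 ∧ Ge w 1 (Y j - Y (g i0)) := by
    by_cases hxi : x = g i0
    · refine ⟨x', fun e => hx (hxi.trans e.symm), ?_⟩
      rw [← hxi]
      exact rg_symm hxx
    · exact ⟨x, hxi, rg_symm hi⟩
  obtain ⟨ρ0, hρ0, -, i1, hi1, hi1re, -, hcase⟩ := rg_A h hire le_rfl hj hj1
  obtain ⟨hore, j', hj', hj'1⟩ : RGre w Y ε (Y (g o)) ∧ ∃ j', j' ≠ g o ∧ Ge w 1 (Y j' - Y (g o)) := by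
    rcases hcase with ⟨e1, hJ⟩ | ⟨e1, hJ⟩
    · subst e1
      exact ⟨hire, g i1, fun e2 => h.oJ (h.ginj e2 ▸ hJ), hi1.mono hρ0⟩
    · subst e1
      exact ⟨hi1re, g i0, fun e2 => h.oJ (h.ginj e2 ▸ hJ), rg_symm (hi1.mono hρ0)⟩
  obtain ⟨R, hR, hall, i', hi', -, htR, hcase'⟩ := rg_A h hore le_rfl hj' hj'1
  have hi'J : i' ∈ J := by
    rcases hcase' with ⟨_, h2⟩ | ⟨_, h2⟩
    · exact h2
    · exact absurd h2 h.oJ
  have e1 := rg_kk_mul (ε := ε) (fun k => h.hd k (g o)) hR hall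
  have e2 := rg_group (F := ε) (G := rgchi g e o J) (show (1 : ℤ) ≤ R + 1 by omega)
    (fun k hk => rg_class h hiso hore hR hall htR (mem_ball.1 hk))
  have e3 := rg_chi_sum h
  have hn : 1 ≤ ((J.filter fun i => Ge w 1 (Y (g i) - Y (g o))).card : ℤ) := by
    have : 0 < (J.filter fun i => Ge w 1 (Y (g i) - Y (g o))).card :=
      Finset.card_pos.2 ⟨i', Finset.mem_filter.2 ⟨hi'J, hi'.mono hR⟩⟩
    omega
  have e4 : (((J.filter fun i => Ge w 1 (Y (g i) - Y (g o))).card : ℤ)) * R ≤ ∑ i ∈ J, w.ord (Y (g o) - Y (g i)) := by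
    have f1 : ∀ i ∈ J, Y (g o) - Y (g i) ≠ 0 := fun i hi h0 => h.oJ (h.ginj (h.inj (sub_eq_zero.1 h0)) ▸ hi)
    have f2 : ∑ i ∈ J.filter (fun i => Ge w 1 (Y (g i) - Y (g o))), w.ord (Y (g o) - Y (g i)) ≤
        ∑ i ∈ J, w.ord (Y (g o) - Y (g i)) :=
      Finset.sum_le_sum_of_subset_of_nonneg (Finset.filter_subset _ _)
        (fun i hi _ => (h.hd (g o) (g i)).resolve_left (f1 i hi))
    refine le_trans ?_ f2
    rw [← nsmul_eq_mul]
    refine Finset.card_nsmul_le_sum _ _ _ fun i hi => ?_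
    rw [Finset.mem_filter] at hi
    exact (rg_symm (hall _ hi.2)).resolve_left (f1 i hi.1)
  have e5 : ee w Y ε (Y (g o)) 1 ≤ 1 + (e : ℤ) * (1 + ((J.filter fun i => Ge w 1 (Y (g i) - Y (g o))).card : ℤ)) := by
    unfold ee
    have := e2.trans e3
    omega
  rw [htR, e1]
  generalize ((J.filter fun i => Ge w 1 (Y (g i) - Y (g o))).card : ℤ) = n at hn e4 e5
  have e6 : R * ee w Y ε (Y (g o)) 1 ≤ R * (1 + (e : ℤ) * (1 + n)) := mul_le_mul_of_nonneg_left e5 (by omega)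
  have e7 : R * (1 + (e : ℤ) * (1 + n)) ≤ (2 * (e : ℤ) + 1) * (n * R) := by
    have : 0 ≤ R * (((e : ℤ) + 1) * (n - 1)) :=
      mul_nonneg (by omega) (mul_nonneg (by positivity) (by omega))
    nlinarith
  have e8 : (2 * (e : ℤ) + 1) * (n * R) ≤ (2 * (e : ℤ) + 1) * ∑ i ∈ J, w.ord (Y (g o) - Y (g i)) :=
    mul_le_mul_of_nonneg_left e4 (by positivity)
  push_cast
  exact e6.trans (e7.trans e8)

end rg

theorem cluster [IsAlgClosed K] [CharZero K] (hL : FunF K 1 L) (w : Place K L) {q s b f e : ℕ} {ι : Type} [Fintype ι]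
    {m : ι → ℕ} {al : Fin s → L} {be : Fin b → L} {ph : Fin f → L} {c v : ι → L} (hq : 1 ≤ q) (hm : ∀ i, 1 ≤ m i)
    (hr : f < s + q * b) (h : Cfg q m al be ph c v) (hinj : Function.Injective c) {o : ι} {J : Finset ι} {u : ι → K} {t : L}
    (hV : Vals e m v o J u t) (ht : 0 < w.ord (t - 1)) {x x' : Ix s b f ι} (hx : x ≠ x')
    (hxx : Ge w 1 (yy al be ph c x - yy al be ph c x')) :
    w.ord (t - 1) ≤ (2 * e + 1 : ℕ) * ∑ i ∈ J, w.ord (c o - c i) := by
  have hrp : (0 : ℤ) < (s : ℤ) + q * b - f := by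
    have : (f : ℤ) < s + q * b := by exact_mod_cast hr
    omega
  have hcl : ∀ a : K, a ≠ 0 → w.ord (algebraMap K L a) = 0 := w.ord_const
  have ht0 : t - 1 ≠ 0 := by
    intro h0
    rw [h0, w.ord_zero] at ht
    exact lt_irrefl _ ht
  have hvt : w.ord t = 0 := by
    refine Place.ord_eq_zero_of_val (c := (1 : K)) ?_ one_ne_zero
    rw [map_one]
    exact Or.inr ht
  -- the values other than `t` are constants
  have hcon : ∀ i, i ≠ o → ∃ a : K, v i = algebraMap K L a ∧ a ≠ 0 ∧ (a = 1 → i ∈ J) := by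
    intro i hi
    by_cases hiJ : i ∈ J
    · exact ⟨1, by rw [hV.vJ i hiJ, map_one], one_ne_zero, fun _ => hiJ⟩
    · exact ⟨u i, hV.vu i hi hiJ, (hV.u0 i hi hiJ).1, fun h1 => absurd h1 (hV.u0 i hi hiJ).2⟩
  have hv : ∀ i, w.ord (v i) = 0 := by
    intro i
    by_cases hi : i = o
    · rw [hi, hV.vo, hvt]
    · obtain ⟨a, h1, h2, -⟩ := hcon i hi
      rw [h1, hcl a h2]
  have hd : ∀ i j, Ge w 0 (yy al be ph c i - yy al be ph c j) := by
    intro i j
    rcases diff_bound hL w hq hm hr h (le_refl (0 : ℤ)) (fun i => (hv i).ge) i j with h1 | h1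
    · exact Or.inl (sub_eq_zero.2 h1)
    · right
      by_contra h2
      have : ((s : ℤ) + q * b - f) * w.ord (yy al be ph c i - yy al be ph c j) < 0 := mul_neg_of_pos_of_neg hrp (by omega)
      omega
  have hloc := cfg_loc hL w hq hm hr h
  have hinjY : Function.Injective (yy al be ph c) := by
    intro i j hij
    by_contra hne
    by_cases h1 : ep m i < 0
    · exact hloc.iso i h1 j (Ne.symm hne) hij.symm
    by_cases h2 : ep m j < 0
    · exact hloc.iso j h2 i hne hij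
    rcases i with i | i | i | i
    · exact h1 (by simp [ep])
    · exact h1 (by simp [ep])
    · exact h1 (by simp [ep])
    rcases j with j | j | j | j
    · exact h2 (by simp [ep])
    · exact h2 (by simp [ep])
    · exact h2 (by simp [ep])
    have : c i = c j := hij
    exact hne (by rw [hinj this])
  have hkk0 : ∀ i, kk w (yy al be ph c) (ep m) (yy al be ph c i) 0 = 0 := fun i => kk_base hloc.sum fun j => hd j i
  have hval : ∀ i i', v i' ≠ v i → 1 ≤ w.ord (v i' - v i) →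
      w.ord (v i' - v i) = w.ord (t - 1) ∧ ((i = o ∧ i' ∈ J) ∨ (i' = o ∧ i ∈ J)) := by
    have key : ∀ a : K, Ge w 1 (algebraMap K L a - t) → a = 1 := by
      intro a ha
      refine Place.val_unique (v := w) (f := t) ?_ ?_
      · have h3 := rg_symm ha
        exact h3.imp id fun h4 => by omega
      · rw [map_one]
        exact Or.inr ht
    intro i i' h1 h2
    by_cases hi : i = o
    · have hi' : i' ≠ o := fun h3 => h1 (by rw [hi, h3])
      obtain ⟨a, b1, b2, b3⟩ := hcon i' hi'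
      have h4 := key a (Or.inr (by rw [← b1, ← hV.vo, ← hi]; exact h2))
      refine ⟨?_, Or.inl ⟨hi, b3 h4⟩⟩
      rw [b1, hi, hV.vo, h4, map_one, ← w.ord_neg, neg_sub]
    · obtain ⟨a, b1, b2, b3⟩ := hcon i hi
      by_cases hi' : i' = o
      · have h4 := key a (rg_symm (Or.inr (by rw [← b1, ← hV.vo, ← hi']; exact h2)))
        refine ⟨?_, Or.inr ⟨hi', b3 h4⟩⟩
        rw [b1, hi', hV.vo, h4, map_one]
      · obtain ⟨a', b1', b2', b3'⟩ := hcon i' hi'
        exfalso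
        have h5 : a' - a ≠ 0 := fun h6 => h1 (by rw [b1, b1', sub_eq_zero.1 h6])
        rw [b1, b1', ← map_sub, hcl _ h5] at h2
        omega
  have hsame : ∀ i, Ge w 1 (v i - v o) → i = o ∨ i ∈ J := by
    intro i hi
    by_cases hio : i = o
    · exact Or.inl hio
    right
    by_cases hvv : v i = v o
    · obtain ⟨a, b1, b2, b3⟩ := hcon i hio
      exfalso
      have h3 : t - 1 = algebraMap K L (a - 1) := by rw [← hV.vo, ← hvv, b1, map_sub, map_one]
      have h4 : a - 1 ≠ 0 := fun h5 => ht0 (by rw [h3, h5, map_zero])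
      rw [h3, hcl _ h4] at ht
      exact lt_irrefl _ ht
    · rcases (hval o i hvv (hi.resolve_left (sub_ne_zero.2 hvv))).2 with ⟨-, h5⟩ | ⟨h5, -⟩
      · exact h5
      · exact absurd h5 hio
  have hP : RGp w (yy al be ph c) (ep m) (cr (s := s) (b := b) (f := f) (ι := ι)) v e o J t :=
    { inj := hinjY
      hd := hd
      kk0 := hkk0
      crit := by
        intro i hi
        rcases i with i | i | i | i
        · simp [ep] at hi
        · simp [ep] at hi
        · simp [ep] at hi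
        · exact ⟨i, rfl⟩
      oJ := hV.oJ
      epo := by
        show ((m o : ℕ) : ℤ) = e
        rw [hV.mo]
      epJ := by
        intro i hi
        show ((m i : ℕ) : ℤ) = e
        rw [hV.mJ i hi]
      ginj := by
        intro i j hij
        simpa [cr] using hij
      spl := fun i hre ρ hρ j hj hj' => spl hL w hq hm hr h hd hv hre hρ hj hj'
      cont := fun i i' hre hre' ρ hρ hp => cont hL w hq hm hr h hd hv hre hre' hρ hp
      val := hval
      same := hsame }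
  have hee : 1 ≤ ee w (yy al be ph c) (ep m) (yy al be ph c x) 1 := by
    by_contra h1
    exact hx (hinjY (no_e0 hL w hq hm hr h hd hv (p := x) (by omega) (mem_ball.2 rg_self) (mem_ball.2 (rg_symm hxx))))
  exact rg_abs hP hloc.iso hx hxx hee

end Pool.Agent.LibRF77
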