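import Mathlib

/-!
[RF77 RH] A counting lemma for rational functions `N / F` (Riemann-Hurwitz). `μ, ν, a, b, g` multiplicities of `N, F, A, B, G` at `z`. `Z` = the roots of `A B F G`. For `z ∈ Z`: if `μ ≠ ν`, then `mult_z (N' F - N F') = μ + ν - 1`, so `μ + ν - 1 = (q - 1) b + g`, `μ - ν = 1 + g - a - b - ν =: e(z)` (use `a + q b = ν`);
if `μ = ν`, then `mult_z (N' F - N F') ≥ 2 ν`, so `e(z) ≥ 1`, against `hpl` (`e(z) ≥ 1` iff `a + b + ν ≤ g`, and then `ν < μ`). So `μ = ν + e(z)` for all `z ∈ Z`. `deg N ≥ ∑_Z μ = ∑_Z ν + ∑_Z (1 + g - a - b - ν) = deg F + #Z + deg G - deg A - deg B - deg F` (`K` algebraically closed: degree = sum of the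
multiplicities over `Z`). On the other hand `deg N = deg F + 1 + deg G - deg A - deg B - deg F`: if `deg N ≠ deg F`, `deg (N' F - N F') = deg N + deg F - 1 = (q - 1) deg B + deg G`, `deg A + q deg B = deg F`; if `deg N = deg F`, then `deg (N' F - N F') ≤ 2 deg F - 2`, `(q-1) deg B + deg G + 2 ≤ 2 deg F = deg F + deg A + q deg B`, so
`deg G + 2 ≤ deg A + deg B + deg F`, against `hE`. So `#Z ≤ 1`.
-/

namespace Pool.Agent.LibRF77

open Polynomial

section priv

variable {K : Type} [Field K]

private lemma rh_mul_deriv (z : K) (n : ℕ) :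
    (X - C z) * derivative ((X - C z) ^ n) = C (n : K) * (X - C z) ^ n := by
  rw [derivative_X_sub_C_pow]
  rcases n with _ | n
  · simp
  · simp only [Nat.add_sub_cancel]
    ring

private lemma rh_expand (z : K) (μ ν : ℕ) (n f : K[X]) :
    (X - C z) * (derivative ((X - C z) ^ μ * n) * ((X - C z) ^ ν * f)
        - ((X - C z) ^ μ * n) * derivative ((X - C z) ^ ν * f))
      = (X - C z) ^ (μ + ν) * (C ((μ : K) - (ν : K)) * (n * f)
        + (X - C z) * (derivative n * f - n * derivative f)) := by
  have h1 := rh_mul_deriv z μ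
  have h2 := rh_mul_deriv z ν
  rw [derivative_mul, derivative_mul, pow_add, C_sub]
  linear_combination (n * ((X - C z) ^ ν * f)) * h1 - ((X - C z) ^ μ * n * f) * h2

private lemma rh_mult_ne [CharZero K] {N F : K[X]} (hN : N ≠ 0) (hF : F ≠ 0) (z : K)
    (hW : derivative N * F - N * derivative F ≠ 0)
    (hne : N.rootMultiplicity z ≠ F.rootMultiplicity z) :
    (derivative N * F - N * derivative F).rootMultiplicity z + 1
      = N.rootMultiplicity z + F.rootMultiplicity z := by
  obtain ⟨n, hn, hnd⟩ := exists_eq_pow_rootMultiplicity_mul_and_not_dvd N hN z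
  obtain ⟨f, hf, hfd⟩ := exists_eq_pow_rootMultiplicity_mul_and_not_dvd F hF z
  set μ := N.rootMultiplicity z with hμ
  set ν := F.rootMultiplicity z with hν
  have hx := rh_expand z μ ν n f
  rw [← hn, ← hf] at hx
  have hnz : n.eval z ≠ 0 := fun h => hnd (dvd_iff_isRoot.mpr h)
  have hfz : f.eval z ≠ 0 := fun h => hfd (dvd_iff_isRoot.mpr h)
  set br := C ((μ : K) - (ν : K)) * (n * f)
        + (X - C z) * (derivative n * f - n * derivative f) with hbr
  have hbz : br.eval z ≠ 0 := by
    rw [hbr]
    simp only [eval_add, eval_mul, eval_C, eval_sub, eval_X, sub_self, zero_mul, add_zero]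
    refine mul_ne_zero ?_ (mul_ne_zero hnz hfz)
    intro h
    apply hne
    exact_mod_cast sub_eq_zero.mp h
  have hbr0 : br ≠ 0 := by
    intro h
    rw [h] at hbz
    exact hbz (by simp)
  have hxz : (X - C z : K[X]) ≠ 0 := X_sub_C_ne_zero z
  have h1 := congrArg (fun p : K[X] => p.rootMultiplicity z) hx
  beta_reduce at h1
  rw [rootMultiplicity_mul (mul_ne_zero hxz hW),
    rootMultiplicity_mul (mul_ne_zero (pow_ne_zero _ hxz) hbr0),
    rootMultiplicity_X_sub_C_self, rootMultiplicity_X_sub_C_pow,
    rootMultiplicity_eq_zero (p := br) (x := z) hbz] at h1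
  omega

private lemma rh_mult_eq [CharZero K] {N F : K[X]} (hN : N ≠ 0) (hF : F ≠ 0) (z : K)
    (hW : derivative N * F - N * derivative F ≠ 0)
    (heq : N.rootMultiplicity z = F.rootMultiplicity z) :
    2 * F.rootMultiplicity z ≤ (derivative N * F - N * derivative F).rootMultiplicity z := by
  obtain ⟨n, hn, hnd⟩ := exists_eq_pow_rootMultiplicity_mul_and_not_dvd N hN z
  obtain ⟨f, hf, hfd⟩ := exists_eq_pow_rootMultiplicity_mul_and_not_dvd F hF z
  set μ := N.rootMultiplicity z with hμ
  set ν := F.rootMultiplicity z with hν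
  have hx := rh_expand z μ ν n f
  rw [← hn, ← hf] at hx
  have h0 : C ((μ : K) - (ν : K)) * (n * f) = 0 := by
    rw [heq]; simp
  rw [h0, zero_add] at hx
  have hxz : (X - C z : K[X]) ≠ 0 := X_sub_C_ne_zero z
  set br := derivative n * f - n * derivative f with hbr
  have hbr0 : br ≠ 0 := by
    intro h
    rw [h, mul_zero, mul_zero] at hx
    exact mul_ne_zero hxz hW hx
  have h1 := congrArg (fun p : K[X] => p.rootMultiplicity z) hx
  beta_reduce at h1
  rw [rootMultiplicity_mul (mul_ne_zero hxz hW),
    rootMultiplicity_mul (mul_ne_zero (pow_ne_zero _ hxz) (mul_ne_zero hxz hbr0)),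
    rootMultiplicity_mul (mul_ne_zero hxz hbr0),
    rootMultiplicity_X_sub_C_self, rootMultiplicity_X_sub_C_pow] at h1
  omega

private lemma rh_pow_mult (B : K[X]) (z : K) (n : ℕ) :
    (B ^ n).rootMultiplicity z = n * B.rootMultiplicity z := by
  classical
  rw [← count_roots, roots_pow, Multiset.count_nsmul, count_roots]

private lemma rh_sum_eq [IsAlgClosed K] [DecidableEq K] {P : K[X]} {Z : Finset K}
    (hZ : ∀ z, P.IsRoot z → z ∈ Z) :
    ∑ z ∈ Z, P.rootMultiplicity z = P.natDegree := by
  have h1 : ∑ z ∈ Z, P.rootMultiplicity z = ∑ z ∈ Z, P.roots.count z := by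
    refine Finset.sum_congr rfl fun z _ => ?_
    rw [count_roots]
  rw [h1, Multiset.sum_count_eq_card (fun a ha => hZ a (isRoot_of_mem_roots ha))]
  exact (splits_iff_card_roots.mp (IsAlgClosed.splits P))

private lemma rh_sum_le [DecidableEq K] {P : K[X]} {Z : Finset K} :
    ∑ z ∈ Z, P.rootMultiplicity z ≤ P.natDegree := by
  have h1 : ∑ z ∈ Z, P.rootMultiplicity z = ∑ z ∈ Z, P.roots.count z := by
    refine Finset.sum_congr rfl fun z _ => ?_
    rw [count_roots]
  rw [h1]
  calc ∑ z ∈ Z, P.roots.count z ≤ ∑ z ∈ Z ∪ P.roots.toFinset, P.roots.count z :=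
        Finset.sum_le_sum_of_subset Finset.subset_union_left
    _ = P.roots.card := Multiset.sum_count_eq_card (fun a ha =>
        Finset.mem_union_right _ (Multiset.mem_toFinset.mpr ha))
    _ ≤ P.natDegree := card_roots' P

private lemma rh_deg_le {N F : K[X]} (hW : derivative N * F - N * derivative F ≠ 0) :
    (derivative N * F - N * derivative F).natDegree + 1 ≤ N.natDegree + F.natDegree := by
  have h1 : 1 ≤ N.natDegree + F.natDegree := by
    by_contra hc
    have hn : N.natDegree = 0 := by omega
    have hf : F.natDegree = 0 := by omega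
    apply hW
    rw [natDegree_eq_zero.mp hn |>.choose_spec.symm, natDegree_eq_zero.mp hf |>.choose_spec.symm]
    simp
  have h2 : (derivative N * F).natDegree + 1 ≤ N.natDegree + F.natDegree := by
    rcases Nat.eq_zero_or_pos N.natDegree with h0 | hpos
    · obtain ⟨c, hc⟩ := natDegree_eq_zero.mp h0
      rw [← hc]
      simp
      rw [← hc] at h1
      simpa using h1
    · have := natDegree_derivative_lt (p := N) (by omega)
      have h3 := natDegree_mul_le (p := derivative N) (q := F)
      omega
  have h3 : (N * derivative F).natDegree + 1 ≤ N.natDegree + F.natDegree := by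
    rcases Nat.eq_zero_or_pos F.natDegree with h0 | hpos
    · obtain ⟨c, hc⟩ := natDegree_eq_zero.mp h0
      rw [← hc]
      simp
      rw [← hc] at h1
      simpa using h1
    · have := natDegree_derivative_lt (p := F) (by omega)
      have h3 := natDegree_mul_le (p := N) (q := derivative F)
      omega
  have h4 := natDegree_sub_le (derivative N * F) (N * derivative F)
  omega

private lemma rh_X_deg (N : K[X]) {m : ℕ} (hm : N.natDegree ≤ m) :
    (X * derivative N).natDegree ≤ m := by
  rcases Nat.eq_zero_or_pos N.natDegree with h0 | hpos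
  · obtain ⟨c, hc⟩ := natDegree_eq_zero.mp h0
    rw [← hc]
    simp
  · have := natDegree_derivative_lt (p := N) (by omega)
    have h3 := natDegree_mul_le (p := (X : K[X])) (q := derivative N)
    rw [natDegree_X] at h3
    omega

private lemma rh_X_coeff (N : K[X]) (m : ℕ) :
    (X * derivative N).coeff m = (m : K) * N.coeff m := by
  rcases m with _ | m
  · simp
  · rw [coeff_X_mul, coeff_derivative]
    push_cast
    ring

private lemma rh_coeff (N F : K[X]) {m k : ℕ} (hm : N.natDegree ≤ m) (hk : F.natDegree ≤ k)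
    (hmk : 1 ≤ m + k) :
    (derivative N * F - N * derivative F).coeff (m + k - 1)
      = ((m : K) - (k : K)) * (N.coeff m * F.coeff k) := by
  have h1 : (derivative N * F - N * derivative F).coeff (m + k - 1)
      = (X * (derivative N * F - N * derivative F)).coeff (m + k) := by
    conv_rhs => rw [show m + k = (m + k - 1) + 1 by omega]
    rw [coeff_X_mul]
  have h2 : X * (derivative N * F - N * derivative F)
      = (X * derivative N) * F - N * (X * derivative F) := by ring
  rw [h1, h2, coeff_sub, coeff_mul_add_eq_of_natDegree_le (rh_X_deg N hm) hk,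
    coeff_mul_add_eq_of_natDegree_le hm (rh_X_deg F hk), rh_X_coeff, rh_X_coeff]
  ring

end priv

theorem rh {K : Type} [Field K] [IsAlgClosed K] [CharZero K] {q : ℕ} (hq : 1 ≤ q) {A B F G N : K[X]} (hA : A ≠ 0) (hB : B ≠ 0)
    (hF : F ≠ 0) (hG : G ≠ 0) (hN : N ≠ 0) {κ : K} (hκ : κ ≠ 0)
    (h : derivative N * F - N * derivative F = C κ * B ^ (q - 1) * G)
    (hω : ∀ z, A.rootMultiplicity z + q * B.rootMultiplicity z = F.rootMultiplicity z)
    (hE : A.natDegree + B.natDegree + F.natDegree ≤ G.natDegree)
    (hpl : ∀ z, (A * B * F * G).IsRoot z → A.rootMultiplicity z + B.rootMultiplicity z + F.rootMultiplicity z ≤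
      G.rootMultiplicity z → F.rootMultiplicity z < N.rootMultiplicity z) {z z' : K} (hz : (A * B * F * G).IsRoot z)
    (hz' : (A * B * F * G).IsRoot z') : z = z' := by
  classical
  have hCκ : (C κ : K[X]) ≠ 0 := C_ne_zero.mpr hκ
  have hBp : B ^ (q - 1) ≠ 0 := pow_ne_zero _ hB
  have hW : derivative N * F - N * derivative F ≠ 0 := by
    rw [h]
    exact mul_ne_zero (mul_ne_zero hCκ hBp) hG
  have hP : A * B * F * G ≠ 0 := mul_ne_zero (mul_ne_zero (mul_ne_zero hA hB) hF) hG
  set Z : Finset K := (A * B * F * G).roots.toFinset with hZdef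
  have hmem : ∀ w, w ∈ Z ↔ (A * B * F * G).IsRoot w := by
    intro w
    rw [hZdef, Multiset.mem_toFinset, mem_roots hP]
  have hZA : ∀ w, A.IsRoot w → w ∈ Z := fun w hw => (hmem w).mpr (by
    rw [IsRoot.def] at hw ⊢; simp [hw])
  have hZB : ∀ w, B.IsRoot w → w ∈ Z := fun w hw => (hmem w).mpr (by
    rw [IsRoot.def] at hw ⊢; simp [hw])
  have hZF : ∀ w, F.IsRoot w → w ∈ Z := fun w hw => (hmem w).mpr (by
    rw [IsRoot.def] at hw ⊢; simp [hw])
  have hZG : ∀ w, G.IsRoot w → w ∈ Z := fun w hw => (hmem w).mpr (by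
    rw [IsRoot.def] at hw ⊢; simp [hw])
  have hdA := rh_sum_eq hZA
  have hdB := rh_sum_eq hZB
  have hdF := rh_sum_eq hZF
  have hdG := rh_sum_eq hZG
  have hdN : ∑ w ∈ Z, N.rootMultiplicity w ≤ N.natDegree := rh_sum_le
  have hmulW : ∀ w, (derivative N * F - N * derivative F).rootMultiplicity w
      = (q - 1) * B.rootMultiplicity w + G.rootMultiplicity w := by
    intro w
    rw [h, rootMultiplicity_mul (mul_ne_zero (mul_ne_zero hCκ hBp) hG),
      rootMultiplicity_mul (mul_ne_zero hCκ hBp), rootMultiplicity_C, rh_pow_mult]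
    omega
  have hq1 : ∀ x : ℕ, q * x = (q - 1) * x + x := by
    intro x
    obtain ⟨r, rfl⟩ : ∃ r, q = r + 1 := ⟨q - 1, by omega⟩
    simp only [Nat.add_sub_cancel]
    ring
  have hloc : ∀ w ∈ Z, N.rootMultiplicity w + A.rootMultiplicity w + B.rootMultiplicity w
      = 1 + G.rootMultiplicity w := by
    intro w hw
    have hr := (hmem w).mp hw
    have h1 := hω w
    have h2 := hmulW w
    have h3 := hpl w hr
    have h4 := hq1 (B.rootMultiplicity w)
    by_cases hne : N.rootMultiplicity w = F.rootMultiplicity w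
    · exfalso
      have h5 := rh_mult_eq hN hF w hW hne
      omega
    · have h5 := rh_mult_ne hN hF w hW hne
      omega
  have hsum : N.natDegree + A.natDegree + B.natDegree ≥ Z.card + G.natDegree := by
    have h1 := Finset.sum_congr rfl hloc
    rw [Finset.sum_add_distrib, Finset.sum_add_distrib, Finset.sum_add_distrib,
      Finset.sum_const, smul_eq_mul, mul_one, hdA, hdB, hdG] at h1
    omega
  have hFdeg : A.natDegree + q * B.natDegree = F.natDegree := by
    rw [← hdA, ← hdB, ← hdF, Finset.mul_sum, ← Finset.sum_add_distrib]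
    exact Finset.sum_congr rfl fun w _ => hω w
  have hWdeg : (derivative N * F - N * derivative F).natDegree
      = (q - 1) * B.natDegree + G.natDegree := by
    rw [h, natDegree_mul (mul_ne_zero hCκ hBp) hG, natDegree_mul hCκ hBp, natDegree_C,
      natDegree_pow]
    omega
  have hWle := rh_deg_le hW
  have hqB := hq1 B.natDegree
  have hupper : N.natDegree + A.natDegree + B.natDegree ≤ 1 + G.natDegree := by
    by_cases hd : N.natDegree = F.natDegree
    · exfalso
      have h1 : 1 ≤ N.natDegree + F.natDegree := by omega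
      have h2 := rh_coeff N F le_rfl le_rfl h1
      rw [hd, sub_self, zero_mul] at h2
      have h3 : (derivative N * F - N * derivative F).natDegree ≠ F.natDegree + F.natDegree - 1 := by
        intro h4
        rw [← h4] at h2
        exact hW (leadingCoeff_eq_zero.mp h2)
      omega
    · have h1 : 1 ≤ N.natDegree + F.natDegree := by omega
      have h2 := rh_coeff N F le_rfl le_rfl h1
      have h3 : (derivative N * F - N * derivative F).coeff (N.natDegree + F.natDegree - 1) ≠ 0 := by
        rw [h2]
        refine mul_ne_zero ?_ (mul_ne_zero ?_ ?_)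
        · intro h5
          apply hd
          exact_mod_cast sub_eq_zero.mp h5
        · exact leadingCoeff_ne_zero.mpr hN
        · exact leadingCoeff_ne_zero.mpr hF
      have h4 := le_natDegree_of_ne_zero h3
      omega
  have hcard : Z.card ≤ 1 := by omega
  exact Finset.card_le_one.mp hcard z ((hmem z).mpr hz) z' ((hmem z').mpr hz')

end Pool.Agent.LibRF77
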