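import Pool.Agent.LibRF77.R1
import Pool.Agent.LibRF77.RH

/-!
[RF77 RS] Splitting of a ball around a reachable critical point. All values have order `0`, all differences have order `≥ 0`.
`cont`: `c i, c i'` reachable, in the same ball of radius `ρ ≥ 1`: `v i' - v i` has order `≥ kk (c i) ρ`. Proof: `p = c i`; `r1c` for `i` (`z = 0`) and `i'` (`z` the residue of `(c i' - c i) π ^ (-ρ)`): the contents of `N_i = A B^q - v_i F`, `N_i' = N_i - (v_i' - v_i) F` are both `kk + S`, the content of `F` is `S`, its reduction `F0 ≠ 0` (`red_PA`).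
(If `v i' - v i ≠ 0` had a smaller order `n`, `(v_i' - v_i) F = N_i - N_i'` would have content `n + S` with the reduction `κ F0 ≠ 0`, but `red_up` gives `0`.)
`spl`: if the ball of radius `ρ ≥ 1` around a reachable `c i` contains a special point `j` which is not in the ball of radius `ρ + 1`, then there is a reachable `c i'` in the ball of radius `ρ`, not in the one of radius `ρ + 1`, with `v i' ≠ v i`, `w.ord (v i' - v i) = kk (c i) ρ`. Proof: suppose not. `p = c i`, `A0, B0, F0, C0` the reductions at `(p, ρ)`,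
`N0` the reduction of `N_i` (`r1c`). Apply `rh` (`G = C0`): `h`: `r1_der` sheared, contents: (`kk + S + S = ρ + (q-1) b + g` as in R1: `a + q b = S`); `hω`: `Loc.pos` (`kk p ρ ≥ 1`) at the centres `p + π ^ ρ z` (`kk_eq`); `hE`: `ee p ρ ≥ 1`, `natDegree` = numbers of points in the ball; `hpl`: `z` a root of `A0 B0 F0 C0`, i.e. the class
`D = ball (p + π ^ ρ z) (ρ + 1)` is not empty, `ee D ≥ 1`: `reach` gives a critical `c i'` in `D`, reachable from `ρ + 1` on, and also for `1 ≤ ρ' ≤ ρ` (`ball_eq`: `c i' ∈ ball (c i) ρ`); if `D` contains `c i` take `i' = i`. For `i' ≠ i` (not in the ball of radius `ρ + 1`): by assumption and `cont` `v i' = v i` or `w.ord (v i' - v i) > kk`,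
so `N_i` and `N_i'` have the same reduction at `(p, ρ)` (`red_sub`, `red_up`), and `r1c` for `i'` gives `mult_z F0 < mult_z N0`. So by `rh` all classes are equal, but `c i` (`z = 0`) and `j` are in different classes.
-/

open scoped Classical

namespace Pool.Agent.LibRF77

open Polynomial
open Pool.Agent.LibBH2
open Pool.Agent.LibCHd (FunF)
open Pool.Agent.LibEX36 (PA RP)
open Pool.Agent.LibPS77 (Ge)

variable {K : Type} [Field K] {L : Type} [Field L] [Algebra K L]

private theorem RS_ee {s b f : ℕ} {ι : Type} [Fintype ι] (w : Place K L) (m : ι → ℕ) (al : Fin s → L) (be : Fin b → L)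
    (ph : Fin f → L) (c : ι → L) (p : L) (ρ : ℤ) :
    ee w (yy al be ph c) (ep m) p ρ = 1 - ((ball w al p ρ).card : ℤ) - ((ball w be p ρ).card : ℤ) -
      ((ball w ph p ρ).card : ℤ) + ((∑ i ∈ ball w c p ρ, m i : ℕ) : ℤ) := by
  unfold ee
  rw [ball_sum w al be ph c p ρ (ep m)]
  simp only [ep, cr, Sum.elim_inl, Sum.elim_inr, Finset.sum_const, nsmul_eq_mul, Nat.cast_sum]
  ring

private theorem RS_om {s b f : ℕ} {ι : Type} [Fintype ι] (w : Place K L) (q : ℕ) (al : Fin s → L) (be : Fin b → L)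
    (ph : Fin f → L) (c : ι → L) (p : L) (ρ : ℤ) :
    om w (yy al be ph c) (og q) p ρ = ((ball w al p ρ).card : ℤ) + (q : ℤ) * ((ball w be p ρ).card : ℤ) -
      ((ball w ph p ρ).card : ℤ) := by
  unfold om
  rw [ball_sum w al be ph c p ρ (og q)]
  simp only [og, cr, Sum.elim_inl, Sum.elim_inr, Finset.sum_const, nsmul_eq_mul]
  ring

private theorem RS_kk {s b f : ℕ} {ι : Type} [Fintype ι] (w : Place K L) (m : ι → ℕ) (al : Fin s → L) (be : Fin b → L)
    (ph : Fin f → L) (c : ι → L) (p : L) (ρ : ℤ) :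
    kk w (yy al be ph c) (ep m) p ρ = ρ - (∑ j, od w ρ (al j - p)) - (∑ j, od w ρ (be j - p)) -
      (∑ j, od w ρ (ph j - p)) + ∑ i, (m i : ℤ) * od w ρ (c i - p) := by
  unfold kk
  simp only [Fintype.sum_sum_type, ep, yy, Sum.elim_inl, Sum.elim_inr]
  simp only [neg_mul, one_mul, Finset.sum_neg_distrib]
  ring

private theorem RS_ww {s b f : ℕ} {ι : Type} [Fintype ι] (w : Place K L) (q : ℕ) (al : Fin s → L) (be : Fin b → L)
    (ph : Fin f → L) (c : ι → L) (p : L) (ρ : ℤ) :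
    ww w (yy al be ph c) (og q) p ρ = (∑ j, od w ρ (al j - p)) + (q : ℤ) * (∑ j, od w ρ (be j - p)) -
      (∑ j, od w ρ (ph j - p)) := by
  unfold ww
  simp only [Fintype.sum_sum_type, og, yy, Sum.elim_inl, Sum.elim_inr]
  simp only [neg_mul, one_mul, zero_mul, Finset.sum_neg_distrib, Finset.sum_const_zero, ← Finset.mul_sum]
  ring

private theorem RS_zero (w : Place K L) (n : ℤ) : Ge w n (0 : L) := Or.inl rfl

private theorem RS_pi {w : Place K L} {π : L} (hπ : w.ord π = 1) : π ≠ 0 := by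
  rintro rfl
  rw [w.ord_zero] at hπ
  exact zero_ne_one hπ

private theorem RS_pow {w : Place K L} {π : L} (hπ : w.ord π = 1) (ρ : ℤ) : Ge w ρ (π ^ ρ) :=
  Or.inr (by rw [w.ord_zpow, hπ, mul_one])

private theorem RS_ball {w : Place K L} {π : L} (hπ : w.ord π = 1) (ρ : ℤ) (z : K) :
    Ge w ρ (π ^ ρ * algebraMap K L z) := by
  have h1 : Ge w 0 (algebraMap K L z) := by
    rcases w.reg_const z with h | h
    · exact Or.inl h
    · exact Or.inr h
  have h2 := (RS_pow hπ ρ).mul h1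
  rwa [add_zero] at h2

/-- residue of the direction of `x` in the ball of radius `ρ` around `p` -/
private theorem RS_res [IsAlgClosed K] (hL : FunF K 1 L) {w : Place K L} {π : L} (hπ : w.ord π = 1) {ρ : ℤ} {x p : L}
    (h : Ge w ρ (x - p)) : ∃ z : K, Ge w (ρ + 1) (x - (p + π ^ ρ * algebraMap K L z)) := by
  have hπ0 := RS_pi hπ
  have h1 : Ge w 0 ((x - p) * π ^ (-ρ)) := by
    have h2 := h.mul (RS_pow hπ (-ρ))
    rwa [add_neg_cancel] at h2
  obtain ⟨z, hz⟩ := exists_res hL w h1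
  refine ⟨z, ?_⟩
  have h3 : Ge w 1 ((x - p) * π ^ (-ρ) - algebraMap K L z) := by
    rcases hz with h | h
    · exact Or.inl h
    · exact Or.inr (by omega)
  have h4 := (RS_pow hπ ρ).mul h3
  have e : π ^ ρ * ((x - p) * π ^ (-ρ) - algebraMap K L z) = x - (p + π ^ ρ * algebraMap K L z) := by
    have h5 : π ^ ρ * π ^ (-ρ) = 1 := by rw [← zpow_add₀ hπ0, add_neg_cancel, zpow_zero]
    linear_combination (x - p) * h5
  rwa [e] at h4

private theorem RS_red0 (w : Place K L) (π : L) (n : ℤ) : Red w π n (0 : L[X]) 0 := by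
  intro i
  rw [mul_zero, coeff_zero, coeff_zero, map_zero, sub_zero]
  exact Place.zer_zero w

private theorem RS_root {A B F G : K[X]} (hA : A ≠ 0) (hB : B ≠ 0) (hF : F ≠ 0) (hG : G ≠ 0) (z : K) :
    (A * B * F * G).IsRoot z ↔ 0 < A.rootMultiplicity z ∨ 0 < B.rootMultiplicity z ∨ 0 < F.rootMultiplicity z ∨
      0 < G.rootMultiplicity z := by
  rw [rootMultiplicity_pos hA, rootMultiplicity_pos hB, rootMultiplicity_pos hF, rootMultiplicity_pos hG]
  simp only [IsRoot.def, eval_mul, mul_eq_zero, or_assoc]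

theorem cont [IsAlgClosed K] [CharZero K] (hL : FunF K 1 L) (w : Place K L) {q s b f : ℕ} {ι : Type}
    [Fintype ι] {m : ι → ℕ} {al : Fin s → L} {be : Fin b → L} {ph : Fin f → L} {c v : ι → L} (hq : 1 ≤ q) (hm : ∀ i, 1 ≤ m i)
    (hr : f < s + q * b) (h : Cfg q m al be ph c v) (hd : ∀ i j, Ge w 0 (yy al be ph c i - yy al be ph c j)) {i i' : ι}
    (hv : ∀ i, w.ord (v i) = 0) (hre : ∀ ρ, 1 ≤ ρ → 1 ≤ ee w (yy al be ph c) (ep m) (c i) ρ)
    (hre' : ∀ ρ, 1 ≤ ρ → 1 ≤ ee w (yy al be ph c) (ep m) (c i') ρ) {ρ : ℤ} (hρ : 1 ≤ ρ) (hp : Ge w ρ (c i' - c i)) :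
    Ge w (kk w (yy al be ph c) (ep m) (c i) ρ) (v i' - v i) := by
  obtain ⟨π, hπ⟩ := w.exists_uniformizer
  obtain ⟨N0, hN0, hN, -⟩ := r1c hL w hπ hq hm hr h hd (hv i) hre hρ (p := c i) (z := 0)
    (by rw [sub_self]; exact RS_zero w _) (by rw [map_zero, mul_zero, add_zero, sub_self]; exact RS_zero w _)
  obtain ⟨z, hz⟩ := RS_res hL hπ hp
  obtain ⟨N0', hN0', hN', -⟩ := r1c hL w hπ hq hm hr h hd (hv i') hre' hρ hp hz
  obtain ⟨F0, hF0, hF, -, -⟩ := red_PA hL hπ ph (c i) ρ
  by_contra hc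
  have hne : v i' - v i ≠ 0 := fun h0 => hc (Or.inl h0)
  have hlt : w.ord (v i' - v i) < kk w (yy al be ph c) (ep m) (c i) ρ := by
    by_contra h1
    exact hc (Or.inr (not_lt.1 h1))
  obtain ⟨κ, hκ, hC⟩ := red_C hL hπ hne
  have h1 := red_mul hπ hC hF
  have h2 := red_sub hN hN'
  have e : sh π (c i) ρ (PA al * PA be ^ q - C (v i) * PA ph) - sh π (c i) ρ (PA al * PA be ^ q - C (v i') * PA ph) =
      C (v i' - v i) * sh π (c i) ρ (PA ph) := by
    rw [← sh_sub, ← sh_C (π := π) (c i) ρ (v i' - v i), ← sh_mul]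
    congr 1
    rw [C_sub]
    ring
  rw [e] at h2
  have h3 := red_lt hπ h1 h2 (by omega)
  exact mul_ne_zero (C_ne_zero.2 hκ) hF0 h3

theorem spl [IsAlgClosed K] [CharZero K] (hL : FunF K 1 L) (w : Place K L) {q s b f : ℕ} {ι : Type}
    [Fintype ι] {m : ι → ℕ} {al : Fin s → L} {be : Fin b → L} {ph : Fin f → L} {c v : ι → L} (hq : 1 ≤ q) (hm : ∀ i, 1 ≤ m i)
    (hr : f < s + q * b) (h : Cfg q m al be ph c v) (hd : ∀ i j, Ge w 0 (yy al be ph c i - yy al be ph c j)) {i : ι}
    (hv : ∀ i, w.ord (v i) = 0) (hre : ∀ ρ, 1 ≤ ρ → 1 ≤ ee w (yy al be ph c) (ep m) (c i) ρ) {ρ : ℤ} (hρ : 1 ≤ ρ)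
    {j : Ix s b f ι} (hj : Ge w ρ (yy al be ph c j - c i)) (hj' : ¬ Ge w (ρ + 1) (yy al be ph c j - c i)) :
    ∃ i' : ι, Ge w ρ (c i' - c i) ∧ ¬ Ge w (ρ + 1) (c i' - c i) ∧ (∀ ρ, 1 ≤ ρ → 1 ≤ ee w (yy al be ph c) (ep m) (c i') ρ) ∧
      v i' ≠ v i ∧ w.ord (v i' - v i) = kk w (yy al be ph c) (ep m) (c i) ρ := by
  obtain ⟨π, hπ⟩ := w.exists_uniformizer
  have hloc := cfg_loc hL w hq hm hr h
  have hself : ∀ (ρ' : ℤ), Ge w ρ' (c i - c i) := fun ρ' => by rw [sub_self]; exact RS_zero w _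
  obtain ⟨N0, hN0, hN, hN00⟩ := r1c hL w hπ hq hm hr h hd (hv i) hre hρ (p := c i) (z := 0)
    (hself _) (by rw [map_zero, mul_zero, add_zero]; exact hself _)
  obtain ⟨A0, hA0, hA, hAd, hAm⟩ := red_PA hL hπ al (c i) ρ
  obtain ⟨B0, hB0, hB, hBd, hBm⟩ := red_PA hL hπ be (c i) ρ
  obtain ⟨F0, hF0, hF, hFd, hFm⟩ := red_PA hL hπ ph (c i) ρ
  obtain ⟨C0, hC0, hC, hCd, hCm⟩ := red_prod hL hπ c m (c i) ρ
  -- orders of `ww`
  have hall : ∀ j, Ge w 0 (yy al be ph c j - c i) := fun j => hd j (cr i)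
  have hkk0 : kk w (yy al be ph c) (ep m) (c i) 0 = 0 := kk_base hloc.sum hall
  have hkkpos : ∀ ρ' : ℤ, 1 ≤ ρ' → 1 ≤ kk w (yy al be ph c) (ep m) (c i) ρ' := by
    intro ρ' h1
    induction ρ', h1 using Int.leInduction with
    | base =>
      have h2 := kk_succ (w := w) (y := yy al be ph c) (ε := ep m) (c i) 0
      have h3 := hre 1 le_rfl
      rw [zero_add] at h2
      omega
    | succ n hn ih =>
      have h2 := kk_succ (w := w) (y := yy al be ph c) (ε := ep m) (c i) n
      have h3 := hre (n + 1) (by omega)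
      omega
  have hom : ∀ ρ' : ℤ, 1 ≤ ρ' → om w (yy al be ph c) (og q) (c i) ρ' = 0 := by
    intro ρ' h1
    rcases eq_or_lt_of_le h1 with h2 | h2
    · subst h2
      have h3 := hloc.zr (c i) 0 hkk0
      rw [zero_add] at h3
      by_contra h4
      have h5 := h3.2.2 h4
      have h6 := hre 1 le_rfl
      omega
    · have h3 := hloc.pos (c i) (ρ' - 1) (by have := hkkpos (ρ' - 1) (by omega); omega)
      rwa [sub_add_cancel] at h3
  have hww : ∀ ρ' : ℤ, 0 ≤ ρ' → ww w (yy al be ph c) (og q) (c i) ρ' = 0 := by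
    intro ρ' h1
    induction ρ', h1 using Int.leInduction with
    | base =>
      rw [ww_base hall, zero_mul]
    | succ n hn ih =>
      rw [ww_succ, ih, hom (n + 1) (by omega), add_zero]
  have hS := hww ρ (by omega)
  rw [RS_ww] at hS
  have hK := RS_kk w m al be ph c (c i) ρ
  have hkρ := hkkpos ρ hρ
  -- the equation for the reductions
  have hr0 : ((s : K) + (q : K) * (b : K) - (f : K)) ≠ 0 := by
    have h1 : ((s + q * b : ℕ) : K) ≠ (f : ℕ) := fun h2 => by
      have := Nat.cast_injective (R := K) h2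
      omega
    intro h2
    apply h1
    push_cast
    linear_combination h2
  have hr1 : ((s : L) + (q : L) * (b : L) - (f : L)) = algebraMap K L ((s : K) + (q : K) * (b : K) - (f : K)) := by
    rw [map_sub, map_add, map_mul, map_natCast, map_natCast, map_natCast, map_natCast]
  have hπρ : π ^ ρ ≠ 0 := zpow_ne_zero _ (RS_pi hπ)
  obtain ⟨κ, hκ, hCπ⟩ := red_C hL hπ hπρ
  have hordπ : w.ord (π ^ ρ) = ρ := by rw [w.ord_zpow, hπ, mul_one]
  rw [hordπ] at hCπ
  have hder : derivative N0 * F0 - N0 * derivative F0 =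
      C (κ * ((s : K) + (q : K) * (b : K) - (f : K))) * B0 ^ (q - 1) * C0 := by
    have h1 := red_sub (red_mul hπ (red_der hN) hF) (red_mul hπ hN (red_der hF))
    have h2 := red_mul hπ (red_mul hπ (red_mul hπ hCπ (red_const (w := w) (π := π)
      ((s : K) + (q : K) * (b : K) - (f : K)))) (red_pow hπ hB (q - 1))) hC
    have e : derivative (sh π (c i) ρ (PA al * PA be ^ q - C (v i) * PA ph)) * sh π (c i) ρ (PA ph) -
        sh π (c i) ρ (PA al * PA be ^ q - C (v i) * PA ph) * derivative (sh π (c i) ρ (PA ph)) =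
        C (π ^ ρ) * C (algebraMap K L ((s : K) + (q : K) * (b : K) - (f : K))) * sh π (c i) ρ (PA be) ^ (q - 1) *
          sh π (c i) ρ (∏ i, (X - C (c i)) ^ m i) := by
      have h3 := congrArg (sh π (c i) ρ) (r1_der hq h (v i))
      rw [sh_sub, sh_mul, sh_mul, sh_mul, sh_mul, sh_pow, sh_C, hr1] at h3
      rw [sh_der, sh_der]
      linear_combination (C (π ^ ρ)) * h3
    rw [e] at h1
    have hn : kk w (yy al be ph c) (ep m) (c i) ρ + ∑ j, od w ρ (ph j - c i) + ∑ j, od w ρ (ph j - c i) =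
        ρ + 0 + ((q - 1 : ℕ) : ℤ) * (∑ j, od w ρ (be j - c i)) + ∑ i_1, (m i_1 : ℤ) * od w ρ (c i_1 - c i) := by
      have h4 : ((q - 1 : ℕ) : ℤ) = (q : ℤ) - 1 := by
        rw [Nat.cast_sub hq, Nat.cast_one]
      rw [h4, hK]
      linear_combination -hS
    rw [hn] at h1
    have h5 := red_unique h1 h2
    rw [h5, C_mul]
  -- centres in the ball
  have hcen : ∀ z : K, Ge w ρ (c i + π ^ ρ * algebraMap K L z - c i) := by
    intro z
    rw [add_sub_cancel_left]
    exact RS_ball hπ ρ z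
  have hω : ∀ z, A0.rootMultiplicity z + q * B0.rootMultiplicity z = F0.rootMultiplicity z := by
    intro z
    have h1 := hloc.pos (c i + π ^ ρ * algebraMap K L z) ρ (by rw [kk_eq (hcen z)]; omega)
    rw [RS_om] at h1
    rw [hAm z, hBm z, hFm z]
    have h2 : (((ball w al (c i + π ^ ρ * algebraMap K L z) (ρ + 1)).card +
        q * (ball w be (c i + π ^ ρ * algebraMap K L z) (ρ + 1)).card : ℕ) : ℤ) =
        (((ball w ph (c i + π ^ ρ * algebraMap K L z) (ρ + 1)).card : ℕ) : ℤ) := by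
      push_cast
      linarith
    exact_mod_cast h2
  have hE : A0.natDegree + B0.natDegree + F0.natDegree ≤ C0.natDegree := by
    have h1 := hre ρ hρ
    rw [RS_ee] at h1
    rw [hAd, hBd, hFd, hCd]
    have h2 : (((ball w al (c i) ρ).card + (ball w be (c i) ρ).card + (ball w ph (c i) ρ).card : ℕ) : ℤ) ≤
        ((∑ i_1 ∈ ball w c (c i) ρ, m i_1 : ℕ) : ℤ) := by
      push_cast at h1 ⊢
      linarith
    exact_mod_cast h2
  have hroot : ∀ z : K, (A0 * B0 * F0 * C0).IsRoot z ↔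
      (ball w (yy al be ph c) (c i + π ^ ρ * algebraMap K L z) (ρ + 1)).Nonempty := by
    intro z
    rw [RS_root hA0 hB0 hF0 hC0, hAm z, hBm z, hFm z, hCm z]
    simp only [Finset.card_pos]
    constructor
    · rintro (⟨j, hj⟩ | ⟨j, hj⟩ | ⟨j, hj⟩ | h1)
      · have h9 := mem_ball.1 hj
        exact ⟨Sum.inl j, mem_ball.2 h9⟩
      · have h9 := mem_ball.1 hj
        exact ⟨Sum.inr (Sum.inl j), mem_ball.2 h9⟩
      · have h9 := mem_ball.1 hj
        exact ⟨Sum.inr (Sum.inr (Sum.inl j)), mem_ball.2 h9⟩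
      · have h2 : (ball w c (c i + π ^ ρ * algebraMap K L z) (ρ + 1)).Nonempty := by
          rw [Finset.nonempty_iff_ne_empty]
          intro h3
          rw [h3, Finset.sum_empty] at h1
          exact lt_irrefl _ h1
        obtain ⟨j, hj⟩ := h2
        have h9 := mem_ball.1 hj
        exact ⟨cr j, mem_ball.2 h9⟩
    · rintro ⟨j, hj⟩
      have hj1 := mem_ball.1 hj
      rcases j with j | j | j | j
      · exact Or.inl ⟨j, mem_ball.2 hj1⟩
      · exact Or.inr (Or.inl ⟨j, mem_ball.2 hj1⟩)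
      · exact Or.inr (Or.inr (Or.inl ⟨j, mem_ball.2 hj1⟩))
      · refine Or.inr (Or.inr (Or.inr ?_))
        have h3 := Finset.single_le_sum (f := fun i => m i) (fun _ _ => Nat.zero_le _) (mem_ball.2 hj1 : j ∈ ball w c _ _)
        exact lt_of_lt_of_le (hm j) h3
  by_contra hcon
  have hpl : ∀ z, (A0 * B0 * F0 * C0).IsRoot z → A0.rootMultiplicity z + B0.rootMultiplicity z + F0.rootMultiplicity z ≤
      C0.rootMultiplicity z → F0.rootMultiplicity z < N0.rootMultiplicity z := by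
    intro z hz hle
    have hne := (hroot z).1 hz
    have hee : 1 ≤ ee w (yy al be ph c) (ep m) (c i + π ^ ρ * algebraMap K L z) (ρ + 1) := by
      rw [RS_ee]
      rw [hAm z, hBm z, hFm z, hCm z] at hle
      have h2 : (((ball w al (c i + π ^ ρ * algebraMap K L z) (ρ + 1)).card +
          (ball w be (c i + π ^ ρ * algebraMap K L z) (ρ + 1)).card +
          (ball w ph (c i + π ^ ρ * algebraMap K L z) (ρ + 1)).card : ℕ) : ℤ) ≤
          ((∑ i_1 ∈ ball w c (c i + π ^ ρ * algebraMap K L z) (ρ + 1), m i_1 : ℕ) : ℤ) := by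
        exact_mod_cast hle
      push_cast at h2 ⊢
      linarith
    obtain ⟨j', hj1, hj2, hj3⟩ := reach hloc.iso hne hee
    have hj1' := mem_ball.1 hj1
    obtain ⟨i', rfl⟩ : ∃ i' : ι, j' = cr i' := by
      rcases j' with j' | j' | j' | j'
      · simp [ep] at hj2
      · simp [ep] at hj2
      · simp [ep] at hj2
      · exact ⟨j', rfl⟩
    change Ge w (ρ + 1) (c i' - (c i + π ^ ρ * algebraMap K L z)) at hj1'
    change ∀ ρ' : ℤ, ρ + 1 ≤ ρ' → 1 ≤ ee w (yy al be ph c) (ep m) (c i') ρ' at hj3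
    have hρ' : Ge w ρ (c i' - c i) := by
      have h1 := (hj1'.mono (m := ρ) (by omega)).add (hcen z)
      have e : c i' - (c i + π ^ ρ * algebraMap K L z) + (c i + π ^ ρ * algebraMap K L z - c i) = c i' - c i := by ring
      rwa [e] at h1
    have hre' : ∀ ρ' : ℤ, 1 ≤ ρ' → 1 ≤ ee w (yy al be ph c) (ep m) (c i') ρ' := by
      intro ρ' h1
      by_cases h2 : ρ + 1 ≤ ρ'
      · exact hj3 ρ' h2
      · have h3 : ball w (yy al be ph c) (c i') ρ' = ball w (yy al be ph c) (c i) ρ' :=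
          ball_eq (hρ'.mono (by omega))
        have h4 := hre ρ' h1
        unfold ee at h4 ⊢
        rw [h3]
        exact h4
    rw [hFm z]
    by_cases hclose : Ge w (ρ + 1) (c i' - c i)
    · have hz' : Ge w (ρ + 1) (c i - (c i + π ^ ρ * algebraMap K L z)) := by
        have h1 := hj1'.sub hclose
        have e : c i' - (c i + π ^ ρ * algebraMap K L z) - (c i' - c i) = c i - (c i + π ^ ρ * algebraMap K L z) := by
          ring
        rwa [e] at h1
      obtain ⟨N1, hN1, hN1', hN1''⟩ := r1c hL w hπ hq hm hr h hd (hv i) hre hρ (p := c i) (z := z) (hself _) hz'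
      rw [red_unique hN hN1']
      exact hN1''
    · obtain ⟨N1, hN1, hN1', hN1''⟩ := r1c hL w hπ hq hm hr h hd (hv i') hre' hρ (p := c i) (z := z) hρ' hj1'
      have hct := cont hL w hq hm hr h hd hv hre hre' hρ hρ'
      have hzero : Red w π (kk w (yy al be ph c) (ep m) (c i) ρ + ∑ j, od w ρ (ph j - c i))
          (C (v i' - v i) * sh π (c i) ρ (PA ph)) 0 := by
        by_cases h0 : v i' - v i = 0
        · rw [h0, C_0, zero_mul]
          exact RS_red0 w π _
        · have h1 := hct.resolve_left h0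
          have h2 : w.ord (v i' - v i) ≠ kk w (yy al be ph c) (ep m) (c i) ρ := by
            intro h3
            exact hcon ⟨i', hρ', hclose, hre', fun h4 => h0 (by rw [h4, sub_self]), h3⟩
          obtain ⟨κ', _, hC'⟩ := red_C hL hπ h0
          exact red_up hπ (red_mul hπ hC' hF) (by omega)
      have h3 := red_sub hN hzero
      have e : sh π (c i) ρ (PA al * PA be ^ q - C (v i) * PA ph) - C (v i' - v i) * sh π (c i) ρ (PA ph) =
          sh π (c i) ρ (PA al * PA be ^ q - C (v i') * PA ph) := by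
        rw [← sh_C (π := π) (c i) ρ (v i' - v i), ← sh_mul, ← sh_sub]
        congr 1
        rw [C_sub]
        ring
      rw [e, sub_zero] at h3
      rw [red_unique h3 hN1']
      exact hN1''
  obtain ⟨z', hz'⟩ := RS_res hL hπ hj
  have hroot1 : (A0 * B0 * F0 * C0).IsRoot 0 :=
    (hroot 0).2 ⟨cr i, mem_ball.2 (by rw [map_zero, mul_zero, add_zero]; exact hself _)⟩
  have hroot2 : (A0 * B0 * F0 * C0).IsRoot z' := (hroot z').2 ⟨j, mem_ball.2 hz'⟩
  have hzz := rh hq hA0 hB0 hF0 hC0 hN0 (mul_ne_zero hκ hr0) hder hω hE hpl hroot1 hroot2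
  apply hj'
  rw [← hzz, map_zero, mul_zero, add_zero] at hz'
  exact hz'

end Pool.Agent.LibRF77
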