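import Pool.Agent.LibRF77.RG
import Pool.Agent.LibRF77.T0

/-!
[RF77 S] One value becomes `1`. `step`: suppose there is no configuration over `K` as claimed. For every place `w` with `0 < w.ord (t - 1)`: all values have order `0`, so all differences of special points are regular (`diff_bound`, `n = 0`). If no two special points meet (`¬ Ge w 1 (yy x - yy x')` for `x ≠ x'`), translate by `c o`
(`cfg_trans`), all points are regular, take residues (`exists_res`), `cfg_red` (the residues are all different, the residues of the values: `1` for `o` and `J`, `u i` otherwise): a configuration over `K` with injective `c`. Otherwise `cluster`. So for all `w` with `0 < w.ord (t - 1)`: `w.ord (t - 1) ≤ (2 e + 1) ∑_J w.ord (c o - c i)`.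
`hp` of `Pool.Agent.LibEX36.count` (`n = s + q b - f`, `m = 2 e + 1`, `f i = c o - c i ≠ 0` as `c` is injective): `diff_bound` with `n = min 0 (w.ord t)` (the values are `t`, `1` or constants). So `s + q b - f ≤ (2 e + 1) #J`: contradiction.
-/

open scoped Classical

namespace Pool.Agent.LibRF77

open Polynomial
open Pool.Agent.LibBH2
open Pool.Agent.LibCHd (FunF)
open Pool.Agent.LibEX36 (PA RP)
open Pool.Agent.LibPS77 (Ge)

variable {K : Type} [Field K] {L : Type} [Field L] [Algebra K L]

private theorem S_zer_ge {w : Place K L} {x : L} (h : w.Zer x) : Ge w 1 x := h.imp id fun h => by omega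

/-- all points are distinct modulo the place: a configuration over `K` -/
private theorem S_red [IsAlgClosed K] [CharZero K] (hL : FunF K 1 L) (w : Place K L) {q s b f e : ℕ} {ι : Type} [Fintype ι]
    {m : ι → ℕ} {al : Fin s → L} {be : Fin b → L} {ph : Fin f → L} {c v : ι → L}
    (h : Cfg q m al be ph c v) {o : ι} {J : Finset ι} {u : ι → K} {t : L} (hV : Vals e m v o J u t)
    (ht : 0 < w.ord (t - 1)) (hd : ∀ x x', Ge w 0 (yy al be ph c x - yy al be ph c x'))
    (hne : ∀ x x', x ≠ x' → ¬ Ge w 1 (yy al be ph c x - yy al be ph c x')) :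
    ∃ (al0 : Fin s → K) (be0 : Fin b → K) (ph0 : Fin f → K) (c0 : ι → K),
      Cfg q m al0 be0 ph0 c0 (fun i => if i = o ∨ i ∈ J then 1 else u i) ∧ Function.Injective c0 := by
  have hres : ∀ x : Ix s b f ι, ∃ z : K, w.Zer (yy al be ph c x - c o - algebraMap K L z) := fun x =>
    exists_res hL w (hd x (cr o))
  choose z hz using hres
  have hinj : ∀ x x', x ≠ x' → z x ≠ z x' := by
    intro x x' hxx hzz
    refine hne x x' hxx (S_zer_ge ?_)
    have h1 := (hz x).sub (hz x')
    rw [hzz] at h1
    have e1 : yy al be ph c x - c o - algebraMap K L (z x') - (yy al be ph c x' - c o - algebraMap K L (z x')) =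
        yy al be ph c x - yy al be ph c x' := by ring
    rwa [e1] at h1
  refine ⟨fun i => z (Sum.inl i), fun i => z (Sum.inr (Sum.inl i)), fun i => z (Sum.inr (Sum.inr (Sum.inl i))),
    fun i => z (cr i), ?_, ?_⟩
  · refine cfg_red (w := w) (cfg_trans h (c o)) (fun i => hz (Sum.inl i)) (fun i => hz (Sum.inr (Sum.inl i)))
      (fun i => hz (Sum.inr (Sum.inr (Sum.inl i)))) (fun i => hz (cr i)) (fun i => ?_) (fun i => ?_)
      (fun i j => hinj _ _ (by simp)) (fun i j => hinj _ _ (by simp))
    · by_cases hi : i = o ∨ i ∈ J
      · simp only [hi, if_true, map_one]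
        rcases hi with rfl | hi
        · rw [hV.vo]
          exact Or.inr ht
        · rw [hV.vJ i hi, sub_self]
          exact Or.inl rfl
      · simp only [hi, if_false]
        rw [not_or] at hi
        rw [hV.vu i hi.1 hi.2, sub_self]
        exact Or.inl rfl
    · by_cases hi : i = o ∨ i ∈ J
      · simp only [hi, if_true]
        exact one_ne_zero
      · simp only [hi, if_false]
        rw [not_or] at hi
        exact (hV.u0 i hi.1 hi.2).1
  · intro i j hij
    by_contra hne'
    exact hinj (cr i) (cr j) (fun h => hne' (by simpa using h)) hij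

theorem step [IsAlgClosed K] [CharZero K] (hL : FunF K 1 L) {q s b f e : ℕ} {ι : Type} [Fintype ι]
    {m : ι → ℕ} {al : Fin s → L} {be : Fin b → L} {ph : Fin f → L} {c v : ι → L} (hq : 1 ≤ q) (hm : ∀ i, 1 ≤ m i)
    (h : Cfg q m al be ph c v) (hinj : Function.Injective c) {o : ι} {J : Finset ι} {u : ι → K} {t : L}
    (hV : Vals e m v o J u t) (ht : Transcendental K t) (hr : (2 * e + 1) * J.card + f < s + q * b) :
    ∃ (al0 : Fin s → K) (be0 : Fin b → K) (ph0 : Fin f → K) (c0 : ι → K),
      Cfg q m al0 be0 ph0 c0 (fun i => if i = o ∨ i ∈ J then 1 else u i) ∧ Function.Injective c0 := by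
  by_contra hno
  have hfr : f < s + q * b := by omega
  have hcast : ((s + q * b - f : ℕ) : ℤ) = (s : ℤ) + q * b - f := by
    rw [Nat.cast_sub hfr.le]
    push_cast
    ring
  -- the orders of the values
  have hval : ∀ (w : Place K L) (i : ι), w.ord (v i) = w.ord t ∨ w.ord (v i) = 0 := by
    intro w i
    by_cases hi : i = o
    · left
      rw [hi, hV.vo]
    · right
      by_cases hiJ : i ∈ J
      · rw [hV.vJ i hiJ, Place.ord_one]
      · rw [hV.vu i hi hiJ]
        exact w.ord_const _ (hV.u0 i hi hiJ).1
  have hmin : ∀ (w : Place K L) (i : ι), min 0 (w.ord t) ≤ w.ord (v i) := by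
    intro w i
    rcases hval w i with h1 | h1
    · rw [h1]
      exact min_le_right _ _
    · rw [h1]
      exact min_le_left _ _
  have key : s + q * b - f ≤ (2 * e + 1) * J.card := by
    refine Pool.Agent.LibEX36.count hL ht J (fun i => c o - c i) (fun i hi => ?_) (fun w i hi => ?_) (fun w hw => ?_)
    · intro h0
      have h1 := hinj (sub_eq_zero.1 h0)
      rw [h1] at hV
      exact hV.oJ hi
    · have hneo : c o ≠ c i := by
        intro h0
        have h1 := hinj h0
        rw [h1] at hV
        exact hV.oJ hi
      have h1 := diff_bound hL w hq hm hfr h (min_le_left 0 (w.ord t)) (hmin w) (cr o) (cr i)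
      rcases h1 with h1 | h1
      · exact absurd h1 hneo
      · rw [hcast]
        exact h1
    · have ht0 : w.ord t = 0 := by
        have hne1 : t - 1 ≠ 0 := by
          intro h0
          rw [h0, w.ord_zero] at hw
          exact lt_irrefl _ hw
        have htne : t ≠ 0 := by
          rintro rfl
          rw [zero_sub, Place.ord_neg, Place.ord_one] at hw
          exact lt_irrefl _ hw
        have h1 := w.ord_add (t - 1) 1 hne1 one_ne_zero (by rwa [sub_add_cancel])
        rw [sub_add_cancel, Place.ord_one] at h1
        have h2 := w.ord_add t (-(t - 1)) htne (neg_ne_zero.2 hne1) (by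
          rw [show t + -(t - 1) = 1 by ring]
          exact one_ne_zero)
        rw [show t + -(t - 1) = 1 by ring, Place.ord_one, Place.ord_neg] at h2
        omega
      have hv0 : ∀ i, w.ord (v i) = 0 := by
        intro i
        rcases hval w i with h1 | h1
        · rw [h1, ht0]
        · exact h1
      have hd : ∀ x x', Ge w 0 (yy al be ph c x - yy al be ph c x') := by
        intro x x'
        rcases diff_bound hL w hq hm hfr h le_rfl (fun i => (hv0 i).ge) x x' with h1 | h1
        · exact Or.inl (sub_eq_zero.2 h1)
        · right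
          rw [← hcast] at h1
          have h2 : (0 : ℤ) < ((s + q * b - f : ℕ) : ℤ) := by
            have : 0 < s + q * b - f := by omega
            exact_mod_cast this
          exact nonneg_of_mul_nonneg_right h1 h2
      have hex : ∃ x x', x ≠ x' ∧ Ge w 1 (yy al be ph c x - yy al be ph c x') := by
        by_contra hcon
        push Not at hcon
        exact hno (S_red hL w h hV hw hd hcon)
      obtain ⟨x, x', hx, hxx⟩ := hex
      exact cluster hL w hq hm hfr h hinj hV hw hx hxx
  omega

end Pool.Agent.LibRF77
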