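import Pool.Agent.LibRF77.Defs

/-!
[RF77 W1] Height of determinantal ideals (Eagon-Northcott, Macaulay): a minimal prime of the ideal of maximal minors of an `m × n` matrix, `n ≤ m`, has height at most `m - n + 1`.
Proof. `deg_iff`: for a prime `𝔮`: all maximal minors are in `𝔮` iff there is a vector `v`, not all `v i ∈ 𝔮`, with all `∑ i, M j i * v i ∈ 𝔮` (work over the fraction field of `R ⧸ 𝔮`: a matrix with independent columns has `n` independent
rows; a kernel vector over the fraction field can be scaled into `R ⧸ 𝔮`).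
`en`: induction on `n` (for all `m, R, M, 𝔭`). `n = 1` (or `n = 0`: no minors condition, exclude by `1 ≤ n`): Krull's height theorem (`Ideal.height_le_spanRank_toENat_of_mem_minimal_primes` or similar; `m` generators).
`n ≥ 2`, some entry `x = M j0 i0 ∉ 𝔭`: the matrix `M'` (rows `≠ j0`, columns `≠ i0`) `M' j i = x * M j i - M j i0 * M j0 i`; for a prime `𝔮` not containing `x`: `M` degenerate at `𝔮` iff `M'` degenerate at `𝔮` (kernel vectors:
`v ↦ (v i)_(i ≠ i0)`; back: `v' ↦` `x v'` and `v i0 = - ∑ M j0 i * v' i`), so `𝔭` is a minimal prime for `M'`: height `≤ (m-1) - (n-1) + 1`.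
`n ≥ 2`, all entries in `𝔭`: in `R[X]` let `M_X` be `M` with `X` added to one entry. `Q = 𝔭 R[X]` (`Ideal.map C 𝔭`, prime): `M_X` is degenerate at `Q` (vector `e_i`, `i` another column), and minimal with this property: let `𝔮 < Q` be a prime at
which `M_X` is degenerate; `𝔪 = Q ⊔ (X)` is a prime (kernel of `R[X] → R ⧸ 𝔭`, `X ↦ 0`), and minimal over `𝔮 ⊔ (X)`: if `𝔮 ⊔ (X) ≤ 𝔮' ≤ 𝔪`, then `M` (`= M_X` modulo `X`) is degenerate at `𝔮' ∩ R ≤ 𝔭`, so `𝔮' ∩ R = 𝔭` by minimality, `𝔮' = 𝔪`. So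
`𝔪 / 𝔮` has height `≤ 1` in `R[X] ⧸ 𝔮` (Krull), but `𝔮 < Q < 𝔪`: contradiction. `Q` contains not all entries (`M j i + X ∉ Q`), so by the first case the height of `Q` is `≤ m - n + 1`, and `height 𝔭 ≤ height Q`
(`Ideal.map C` is strictly monotone on primes; or `Ideal.height_comap..`).
-/

open scoped Classical

namespace Pool.Agent.LibRF77

variable {R : Type} [CommRing R]

/-- the ideal of maximal minors -/
def minors {m n : ℕ} (M : Matrix (Fin m) (Fin n) R) : Ideal R :=
  Ideal.span (Set.range fun g : Fin n → Fin m => (M.submatrix g id).det)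

theorem W1_field {k : Type} [Field k] {m n : ℕ} (N : Matrix (Fin m) (Fin n) k)
    (h : ∀ g : Fin n → Fin m, (N.submatrix g id).det = 0) : ∃ w : Fin n → k, w ≠ 0 ∧ N.mulVec w = 0 := by
  by_contra hcon
  push Not at hcon
  have hinj : LinearMap.ker N.mulVecLin = ⊥ := by
    rw [LinearMap.ker_eq_bot']
    intro w hw
    by_contra hw0
    exact hcon w hw0 hw
  have hrank : N.rank = n := by
    have h1 := LinearMap.finrank_range_add_finrank_ker N.mulVecLin
    rw [hinj, finrank_bot, add_zero, Module.finrank_fintype_fun_eq_card, Fintype.card_fin] at h1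
    exact h1
  rw [Matrix.rank_eq_finrank_span_row] at hrank
  obtain ⟨κ, a, ha, hsp, hli⟩ := exists_linearIndependent' k N.row
  have htop : Submodule.span k (Set.range N.row) = ⊤ := by
    apply Submodule.eq_top_of_finrank_eq
    rw [hrank]
    simp
  have hspan : ⊤ ≤ Submodule.span k (Set.range (N.row ∘ a)) := by
    rw [hsp, htop]
  let bs := Module.Basis.mk hli hspan
  have : Finite κ := Finite.of_injective a ha
  have : Fintype κ := Fintype.ofFinite κ
  have hcard : Fintype.card κ = n := by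
    have := Module.finrank_eq_card_basis bs
    rw [Module.finrank_fintype_fun_eq_card, Fintype.card_fin] at this
    exact this.symm
  let e : Fin n ≃ κ := (Fintype.equivFinOfCardEq hcard).symm
  have hli2 : LinearIndependent k ((N.submatrix (a ∘ e) id).row) := hli.comp e e.injective
  rw [Matrix.linearIndependent_rows_iff_isUnit] at hli2
  rw [Matrix.isUnit_iff_isUnit_det, h (a ∘ e)] at hli2
  exact not_isUnit_zero hli2

theorem deg_iff {m n : ℕ} (M : Matrix (Fin m) (Fin n) R) (𝔮 : Ideal R) [𝔮.IsPrime] :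
    minors M ≤ 𝔮 ↔ ∃ v : Fin n → R, (∃ i, v i ∉ 𝔮) ∧ ∀ j, ∑ i, M j i * v i ∈ 𝔮 := by
  let D := R ⧸ 𝔮
  let k := FractionRing D
  let φ : R →+* k := (algebraMap D k).comp (Ideal.Quotient.mk 𝔮)
  have hφ : ∀ x : R, φ x = 0 ↔ x ∈ 𝔮 := by
    intro x
    rw [show φ x = algebraMap D k (Ideal.Quotient.mk 𝔮 x) from rfl,
      IsFractionRing.to_map_eq_zero_iff (R := D) (K := k), Ideal.Quotient.eq_zero_iff_mem]
  have hdet : ∀ g : Fin n → Fin m, ((M.map φ).submatrix g id).det = φ ((M.submatrix g id).det) := by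
    intro g
    rw [RingHom.map_det]
    rfl
  constructor
  · intro hm
    obtain ⟨w, hw0, hw⟩ := W1_field (M.map φ) (by
      intro g
      rw [hdet, hφ]
      exact hm (Ideal.subset_span ⟨g, rfl⟩))
    obtain ⟨b, hb⟩ := IsLocalization.exist_integer_multiples_of_finite (nonZeroDivisors D) w
    choose a ha using hb
    have hsur : ∀ i, ∃ v : R, Ideal.Quotient.mk 𝔮 v = a i := fun i => Ideal.Quotient.mk_surjective (a i)
    choose v hv using hsur
    have hb0 : algebraMap D k (b : D) ≠ 0 := by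
      rw [Ne, IsFractionRing.to_map_eq_zero_iff]
      exact nonZeroDivisors.ne_zero b.2
    have hφv : ∀ i, φ (v i) = algebraMap D k (b : D) * w i := by
      intro i
      rw [show φ (v i) = algebraMap D k (Ideal.Quotient.mk 𝔮 (v i)) from rfl, hv i, ha i, Algebra.smul_def]
    refine ⟨v, ?_, ?_⟩
    · obtain ⟨i, hi⟩ := Function.ne_iff.mp hw0
      refine ⟨i, fun hmem => ?_⟩
      rw [← hφ, hφv i] at hmem
      rcases mul_eq_zero.mp hmem with h | h
      · exact hb0 h
      · exact hi h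
    · intro j
      rw [← hφ, map_sum]
      have hj := congrFun hw j
      simp only [Matrix.mulVec, dotProduct, Pi.zero_apply, Matrix.map_apply] at hj
      calc ∑ i, φ (M j i * v i) = algebraMap D k (b : D) * ∑ i, φ (M j i) * w i := by
            rw [Finset.mul_sum]
            refine Finset.sum_congr rfl fun i _ => ?_
            rw [map_mul, hφv i]
            ring
        _ = 0 := by rw [hj, mul_zero]
  · rintro ⟨v, ⟨i0, hi0⟩, hv⟩
    rw [minors, Ideal.span_le]
    rintro _ ⟨g, rfl⟩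
    show (M.submatrix g id).det ∈ 𝔮
    rw [← hφ, ← hdet, ← Matrix.exists_mulVec_eq_zero_iff]
    refine ⟨fun i => φ (v i), ?_, ?_⟩
    · intro h0
      exact hi0 ((hφ _).1 (congrFun h0 i0))
    · funext r
      simp only [Matrix.mulVec, dotProduct, Pi.zero_apply, Matrix.submatrix_apply, Matrix.map_apply, id]
      have h1 := (hφ _).2 (hv (g r))
      rw [map_sum] at h1
      rw [← h1]
      refine Finset.sum_congr rfl fun i _ => ?_
      rw [map_mul]


/-- elimination of the row `j0` and the column `i0` -/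
def W1_elim {m n : ℕ} (M : Matrix (Fin (m + 1)) (Fin (n + 1)) R) (j0 : Fin (m + 1)) (i0 : Fin (n + 1)) :
    Matrix (Fin m) (Fin n) R :=
  fun j i => M j0 i0 * M (j0.succAbove j) (i0.succAbove i) - M (j0.succAbove j) i0 * M j0 (i0.succAbove i)

theorem W1_step {m n : ℕ} (M : Matrix (Fin (m + 1)) (Fin (n + 1)) R) (j0 : Fin (m + 1)) (i0 : Fin (n + 1))
    (𝔮 : Ideal R) [𝔮.IsPrime] (hx : M j0 i0 ∉ 𝔮) : minors M ≤ 𝔮 ↔ minors (W1_elim M j0 i0) ≤ 𝔮 := by
  rw [deg_iff, deg_iff]
  constructor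
  · rintro ⟨v, ⟨i1, hi1⟩, hv⟩
    refine ⟨fun i => v (i0.succAbove i), ?_, ?_⟩
    · by_contra hcon
      push Not at hcon
      have h0 := hv j0
      rw [Fin.sum_univ_succAbove _ i0] at h0
      have h1 : ∑ i, M j0 (i0.succAbove i) * v (i0.succAbove i) ∈ 𝔮 :=
        sum_mem fun i _ => 𝔮.mul_mem_left _ (hcon i)
      have h2 : M j0 i0 * v i0 ∈ 𝔮 := (𝔮.add_mem_iff_left h1).1 h0
      have h3 : v i0 ∈ 𝔮 := (Ideal.IsPrime.mem_or_mem inferInstance h2).resolve_left hx
      by_cases h : i1 = i0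
      · exact hi1 (h ▸ h3)
      · obtain ⟨i, rfl⟩ := Fin.exists_succAbove_eq h
        exact hi1 (hcon i)
    · intro j
      have h0 := hv j0
      have hj := hv (j0.succAbove j)
      rw [Fin.sum_univ_succAbove _ i0] at h0 hj
      have : ∑ i, W1_elim M j0 i0 j i * v (i0.succAbove i)
          = M j0 i0 * (M (j0.succAbove j) i0 * v i0 + ∑ i, M (j0.succAbove j) (i0.succAbove i) * v (i0.succAbove i))
            - M (j0.succAbove j) i0 * (M j0 i0 * v i0 + ∑ i, M j0 (i0.succAbove i) * v (i0.succAbove i)) := by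
        rw [show ∑ i, W1_elim M j0 i0 j i * v (i0.succAbove i)
          = M j0 i0 * ∑ i, M (j0.succAbove j) (i0.succAbove i) * v (i0.succAbove i)
            - M (j0.succAbove j) i0 * ∑ i, M j0 (i0.succAbove i) * v (i0.succAbove i) from by
              rw [Finset.mul_sum, Finset.mul_sum, ← Finset.sum_sub_distrib]
              refine Finset.sum_congr rfl fun i _ => ?_
              simp only [W1_elim]
              ring]
        ring
      rw [this]
      exact 𝔮.sub_mem (𝔮.mul_mem_left _ hj) (𝔮.mul_mem_left _ h0)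
  · rintro ⟨v, ⟨i1, hi1⟩, hv⟩
    refine ⟨i0.insertNth (-∑ i, M j0 (i0.succAbove i) * v i) (fun i => M j0 i0 * v i), ⟨i0.succAbove i1, ?_⟩, ?_⟩
    · rw [Fin.insertNth_apply_succAbove]
      intro h
      rcases Ideal.IsPrime.mem_or_mem inferInstance h with h | h
      · exact hx h
      · exact hi1 h
    · intro j
      rw [Fin.sum_univ_succAbove _ i0]
      simp only [Fin.insertNth_apply_same, Fin.insertNth_apply_succAbove]
      by_cases h : j = j0
      · subst h
        have : M j i0 * -∑ i, M j (i0.succAbove i) * v i + ∑ i, M j (i0.succAbove i) * (M j i0 * v i) = 0 := by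
          rw [mul_neg, Finset.mul_sum, neg_add_eq_zero]
          refine Finset.sum_congr rfl fun i _ => ?_
          ring
        rw [this]
        exact 𝔮.zero_mem
      · obtain ⟨j', rfl⟩ := Fin.exists_succAbove_eq h
        have : M (j0.succAbove j') i0 * -∑ i, M j0 (i0.succAbove i) * v i
            + ∑ i, M (j0.succAbove j') (i0.succAbove i) * (M j0 i0 * v i)
            = ∑ i, W1_elim M j0 i0 j' i * v i := by
          rw [mul_neg, Finset.mul_sum, neg_add_eq_sub, ← Finset.sum_sub_distrib]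
          refine Finset.sum_congr rfl fun i _ => ?_
          simp only [W1_elim]
          ring
        rw [this]
        exact hv j'

theorem W1_pivot {m n : ℕ} (M : Matrix (Fin (m + 1)) (Fin (n + 1)) R) (j0 : Fin (m + 1)) (i0 : Fin (n + 1))
    (𝔭 : Ideal R) (h : 𝔭 ∈ (minors M).minimalPrimes) (hx : M j0 i0 ∉ 𝔭) :
    𝔭 ∈ (minors (W1_elim M j0 i0)).minimalPrimes := by
  have hp : 𝔭.IsPrime := h.1.1
  refine ⟨⟨hp, (W1_step M j0 i0 𝔭 hx).1 h.1.2⟩, ?_⟩
  rintro 𝔮 ⟨hq, hq2⟩ hqp
  have := hq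
  exact h.2 ⟨hq, (W1_step M j0 i0 𝔮 (fun hh => hx (hqp hh))).2 hq2⟩ hqp

theorem W1_height_C (𝔭 : Ideal R) [𝔭.IsPrime] : 𝔭.height ≤ (𝔭.map (Polynomial.C : R →+* Polynomial R)).height := by
  let f : PrimeSpectrum R → PrimeSpectrum (Polynomial R) := fun P => ⟨P.asIdeal.map Polynomial.C, inferInstance⟩
  have hf : StrictMono f := by
    intro P Q hPQ
    refine lt_of_le_of_ne (Ideal.map_mono (show P.asIdeal ≤ Q.asIdeal from hPQ.le)) ?_
    intro heq
    have h1 : P.asIdeal.map (Polynomial.C : R →+* Polynomial R) = Q.asIdeal.map Polynomial.C := congrArg PrimeSpectrum.asIdeal heq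
    have h2 : Q.asIdeal ≤ P.asIdeal := by
      intro x hx
      have hx2 : (Polynomial.C x : Polynomial R) ∈ P.asIdeal.map (Polynomial.C : R →+* Polynomial R) := by
        rw [h1]
        exact Ideal.mem_map_of_mem _ hx
      rw [Ideal.mem_map_C_iff] at hx2
      simpa using hx2 0
    exact absurd (show Q ≤ P from h2) (not_le_of_gt hPQ)
  have h1 := Order.height_le_height_apply_of_strictMono f hf ⟨𝔭, inferInstance⟩
  rw [← PrimeSpectrum.height_eq_orderHeight, ← PrimeSpectrum.height_eq_orderHeight] at h1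
  exact h1


open Polynomial in
/-- one entry replaced by itself plus `X` -/
noncomputable def W1_X {m n : ℕ} (M : Matrix (Fin m) (Fin n) R) (j0 : Fin m) (i0 : Fin n) :
    Matrix (Fin m) (Fin n) R[X] :=
  fun j i => C (M j i) + if j = j0 ∧ i = i0 then X else 0

open Polynomial in
theorem W1_lift [IsNoetherianRing R] {m n : ℕ} (M : Matrix (Fin m) (Fin n) R) (j0 : Fin m) (i0 i1 : Fin n) (hi : i1 ≠ i0)
    (𝔭 : Ideal R) (h : 𝔭 ∈ (minors M).minimalPrimes) (hM : ∀ j i, M j i ∈ 𝔭) :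
    𝔭.map (C : R →+* R[X]) ∈ (minors (W1_X M j0 i0)).minimalPrimes := by
  have hp : 𝔭.IsPrime := h.1.1
  set Q : Ideal R[X] := 𝔭.map (C : R →+* R[X]) with hQ
  have hQp : Q.IsPrime := inferInstance
  have hdegQ : minors (W1_X M j0 i0) ≤ Q := by
    rw [deg_iff]
    refine ⟨Pi.single i1 1, ⟨i1, ?_⟩, ?_⟩
    · rw [Pi.single_eq_same]
      exact fun h => hQp.ne_top ((Ideal.eq_top_iff_one _).2 h)
    · intro j
      have : ∑ i, W1_X M j0 i0 j i * (Pi.single i1 (1 : R[X]) : Fin n → R[X]) i = C (M j i1) := by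
        rw [Finset.sum_eq_single i1]
        · simp [W1_X, hi]
        · intro b _ hb
          rw [Pi.single_eq_of_ne hb, mul_zero]
        · intro hh
          exact absurd (Finset.mem_univ _) hh
      rw [this]
      exact Ideal.mem_map_of_mem _ (hM j i1)
  refine ⟨⟨hQp, hdegQ⟩, ?_⟩
  rintro 𝔮 ⟨hq, hq2⟩ hqQ
  by_contra hcon
  have hlt : 𝔮 < Q := lt_of_le_not_ge hqQ hcon
  -- the prime `𝔪`
  set 𝔪 : Ideal R[X] := 𝔭.comap (Polynomial.evalRingHom (0 : R)) with hm
  have hmp : 𝔪.IsPrime := Ideal.comap_isPrime _ _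
  have hXm : (X : R[X]) ∈ 𝔪 := by
    rw [hm, Ideal.mem_comap]
    simp
  have hQm : Q ≤ 𝔪 := by
    rw [hQ, Ideal.map_le_iff_le_comap]
    intro x hx
    rw [Ideal.mem_comap, hm, Ideal.mem_comap]
    simpa using hx
  have hXQ : (X : R[X]) ∉ Q := by
    rw [hQ, Ideal.mem_map_C_iff]
    intro hh
    have := hh 1
    rw [coeff_X_one] at this
    exact hp.ne_top ((Ideal.eq_top_iff_one _).2 this)
  have hQlt : Q < 𝔪 := lt_of_le_of_ne hQm (fun he => hXQ (he ▸ hXm))
  have hmin : 𝔪 ∈ (𝔮 ⊔ Ideal.span {(X : R[X])}).minimalPrimes := by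
    refine ⟨⟨hmp, sup_le (hqQ.trans hQm) ?_⟩, ?_⟩
    · rw [Ideal.span_le, Set.singleton_subset_iff]
      exact hXm
    · rintro 𝔮' ⟨hq', hq'2⟩ hq'm
      have hXq : (X : R[X]) ∈ 𝔮' := hq'2 (Ideal.mem_sup_right (Ideal.subset_span rfl))
      have h1 : minors (W1_X M j0 i0) ≤ 𝔮' := hq2.trans (le_sup_left.trans hq'2)
      have h2 : minors M ≤ 𝔮'.comap (C : R →+* R[X]) := by
        have hcp : (𝔮'.comap (C : R →+* R[X])).IsPrime := Ideal.comap_isPrime _ _
        rw [minors, Ideal.span_le]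
        rintro _ ⟨g, rfl⟩
        show (M.submatrix g id).det ∈ 𝔮'.comap (C : R →+* R[X])
        rw [Ideal.mem_comap, RingHom.map_det, ← Ideal.Quotient.eq_zero_iff_mem, RingHom.map_det]
        have h3 : ((W1_X M j0 i0).submatrix g id).det ∈ 𝔮' := h1 (Ideal.subset_span ⟨g, rfl⟩)
        rw [← Ideal.Quotient.eq_zero_iff_mem, RingHom.map_det] at h3
        rw [← h3]
        congr 1
        ext a b
        simp only [RingHom.mapMatrix_apply, Matrix.map_apply, Matrix.submatrix_apply, id, W1_X]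
        rw [map_add]
        by_cases hab : g a = j0 ∧ b = i0
        · rw [if_pos hab, Ideal.Quotient.eq_zero_iff_mem.2 hXq, add_zero]
        · rw [if_neg hab, map_zero, add_zero]
      have h4 : 𝔮'.comap (C : R →+* R[X]) ≤ 𝔭 := by
        intro x hx
        have := hq'm (Ideal.mem_comap.1 hx)
        rw [hm, Ideal.mem_comap] at this
        simpa using this
      have h5 : 𝔭 ≤ 𝔮'.comap (C : R →+* R[X]) := h.2 ⟨Ideal.comap_isPrime _ _, h2⟩ h4
      intro f hf
      rw [hm, Ideal.mem_comap] at hf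
      have hf0 : f.coeff 0 ∈ 𝔭 := by
        rw [coe_evalRingHom, ← coeff_zero_eq_eval_zero] at hf
        exact hf
      rw [← Polynomial.X_mul_divX_add f]
      exact 𝔮'.add_mem (𝔮'.mul_mem_right _ hXq) (h5 hf0)
  have hht := Ideal.map_height_le_one_of_mem_minimalPrimes hmin
  have hq' := hq
  have hker : RingHom.ker (Ideal.Quotient.mk 𝔮) = 𝔮 := Ideal.mk_ker
  have hP1 : (Q.map (Ideal.Quotient.mk 𝔮)).IsPrime :=
    Ideal.map_isPrime_of_surjective Ideal.Quotient.mk_surjective (by rw [hker]; exact hqQ)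
  have hP2 : (𝔪.map (Ideal.Quotient.mk 𝔮)).IsPrime :=
    Ideal.map_isPrime_of_surjective Ideal.Quotient.mk_surjective (by rw [hker]; exact hqQ.trans hQm)
  have hb : (⊥ : Ideal (R[X] ⧸ 𝔮)).IsPrime := Ideal.isPrime_bot
  have hlt1 : (⊥ : Ideal (R[X] ⧸ 𝔮)) < Q.map (Ideal.Quotient.mk 𝔮) := by
    rw [bot_lt_iff_ne_bot]
    intro he
    rw [Ideal.map_eq_bot_iff_le_ker, hker] at he
    exact hcon he
  have hlt2 : Q.map (Ideal.Quotient.mk 𝔮) < 𝔪.map (Ideal.Quotient.mk 𝔮) := by
    refine lt_of_le_of_ne (Ideal.map_mono hQm) ?_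
    intro he
    have h6 := congrArg (Ideal.comap (Ideal.Quotient.mk 𝔮)) he
    rw [Ideal.comap_map_mk hqQ, Ideal.comap_map_mk (hqQ.trans hQm)] at h6
    exact hQlt.ne h6
  have e1 := Ideal.height_add_one_le_of_lt_of_isPrime hlt1
  have e2 := Ideal.height_add_one_le_of_lt_of_isPrime hlt2
  have e3 : ((1 : ℕ∞) + 1) ≤ 1 := by
    calc (1 : ℕ∞) + 1 ≤ (Q.map (Ideal.Quotient.mk 𝔮)).height + 1 := by
          gcongr
          exact le_trans (by simp) e1
      _ ≤ (𝔪.map (Ideal.Quotient.mk 𝔮)).height := e2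
      _ ≤ 1 := hht
  exact absurd e3 (by decide)

theorem W1_one [IsNoetherianRing R] {m : ℕ} (M : Matrix (Fin m) (Fin 1) R) (𝔭 : Ideal R)
    (h : 𝔭 ∈ (minors M).minimalPrimes) : 𝔭.height ≤ m := by
  have hs : minors M = Ideal.span (Set.range fun j : Fin m => M j 0) := by
    rw [minors]
    congr 1
    ext x
    constructor
    · rintro ⟨g, rfl⟩
      exact ⟨g 0, by simp⟩
    · rintro ⟨j, rfl⟩
      exact ⟨fun _ => j, by simp⟩
  rw [hs] at h
  refine (Ideal.height_le_card_of_mem_minimalPrimes_span (Set.finite_range _) h).trans ?_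
  have : (Set.range fun j : Fin m => M j 0).ncard ≤ m := by
    rw [← Set.image_univ]
    refine (Set.ncard_image_le Set.finite_univ).trans ?_
    simp [Set.ncard_univ]
  exact_mod_cast this

theorem W1_main : ∀ (n : ℕ) (R : Type) [CommRing R] [IsNoetherianRing R] (m : ℕ) (_ : n + 1 ≤ m)
    (M : Matrix (Fin m) (Fin (n + 1)) R) (𝔭 : Ideal R) (_ : 𝔭 ∈ (minors M).minimalPrimes),
    𝔭.height + ((n + 1 : ℕ) : ℕ∞) ≤ (m : ℕ∞) + 1 := by
  intro n
  induction n with
  | zero =>
    intro R _ _ m hm M 𝔭 h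
    have := W1_one M 𝔭 h
    push_cast
    gcongr
  | succ n ih =>
    -- the case of a pivot
    have key : ∀ (R : Type) [CommRing R] [IsNoetherianRing R] (m : ℕ) (_ : n + 2 ≤ m)
        (M : Matrix (Fin m) (Fin (n + 2)) R) (𝔭 : Ideal R) (_ : 𝔭 ∈ (minors M).minimalPrimes)
        (j0 : Fin m) (i0 : Fin (n + 2)) (_ : M j0 i0 ∉ 𝔭), 𝔭.height + ((n + 2 : ℕ) : ℕ∞) ≤ (m : ℕ∞) + 1 := by
      intro R _ _ m hm M 𝔭 h j0 i0 hx
      obtain ⟨m, rfl⟩ : ∃ m', m = m' + 1 := ⟨m - 1, by omega⟩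
      have h1 := ih R m (by omega) (W1_elim M j0 i0) 𝔭 (W1_pivot M j0 i0 𝔭 h hx)
      calc 𝔭.height + ((n + 2 : ℕ) : ℕ∞) = (𝔭.height + ((n + 1 : ℕ) : ℕ∞)) + 1 := by
            push_cast
            ring
        _ ≤ ((m : ℕ∞) + 1) + 1 := by gcongr
        _ = ((m + 1 : ℕ) : ℕ∞) + 1 := by push_cast; ring
    intro R _ _ m hm M 𝔭 h
    by_cases hM : ∀ j i, M j i ∈ 𝔭
    · have hp : 𝔭.IsPrime := h.1.1
      have j0 : Fin m := ⟨0, by omega⟩
      have h1 := W1_lift M j0 0 1 (by simp) 𝔭 h hM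
      have h2 := key (Polynomial R) m hm (W1_X M j0 0) _ h1 j0 0 (by
        intro hmem
        rw [Ideal.mem_map_C_iff] at hmem
        have := hmem 1
        simp only [W1_X, and_self, if_true, Polynomial.coeff_add, Polynomial.coeff_X_one] at this
        rw [Polynomial.coeff_C_of_ne_zero (by norm_num), zero_add] at this
        exact hp.ne_top ((Ideal.eq_top_iff_one _).2 this))
      refine le_trans ?_ h2
      gcongr
      exact W1_height_C 𝔭
    · push Not at hM
      obtain ⟨j0, i0, hx⟩ := hM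
      exact key R m hm M 𝔭 h j0 i0 hx

theorem en [IsNoetherianRing R] {m n : ℕ} (hn : 1 ≤ n) (hmn : n ≤ m) (M : Matrix (Fin m) (Fin n) R) (𝔭 : Ideal R)
    (h : 𝔭 ∈ (minors M).minimalPrimes) : 𝔭.height + n ≤ m + 1 := by
  obtain ⟨n, rfl⟩ : ∃ n', n = n' + 1 := ⟨n - 1, by omega⟩
  exact W1_main n R m hmn M 𝔭 h

end Pool.Agent.LibRF77
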