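import Pool.Agent.LibRF77.W1

/-!
[RF77 W2a] Existence of `A, B, F` with `A B ^ q - F = O(X ^ (s + b + f))`, `B(0) = 1`, `B ≠ 1`.
For `b = 1` take `B = 1 - X`: the conditions are the `s` linear equations `coeff j (A B ^ q) = 0`, `f < j < s + 1 + f`, for the `s + 1` coefficients of `A`; `F` = truncation of `A B ^ q`.
For `b ≥ 2`: `R = MvPolynomial (Fin b) K`, `B = 1 + ∑ X_i X ^ (i + 1)`, `M j i = coeff (f + 1 + j - i) (B ^ q)` (`0` if `i > f + 1 + j`), `j : Fin (s + b - 1)`, `i : Fin (s + 1)`; `n = s + 1 ≤ m = s + b - 1`. At the origin (`B = 1`) `M` is degenerate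
(vector `v = e_0`: `coeff j 1 = 0` for `j > 0`). So (`deg_iff`) `minors M ≤ 𝔪0 = vanishingIdeal {0}`, take a minimal prime `𝔭 ≤ 𝔪0` (`Ideal.exists_minimalPrimes_le`): `en`: height `≤ b - 1 < b` = height of `𝔪0` (`Pool.Agent.LibPS77.height_pt`),
so `𝔭 ≠ 𝔪0`, some `X_i ∉ 𝔭`; Nullstellensatz (Jacobson ring, `𝔭` = intersection of maximal ideals = points): a point `x : Fin b → K` in the zero locus of `𝔭` with `x i ≠ 0`; `deg_iff` at this point (`minors M ≤ 𝔭 ≤ vanishingIdeal {x}`): a vector `v` over `K` (evaluate at `x`).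
-/

open scoped Classical

namespace Pool.Agent.LibRF77

open Polynomial

private theorem W2a_coeff {R : Type} [CommRing R] {s : ℕ} (a : Fin (s + 1) → R) (Q : R[X]) (d : ℕ) :
    ((∑ i : Fin (s + 1), C (a i) * X ^ (i : ℕ)) * Q).coeff d =
      ∑ i : Fin (s + 1), (if (i : ℕ) ≤ d then Q.coeff (d - i) else 0) * a i := by
  rw [Finset.sum_mul, finsetSum_coeff]
  apply Finset.sum_congr rfl
  intro i _
  rw [mul_assoc, coeff_C_mul, coeff_X_pow_mul', mul_comm]

private theorem W2a_finish {K : Type} [Field K] {q s b f : ℕ} (hb : 1 ≤ b) (B : K[X]) (h0 : B.coeff 0 = 1) (h1 : B ≠ 1)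
    (hd : B.natDegree ≤ b) (a : Fin (s + 1) → K) (ha : a ≠ 0)
    (h : ∀ j : Fin (s + b - 1), ∑ i : Fin (s + 1),
      (if (i : ℕ) ≤ f + 1 + j then (B ^ q).coeff (f + 1 + j - i) else 0) * a i = 0) :
    ∃ A B F : K[X], B.coeff 0 = 1 ∧ B ≠ 1 ∧ B.natDegree ≤ b ∧ A ≠ 0 ∧ A.natDegree ≤ s ∧ F.natDegree ≤ f ∧
      X ^ (s + b + f) ∣ A * B ^ q - F := by
  set A : K[X] := ∑ i : Fin (s + 1), C (a i) * X ^ (i : ℕ) with hA
  have hcoef : ∀ i : Fin (s + 1), A.coeff i = a i := by
    intro i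
    rw [hA, finsetSum_coeff, Finset.sum_eq_single i]
    · rw [coeff_C_mul, coeff_X_pow, if_pos rfl, mul_one]
    · intro l _ hl
      rw [coeff_C_mul, coeff_X_pow, if_neg (fun h => hl (Fin.ext h.symm)), mul_zero]
    · intro h
      exact absurd (Finset.mem_univ i) h
  set P : K[X] := A * B ^ q with hP
  set F : K[X] := ∑ k ∈ Finset.range (f + 1), monomial k (P.coeff k) with hF
  have hFc : ∀ d, F.coeff d = if d ≤ f then P.coeff d else 0 := by
    intro d
    rw [hF, finsetSum_coeff]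
    by_cases hdf : d ≤ f
    · rw [if_pos hdf, Finset.sum_eq_single d]
      · rw [coeff_monomial, if_pos rfl]
      · intro l _ hl
        rw [coeff_monomial, if_neg hl]
      · intro h
        exact absurd (Finset.mem_range.2 (by omega)) h
    · rw [if_neg hdf]
      apply Finset.sum_eq_zero
      intro l hl
      rw [Finset.mem_range] at hl
      rw [coeff_monomial, if_neg (by omega)]
  refine ⟨A, B, F, h0, h1, hd, ?_, ?_, ?_, ?_⟩
  · intro hA0
    apply ha
    funext i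
    rw [← hcoef i, hA0, coeff_zero]
    rfl
  · rw [natDegree_le_iff_coeff_eq_zero]
    intro d hd
    rw [hA, finsetSum_coeff]
    apply Finset.sum_eq_zero
    intro l _
    rw [coeff_C_mul, coeff_X_pow, if_neg (by omega), mul_zero]
  · rw [natDegree_le_iff_coeff_eq_zero]
    intro d hd
    rw [hFc, if_neg (by omega)]
  · rw [X_pow_dvd_iff]
    intro d hd
    rw [coeff_sub, hFc]
    by_cases hdf : d ≤ f
    · rw [if_pos hdf, sub_self]
    · rw [if_neg hdf, sub_zero, hA, W2a_coeff]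
      have h2 := h ⟨d - f - 1, by omega⟩
      have e : f + 1 + (d - f - 1) = d := by omega
      simp only [e] at h2
      exact h2

private theorem W2a_lin {K : Type} [Field K] {s : ℕ} (M : Matrix (Fin s) (Fin (s + 1)) K) :
    ∃ a : Fin (s + 1) → K, a ≠ 0 ∧ ∀ j, ∑ i, M j i * a i = 0 := by
  have h1 : LinearMap.ker M.mulVecLin ≠ ⊥ := by
    apply LinearMap.ker_ne_bot_of_finrank_lt
    simp
  obtain ⟨a, ha, ha0⟩ := (Submodule.ne_bot_iff _).mp h1
  refine ⟨a, ha0, fun j => ?_⟩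
  have h2 := congrFun ha j
  exact h2

section two

variable {K : Type} [Field K] {b : ℕ}

/-- the generic polynomial with constant term `1` -/
private noncomputable def W2a_B (K : Type) [Field K] (b : ℕ) : (MvPolynomial (Fin b) K)[X] :=
  1 + ∑ i : Fin b, C (MvPolynomial.X i) * X ^ ((i : ℕ) + 1)

private noncomputable def W2a_Bx (x : Fin b → K) : K[X] :=
  1 + ∑ i : Fin b, C (x i) * X ^ ((i : ℕ) + 1)

private theorem W2a_map (x : Fin b → K) :
    (W2a_B K b).map (MvPolynomial.aeval x : MvPolynomial (Fin b) K →ₐ[K] K).toRingHom = W2a_Bx x := by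
  unfold W2a_B W2a_Bx
  simp only [Polynomial.map_add, Polynomial.map_one, Polynomial.map_sum, Polynomial.map_mul,
    Polynomial.map_C, Polynomial.map_pow, Polynomial.map_X]
  congr 1
  apply Finset.sum_congr rfl
  intro i _
  congr 2
  exact MvPolynomial.aeval_X x i

private theorem W2a_pow (x : Fin b → K) (q d : ℕ) :
    MvPolynomial.aeval x ((W2a_B K b ^ q).coeff d) = (W2a_Bx x ^ q).coeff d := by
  rw [← W2a_map x, ← Polynomial.map_pow, coeff_map]
  rfl

private theorem W2a_Bx_zero : W2a_Bx (0 : Fin b → K) = 1 := by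
  unfold W2a_Bx
  rw [add_eq_left]
  apply Finset.sum_eq_zero
  intro i _
  rw [Pi.zero_apply, C_0, zero_mul]

private theorem W2a_Bx_coeff_zero (x : Fin b → K) : (W2a_Bx x).coeff 0 = 1 := by
  unfold W2a_Bx
  rw [coeff_add, coeff_one_zero, finsetSum_coeff, add_eq_left]
  apply Finset.sum_eq_zero
  intro i _
  rw [coeff_C_mul, coeff_X_pow, if_neg (by omega), mul_zero]

private theorem W2a_Bx_coeff (x : Fin b → K) (i : Fin b) : (W2a_Bx x).coeff ((i : ℕ) + 1) = x i := by
  unfold W2a_Bx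
  rw [coeff_add, coeff_one, if_neg (by omega), zero_add, finsetSum_coeff, Finset.sum_eq_single i]
  · rw [coeff_C_mul, coeff_X_pow, if_pos rfl, mul_one]
  · intro l _ hl
    rw [coeff_C_mul, coeff_X_pow, if_neg (fun h => hl (Fin.ext (by omega))), mul_zero]
  · intro h
    exact absurd (Finset.mem_univ i) h

private theorem W2a_Bx_deg (x : Fin b → K) : (W2a_Bx x).natDegree ≤ b := by
  unfold W2a_Bx
  apply natDegree_add_le_of_degree_le
  · rw [natDegree_one]
    exact Nat.zero_le _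
  · apply natDegree_sum_le_of_forall_le
    intro i _
    exact (natDegree_C_mul_X_pow_le _ _).trans (by omega)

private theorem W2a_Bx_ne {x : Fin b → K} (hx : x ≠ 0) : W2a_Bx x ≠ 1 := by
  intro h
  apply hx
  funext i
  rw [← W2a_Bx_coeff x i, h, coeff_one, if_neg (by omega)]
  rfl

private theorem W2a_point [IsAlgClosed K] {q s f : ℕ} (hb : 2 ≤ b) :
    ∃ x : Fin b → K, x ≠ 0 ∧ ∃ a : Fin (s + 1) → K, a ≠ 0 ∧ ∀ j : Fin (s + b - 1), ∑ i : Fin (s + 1),
      (if (i : ℕ) ≤ f + 1 + j then (W2a_Bx x ^ q).coeff (f + 1 + j - i) else 0) * a i = 0 := by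
  let M : Matrix (Fin (s + b - 1)) (Fin (s + 1)) (MvPolynomial (Fin b) K) := fun j i =>
    if (i : ℕ) ≤ f + 1 + j then (W2a_B K b ^ q).coeff (f + 1 + j - i) else 0
  have hM : ∀ (x : Fin b → K) (j : Fin (s + b - 1)) (i : Fin (s + 1)), MvPolynomial.aeval x (M j i) =
      if (i : ℕ) ≤ f + 1 + j then (W2a_Bx x ^ q).coeff (f + 1 + j - i) else 0 := by
    intro x j i
    show MvPolynomial.aeval x (if (i : ℕ) ≤ f + 1 + j then (W2a_B K b ^ q).coeff (f + 1 + j - i) else 0) = _
    by_cases h : (i : ℕ) ≤ f + 1 + j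
    · rw [if_pos h, if_pos h, W2a_pow]
    · rw [if_neg h, if_neg h, map_zero]
  have h0 : minors M ≤ MvPolynomial.vanishingIdeal K {(0 : Fin b → K)} := by
    rw [deg_iff]
    refine ⟨Pi.single 0 1, ⟨0, ?_⟩, fun j => ?_⟩
    · rw [Pi.single_eq_same, MvPolynomial.mem_vanishingIdeal_singleton_iff, map_one]
      exact one_ne_zero
    · rw [Finset.sum_eq_single (0 : Fin (s + 1))]
      · rw [Pi.single_eq_same, mul_one, MvPolynomial.mem_vanishingIdeal_singleton_iff, hM, W2a_Bx_zero,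
          one_pow, coeff_one]
        have e : ¬ (f + 1 + (j : ℕ) - ((0 : Fin (s + 1)) : ℕ) = 0) := by
          simp
        rw [if_neg e]
        simp
      · intro i _ hi
        rw [Pi.single_eq_of_ne hi, mul_zero]
      · intro h
        exact absurd (Finset.mem_univ _) h
  obtain ⟨𝔭, hp, hp0⟩ := Ideal.exists_minimalPrimes_le h0
  haveI : 𝔭.IsPrime := hp.1.1
  have h1 := en (by omega : 1 ≤ s + 1) (by omega : s + 1 ≤ s + b - 1) M 𝔭 hp
  have h2 : ∃ x ∈ MvPolynomial.zeroLocus K 𝔭, x ≠ (0 : Fin b → K) := by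
    by_contra hcon
    push Not at hcon
    have h3 : MvPolynomial.vanishingIdeal K {(0 : Fin b → K)} ≤
        MvPolynomial.vanishingIdeal K (MvPolynomial.zeroLocus K 𝔭) :=
      MvPolynomial.vanishingIdeal_anti_mono fun x hx => hcon x hx
    rw [MvPolynomial.vanishingIdeal_zeroLocus_eq_radical, Ideal.IsPrime.radical inferInstance] at h3
    have h4 : 𝔭 = MvPolynomial.vanishingIdeal K {(0 : Fin b → K)} := le_antisymm hp0 h3
    rw [h4, Pool.Agent.LibPS77.height_pt] at h1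
    have h5 : b + (s + 1) ≤ (s + b - 1) + 1 := by exact_mod_cast h1
    omega
  obtain ⟨x, hx, hx0⟩ := h2
  have h3 : minors M ≤ MvPolynomial.vanishingIdeal K {x} := by
    refine hp.1.2.trans fun p hp' => ?_
    rw [MvPolynomial.mem_vanishingIdeal_singleton_iff]
    exact hx p hp'
  rw [deg_iff] at h3
  obtain ⟨v, ⟨i0, hi0⟩, hv⟩ := h3
  refine ⟨x, hx0, fun i => MvPolynomial.aeval x (v i), ?_, fun j => ?_⟩
  · intro h
    apply hi0
    rw [MvPolynomial.mem_vanishingIdeal_singleton_iff]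
    exact congrFun h i0
  · have h4 := hv j
    rw [MvPolynomial.mem_vanishingIdeal_singleton_iff, map_sum] at h4
    refine Eq.trans ?_ h4
    apply Finset.sum_congr rfl
    intro i _
    rw [map_mul, hM]

end two

theorem base_poly (K : Type) [Field K] [IsAlgClosed K] [CharZero K] {q s b f : ℕ} (hb : 1 ≤ b) (hq : f < q) :
    ∃ A B F : K[X], B.coeff 0 = 1 ∧ B ≠ 1 ∧ B.natDegree ≤ b ∧ A ≠ 0 ∧ A.natDegree ≤ s ∧ F.natDegree ≤ f ∧
      X ^ (s + b + f) ∣ A * B ^ q - F := by
  rcases Nat.lt_or_ge b 2 with h | h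
  · obtain rfl : b = 1 := by omega
    obtain ⟨a, ha, hM⟩ := W2a_lin (s := s) (fun (j : Fin s) (i : Fin (s + 1)) =>
      if (i : ℕ) ≤ f + 1 + j then (W2a_Bx (fun _ : Fin 1 => (1 : K)) ^ q).coeff (f + 1 + j - i) else 0)
    refine W2a_finish hb (W2a_Bx (fun _ : Fin 1 => (1 : K))) (W2a_Bx_coeff_zero _)
      (W2a_Bx_ne ?_) (W2a_Bx_deg _) a ha (fun j => hM ⟨j, by omega⟩)
    intro h1
    exact one_ne_zero (congrFun h1 0)
  · obtain ⟨x, hx, a, ha, hM⟩ := W2a_point (K := K) (q := q) (s := s) (f := f) h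
    exact W2a_finish hb (W2a_Bx x) (W2a_Bx_coeff_zero x) (W2a_Bx_ne hx) (W2a_Bx_deg x) a ha hM

end Pool.Agent.LibRF77
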